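import Pool.Agent.SPB.Defs

/-!
# [SPB-Base] parallel segments

`row e s c` = `{s + t e : 0 ≤ t ≤ c}`.
`base_row`: heights `ω i (s i + t e) = t² + ε i t` with distinct `ε i ∈ [0, 1)` (e.g. `ε i = (index of i) / (card κ + 1)`, `Fintype.equivFin`). For `a`, `r = dotR a e`: `arg` = minimisers of `t² + ε t - r t` over the
integers `0 ≤ t ≤ c`: at most two, and if there are two they are `t, t + 1` with `r = 2 t + 1 + ε i`. This holds for at most one `i` (`ε i - ε j ∈ 2 ℤ` forces `i = j`). `UniFam`: all sets have at most one element except possibly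
one, `{p, p + e}`. Given `c`, all coefficients at singletons are integers; for the exceptional `i`: `c p + c (p + e)` is an integer and so are the two coordinates of `c p • p + c (p + e) • (p + e)`, hence of `c (p + e) • e`;
`e` is primitive.
`row_latConv`: `x ∈ conv` is `s + τ e`, `0 ≤ τ ≤ c` real; `e` is primitive so `τ` is an integer.
`row_edgeNorm`: `x ≠ y` in the row, `dot n x = dot n y` gives `dot n e = 0`, `e = (u.2, -u.1)`, so `det n u = 0` and `n = ± u` as both are primitive.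
-/

open Finset

set_option autoImplicit false

namespace Pool.Agent.SPB

/-- a lattice segment -/
def row (e s : V) (c : ℕ) : Finset V := (range (c + 1)).image (fun t : ℕ => s + (t : ℤ) • e)

/-! ### integers -/

private theorem bI_int (n : ℤ) : IsInt n := ⟨n, rfl⟩

private theorem bI_add {x y : ℝ} (hx : IsInt x) (hy : IsInt y) : IsInt (x + y) := by
  obtain ⟨n, rfl⟩ := hx
  obtain ⟨m, rfl⟩ := hy
  exact ⟨n + m, by push_cast; ring⟩

private theorem bI_sub {x y : ℝ} (hx : IsInt x) (hy : IsInt y) : IsInt (x - y) := by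
  obtain ⟨n, rfl⟩ := hx
  obtain ⟨m, rfl⟩ := hy
  exact ⟨n - m, by push_cast; ring⟩

private theorem bI_mul {x y : ℝ} (hx : IsInt x) (hy : IsInt y) : IsInt (x * y) := by
  obtain ⟨n, rfl⟩ := hx
  obtain ⟨m, rfl⟩ := hy
  exact ⟨n * m, by push_cast; ring⟩

private theorem bI_sum {ι : Type} (s : Finset ι) {f : ι → ℝ} (h : ∀ i ∈ s, IsInt (f i)) :
    IsInt (∑ i ∈ s, f i) := by
  classical
  induction s using Finset.induction_on with
  | empty => exact ⟨0, by simp⟩
  | insert a s ha ih =>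
    rw [Finset.sum_insert ha]
    exact bI_add (h a (Finset.mem_insert_self a s)) (ih fun i hi => h i (Finset.mem_insert_of_mem hi))

private theorem mem_row {e s : V} {c : ℕ} {x : V} :
    x ∈ row e s c ↔ ∃ t : ℕ, t ≤ c ∧ x = s + (t : ℤ) • e := by
  unfold row
  rw [mem_image]
  constructor
  · rintro ⟨t, ht, rfl⟩
    exact ⟨t, by rw [mem_range] at ht; omega, rfl⟩
  · rintro ⟨t, ht, rfl⟩
    exact ⟨t, by rw [mem_range]; omega, rfl⟩

/-- the height -/
private noncomputable def hgt (a b : ℤ) (s : V) (ε : ℝ) (x : V) : ℝ :=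
  ((a * (x.1 - s.1) + b * (x.2 - s.2) : ℤ) : ℝ) ^ 2 +
    ε * ((a * (x.1 - s.1) + b * (x.2 - s.2) : ℤ) : ℝ)

private theorem hgt_eq {a b : ℤ} {e : V} (hab : a * e.1 + b * e.2 = 1) (s : V) (ε : ℝ) (t : ℕ) :
    hgt a b s ε (s + (t : ℤ) • e) = (t : ℝ) ^ 2 + ε * t := by
  unfold hgt
  have h1 : a * ((s + (t : ℤ) • e).1 - s.1) + b * ((s + (t : ℤ) • e).2 - s.2) = t := by
    simp only [Prod.fst_add, Prod.snd_add, Prod.smul_fst, Prod.smul_snd, smul_eq_mul]
    linear_combination (t : ℤ) * hab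
  rw [h1]
  push_cast
  ring

private theorem dotR_row (A : ℝ × ℝ) (e s : V) (t : ℕ) :
    dotR A (s + (t : ℤ) • e) = dotR A s + t * dotR A e := by
  unfold dotR
  simp only [Prod.fst_add, Prod.snd_add, Prod.smul_fst, Prod.smul_snd, smul_eq_mul]
  push_cast
  ring

private theorem arg_key {a b : ℤ} {e : V} (hab : a * e.1 + b * e.2 = 1) (s : V) (ε : ℝ) (c : ℕ)
    (A : ℝ × ℝ) {t t' : ℕ} (htt : t < t') (ht' : t' ≤ c)
    (hp : s + (t : ℤ) • e ∈ arg (row e s c) (hgt a b s ε) A)
    (hq : s + (t' : ℤ) • e ∈ arg (row e s c) (hgt a b s ε) A) :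
    t' = t + 1 ∧ dotR A e = 2 * t + 1 + ε := by
  unfold arg at hp hq
  rw [mem_filter] at hp hq
  have h1 := hp.2 _ hq.1
  have h2 := hq.2 _ hp.1
  have h3 := hp.2 (s + ((t + 1 : ℕ) : ℤ) • e) (mem_row.2 ⟨t + 1, by omega, rfl⟩)
  rw [hgt_eq hab, hgt_eq hab, dotR_row, dotR_row] at h1 h2 h3
  push_cast at h3
  have hlt : (t : ℝ) < t' := by exact_mod_cast htt
  have h4 : ((t' : ℝ) - t) * (t + t' + ε - dotR A e) = 0 := by linarith
  have h5 : (t : ℝ) + t' + ε - dotR A e = 0 := by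
    rcases mul_eq_zero.1 h4 with h | h
    · linarith
    · exact h
  have h6 : t' = t + 1 := by
    by_contra hne
    have h7 : t + 2 ≤ t' := by omega
    have h8 : (t : ℝ) + 2 ≤ t' := by exact_mod_cast h7
    nlinarith
  refine ⟨h6, ?_⟩
  rw [h6] at h5
  push_cast at h5
  linarith

/-- the argument set has at most two elements -/
private theorem arg_two {a b : ℤ} {e : V} (hab : a * e.1 + b * e.2 = 1) (s : V) (ε : ℝ) (c : ℕ)
    (A : ℝ × ℝ) {x y : V} (hx : x ∈ arg (row e s c) (hgt a b s ε) A)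
    (hy : y ∈ arg (row e s c) (hgt a b s ε) A) (hxy : x ≠ y) :
    ∃ t : ℕ, dotR A e = 2 * t + 1 + ε ∧
      arg (row e s c) (hgt a b s ε) A = {s + (t : ℤ) • e, s + (t : ℤ) • e + e} := by
  have hmem : ∀ z, z ∈ arg (row e s c) (hgt a b s ε) A → ∃ t : ℕ, t ≤ c ∧ z = s + (t : ℤ) • e := by
    intro z hz
    unfold arg at hz
    exact mem_row.1 (mem_filter.1 hz).1
  have main : ∀ t t' : ℕ, t < t' → t' ≤ c → s + (t : ℤ) • e ∈ arg (row e s c) (hgt a b s ε) A →
      s + (t' : ℤ) • e ∈ arg (row e s c) (hgt a b s ε) A → ∃ t : ℕ, dotR A e = 2 * t + 1 + ε ∧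
      arg (row e s c) (hgt a b s ε) A = {s + (t : ℤ) • e, s + (t : ℤ) • e + e} := by
    intro t t' htt ht' h1 h2
    obtain ⟨h3, h4⟩ := arg_key hab s ε c A htt ht' h1 h2
    refine ⟨t, h4, ?_⟩
    have h5 : s + (t : ℤ) • e + e = s + ((t + 1 : ℕ) : ℤ) • e := by
      push_cast
      rw [add_smul, one_smul, add_assoc]
    ext z
    rw [mem_insert, mem_singleton]
    constructor
    · intro hz
      obtain ⟨t'', ht'', rfl⟩ := hmem z hz
      rcases lt_trichotomy t'' t with h6 | h6 | h6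
      · exfalso
        have h7 := arg_key hab s ε c A h6 (by omega) hz h1
        have h8 : (t'' : ℝ) < t := by exact_mod_cast h6
        linarith [h7.2]
      · left; rw [h6]
      · right
        have h7 := arg_key hab s ε c A h6 ht'' h1 hz
        rw [h5, h7.1]
    · rintro (rfl | rfl)
      · exact h1
      · rw [h5, ← h3]
        exact h2
  obtain ⟨t, ht, rfl⟩ := hmem x hx
  obtain ⟨t', ht', rfl⟩ := hmem y hy
  rcases lt_trichotomy t t' with h | h | h
  · exact main t t' h ht' hx hy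
  · exact absurd (by rw [h]) hxy
  · exact main t' t h ht hy hx

theorem base_row {κ : Type} [Fintype κ] {e : V} (he : Prim e) (s : κ → V) (c : κ → ℕ) :
    ∃ ω, Good (fun i => row e (s i) (c i)) ω := by
  classical
  obtain ⟨a, b, hab⟩ := he
  let ε : κ → ℝ := fun i => ((Fintype.equivFin κ i : ℕ) : ℝ) / (Fintype.card κ + 1)
  have hN : (0 : ℝ) < (Fintype.card κ : ℝ) + 1 := by positivity
  have hε0 : ∀ i, 0 ≤ ε i := fun i => by positivity
  have hε1 : ∀ i, ε i < 1 := fun i => by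
    simp only [ε]
    rw [div_lt_one hN]
    have := (Fintype.equivFin κ i).2
    have h2 : ((Fintype.equivFin κ i : ℕ) : ℝ) < Fintype.card κ := by exact_mod_cast this
    linarith
  have hεinj : ∀ i j, ε i = ε j → i = j := fun i j h => by
    simp only [ε] at h
    rw [div_left_inj' hN.ne'] at h
    have h2 : ((Fintype.equivFin κ i : ℕ)) = (Fintype.equivFin κ j : ℕ) := by exact_mod_cast h
    exact (Fintype.equivFin κ).injective (Fin.ext h2)
  refine ⟨fun i => hgt a b (s i) (ε i), fun A => ?_⟩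
  intro d h0 h1 h2
  beta_reduce at h0 h1 h2 ⊢
  -- a set without two elements
  have hone : ∀ i, (¬ ∃ x ∈ arg (row e (s i) (c i)) (hgt a b (s i) (ε i)) A,
      ∃ y ∈ arg (row e (s i) (c i)) (hgt a b (s i) (ε i)) A, x ≠ y) →
      ∀ x ∈ arg (row e (s i) (c i)) (hgt a b (s i) (ε i)) A, IsInt (d i x) := by
    intro i hi x hx
    have h3 : arg (row e (s i) (c i)) (hgt a b (s i) (ε i)) A = {x} := by
      ext y
      rw [mem_singleton]
      constructor
      · intro hy
        by_contra hne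
        exact hi ⟨y, hy, x, hx, hne⟩
      · rintro rfl
        exact hx
    have h4 := h0 i
    rw [h3, sum_singleton] at h4
    exact h4
  intro i
  by_cases hi : ∃ x ∈ arg (row e (s i) (c i)) (hgt a b (s i) (ε i)) A,
      ∃ y ∈ arg (row e (s i) (c i)) (hgt a b (s i) (ε i)) A, x ≠ y
  swap
  · exact hone i hi
  obtain ⟨x, hx, y, hy, hxy⟩ := hi
  obtain ⟨t, ht, hC⟩ := arg_two hab (s i) (ε i) (c i) A hx hy hxy
  have hothers : ∀ j, j ≠ i → ∀ x ∈ arg (row e (s j) (c j)) (hgt a b (s j) (ε j)) A,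
      IsInt (d j x) := by
    intro j hj
    apply hone j
    rintro ⟨x', hx', y', hy', hxy'⟩
    obtain ⟨t', ht', -⟩ := arg_two hab (s j) (ε j) (c j) A hx' hy' hxy'
    have h3 : (2 * ((t : ℤ) - t') : ℝ) = ε j - ε i := by push_cast; linarith
    have h4 : ((t : ℤ) - t') = 0 := by
      have h5 : (((2 * ((t : ℤ) - t') : ℤ)) : ℝ) < 1 := by
        push_cast at h3 ⊢
        rw [h3]
        linarith [hε1 j, hε0 i]
      have h6 : (-1 : ℝ) < (((2 * ((t : ℤ) - t') : ℤ)) : ℝ) := by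
        push_cast at h3 ⊢
        rw [h3]
        linarith [hε1 i, hε0 j]
      have h7 : 2 * ((t : ℤ) - t') < 1 := by exact_mod_cast h5
      have h8 : -1 < 2 * ((t : ℤ) - t') := by exact_mod_cast h6
      omega
    have h9 : ((t : ℝ) - t') = 0 := by exact_mod_cast h4
    apply hj
    apply hεinj
    push_cast at h3
    linarith
  have he0 : (s i + (t : ℤ) • e) ≠ s i + (t : ℤ) • e + e := by
    intro h
    have h3 : e = 0 := by
      have := congrArg (fun z => z - (s i + (t : ℤ) • e)) h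
      simpa using this.symm
    rw [h3] at hab
    simp at hab
  obtain ⟨p, hp⟩ : ∃ p, p = s i + (t : ℤ) • e := ⟨_, rfl⟩
  rw [← hp] at hC he0
  -- the sum at `i`
  have hsum : ∀ g : V → ℝ, (∀ x, IsInt (g x)) →
      IsInt (∑ j, ∑ x ∈ arg (row e (s j) (c j)) (hgt a b (s j) (ε j)) A, d j x * g x) →
      IsInt (d i p * g p + d i (p + e) * g (p + e)) := by
    intro g hg hs
    rw [← Finset.add_sum_erase _ _ (mem_univ i)] at hs
    have h3 : IsInt (∑ j ∈ univ.erase i,
        ∑ x ∈ arg (row e (s j) (c j)) (hgt a b (s j) (ε j)) A, d j x * g x) := by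
      refine bI_sum _ fun j hj => bI_sum _ fun x hx => ?_
      exact bI_mul (hothers j (mem_erase.1 hj).1 x hx) (hg x)
    have h4 := bI_sub hs h3
    rw [add_sub_cancel_right, hC, sum_pair he0] at h4
    exact h4
  have k0 := h0 i
  rw [hC, sum_pair he0] at k0
  have k1 := hsum (fun x => (x.1 : ℝ)) (fun x => bI_int _) h1
  have k2 := hsum (fun x => (x.2 : ℝ)) (fun x => bI_int _) h2
  simp only [Prod.fst_add, Prod.snd_add] at k1 k2
  push_cast at k1 k2
  have m1 : IsInt (d i (p + e) * e.1) := by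
    have := bI_sub k1 (bI_mul k0 (bI_int p.1))
    have h3 : d i p * (p.1 : ℝ) + d i (p + e) * (p.1 + e.1) - (d i p + d i (p + e)) * (p.1 : ℝ) =
        d i (p + e) * e.1 := by ring
    rwa [h3] at this
  have m2 : IsInt (d i (p + e) * e.2) := by
    have := bI_sub k2 (bI_mul k0 (bI_int p.2))
    have h3 : d i p * (p.2 : ℝ) + d i (p + e) * (p.2 + e.2) - (d i p + d i (p + e)) * (p.2 : ℝ) =
        d i (p + e) * e.2 := by ring
    rwa [h3] at this
  have m3 : IsInt (d i (p + e)) := by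
    have := bI_add (bI_mul (bI_int a) m1) (bI_mul (bI_int b) m2)
    have h3 : (a : ℝ) * (d i (p + e) * e.1) + b * (d i (p + e) * e.2) = d i (p + e) := by
      have h4 : (a : ℝ) * e.1 + b * e.2 = 1 := by exact_mod_cast hab
      linear_combination (d i (p + e)) * h4
    rwa [h3] at this
  have m4 : IsInt (d i p) := by
    have := bI_sub k0 m3
    rwa [add_sub_cancel_right] at this
  intro x hx
  rw [hC, mem_insert, mem_singleton] at hx
  rcases hx with rfl | rfl
  · exact m4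
  · exact m3

theorem row_latConv {e : V} (he : Prim e) (s : V) (c : ℕ) : LatConv (row e s c) := by
  obtain ⟨a, b, hab⟩ := he
  intro x hx
  have hsub : toR '' (row e s c : Set V) ⊆ {y : ℝ × ℝ | ∃ τ : ℝ, 0 ≤ τ ∧ τ ≤ c ∧
      y = (s.1 + τ * e.1, s.2 + τ * e.2)} := by
    rintro _ ⟨z, hz, rfl⟩
    obtain ⟨t, ht, rfl⟩ := mem_row.1 (mem_coe.1 hz)
    refine ⟨t, by positivity, by exact_mod_cast ht, ?_⟩
    unfold toR
    simp only [Prod.fst_add, Prod.snd_add, Prod.smul_fst, Prod.smul_snd, smul_eq_mul]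
    push_cast
    rfl
  have hconv : Convex ℝ {y : ℝ × ℝ | ∃ τ : ℝ, 0 ≤ τ ∧ τ ≤ c ∧
      y = (s.1 + τ * e.1, s.2 + τ * e.2)} := by
    rintro _ ⟨τ, h1, h2, rfl⟩ _ ⟨σ, h3, h4, rfl⟩ u v hu hv huv
    refine ⟨u * τ + v * σ, by positivity, ?_, ?_⟩
    · calc u * τ + v * σ ≤ u * c + v * c :=
            add_le_add (mul_le_mul_of_nonneg_left h2 hu) (mul_le_mul_of_nonneg_left h4 hv)
        _ = c := by rw [← add_mul, huv, one_mul]
    · ext
      · simp only [Prod.fst_add, Prod.smul_fst, smul_eq_mul]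
        linear_combination (s.1 : ℝ) * huv
      · simp only [Prod.snd_add, Prod.smul_snd, smul_eq_mul]
        linear_combination (s.2 : ℝ) * huv
  obtain ⟨τ, h1, h2, h3⟩ := convexHull_min hsub hconv hx
  unfold toR at h3
  have h4 : (x.1 : ℝ) = s.1 + τ * e.1 := congrArg Prod.fst h3
  have h5 : (x.2 : ℝ) = s.2 + τ * e.2 := congrArg Prod.snd h3
  obtain ⟨n, hn⟩ : ∃ n : ℤ, n = a * (x.1 - s.1) + b * (x.2 - s.2) := ⟨_, rfl⟩
  have hab' : (a : ℝ) * e.1 + b * e.2 = 1 := by exact_mod_cast hab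
  have h6 : τ = n := by
    rw [hn]
    push_cast
    rw [h4, h5]
    linear_combination -τ * hab'
  have h7 : 0 ≤ n := by
    rw [h6] at h1
    exact_mod_cast h1
  have h8 : n ≤ c := by
    rw [h6] at h2
    exact_mod_cast h2
  obtain ⟨t, rfl⟩ := Int.eq_ofNat_of_zero_le h7
  rw [h6] at h4 h5
  refine mem_row.2 ⟨t, by exact_mod_cast h8, Prod.ext ?_ ?_⟩
  · simp only [Prod.fst_add, Prod.smul_fst, smul_eq_mul]
    exact_mod_cast h4
  · simp only [Prod.snd_add, Prod.smul_snd, smul_eq_mul]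
    exact_mod_cast h5

theorem row_edgeNorm {F : Finset V} {u : V} (hp : Prim u) (hu : u ∈ F) (hu' : -u ∈ F) (s : V) (c : ℕ) :
    EdgeNorm F (row (u.2, -u.1) s c) := by
  intro x hx y hy hxy n hn hd _
  obtain ⟨t, ht, rfl⟩ := mem_row.1 hx
  obtain ⟨t', ht', rfl⟩ := mem_row.1 hy
  have htt : (t : ℤ) - t' ≠ 0 := by
    intro h
    apply hxy
    rw [sub_eq_zero.1 h]
  have h1 : n.1 * u.2 = n.2 * u.1 := by
    unfold dot at hd
    simp only [Prod.fst_add, Prod.snd_add, Prod.smul_fst, Prod.smul_snd, smul_eq_mul] at hd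
    have h2 : ((t : ℤ) - t') * (n.1 * u.2 - n.2 * u.1) = 0 := by linear_combination hd
    rcases mul_eq_zero.1 h2 with h | h
    · exact absurd h htt
    · linarith
  obtain ⟨a, b, hab⟩ := hp
  obtain ⟨a', b', hab'⟩ := hn
  obtain ⟨k, hk⟩ : ∃ k, k = a * n.1 + b * n.2 := ⟨_, rfl⟩
  have h3 : n.1 = k * u.1 := by
    rw [hk]
    linear_combination (-n.1) * hab + b * h1
  have h4 : n.2 = k * u.2 := by
    rw [hk]
    linear_combination (-n.2) * hab - a * h1
  have h5 : k * (a' * u.1 + b' * u.2) = 1 := by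
    rw [h3, h4] at hab'
    linear_combination hab'
  rcases Int.eq_one_or_neg_one_of_mul_eq_one h5 with h6 | h6
  · have : n = u := Prod.ext (by rw [h3, h6]; ring) (by rw [h4, h6]; ring)
    rw [this]
    exact hu
  · have : n = -u := Prod.ext (by rw [h3, h6]; simp) (by rw [h4, h6]; simp)
    rw [this]
    exact hu'

theorem point_edgeNorm {F : Finset V} (e s : V) : EdgeNorm F (row e s 0) := by
  intro x hx y hy hxy
  obtain ⟨t, ht, rfl⟩ := mem_row.1 hx
  obtain ⟨t', ht', rfl⟩ := mem_row.1 hy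
  have h1 : t = t' := by omega
  exact absurd (by rw [h1]) hxy

end Pool.Agent.SPB
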