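import Pool.Agent.SPB.Fan

/-!
# [SPB-Chain] the rays on one side of a pair of opposite rays

`v k` = `k`-th clockwise successor of `u` (iterate the predecessor map `p : F → F`, `Adj F (p x) x`, `SmoothFan.pred`;
it is injective by `Adj.unique`). Claim: if `v j ≠ -u` for `1 ≤ j ≤ k` then `0 < det (v k) u` (`k ≥ 1`). `k = 1`: `det (v 1) u = 1`. Step:
`-u ∈ F` is different from `v (k+1)` and `v k`, so it is not in the closed cone `(v (k+1), v k)`; as `det (-u) (v k) = det (v k) u > 0`
we get `det (v (k+1)) (-u) < 0`. Since an injective self map of a finite set is a permutation, `v K = u` for some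
`K ≥ 1`, so `-u` must occur; let `m + 1` be its first index.
Coverage: let `n ∈ F`, `0 < det n u`. `det (v 0) n < 0 < det (v (m+1)) n`; let `k` be the last index with `det (v k) n < 0`
(`k ≤ m`): `0 ≤ det (v (k+1)) n` and `0 < det n (v k)`, so `n` is in the closed cone `(v (k+1), v k)`, `n = v (k+1)` or `v k`,
and `n ≠ ± u`.
`parallel`: `n ∈ F` with `det n u = 0` is `± u` (both are primitive).
-/

open Finset

set_option autoImplicit false

namespace Pool.Agent.SPB

variable {F : Finset V}

theorem chain (hF : SmoothFan F) {u : V} (hu : u ∈ F) (hu' : -u ∈ F) :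
    ∃ (m : ℕ) (v : ℕ → V), v 0 = u ∧ v (m + 1) = -u ∧ (∀ k ≤ m, Adj F (v (k + 1)) (v k)) ∧
      (∀ k, 1 ≤ k → k ≤ m → 0 < det (v k) u) ∧
      (∀ n ∈ F, 0 < det n u → ∃ k, 1 ≤ k ∧ k ≤ m ∧ n = v k) := by
  classical
  obtain ⟨p, hp⟩ : ∃ p : V → V, ∀ x ∈ F, Adj F (p x) x := by
    refine ⟨fun x => if h : x ∈ F then Classical.choose (hF.pred h) else x, fun x hx => ?_⟩
    simp only [hx, dite_true]
    exact Classical.choose_spec (hF.pred hx)
  have hpF : ∀ x ∈ F, p x ∈ F := fun x hx => (hp x hx).1
  have hpinj : ∀ x ∈ F, ∀ y ∈ F, p x = p y → x = y := by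
    intro x hx y hy h
    have h1 := hp x hx
    have h2 := hp y hy
    rw [← h] at h2
    exact h1.unique h2
  obtain ⟨v, hv0, hvs⟩ : ∃ v : ℕ → V, v 0 = u ∧ ∀ k, v (k + 1) = p (v k) :=
    ⟨fun k => p^[k] u, rfl, fun k => Function.iterate_succ_apply' p k u⟩
  have hvF : ∀ k, v k ∈ F := by
    intro k
    induction k with
    | zero => rw [hv0]; exact hu
    | succ k ih => rw [hvs]; exact hpF _ ih
  have hadj : ∀ k, Adj F (v (k + 1)) (v k) := fun k => by rw [hvs]; exact hp _ (hvF k)
  have hshift : ∀ d i, v (i + d) = v i → v d = v 0 := by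
    intro d i
    induction i with
    | zero => intro h; rw [Nat.zero_add] at h; exact h
    | succ i ih =>
      intro h
      apply ih
      apply hpinj _ (hvF _) _ (hvF _)
      rw [← hvs, ← hvs, ← h]
      congr 1
      omega
  obtain ⟨K, hK, hvK⟩ : ∃ K, 1 ≤ K ∧ v K = u := by
    have hnotinj : ¬ Function.Injective (fun k : ℕ => (⟨v k, hvF k⟩ : F)) :=
      not_injective_infinite_finite _
    rw [Function.Injective] at hnotinj
    push Not at hnotinj
    obtain ⟨i, j, hij, hne⟩ := hnotinj
    have hij' : v i = v j := congrArg Subtype.val hij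
    rcases lt_or_gt_of_ne hne with h | h
    · refine ⟨j - i, by omega, ?_⟩
      rw [← hv0]
      apply hshift (j - i) i
      rw [hij']
      congr 1
      omega
    · refine ⟨i - j, by omega, ?_⟩
      rw [← hv0]
      apply hshift (i - j) j
      rw [← hij']
      congr 1
      omega
  have hpos : ∀ k, (∀ j, 1 ≤ j → j ≤ k + 1 → v j ≠ -u) → 0 < det (v (k + 1)) u := by
    intro k
    induction k with
    | zero =>
      intro _
      have := (hadj 0).2.2.1
      rw [hv0] at this
      omega
    | succ k ih =>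
      intro h
      have h1 := ih (fun j hj1 hj2 => h j hj1 (by omega))
      have h2 := (hadj (k + 1)).2.2.2 (-u) hu'
      by_contra hcon
      push Not at hcon
      have h3 : 0 ≤ det (v (k + 1 + 1)) (-u) := by
        have : det (v (k + 1 + 1)) (-u) = - det (v (k + 1 + 1)) u := by
          simp only [det, Prod.fst_neg, Prod.snd_neg]; ring
        omega
      have h4 : 0 ≤ det (-u) (v (k + 1)) := by
        have : det (-u) (v (k + 1)) = det (v (k + 1)) u := by
          simp only [det, Prod.fst_neg, Prod.snd_neg]; ring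
        omega
      rcases h2 h3 h4 with h5 | h5
      · exact h (k + 1 + 1) (by omega) (by omega) h5.symm
      · exact h (k + 1) (by omega) (by omega) h5.symm
  have hdu : det u u = 0 := by simp only [det]; ring
  have hex : ∃ m, v (m + 1) = -u := by
    by_contra hcon
    push Not at hcon
    have := hpos (K - 1) (fun j hj1 _ => by
      have := hcon (j - 1)
      rwa [Nat.sub_add_cancel hj1] at this)
    rw [Nat.sub_add_cancel hK, hvK, hdu] at this
    exact lt_irrefl _ this
  have hm : v (Nat.find hex + 1) = -u := Nat.find_spec hex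
  have hmin : ∀ k, k < Nat.find hex → v (k + 1) ≠ -u := fun k hk => Nat.find_min hex hk
  generalize Nat.find hex = m at hm hmin
  refine ⟨m, v, hv0, hm, fun k _ => hadj k, ?_, ?_⟩
  · intro k hk1 hkm
    have := hpos (k - 1) (fun j hj1 hj2 => by
      have := hmin (j - 1) (by omega)
      rwa [Nat.sub_add_cancel hj1] at this)
    rwa [Nat.sub_add_cancel hk1] at this
  · intro n hn hdet
    have h0 : det (v 0) n < 0 := by
      rw [hv0]
      have : det u n = - det n u := by simp only [det]; ring
      omega
    have hl : 0 ≤ det (v (m + 1)) n := by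
      rw [hm]
      have : det (-u) n = det n u := by simp only [det, Prod.fst_neg, Prod.snd_neg]; ring
      omega
    have hex2 : ∃ j, 0 ≤ det (v j) n := ⟨m + 1, hl⟩
    have hj := Nat.find_spec hex2
    have hjmin : ∀ k, k < Nat.find hex2 → ¬ 0 ≤ det (v k) n := fun k hk => Nat.find_min hex2 hk
    have hjle : Nat.find hex2 ≤ m + 1 := Nat.find_min' hex2 hl
    generalize Nat.find hex2 = j at hj hjmin hjle
    have hj0 : j ≠ 0 := by
      rintro rfl
      omega
    obtain ⟨i, rfl⟩ : ∃ i, j = i + 1 := ⟨j - 1, by omega⟩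
    have hi : det (v i) n < 0 := not_le.mp (hjmin i (Nat.lt_succ_self i))
    have hi2 : 0 ≤ det n (v i) := by
      have : det n (v i) = - det (v i) n := by simp only [det]; ring
      omega
    have hne : n ≠ v i := by
      rintro h
      rw [← h] at hi
      have : det n n = 0 := by simp only [det]; ring
      omega
    have hn1 : n = v (i + 1) := ((hadj i).2.2.2 n hn hj hi2).resolve_right hne
    refine ⟨i + 1, by omega, ?_, hn1⟩
    by_contra hcon
    have : i + 1 = m + 1 := by omega
    rw [this, hm] at hn1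
    rw [hn1] at hdet
    have : det (-u) u = 0 := by simp only [det, Prod.fst_neg, Prod.snd_neg]; ring
    omega

theorem parallel (hF : SmoothFan F) {u n : V} (hu : u ∈ F) (hn : n ∈ F) (h : det n u = 0) :
    n = u ∨ n = -u := by
  obtain ⟨w, hw⟩ := hF.next u hu
  obtain ⟨z, hz⟩ := hF.next n hn
  have h1 := hw.2.2.1
  have h2 := hz.2.2.1
  obtain ⟨u1, u2⟩ := u
  obtain ⟨n1, n2⟩ := n
  obtain ⟨w1, w2⟩ := w
  obtain ⟨z1, z2⟩ := z
  simp only [det] at h h1 h2
  -- n = a u, u = b n
  have ha1 : n1 = (n1 * w2 - n2 * w1) * u1 := by linear_combination (-n1) * h1 + (-w1) * h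
  have ha2 : n2 = (n1 * w2 - n2 * w1) * u2 := by linear_combination (-n2) * h1 + (-w2) * h
  have hb1 : u1 = (u1 * z2 - u2 * z1) * n1 := by linear_combination (-u1) * h2 + z1 * h
  have hb2 : u2 = (u1 * z2 - u2 * z1) * n2 := by linear_combination (-u2) * h2 + z2 * h
  generalize n1 * w2 - n2 * w1 = a at ha1 ha2
  generalize u1 * z2 - u2 * z1 = b at hb1 hb2
  have hab : a * b = 1 := by
    have e1 : (a * b - 1) * n1 = 0 := by linear_combination (-1 : ℤ) * ha1 - a * hb1 
    have e2 : (a * b - 1) * n2 = 0 := by linear_combination (-1 : ℤ) * ha2 - a * hb2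
    rcases mul_eq_zero.mp e1 with h3 | h3
    · linarith
    · rcases mul_eq_zero.mp e2 with h4 | h4
      · linarith
      · exfalso
        rw [h3, h4] at h2
        norm_num at h2
  rcases Int.eq_one_or_neg_one_of_mul_eq_one hab with ha | ha
  · left
    rw [ha] at ha1 ha2
    simp only [one_mul] at ha1 ha2
    rw [ha1, ha2]
  · right
    rw [ha] at ha1 ha2
    simp only [Prod.neg_mk, Prod.mk.injEq]
    constructor
    · linarith
    · linarith

end Pool.Agent.SPB
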