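import Pool.Agent.SPB.CoreB
import Pool.Agent.SPB.Chain

/-!
# [SPB-Core] the core lemma

Take the chain from `u` to `-u` (`chain` for `u`: sign `σ = 1`), and the chain `v'` from `-u` to `u` given by `chain` for `-u`; the left chain is
`w k = v' (m' + 1 - k)` (sign `-1`). `d` is only controlled on `F`: replace it by `fun n => if n ∈ F then d n else 0` before applying `coreT` (`0 ≤ d n` for all `n`).
The two chains exhaust `F` (`chain`, `parallel`). `H1` for three consecutive rays gives the hypotheses `Kink` (with `sum_adj`: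
`a + b = det a b • j`, so `t = det a b`; on the right chain consecutive rays counterclockwise are `v (k+2), v (k+1), v k`, on the left chain `w k, w (k+1), w (k+2)`).
At `u`: neighbours `v 1` (before) and `w 1` (after), `v 1 + w 1 = t • u`, `t = det (v 1) (w 1)`.
* `d u ≥ 1`: `coreT`; `h2v`, `h2w` from `H2` for the pairs `(v 1, u)`, `(u, w 1)` and `H1` (kinks are `≥ 0`, so not both zero gives `≥ 1`). `m ≥ 1`: `det (v 1) (v 0) = 1` excludes `v 1 = -u`.
* `d u = 0`, `d (-u) ≥ 1`: the same for `-u` in place of `u`: chains reversed, `k ↦ m + 1 - k`, `k ↦ m' + 1 - k`, signs `-1`, `1`. From `z` for `-u` pass to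
  `z'' = z - e`, `e = (u.2, -u.1)`, `dot n e = det n u`.
* `d u = d (-u) = 0`: `L2` for `f k = d (v k) - 1` (and `w`) gives `d = 0` on `F`, contradiction to `hne`.
-/

open Finset

set_option autoImplicit false

namespace Pool.Agent.SPB

variable {F : Finset V}

private theorem cC_chains (hF : SmoothFan F) {u : V} (hu : u ∈ F) (hu' : -u ∈ F) :
    ∃ (m m' : ℕ) (v w : ℕ → V), Ch 1 u m v ∧ Ch (-1) u m' w ∧ 1 ≤ m ∧ 1 ≤ m' ∧
      (∀ k ≤ m, Adj F (v (k + 1)) (v k)) ∧ (∀ k ≤ m', Adj F (w k) (w (k + 1))) ∧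
      (∀ n ∈ F, n = u ∨ n = -u ∨ (∃ k, 1 ≤ k ∧ k ≤ m ∧ n = v k) ∨ (∃ k, 1 ≤ k ∧ k ≤ m' ∧ n = w k)) := by
  have hdd : det (-u) u = 0 := by simp only [det, Prod.fst_neg, Prod.snd_neg]; ring
  have hdd' : det u (-u) = 0 := by simp only [det, Prod.fst_neg, Prod.snd_neg]; ring
  obtain ⟨m, v, hv0, hvl, hva, hvp, hvc⟩ := chain hF hu hu'
  obtain ⟨m', v', hv0', hvl', hva', hvp', hvc'⟩ := chain hF hu' (by rwa [neg_neg])
  rw [neg_neg] at hvl'
  have hw : ∀ k ≤ m', Adj F (v' (m' + 1 - k)) (v' (m' + 1 - (k + 1))) := by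
    intro k hk
    have h := hva' (m' - k) (by omega)
    have e1 : m' + 1 - k = m' - k + 1 := by omega
    have e2 : m' + 1 - (k + 1) = m' - k := by omega
    rw [e1, e2]
    exact h
  refine ⟨m, m', v, fun k => v' (m' + 1 - k), ?_, ?_, ?_, ?_, hva, hw, ?_⟩
  · refine ⟨Or.inl rfl, hv0, hvl, fun k hk => ?_, fun k hk hk' => ?_⟩
    · rw [one_mul]
      exact (hva k hk).2.2.1
    · rw [one_mul]
      exact hvp k hk hk'
  · refine ⟨Or.inr rfl, ?_, ?_, fun k hk => ?_, fun k hk hk' => ?_⟩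
    · exact hvl'
    · rw [Nat.sub_self]
      exact hv0'
    · have h := (hw k hk).2.2.1
      simp only [det] at h ⊢
      linarith
    · have h := hvp' (m' + 1 - k) (by omega) (by omega)
      simp only [det, Prod.fst_neg, Prod.snd_neg] at h ⊢
      linarith
  · by_contra hcon
    have hm : m = 0 := by omega
    subst hm
    have h := (hva 0 le_rfl).2.2.1
    rw [hv0] at h
    rw [hvl] at h
    rw [hdd] at h
    omega
  · by_contra hcon
    have hm : m' = 0 := by omega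
    subst hm
    have h := (hva' 0 le_rfl).2.2.1
    rw [hv0'] at h
    rw [hvl'] at h
    rw [hdd'] at h
    omega
  · intro n hn
    rcases lt_trichotomy (det n u) 0 with h | h | h
    · have h1 : 0 < det n (-u) := by
        simp only [det, Prod.fst_neg, Prod.snd_neg] at h ⊢
        linarith
      obtain ⟨k, hk1, hk2, hk3⟩ := hvc' n hn h1
      right; right; right
      refine ⟨m' + 1 - k, by omega, by omega, ?_⟩
      change n = v' (m' + 1 - (m' + 1 - k))
      rw [hk3]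
      congr 1
      omega
    · rcases parallel hF hu hn h with h1 | h1
      · exact Or.inl h1
      · exact Or.inr (Or.inl h1)
    · right; right; left
      exact hvc n hn h

private theorem cC_kinkv {m : ℕ} {v : ℕ → V} {d : V → ℤ} (hva : ∀ k ≤ m, Adj F (v (k + 1)) (v k))
    (H1 : ∀ a j b : V, Adj F a j → Adj F j b → 1 ≤ d j →
      1 ≤ det a b ∧ 0 ≤ (d a - 1) + (d b - 1) - det a b * (d j - 1)) : Kink 1 m v d := by
  intro k hk h
  have h1 := (H1 _ _ _ (hva (k + 1) hk) (hva k (by omega)) h).2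
  have e : k + 1 + 1 = k + 2 := rfl
  rw [e] at h1
  rw [one_mul]
  linarith

private theorem cC_kinkw {m' : ℕ} {w : ℕ → V} {d : V → ℤ} (hwa : ∀ k ≤ m', Adj F (w k) (w (k + 1)))
    (H1 : ∀ a j b : V, Adj F a j → Adj F j b → 1 ≤ d j →
      1 ≤ det a b ∧ 0 ≤ (d a - 1) + (d b - 1) - det a b * (d j - 1)) : Kink (-1) m' w d := by
  intro k hk h
  have h1 := (H1 _ _ _ (hwa k (by omega)) (hwa (k + 1) hk) h).2
  have e : k + 1 + 1 = k + 2 := rfl
  rw [e] at h1
  have e2 : det (w k) (w (k + 2)) = -1 * det (w (k + 2)) (w k) := by unfold det; ring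
  rw [e2] at h1
  linarith

private theorem cC_one (hF : SmoothFan F) {u : V} (hu : u ∈ F) (hu' : -u ∈ F) {d : V → ℤ} (hd : ∀ n, 0 ≤ d n)
    (hdu : 1 ≤ d u)
    (H1 : ∀ a j b : V, Adj F a j → Adj F j b → 1 ≤ d j →
      1 ≤ det a b ∧ 0 ≤ (d a - 1) + (d b - 1) - det a b * (d j - 1))
    (H2 : ∀ a j r b : V, Adj F a j → Adj F j r → Adj F r b → 1 ≤ d j → 1 ≤ d r →
      ¬ ((d a - 1) + (d r - 1) - det a r * (d j - 1) = 0 ∧ (d j - 1) + (d b - 1) - det j b * (d r - 1) = 0)) :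
    ∃ z : V, ∀ n ∈ F, dot n z ≤ d n ∧ dot n z + det n u ≤ d n := by
  obtain ⟨m, m', v, w, cv, cw, hm, hm', hva, hwa, hcov⟩ := cC_chains hF hu hu'
  have hv0 := cv.zero
  have hw0 := cw.zero
  have a1 : Adj F (v 1) u := by
    have := hva 0 (Nat.zero_le _)
    rwa [hv0] at this
  have a2 : Adj F u (w 1) := by
    have := hwa 0 (Nat.zero_le _)
    rwa [hw0] at this
  have a3 : Adj F (v 2) (v 1) := hva 1 hm
  have a4 : Adj F (w 1) (w 2) := hwa 1 hm'
  obtain ⟨b1, b2⟩ := H1 _ _ _ a1 a2 hdu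
  obtain ⟨z, f1, f2, f3, f4⟩ := coreT cv cw hm hm' (sum_adj a1 a2) b1 hd hdu (cC_kinkv hva H1)
    (cC_kinkw hwa H1) b2
    (by
      intro hθ h1
      have h2 := H2 _ _ _ _ a3 a1 a2 h1 hdu
      have h3 := (H1 _ _ _ a3 a1 h1).2
      rw [hv0, one_mul]
      have h4 : (d (v 2) - 1) + (d u - 1) - det (v 2) u * (d (v 1) - 1) ≠ 0 := fun h5 => h2 ⟨h5, hθ⟩
      omega)
    (by
      intro hθ h1
      have h2 := H2 _ _ _ _ a1 a2 a4 hdu h1
      have h3 := (H1 _ _ _ a2 a4 h1).2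
      rw [hw0]
      have e2 : det u (w 2) = -1 * det (w 2) u := by unfold det; ring
      have h4 : (d u - 1) + (d (w 2) - 1) - det u (w 2) * (d (w 1) - 1) ≠ 0 := fun h5 => h2 ⟨hθ, h5⟩
      rw [e2] at h3 h4
      omega)
  refine ⟨z, fun n hn => ?_⟩
  have key : Fits 1 u d z n := by
    rcases hcov n hn with h | h | ⟨k, h1, h2, h3⟩ | ⟨k, h1, h2, h3⟩
    · rw [h]; exact f1
    · rw [h]; exact f2
    · rw [h3]; exact f3 k h1 h2
    · rw [h3]; exact f4 k h1 h2
  unfold Fits at key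
  rwa [one_mul] at key

private theorem cC_all (hF : SmoothFan F) {u : V} (hu : u ∈ F) (hu' : -u ∈ F) {d : V → ℤ} (hd : ∀ n, 0 ≤ d n)
    (hne : ∃ n ∈ F, d n ≠ 0)
    (H1 : ∀ a j b : V, Adj F a j → Adj F j b → 1 ≤ d j →
      1 ≤ det a b ∧ 0 ≤ (d a - 1) + (d b - 1) - det a b * (d j - 1))
    (H2 : ∀ a j r b : V, Adj F a j → Adj F j r → Adj F r b → 1 ≤ d j → 1 ≤ d r →
      ¬ ((d a - 1) + (d r - 1) - det a r * (d j - 1) = 0 ∧ (d j - 1) + (d b - 1) - det j b * (d r - 1) = 0)) :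
    ∃ z : V, ∀ n ∈ F, dot n z ≤ d n ∧ dot n z + det n u ≤ d n := by
  by_cases h1 : 1 ≤ d u
  · exact cC_one hF hu hu' hd h1 H1 H2
  by_cases h2 : 1 ≤ d (-u)
  · obtain ⟨z, hz⟩ := cC_one hF hu' (by rwa [neg_neg]) hd h2 H1 H2
    refine ⟨(z.1 - u.2, z.2 + u.1), fun n hn => ?_⟩
    obtain ⟨g1, g2⟩ := hz n hn
    simp only [dot, det, Prod.fst_neg, Prod.snd_neg] at g1 g2 ⊢
    constructor
    · linarith
    · linarith
  exfalso
  obtain ⟨m, m', v, w, cv, cw, hm, hm', hva, hwa, hcov⟩ := cC_chains hF hu hu'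
  have e1 : d u = 0 := by have := hd u; omega
  have e2 : d (-u) = 0 := by have := hd (-u); omega
  have kv := cC_kinkv hva H1
  have kw := cC_kinkw hwa H1
  obtain ⟨n, hn, hn0⟩ := hne
  apply hn0
  rcases hcov n hn with h | h | ⟨k, g1, g2, g3⟩ | ⟨k, g1, g2, g3⟩
  · rw [h]; exact e1
  · rw [h]; exact e2
  · have := L2 cv (fun k => d (v k) - 1) (fun k => by have := hd (v k); omega)
      (fun k hk h => kv k hk (by omega)) (by rw [cv.zero, e1]; rfl) (by rw [cv.last, e2]; rfl)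
      (k := k) (by omega)
    rw [g3]
    omega
  · have := L2 cw (fun k => d (w k) - 1) (fun k => by have := hd (w k); omega)
      (fun k hk h => kw k hk (by omega)) (by rw [cw.zero, e1]; rfl) (by rw [cw.last, e2]; rfl)
      (k := k) (by omega)
    rw [g3]
    omega

theorem core (hF : SmoothFan F) {u : V} (hu : u ∈ F) (hu' : -u ∈ F) {d : V → ℤ} (hd : ∀ n ∈ F, 0 ≤ d n)
    (hne : ∃ n ∈ F, d n ≠ 0)
    (H1 : ∀ a j b : V, Adj F a j → Adj F j b → 1 ≤ d j →
      1 ≤ det a b ∧ 0 ≤ (d a - 1) + (d b - 1) - det a b * (d j - 1))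
    (H2 : ∀ a j r b : V, Adj F a j → Adj F j r → Adj F r b → 1 ≤ d j → 1 ≤ d r →
      ¬ ((d a - 1) + (d r - 1) - det a r * (d j - 1) = 0 ∧ (d j - 1) + (d b - 1) - det j b * (d r - 1) = 0)) :
    ∃ z : V, ∀ n ∈ F, dot n z ≤ d n ∧ dot n z + det n u ≤ d n := by
  classical
  have hval : ∀ n ∈ F, (if n ∈ F then d n else 0) = d n := fun n hn => if_pos hn
  obtain ⟨z, hz⟩ := cC_all hF hu hu' (d := fun n => if n ∈ F then d n else 0)
    (by
      intro n
      by_cases h : n ∈ F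
      · simp only [h, if_true]
        exact hd n h
      · simp only [h, if_false]
        exact le_rfl)
    (by
      obtain ⟨n, hn, h⟩ := hne
      refine ⟨n, hn, ?_⟩
      rw [hval n hn]
      exact h)
    (by
      intro a j b h1 h2 h3
      rw [hval j h1.2.1] at h3 ⊢
      rw [hval a h1.1, hval b h2.2.1]
      exact H1 a j b h1 h2 h3)
    (by
      intro a j r b h1 h2 h3 h4 h5
      rw [hval j h1.2.1] at h4 ⊢
      rw [hval r h2.2.1] at h5 ⊢
      rw [hval a h1.1, hval b h3.2.1]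
      exact H2 a j r b h1 h2 h3 h4 h5)
  refine ⟨z, fun n hn => ?_⟩
  have h := hz n hn
  rw [hval n hn] at h
  exact h

end Pool.Agent.SPB
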