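import Pool.Agent.SPB.Defs

/-!
# [SPB-CoreA] convexity along a chain

`D a b = σ * det a b`, `σ = ± 1`. A chain runs from `u` to `-u` on one side.

Positivity (`Ch.pos2`): `0 < D (v k) (v i)` for `i < k ≤ m + 1`, `(i, k) ≠ (0, m + 1)`. For `i = 0` this is `pos`, for `k = m + 1` it is `D (-u) (v i) = D (v i) u`.
Otherwise induction on `k` with Plücker: `D (v (k+1)) (v i) * D (v k) u = D (v (k+1)) (v k) * D (v i) u + D (v (k+1)) u * D (v k) (v i)`.

`Ch.rec`: `v (k+2) + v k = D (v (k+2)) (v k) • v (k+1)`.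

`L1`. Put `y k = dot (v k) z`, `p k = D (v k) u`, `b k = D (v (k+1)) (v (k-1))`, `G k = f k - y k`, `W k = G (k+1) * p k - G k * p (k+1)`.
All of `v`, `y`, `p` satisfy `x (k+1) = b k x k - x (k-1)`, and `f (k+1) = b k f k - f (k-1) + θ k` with `θ k ≥ 0` if `f k ≥ 0`.
Claim A: if `f j ≥ 0` for `i < j ≤ k` (`k ≤ m`) then `0 ≤ G k`, `0 ≤ G (k+1)`, `0 ≤ W k`. Start `k = i`: all are `0`. Step: `W (k+1) = W k + θ (k+1) p (k+1) ≥ 0`
and `G (k+2) p (k+1) = W (k+1) + G (k+1) p (k+2) ≥ 0` with `p (k+1) > 0`.
Now let `i ≤ k`. If `f j ≥ 0` for all `i < j < k`, then `G k ≥ 0` by Claim A. Otherwise let `a` be the first index with `i < a < k`, `f a < 0`, so `f a = -1`,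
`f (a-1) ≥ 0`, and `G (a-1), G a, W (a-1) ≥ 0`. Now `v k = α v a - c v (a-1)` with `α = D (v k) (v (a-1)) ≥ 1`, `c = D (v k) (v a) ≥ 0`
(two dimensional identity, `D (v a) (v (a-1)) = 1`), so
`y k = -α - c f (a-1) - (α G a - c G (a-1))`, and `p (a-1) (α G a - c G (a-1)) ≥ G (a-1) (α p a - c p (a-1)) = G (a-1) p k ≥ 0`;
if `p (a-1) = 0` then `a = 1`, `i = 0`, `G 0 = 0`. So `y k ≤ -1 ≤ f k`.
-/

open Finset

set_option autoImplicit false

namespace Pool.Agent.SPB

/-- a chain of rays on one side of the line through `u` -/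
structure Ch (σ : ℤ) (u : V) (m : ℕ) (v : ℕ → V) : Prop where
  sg : σ = 1 ∨ σ = -1
  zero : v 0 = u
  last : v (m + 1) = -u
  adj : ∀ k, k ≤ m → σ * det (v (k + 1)) (v k) = 1
  pos : ∀ k, 1 ≤ k → k ≤ m → 0 < σ * det (v k) u

private lemma det_pluecker (a b c d : V) :
    det a c * det b d = det a b * det c d + det a d * det b c := by
  unfold det
  ring

private lemma det_three (a b c : V) : det b c • a = det a c • b - det a b • c := by
  unfold det
  ext
  · simp only [Prod.smul_fst, Prod.fst_sub, smul_eq_mul]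
    ring
  · simp only [Prod.smul_snd, Prod.snd_sub, smul_eq_mul]
    ring

private lemma dot_add (a b z : V) : dot (a + b) z = dot a z + dot b z := by
  unfold dot
  simp only [Prod.fst_add, Prod.snd_add]
  ring

private lemma dot_sub (a b z : V) : dot (a - b) z = dot a z - dot b z := by
  unfold dot
  simp only [Prod.fst_sub, Prod.snd_sub]
  ring

private lemma dot_smul (n : ℤ) (a z : V) : dot (n • a) z = n * dot a z := by
  unfold dot
  simp only [Prod.smul_fst, Prod.smul_snd, smul_eq_mul]
  ring

private lemma dot_neg (a z : V) : dot (-a) z = -dot a z := by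
  unfold dot
  simp only [Prod.fst_neg, Prod.snd_neg]
  ring

private lemma det_add (a b z : V) : det (a + b) z = det a z + det b z := by
  unfold det
  simp only [Prod.fst_add, Prod.snd_add]
  ring

private lemma det_sub (a b z : V) : det (a - b) z = det a z - det b z := by
  unfold det
  simp only [Prod.fst_sub, Prod.snd_sub]
  ring

private lemma det_smul (n : ℤ) (a z : V) : det (n • a) z = n * det a z := by
  unfold det
  simp only [Prod.smul_fst, Prod.smul_snd, smul_eq_mul]
  ring

private lemma det_neg_left (a z : V) : det (-a) z = -det a z := by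
  unfold det
  simp only [Prod.fst_neg, Prod.snd_neg]
  ring

private lemma det_neg_right (a z : V) : det a (-z) = -det a z := by
  unfold det
  simp only [Prod.fst_neg, Prod.snd_neg]
  ring

private lemma det_anti (a z : V) : det a z = -det z a := by
  unfold det
  ring

private lemma det_self' (a : V) : det a a = 0 := by
  unfold det
  ring

private lemma Ch.sq {σ : ℤ} {u : V} {m : ℕ} {v : ℕ → V} (h : Ch σ u m v) : σ * σ = 1 := by
  rcases h.sg with h1 | h1 <;> rw [h1] <;> norm_num

theorem Ch.pos2 {σ : ℤ} {u : V} {m : ℕ} {v : ℕ → V} (h : Ch σ u m v) {i k : ℕ} (hik : i < k) (hk : k ≤ m + 1)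
    (hne : 1 ≤ i ∨ k ≤ m) : 0 < σ * det (v k) (v i) := by
  rcases Nat.eq_zero_or_pos i with hi | hi
  · subst hi
    have hkm : k ≤ m := by omega
    rw [h.zero]
    exact h.pos k hik hkm
  · rcases Nat.lt_or_ge m k with hk2 | hk2
    · have hk3 : k = m + 1 := by omega
      rw [hk3, h.last, det_neg_left, det_anti u, neg_neg]
      exact h.pos i hi (by omega)
    · clear hne hk
      -- induction on the distance
      have key : ∀ n : ℕ, i + 1 + n ≤ m → 0 < σ * det (v (i + 1 + n)) (v i) := by
        intro n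
        induction n with
        | zero =>
          intro hn
          have := h.adj i (by omega)
          rw [Nat.add_zero, this]
          exact one_pos
        | succ n ih =>
          intro hn
          have h1 := ih (by omega)
          have h2 := h.adj (i + 1 + n) (by omega)
          have h3 := h.pos (i + 1 + n) (by omega) (by omega)
          have h4 := h.pos (i + 1 + n + 1) (by omega) (by omega)
          have h5 := h.pos i hi (by omega)
          have h6 := det_pluecker (v (i + 1 + n + 1)) (v (i + 1 + n)) (v i) u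
          have h7 : (σ * det (v (i + 1 + n + 1)) (v i)) * (σ * det (v (i + 1 + n)) u) =
              (σ * det (v (i + 1 + n + 1)) (v (i + 1 + n))) * (σ * det (v i) u) +
              (σ * det (v (i + 1 + n + 1)) u) * (σ * det (v (i + 1 + n)) (v i)) := by
            have e1 : (σ * det (v (i + 1 + n + 1)) (v i)) * (σ * det (v (i + 1 + n)) u) =
                (σ * σ) * (det (v (i + 1 + n + 1)) (v i) * det (v (i + 1 + n)) u) := by ring
            rw [e1, h6]
            ring
          rw [h2, one_mul] at h7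
          have h8 : 0 < (σ * det (v (i + 1 + n + 1)) (v i)) * (σ * det (v (i + 1 + n)) u) := by
            rw [h7]
            have := mul_pos h4 h1
            linarith
          exact pos_of_mul_pos_left h8 h3.le
      obtain ⟨n, hn⟩ : ∃ n, k = i + 1 + n := ⟨k - (i + 1), by omega⟩
      rw [hn]
      exact key n (by omega)

theorem Ch.rec2 {σ : ℤ} {u : V} {m : ℕ} {v : ℕ → V} (h : Ch σ u m v) {k : ℕ} (hk : k + 1 ≤ m) :
    v (k + 2) + v k = (σ * det (v (k + 2)) (v k)) • v (k + 1) := by
  have h1 := h.adj k (by omega)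
  have h2 := h.adj (k + 1) (by omega)
  have h3 := det_three (v (k + 2)) (v (k + 1)) (v k)
  have h4 : σ • (det (v (k + 1)) (v k) • v (k + 2)) =
      σ • (det (v (k + 2)) (v k) • v (k + 1) - det (v (k + 2)) (v (k + 1)) • v k) := by rw [h3]
  rw [smul_sub, smul_smul, smul_smul, smul_smul, h1, h2, one_smul, one_smul] at h4
  exact eq_sub_iff_add_eq.1 h4

/-- convexity along the chain -/
theorem L1 {σ : ℤ} {u : V} {m : ℕ} {v : ℕ → V} (h : Ch σ u m v) (f : ℕ → ℤ) (hf : ∀ k, -1 ≤ f k)
    (hk : ∀ k, k + 1 ≤ m → 0 ≤ f (k + 1) → 0 ≤ f k + f (k + 2) - (σ * det (v (k + 2)) (v k)) * f (k + 1))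
    {i : ℕ} (hi : i ≤ m) (hfi : 0 ≤ f i) {z : V} (h1 : dot (v i) z = f i) (h2 : dot (v (i + 1)) z = f (i + 1))
    {k : ℕ} (hik : i ≤ k) (hkm : k ≤ m ∨ (k = m + 1 ∧ 1 ≤ i)) : dot (v k) z ≤ f k := by
  -- the recursions
  have recy : ∀ k, k + 1 ≤ m → dot (v (k + 2)) z + dot (v k) z =
      (σ * det (v (k + 2)) (v k)) * dot (v (k + 1)) z := by
    intro k hk'
    rw [← dot_add, h.rec2 hk', dot_smul]
  have recp : ∀ k, k + 1 ≤ m → det (v (k + 2)) u + det (v k) u =
      (σ * det (v (k + 2)) (v k)) * det (v (k + 1)) u := by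
    intro k hk'
    rw [← det_add, h.rec2 hk', det_smul]
  have hp : ∀ k, k ≤ m + 1 → 0 ≤ σ * det (v k) u := by
    intro k hk'
    rcases Nat.eq_zero_or_pos k with h0 | h0
    · rw [h0, h.zero, det_self', mul_zero]
    · rcases Nat.lt_or_ge m k with h3 | h3
      · have h4 : k = m + 1 := by omega
        rw [h4, h.last, det_neg_left, det_self', neg_zero, mul_zero]
      · exact (h.pos k h0 h3).le
  have claim : ∀ n, i + n ≤ m → (∀ j, i < j → j ≤ i + n → 0 ≤ f j) →
      0 ≤ f (i + n) - dot (v (i + n)) z ∧ 0 ≤ f (i + n + 1) - dot (v (i + n + 1)) z ∧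
      0 ≤ (f (i + n + 1) - dot (v (i + n + 1)) z) * (σ * det (v (i + n)) u) -
        (f (i + n) - dot (v (i + n)) z) * (σ * det (v (i + n + 1)) u) := by
    intro n
    induction n with
    | zero =>
      intro _ _
      simp only [Nat.add_zero]
      rw [h1, h2]
      simp
    | succ n ih =>
      intro hn hj
      obtain ⟨g1, g2, g3⟩ := ih (by omega) fun j hj1 hj2 => hj j hj1 (by omega)
      have hf1 : 0 ≤ f (i + n + 1) := hj _ (by omega) (by omega)
      have hθ := hk (i + n) (by omega) hf1
      have ry := recy (i + n) (by omega)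
      have rp := recp (i + n) (by omega)
      have hp1 : 0 < σ * det (v (i + n + 1)) u := h.pos _ (by omega) (by omega)
      have hp2 : 0 ≤ σ * det (v (i + n + 2)) u := hp _ (by omega)
      rw [show i + (n + 1) = i + n + 1 by omega, show i + n + 1 + 1 = i + n + 2 by omega]
      obtain ⟨b, hb⟩ : ∃ b, b = σ * det (v (i + n + 2)) (v (i + n)) := ⟨_, rfl⟩
      rw [← hb] at hθ ry rp
      have rp' : σ * det (v (i + n + 2)) u =
          b * (σ * det (v (i + n + 1)) u) - σ * det (v (i + n)) u := by
        have : det (v (i + n + 2)) u = b * det (v (i + n + 1)) u - det (v (i + n)) u := by linarith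
        rw [this]
        ring
      have gW : 0 ≤ (f (i + n + 2) - dot (v (i + n + 2)) z) * (σ * det (v (i + n + 1)) u) -
          (f (i + n + 1) - dot (v (i + n + 1)) z) * (σ * det (v (i + n + 2)) u) := by
        have e : (f (i + n + 2) - dot (v (i + n + 2)) z) * (σ * det (v (i + n + 1)) u) -
            (f (i + n + 1) - dot (v (i + n + 1)) z) * (σ * det (v (i + n + 2)) u) =
            (f (i + n) + f (i + n + 2) - b * f (i + n + 1)) * (σ * det (v (i + n + 1)) u) +
            ((f (i + n + 1) - dot (v (i + n + 1)) z) * (σ * det (v (i + n)) u) -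
              (f (i + n) - dot (v (i + n)) z) * (σ * det (v (i + n + 1)) u)) := by
          rw [rp', show dot (v (i + n + 2)) z = b * dot (v (i + n + 1)) z - dot (v (i + n)) z by
            linarith]
          ring
        rw [e]
        have := mul_nonneg hθ hp1.le
        linarith
      refine ⟨g2, ?_, gW⟩
      have g4 : 0 ≤ (f (i + n + 2) - dot (v (i + n + 2)) z) * (σ * det (v (i + n + 1)) u) := by
        have := mul_nonneg g2 hp2
        linarith
      exact nonneg_of_mul_nonneg_left g4 hp1
  by_cases hall : ∀ j, i < j → j < k → 0 ≤ f j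
  · rcases hik.lt_or_eq with h3 | h3
    · obtain ⟨n, hn⟩ : ∃ n, k = i + n + 1 := ⟨k - i - 1, by omega⟩
      subst hn
      have := (claim n (by omega) fun j hj1 hj2 => hall j hj1 (by omega)).2.1
      linarith
    · rw [← h3, h1]
  · -- the first negative index
    classical
    have hex : ∃ j, i < j ∧ j < k ∧ f j < 0 := by
      by_contra hcon
      apply hall
      intro j hj1 hj2
      by_contra hj3
      exact hcon ⟨j, hj1, hj2, not_le.1 hj3⟩
    obtain ⟨ha1, ha2, ha3⟩ := Nat.find_spec hex
    obtain ⟨a, haa⟩ : ∃ a, a = Nat.find hex := ⟨_, rfl⟩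
    have hmin : ∀ j, i < j → j < a → 0 ≤ f j := by
      intro j hj1 hj2
      by_contra hj3
      exact Nat.find_min hex (by rw [← haa]; exact hj2) ⟨hj1, by omega, not_le.1 hj3⟩
    rw [← haa] at ha1 ha2 ha3
    obtain ⟨n, hn⟩ : ∃ n, a = i + n + 1 := ⟨a - i - 1, by omega⟩
    subst hn
    obtain ⟨g1, g2, g3⟩ := claim n (by omega) fun j hj1 hj2 => hmin j hj1 (by omega)
    have hfa : f (i + n + 1) = -1 := le_antisymm (by omega) (hf _)
    have hf0 : 0 ≤ f (i + n) := by
      rcases Nat.eq_zero_or_pos n with h0 | h0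
      · rw [h0, Nat.add_zero]; exact hfi
      · exact hmin _ (by omega) (by omega)
    have hα : 0 < σ * det (v k) (v (i + n)) := h.pos2 (by omega) (by omega) (by omega)
    have hc : 0 < σ * det (v k) (v (i + n + 1)) := h.pos2 (by omega) (by omega) (by omega)
    obtain ⟨α, hαe⟩ : ∃ α, α = σ * det (v k) (v (i + n)) := ⟨_, rfl⟩
    obtain ⟨c, hce⟩ : ∃ c, c = σ * det (v k) (v (i + n + 1)) := ⟨_, rfl⟩
    rw [← hαe] at hα
    rw [← hce] at hc
    have hvk : v k = α • v (i + n + 1) - c • v (i + n) := by
      have h4 := h.adj (i + n) (by omega)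
      have h5 := det_three (v k) (v (i + n + 1)) (v (i + n))
      have h6 : σ • (det (v (i + n + 1)) (v (i + n)) • v k) =
          σ • (det (v k) (v (i + n)) • v (i + n + 1) - det (v k) (v (i + n + 1)) • v (i + n)) := by
        rw [h5]
      rw [smul_sub, smul_smul, smul_smul, smul_smul, h4, one_smul, ← hαe, ← hce] at h6
      exact h6
    have hy : dot (v k) z = α * dot (v (i + n + 1)) z - c * dot (v (i + n)) z := by
      rw [hvk, dot_sub, dot_smul, dot_smul]
    have hpk : σ * det (v k) u =
        α * (σ * det (v (i + n + 1)) u) - c * (σ * det (v (i + n)) u) := by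
      rw [hvk, det_sub, det_smul, det_smul]
      ring
    have hpk0 : 0 ≤ σ * det (v k) u := hp k (by omega)
    have hG : 0 ≤ α * (f (i + n + 1) - dot (v (i + n + 1)) z) -
        c * (f (i + n) - dot (v (i + n)) z) := by
      rcases Nat.eq_zero_or_pos (i + n) with h0 | h0
      · have hn0 : n = 0 := by omega
        have hi0 : i = 0 := by omega
        have e0 : f (i + n) - dot (v (i + n)) z = 0 := by
          rw [hn0, Nat.add_zero, h1, sub_self]
        rw [e0, mul_zero, sub_zero]
        exact mul_nonneg hα.le g2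
      · have hpa : 0 < σ * det (v (i + n)) u := h.pos _ h0 (by omega)
        have h7 : 0 ≤ (α * (f (i + n + 1) - dot (v (i + n + 1)) z) -
            c * (f (i + n) - dot (v (i + n)) z)) * (σ * det (v (i + n)) u) := by
          have e : (α * (f (i + n + 1) - dot (v (i + n + 1)) z) -
              c * (f (i + n) - dot (v (i + n)) z)) * (σ * det (v (i + n)) u) =
              α * ((f (i + n + 1) - dot (v (i + n + 1)) z) * (σ * det (v (i + n)) u) -
                (f (i + n) - dot (v (i + n)) z) * (σ * det (v (i + n + 1)) u)) +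
              (f (i + n) - dot (v (i + n)) z) * (σ * det (v k) u) := by
            rw [hpk]
            ring
          rw [e]
          have e1 := mul_nonneg hα.le g3
          have e2 := mul_nonneg g1 hpk0
          linarith
        exact nonneg_of_mul_nonneg_left h7 hpa
    have hcf := mul_nonneg hc.le hf0
    rw [hfa] at hG
    have h8 := hf k
    rw [hy]
    nlinarith

/-- if `f` is `-1` at both ends of a chain, it is `-1` everywhere -/
theorem L2 {σ : ℤ} {u : V} {m : ℕ} {v : ℕ → V} (h : Ch σ u m v) (f : ℕ → ℤ) (hf : ∀ k, -1 ≤ f k)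
    (hk : ∀ k, k + 1 ≤ m → 0 ≤ f (k + 1) → 0 ≤ f k + f (k + 2) - (σ * det (v (k + 2)) (v k)) * f (k + 1))
    (h0 : f 0 = -1) (hm : f (m + 1) = -1) {k : ℕ} (hkm : k ≤ m + 1) : f k = -1 := by
  by_contra hne
  have hfk : 0 ≤ f k := by
    have := hf k
    omega
  have hk0 : 1 ≤ k := by
    rcases Nat.eq_zero_or_pos k with h1 | h1
    · rw [h1] at hne
      exact absurd h0 hne
    · exact h1
  have hkm' : k ≤ m := by
    rcases Nat.lt_or_ge m k with h1 | h1
    · have h2 : k = m + 1 := by omega
      rw [h2] at hne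
      exact absurd hm hne
    · exact h1
  -- solutions
  have sol : ∀ i, i ≤ m → ∀ s t : ℤ, ∃ z : V, dot (v i) z = s ∧ dot (v (i + 1)) z = t := by
    intro i hi s t
    have h1 := h.adj i hi
    refine ⟨(σ * ((v i).2 * t - s * (v (i + 1)).2), σ * ((v (i + 1)).1 * s - (v i).1 * t)), ?_, ?_⟩
    · have e : dot (v i) (σ * ((v i).2 * t - s * (v (i + 1)).2),
          σ * ((v (i + 1)).1 * s - (v i).1 * t)) = (σ * det (v (i + 1)) (v i)) * s := by
        unfold dot det
        ring
      rw [e, h1, one_mul]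
    · have e : dot (v (i + 1)) (σ * ((v i).2 * t - s * (v (i + 1)).2),
          σ * ((v (i + 1)).1 * s - (v i).1 * t)) = (σ * det (v (i + 1)) (v i)) * t := by
        unfold dot det
        ring
      rw [e, h1, one_mul]
  obtain ⟨z₁, hz1, hz1'⟩ := sol k hkm' (f k) (f (k + 1))
  obtain ⟨i, hi⟩ : ∃ i, k = i + 1 := ⟨k - 1, by omega⟩
  obtain ⟨z₂, hz2, hz2'⟩ := sol i (by omega) (f i) (f (i + 1))
  -- forward
  have hF := L1 h f hf hk hkm' hfk hz1 hz1' (k := m + 1) (by omega) (Or.inr ⟨rfl, hk0⟩)
  rw [h.last, dot_neg, hm] at hF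
  -- backward
  have hrev : Ch (-σ) (-u) m fun k => v (m + 1 - k) := by
    refine ⟨?_, ?_, ?_, ?_, ?_⟩
    · rcases h.sg with h1 | h1
      · right; rw [h1]
      · left; rw [h1]; norm_num
    · simp only [Nat.sub_zero]
      exact h.last
    · simp only [Nat.sub_self, neg_neg]
      exact h.zero
    · intro k hk'
      have h1 := h.adj (m - k) (by omega)
      rw [show m + 1 - (k + 1) = m - k by omega, show m + 1 - k = m - k + 1 by omega,
        det_anti (v (m - k))]
      linarith
    · intro k hk1 hk2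
      have h1 := h.pos (m + 1 - k) (by omega) (by omega)
      rw [det_neg_right]
      linarith
  have hB := L1 hrev (fun k => f (m + 1 - k)) (fun k => hf _) (by
      intro j hj hfj
      have e1 : m + 1 - j = (m - 1 - j) + 2 := by omega
      have e2 : m + 1 - (j + 2) = m - 1 - j := by omega
      have e3 : m + 1 - (j + 1) = m - 1 - j + 1 := by omega
      simp only [e1, e2, e3] at hfj ⊢
      have h1 := hk (m - 1 - j) (by omega) hfj
      rw [det_anti (v (m - 1 - j))]
      have e : f (m - 1 - j + 2) + f (m - 1 - j) -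
          -σ * -det (v (m - 1 - j + 2)) (v (m - 1 - j)) * f (m - 1 - j + 1) =
          f (m - 1 - j) + f (m - 1 - j + 2) -
            σ * det (v (m - 1 - j + 2)) (v (m - 1 - j)) * f (m - 1 - j + 1) := by ring
      rw [e]
      exact h1)
    (i := m + 1 - k) (by omega) (by
      rw [show m + 1 - (m + 1 - k) = k by omega]
      exact hfk) (z := z₂) (by
      rw [show m + 1 - (m + 1 - k) = k by omega, hi]
      exact hz2') (by
      rw [show m + 1 - (m + 1 - k + 1) = i by omega]
      exact hz2) (k := m + 1) (by omega) (Or.inr ⟨rfl, by omega⟩)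
  simp only [Nat.sub_self] at hB
  rw [h.zero, h0] at hB
  -- compare
  have hconv := hk i (by omega) (by rw [← hi]; exact hfk)
  have hrec := h.rec2 (k := i) (by omega)
  have hy1 : dot (v (i + 2)) z₁ + dot (v i) z₁ =
      (σ * det (v (i + 2)) (v i)) * dot (v (i + 1)) z₁ := by
    rw [← dot_add, hrec, dot_smul]
  rw [hi] at hz1 hz1'
  rw [show i + 1 + 1 = i + 2 by omega] at hz1'
  rw [hz1, hz1'] at hy1
  have hle : dot (v i) z₁ ≤ dot (v i) z₂ := by
    rw [hz2]
    linarith
  -- `u = α v i + β v (i + 1)`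
  have hadj := h.adj i (by omega)
  have hα : 0 < σ * det (v (i + 1)) u := h.pos _ (by omega) (by omega)
  have hu := det_three u (v (i + 1)) (v i)
  have hu' : u = (σ * det u (v i)) • v (i + 1) + (σ * det (v (i + 1)) u) • v i := by
    have h6 : σ • (det (v (i + 1)) (v i) • u) =
        σ • (det u (v i) • v (i + 1) - det u (v (i + 1)) • v i) := by
      rw [hu]
    rw [smul_sub, smul_smul, smul_smul, smul_smul, hadj, one_smul, det_anti u (v (i + 1))] at h6
    rw [mul_neg, neg_smul, sub_neg_eq_add] at h6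
    exact h6
  have d1 : dot u z₁ = (σ * det u (v i)) * dot (v (i + 1)) z₁ +
      (σ * det (v (i + 1)) u) * dot (v i) z₁ := by
    conv_lhs => rw [hu']
    rw [dot_add, dot_smul, dot_smul]
  have d2 : dot u z₂ = (σ * det u (v i)) * dot (v (i + 1)) z₂ +
      (σ * det (v (i + 1)) u) * dot (v i) z₂ := by
    conv_lhs => rw [hu']
    rw [dot_add, dot_smul, dot_smul]
  rw [hz1] at d1
  rw [hz2'] at d2
  have d3 := mul_le_mul_of_nonneg_left hle hα.le
  linarith

end Pool.Agent.SPB
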