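import Pool.Agent.SPB.CoreA

/-!
# [SPB-CoreB] the core lemma in terms of the two chains

Right chain `v 0 = u, ..., v (m+1) = -u` (sign `σ`), left chain `w 0 = u, ..., w (m'+1) = -u` (sign `-σ`); `D a b = σ * det a b`,
`p (v k) = D (v k) u > 0`, `p (w k) = D u (w k) > 0`; `v 1 + w 1 = t • u`; `g n = d n - 1 ≥ -1`.

`coreT` (`d u ≥ 1`, so `g u ≥ 0`). Let `dot e n = D n u`, i.e. `e = σ • (u.2, -u.1)`. We want `z'` with
  (R) `dot n z' ≤ d n` for `n = v k` (`1 ≤ k ≤ m`) and `n = ± u`,  (L) `dot n z' + p n ≤ d n` for `n = w k` (`1 ≤ k ≤ m'`);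
then `z = z' - e` is as required.
Let `zR` have `dot u zR = g u`, `dot (v 1) zR = g (v 1)` and `zL` have `dot u zL = g u`, `dot (w 1) zL = g (w 1)`. By `L1` (`i = 0`):
`dot (v k) zR ≤ g (v k)` (`1 ≤ k ≤ m`), `dot (w k) zL ≤ g (w k)` (`1 ≤ k ≤ m'`). Let `θ = g (v 1) + g (w 1) - t g u ≥ 0`; then
`dot n zR = dot n zL + θ D n u` for all `n`.
1. `θ ≥ 1`: `z' = zR`. (R) clear, `dot (-u) zR = -g u ≤ 0 ≤ d (-u)`. (L) `dot (w k) zR = dot (w k) zL - θ p ≤ g (w k) - p`.
2. `θ = 0`: `zR = zL = z₀`. Not both `g (v 1) = -1` and `g (w 1) = -1` (else `t g u = -2`, but `t ≥ 1`, `g u ≥ 0`). If `g (w 1) = -1` exchange the two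
   chains (`σ ↦ -σ`, the conclusion is symmetric: `z ↦ z + e`). So `g (w 1) ≥ 0`, and by hypothesis `θ_w := ` kink of `g` at `w 1` is `≥ 1`
   (the kink at `u` is `θ = 0`). Let `z1L` match `g` at `w 1`, `w 2`: `dot n z₀ = dot n z1L - θ_w * D (w 1) n` (for `n = w 1, w 2`, hence all `n`), and
   `dot (w k) z1L ≤ g (w k)` for `1 ≤ k ≤ m'` (`L1`, `i = 1`). (`m' ≥ 1`; if `m' = 1` then `w 2 = -u`, fine.)
   2a. `g (v 1) ≥ 0`: then the kink `θ_v` at `v 1` is `≥ 1`. Put `dot n z' = dot n z₀ - D (v 1) n`.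
       (L): `dot (w 1) z' = g (w 1) - t`; for `k ≥ 2`: `dot (w k) z' = dot (w k) z1L - θ_w D (w 1) (w k) - D (v 1) (w k) ≤ g (w k) - D (w 1 + v 1) (w k)
       = g (w k) - t p (w k)`, as `D (w 1) (w k) ≥ 0`, `θ_w ≥ 1`.
       (R): `dot (v 1) z' = g (v 1)`; for `k ≥ 2` let `z1R` match at `v 1`, `v 2`: `dot (v k) z₀ = dot (v k) z1R - θ_v D (v k) (v 1)`, so
       `dot (v k) z' = dot (v k) z1R - (θ_v - 1) D (v k) (v 1) ≤ g (v k)`. `dot u z' = g u - 1`. `dot (-u) z' = 1 - g u`: fine if `g u ≥ 1`. If `g u = 0`: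
       `g (v 1) + g (w 1) = 0` so both are `0`, `z₀ = 0`; `L1` (`i = 1`, `k = m + 1`): `dot (-u) z1R ≤ g (-u)`, and `dot (-u) z1R = dot (-u) z₀ + θ_v D (-u) (v 1) = θ_v ≥ 1`.
       So `d (-u) ≥ 2`.
   2b. `g (v 1) = -1`, `g u ≥ 1`: the same `z'`. (L) as in 2a. (R): `v k = p • v 1 - c • u` with `p = D (v k) u`, `c = D (v k) (v 1) ≥ 0`, so
       `dot (v k) z' = - p - c (g u - 1) ≤ 0`; `dot u z' = g u - 1`, `dot (-u) z' = 1 - g u ≤ 0`.
   2c. `g (v 1) = -1`, `g u = 0`: `dot n z₀ = - D n u` for all `n` (check at `u`, `v 1`). `z' = 0`: (R) clear. (L) `p (w k) = dot (w k) z₀ ≤ g (w k) = d (w k) - 1`.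
-/

open Finset

set_option autoImplicit false

namespace Pool.Agent.SPB

/-- kink condition along a chain for `g = d - 1` -/
def Kink (σ : ℤ) (m : ℕ) (v : ℕ → V) (d : V → ℤ) : Prop :=
  ∀ k, k + 1 ≤ m → 1 ≤ d (v (k + 1)) →
    0 ≤ (d (v k) - 1) + (d (v (k + 2)) - 1) - (σ * det (v (k + 2)) (v k)) * (d (v (k + 1)) - 1)

/-- the conclusion of the core lemma for one ray -/
def Fits (σ : ℤ) (u : V) (d : V → ℤ) (z n : V) : Prop := dot n z ≤ d n ∧ dot n z + σ * det n u ≤ d n

private theorem cB_expand (a b n z : V) : dot n z * det a b = det n b * dot a z + det a n * dot b z := by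
  unfold dot det; ring

private theorem cB_exists {σ : ℤ} (hσ : σ = 1 ∨ σ = -1) {a b : V} (h : σ * det a b = 1) (s t : ℤ) :
    ∃ z : V, dot a z = s ∧ dot b z = t := by
  refine ⟨(σ * (s * b.2 - t * a.2), σ * (t * a.1 - s * b.1)), ?_, ?_⟩
  · have : dot a (σ * (s * b.2 - t * a.2), σ * (t * a.1 - s * b.1)) = s * (σ * det a b) := by
      unfold dot det; ring
    rw [this, h, mul_one]
  · have : dot b (σ * (s * b.2 - t * a.2), σ * (t * a.1 - s * b.1)) = t * (σ * det a b) := by
      unfold dot det; ring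
    rw [this, h, mul_one]

private theorem cB_val {σ : ℤ} {a b : V} (h : σ * det a b = 1) (n z : V) :
    dot n z = (σ * det n b) * dot a z + (σ * det a n) * dot b z := by
  have := cB_expand a b n z
  calc dot n z = dot n z * (σ * det a b) := by rw [h, mul_one]
    _ = σ * (dot n z * det a b) := by ring
    _ = _ := by rw [this]; ring

private theorem cB_step {s : ℤ} {u : V} {m : ℕ} {v : ℕ → V} (h : Ch s u m v) (hm : 1 ≤ m) {f0 f1 f2 : ℤ} {z0 z1 : V}
    (a0 : dot (v 0) z0 = f0) (a1 : dot (v 1) z0 = f1) (b1 : dot (v 1) z1 = f1) (b2 : dot (v 2) z1 = f2) (n : V) :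
    dot n z0 = dot n z1 - (f0 + f2 - (s * det (v 2) (v 0)) * f1) * (s * det n (v 1)) := by
  have hr := h.rec2 (k := 0) (by omega)
  have had := h.adj 1 hm
  have e0 := cB_val had n z0
  have e1 := cB_val had n z1
  have h2 : dot (v 2) z0 = (s * det (v 2) (v 0)) * f1 - f0 := by
    have : v 2 = (s * det (v 2) (v 0)) • v 1 - v 0 := by
      rw [← hr]; simp
    have h3 : dot (v 2) z0 = (s * det (v 2) (v 0)) * dot (v 1) z0 - dot (v 0) z0 := by
      conv_lhs => rw [this]
      unfold dot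
      simp only [Prod.fst_sub, Prod.snd_sub, Prod.smul_fst, Prod.smul_snd, smul_eq_mul]
      ring
    rw [h3, a1, a0]
  rw [e0, e1, h2, a1, b1, b2]
  ring

private theorem cB_aux {σ : ℤ} {u : V} {m m' : ℕ} {v w : ℕ → V} (hv : Ch σ u m v) (hw : Ch (-σ) u m' w) (hm : 1 ≤ m)
    (hm' : 1 ≤ m') {t : ℤ} (ht : v 1 + w 1 = t • u) (ht1 : 1 ≤ t) {d : V → ℤ} (hd : ∀ n, 0 ≤ d n) (hu : 1 ≤ d u)
    (kv : Kink σ m v d) (kw : Kink (-σ) m' w d)
    (hθ : (d (v 1) - 1) + (d (w 1) - 1) - t * (d u - 1) = 0)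
    (h2v : 1 ≤ d (v 1) →
      1 ≤ (d (v 0) - 1) + (d (v 2) - 1) - (σ * det (v 2) (v 0)) * (d (v 1) - 1))
    (h2w : 1 ≤ (d (w 0) - 1) + (d (w 2) - 1) - (-σ * det (w 2) (w 0)) * (d (w 1) - 1))
    (hw1 : 1 ≤ d (w 1)) :
    ∃ z : V, Fits σ u d z u ∧ Fits σ u d z (-u) ∧ (∀ k, 1 ≤ k → k ≤ m → Fits σ u d z (v k)) ∧
      (∀ k, 1 ≤ k → k ≤ m' → Fits σ u d z (w k)) := by
  have hσ := hv.sg
  have hv0 := hv.zero
  have hw0 := hw.zero
  have av : σ * det (v 1) u = 1 := by
    have := hv.adj 0 (Nat.zero_le _); rwa [hv0] at this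
  have aw : -σ * det (w 1) u = 1 := by
    have := hw.adj 0 (Nat.zero_le _); rwa [hw0] at this
  have hw1e : w 1 = t • u - v 1 := by rw [← ht]; simp
  have duu : det u u = 0 := by unfold det; ring
  -- the common gradient
  obtain ⟨z0, hz1, hz0⟩ := cB_exists hσ av (d (v 1) - 1) (d u - 1)
  have hzw : dot (w 1) z0 = d (w 1) - 1 := by
    have : dot (w 1) z0 = t * dot u z0 - dot (v 1) z0 := by
      rw [hw1e]; unfold dot
      simp only [Prod.fst_sub, Prod.snd_sub, Prod.smul_fst, Prod.smul_snd, smul_eq_mul]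
      ring
    rw [this, hz0, hz1]; linarith
  -- gradients after the first kinks
  obtain ⟨z1L, hL2, hL1⟩ := cB_exists hw.sg (hw.adj 1 hm') (d (w 2) - 1) (d (w 1) - 1)
  have stepL := cB_step hw hm' (f0 := d u - 1) (f1 := d (w 1) - 1) (f2 := d (w 2) - 1) (z0 := z0) (z1 := z1L)
    (by rw [hw0]; exact hz0) hzw hL1 hL2
  have L1w : ∀ k, 1 ≤ k → k ≤ m' → dot (w k) z1L ≤ d (w k) - 1 := fun k hk hk' =>
    L1 hw (fun k => d (w k) - 1) (fun k => by have := hd (w k); omega) (fun k hk h => kw k hk (by omega)) hm'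
      (by omega) hL1 hL2 hk (Or.inl hk')
  have L0w : ∀ k, k ≤ m' → dot (w k) z0 ≤ d (w k) - 1 := fun k hk' =>
    L1 hw (fun k => d (w k) - 1) (fun k => by have := hd (w k); omega) (fun k hk h => kw k hk (by omega))
      (Nat.zero_le _) (by rw [hw0]; omega) (by rw [hw0]; exact hz0) hzw (Nat.zero_le _) (Or.inl hk')
  set θw := (d (w 0) - 1) + (d (w 2) - 1) - (-σ * det (w 2) (w 0)) * (d (w 1) - 1) with hθw
  have hstepL : ∀ n, dot n z0 = dot n z1L - θw * (-σ * det n (w 1)) := by
    intro n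
    have := stepL n
    rw [this, hθw, hw0]
  -- the case 2c
  by_cases hc : d (v 1) = 0 ∧ d u = 1
  · obtain ⟨hc1, hc2⟩ := hc
    refine ⟨(-(σ * u.2), σ * u.1), ?_⟩
    have hz : ∀ n : V, dot n (-(σ * u.2), σ * u.1) = -(σ * det n u) := by
      intro n; unfold dot det; ring
    refine ⟨?_, ?_, ?_, ?_⟩
    · constructor <;> rw [hz, duu] <;> have := hd u <;> linarith
    · have : det (-u) u = 0 := by unfold det; simp only [Prod.fst_neg, Prod.snd_neg]; ring
      constructor <;> rw [hz, this] <;> have := hd (-u) <;> linarith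
    · intro k hk hk'
      have h1 := hv.pos k hk hk'
      have h2 := hd (v k)
      constructor <;> rw [hz] <;> linarith
    · intro k hk hk'
      have h1 := hw.pos k hk hk'
      have h2 := hd (w k)
      have h3 := L0w k hk'
      have h4 := cB_val av (w k) z0
      rw [hz0, hz1, hc1, hc2] at h4
      constructor <;> rw [hz] <;> linarith
  -- the other cases
  let z : V := (z0.1 + σ * (v 1).2 - σ * u.2, z0.2 - σ * (v 1).1 + σ * u.1)
  have hz : ∀ n : V, dot n z = dot n z0 - σ * det (v 1) n - σ * det n u := by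
    intro n; simp only [z]; unfold dot det; ring
  refine ⟨z, ?_, ?_, ?_, ?_⟩
  · constructor
    · rw [hz, duu, hz0, av]; linarith
    · rw [hz, duu, hz0, av]; linarith
  · have e1 : det (-u) u = 0 := by unfold det; simp only [Prod.fst_neg, Prod.snd_neg]; ring
    have e2 : σ * det (v 1) (-u) = -1 := by
      have : det (v 1) (-u) = -det (v 1) u := by unfold det; simp only [Prod.fst_neg, Prod.snd_neg]; ring
      rw [this]; linarith
    have e3 : dot (-u) z0 = -(d u - 1) := by
      rw [← hz0]; unfold dot; simp only [Prod.fst_neg, Prod.snd_neg]; ring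
    have key : 1 - (d u - 1) ≤ d (-u) := by
      by_cases hu2 : 2 ≤ d u
      · have := hd (-u); linarith
      · have hu1 : d u = 1 := by omega
        have hv1 : 1 ≤ d (v 1) := by
          have := hd (v 1)
          by_contra hcon
          exact hc ⟨by omega, hu1⟩
        have hθ' := hθ
        rw [hu1] at hθ'
        have hv1' : d (v 1) = 1 := by linarith
        obtain ⟨z1R, hR2, hR1⟩ := cB_exists hσ (hv.adj 1 hm) (d (v 2) - 1) (d (v 1) - 1)
        have stepR := cB_step hv hm (f0 := d u - 1) (f1 := d (v 1) - 1) (f2 := d (v 2) - 1) (z0 := z0) (z1 := z1R)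
          (by rw [hv0]; exact hz0) hz1 hR1 hR2 (-u)
        have hlast := L1 hv (fun k => d (v k) - 1) (fun k => by have := hd (v k); omega)
          (fun k hk h => kv k hk (by omega)) hm (by omega) hR1 hR2 (k := m + 1) (by omega) (Or.inr ⟨rfl, le_refl 1⟩)
        have e4 : σ * det (-u) (v 1) = 1 := by
          have : det (-u) (v 1) = det (v 1) u := by unfold det; simp only [Prod.fst_neg, Prod.snd_neg]; ring
          rw [this]; exact av
        have hk := h2v hv1
        simp only [hv.last] at hlast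
        rw [hv0, e3, e4, hu1] at stepR
        rw [hv0, hu1] at hk
        rw [hu1]
        linarith
    constructor
    · rw [hz, e1, e2, e3]; linarith
    · rw [hz, e1, e2, e3]; linarith
  · intro k hk hk'
    have hp := hv.pos k hk hk'
    -- main inequality
    have key : dot (v k) z0 - σ * det (v 1) (v k) ≤ d (v k) := by
      rcases Nat.lt_or_ge 1 k with h1k | h1k
      · have hY := hv.pos2 (i := 1) (k := k) h1k (by omega) (Or.inl le_rfl)
        have e5 : σ * det (v 1) (v k) = -(σ * det (v k) (v 1)) := by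
          have : det (v 1) (v k) = -det (v k) (v 1) := by unfold det; ring
          rw [this]; ring
        by_cases hv1 : 1 ≤ d (v 1)
        · obtain ⟨z1R, hR2, hR1⟩ := cB_exists hσ (hv.adj 1 hm) (d (v 2) - 1) (d (v 1) - 1)
          have stepR := cB_step hv hm (f0 := d u - 1) (f1 := d (v 1) - 1) (f2 := d (v 2) - 1) (z0 := z0) (z1 := z1R)
            (by rw [hv0]; exact hz0) hz1 hR1 hR2 (v k)
          have hl := L1 hv (fun k => d (v k) - 1) (fun k => by have := hd (v k); omega)
            (fun k hk h => kv k hk (by omega)) hm (by omega) hR1 hR2 (k := k) hk (Or.inl hk')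
          have hkk := h2v hv1
          rw [hv0] at hkk stepR
          rw [stepR, e5]
          have hl' : dot (v k) z1R ≤ d (v k) - 1 := hl
          nlinarith [mul_nonneg (sub_nonneg.2 hkk) hY.le]
        · have hv1' : d (v 1) = 0 := by have := hd (v 1); omega
          have hu2 : 2 ≤ d u := by
            by_contra hcon
            exact hc ⟨hv1', by omega⟩
          have h4 := cB_val av (v k) z0
          rw [hz0, hz1, hv1', e5] at h4
          rw [h4, e5]
          have := hd (v k)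
          nlinarith [mul_nonneg (by linarith : (0:ℤ) ≤ d u - 2) hY.le]
      · have : k = 1 := by omega
        subst this
        have e6 : det (v 1) (v 1) = 0 := by unfold det; ring
        rw [e6, hz1]
        linarith
    constructor
    · rw [hz]; linarith
    · rw [hz]; linarith
  · intro k hk hk'
    have hp := hw.pos k hk hk'
    have e7 : σ * det (v 1) (w k) = t * (σ * det u (w k)) - σ * det (w 1) (w k) := by
      have : v 1 = t • u - w 1 := by rw [← ht]; simp
      rw [this]; unfold det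
      simp only [Prod.fst_sub, Prod.snd_sub, Prod.smul_fst, Prod.smul_snd, smul_eq_mul]
      ring
    have e8 : σ * det u (w k) = -σ * det (w k) u := by unfold det; ring
    have key : dot (w k) z0 - σ * det (v 1) (w k) - σ * det (w k) u ≤ d (w k) := by
      rcases Nat.lt_or_ge 1 k with h1k | h1k
      · have hX := hw.pos2 (i := 1) (k := k) h1k (by omega) (Or.inl le_rfl)
        have e9 : σ * det (w 1) (w k) = -σ * det (w k) (w 1) := by unfold det; ring
        have hl := L1w k hk hk'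
        rw [hstepL, e7, e8, e9]
        have h10 : 0 ≤ (θw - 1) * (-σ * det (w k) (w 1)) := mul_nonneg (by linarith) hX.le
        have h11 : 0 ≤ (t - 1) * (-σ * det (w k) u) := mul_nonneg (by linarith) hp.le
        nlinarith
      · have : k = 1 := by omega
        subst this
        have e6 : det (w 1) (w 1) = 0 := by unfold det; ring
        rw [e7, e8, e6, hzw]
        have e10 : σ * det (w 1) u = -1 := by linarith
        nlinarith
    constructor
    · rw [hz]; linarith
    · rw [hz]; linarith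

theorem coreT {σ : ℤ} {u : V} {m m' : ℕ} {v w : ℕ → V} (hv : Ch σ u m v) (hw : Ch (-σ) u m' w) (hm : 1 ≤ m)
    (hm' : 1 ≤ m') {t : ℤ} (ht : v 1 + w 1 = t • u) (ht1 : 1 ≤ t) {d : V → ℤ} (hd : ∀ n, 0 ≤ d n) (hu : 1 ≤ d u)
    (kv : Kink σ m v d) (kw : Kink (-σ) m' w d)
    (hθ : 0 ≤ (d (v 1) - 1) + (d (w 1) - 1) - t * (d u - 1))
    (h2v : (d (v 1) - 1) + (d (w 1) - 1) - t * (d u - 1) = 0 → 1 ≤ d (v 1) →
      1 ≤ (d (v 0) - 1) + (d (v 2) - 1) - (σ * det (v 2) (v 0)) * (d (v 1) - 1))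
    (h2w : (d (v 1) - 1) + (d (w 1) - 1) - t * (d u - 1) = 0 → 1 ≤ d (w 1) →
      1 ≤ (d (w 0) - 1) + (d (w 2) - 1) - (-σ * det (w 2) (w 0)) * (d (w 1) - 1)) :
    ∃ z : V, Fits σ u d z u ∧ Fits σ u d z (-u) ∧ (∀ k, 1 ≤ k → k ≤ m → Fits σ u d z (v k)) ∧
      (∀ k, 1 ≤ k → k ≤ m' → Fits σ u d z (w k))
  := by
  have hσ := hv.sg
  have hv0 := hv.zero
  have hw0 := hw.zero
  have av : σ * det (v 1) u = 1 := by
    have := hv.adj 0 (Nat.zero_le _); rwa [hv0] at this
  have aw : -σ * det (w 1) u = 1 := by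
    have := hw.adj 0 (Nat.zero_le _); rwa [hw0] at this
  have duu : det u u = 0 := by unfold det; ring
  set θ := (d (v 1) - 1) + (d (w 1) - 1) - t * (d u - 1) with hθdef
  rcases lt_or_eq_of_le hθ with hpos | hzero
  · -- case 1
    obtain ⟨zR, hR1, hR0⟩ := cB_exists hσ av (d (v 1) - 1) (d u - 1)
    obtain ⟨zL, hL1, hL0⟩ := cB_exists hw.sg aw (d (w 1) - 1) (d u - 1)
    have hw1e : w 1 = t • u - v 1 := by rw [← ht]; simp
    have hrel : ∀ n, dot n zR = dot n zL + θ * (σ * det n u) := by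
      intro n
      have a1 := cB_val av n zR
      have a2 := cB_val aw n zL
      have a3 : -σ * det (w 1) n = t * (σ * det n u) + σ * det (v 1) n := by
        rw [hw1e]; unfold det
        simp only [Prod.fst_sub, Prod.snd_sub, Prod.smul_fst, Prod.smul_snd, smul_eq_mul]
        ring
      rw [a1, a2, a3, hR1, hR0, hL1, hL0, hθdef]
      ring
    have hR : ∀ k, k ≤ m → dot (v k) zR ≤ d (v k) - 1 := fun k hk' =>
      L1 hv (fun k => d (v k) - 1) (fun k => by have := hd (v k); omega) (fun k hk h => kv k hk (by omega))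
        (Nat.zero_le _) (by rw [hv0]; omega) (by rw [hv0]; exact hR0) hR1 (Nat.zero_le _) (Or.inl hk')
    have hL : ∀ k, k ≤ m' → dot (w k) zL ≤ d (w k) - 1 := fun k hk' =>
      L1 hw (fun k => d (w k) - 1) (fun k => by have := hd (w k); omega) (fun k hk h => kw k hk (by omega))
        (Nat.zero_le _) (by rw [hw0]; omega) (by rw [hw0]; exact hL0) hL1 (Nat.zero_le _) (Or.inl hk')
    let z : V := (zR.1 - σ * u.2, zR.2 + σ * u.1)
    have hz : ∀ n : V, dot n z = dot n zR - σ * det n u := by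
      intro n; simp only [z]; unfold dot det; ring
    refine ⟨z, ?_, ?_, ?_, ?_⟩
    · constructor
      · rw [hz, duu, hR0]; linarith
      · rw [hz, duu, hR0]; linarith
    · have e1 : det (-u) u = 0 := by unfold det; simp only [Prod.fst_neg, Prod.snd_neg]; ring
      have e3 : dot (-u) zR = -(d u - 1) := by
        rw [← hR0]; unfold dot; simp only [Prod.fst_neg, Prod.snd_neg]; ring
      have := hd (-u)
      constructor
      · rw [hz, e1, e3]; linarith
      · rw [hz, e1, e3]; linarith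
    · intro k hk hk'
      have hp := hv.pos k hk hk'
      have := hR k hk'
      constructor
      · rw [hz]; linarith
      · rw [hz]; linarith
    · intro k hk hk'
      have hp := hw.pos k hk hk'
      have := hL k hk'
      have h2 := hrel (w k)
      have h3 : 0 ≤ (θ - 1) * (-σ * det (w k) u) := mul_nonneg (by linarith) hp.le
      constructor
      · rw [hz, h2]; nlinarith
      · rw [hz, h2]; nlinarith
  · -- case 2
    have hz0 : θ = 0 := hzero.symm
    by_cases hw1 : 1 ≤ d (w 1)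
    · exact cB_aux hv hw hm hm' ht ht1 hd hu kv kw hz0 (h2v hz0) (h2w hz0 hw1) hw1
    · have hw1' : d (w 1) = 0 := by have := hd (w 1); omega
      have hv1 : 1 ≤ d (v 1) := by
        by_contra hcon
        have hv1' : d (v 1) = 0 := by have := hd (v 1); omega
        rw [hθdef, hw1', hv1'] at hz0
        have : 0 ≤ t * (d u - 1) := mul_nonneg (by linarith) (by linarith)
        linarith
      have hv' : Ch (- -σ) u m v := by rw [neg_neg]; exact hv
      have kv' : Kink (- -σ) m v d := by rw [neg_neg]; exact kv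
      obtain ⟨z, f1, f2, f3, f4⟩ := cB_aux (σ := -σ) hw hv' hm' hm (by rw [add_comm]; exact ht) ht1 hd hu kw kv'
        (by rw [← hz0, hθdef]; ring) (h2w hz0) (by rw [neg_neg]; exact h2v hz0 hv1) hv1
      refine ⟨(z.1 - σ * u.2, z.2 + σ * u.1), ?_⟩
      have hz : ∀ n : V, dot n (z.1 - σ * u.2, z.2 + σ * u.1) = dot n z - σ * det n u := by
        intro n; unfold dot det; ring
      have conv : ∀ n, Fits (-σ) u d z n → Fits σ u d (z.1 - σ * u.2, z.2 + σ * u.1) n := by
        intro n hn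
        obtain ⟨g1, g2⟩ := hn
        constructor
        · rw [hz]; linarith
        · rw [hz]; linarith
      exact ⟨conv _ f1, conv _ f2, fun k hk hk' => conv _ (f4 k hk hk'), fun k hk hk' => conv _ (f3 k hk hk')⟩

end Pool.Agent.SPB
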