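import Pool.Agent.SPB.TriA

/-!
# [SPB-Cover] the lower faces cover the polytope

`covers`. First let `x₀ ∈ interior (hull A)`. `Φ = {(a, b) | ∀ x ∈ A, a · x + b ≤ w x}` is closed and nonempty (`a = 0`, `b = min w`; `A ≠ ∅`). Let `t₀ = min w`, `Φ₀ = {φ ∈ Φ | φ(x₀) ≥ t₀}`. It is bounded: let `ball x₀ r ⊆ hull A`; for `y ∈ hull A` (a convex combination of
points of `A`) `φ(y) ≤ W := max w`. So `φ(x₀ ± (r/2) e_i) ≤ W` and `φ(x₀) ≥ t₀` give `|a_i| ≤ 2 (W - t₀) / r`, and then `b` is bounded. So `φ ↦ φ(x₀)` has a maximum `φ = (a, b)` on the compact set `Φ₀`, hence on `Φ`. Let `C = contact A w a b`. If `x₀ ∉ hull C`,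
separate (`geometric_hahn_banach_point_compact` or similar; `hull C` is compact and convex): there is a linear `f` and `s` with `f < s` on `hull C` and `f x₀ > s` (if `C = ∅` take `f = 0`, `s = -1`). `φ + ε (f - s) ∈ Φ` for small `ε > 0` (on `C` it decreases, off `C` there is slack, `A` is finite), with a larger value at `x₀`:
contradiction.
General `x ∈ hull A`: the union `U` of the sets `hull (contact A w a b)` over all `(a, b) ∈ Φ` is a finite union (subsets of `A`) of compact sets, so it is closed; it contains the interior of `hull A`, so it contains its closure, which is `hull A` (`Convex.closure_interior_eq_closure_of_nonempty_interior`; `hull A` is closed).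
-/

open Finset

set_option autoImplicit false

namespace Pool.Agent.SPB

private lemma lin_le {ι : Type} [Fintype ι] {A : Finset (ι → ℤ)} {w : (ι → ℤ) → ℝ} {W : ℝ}
    (hW : ∀ p ∈ A, w p ≤ W) {a : ι → ℝ} {b : ℝ} (h : ∀ x ∈ A, ∑ i, a i * (x i : ℝ) + b ≤ w x)
    {y : ι → ℝ} (hy : y ∈ hull A) : ∑ i, a i * y i + b ≤ W := by
  have hc : Convex ℝ {y : ι → ℝ | ∑ i, a i * y i + b ≤ W} := by
    intro u hu v hv s t hs ht hst
    simp only [Set.mem_ofPred_eq] at hu hv ⊢
    have e : ∑ i, a i * (s • u + t • v) i + b =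
        s * (∑ i, a i * u i + b) + t * (∑ i, a i * v i + b) := by
      have : b = s * b + t * b := by rw [← add_mul, hst, one_mul]
      rw [mul_add, mul_add, Finset.mul_sum, Finset.mul_sum]
      calc _ = ∑ i, (s * (a i * u i) + t * (a i * v i)) + b := by
              congr 1
              apply Finset.sum_congr rfl
              intro i _
              simp only [Pi.add_apply, Pi.smul_apply, smul_eq_mul]
              ring
        _ = _ := by rw [Finset.sum_add_distrib]; linarith
    rw [e]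
    calc s * (∑ i, a i * u i + b) + t * (∑ i, a i * v i + b) ≤ s * W + t * W :=
          add_le_add (mul_le_mul_of_nonneg_left hu hs) (mul_le_mul_of_nonneg_left hv ht)
      _ = W := by rw [← add_mul, hst, one_mul]
  have hsub : emb '' (A : Set (ι → ℤ)) ⊆ {y : ι → ℝ | ∑ i, a i * y i + b ≤ W} := by
    rintro _ ⟨p, hp, rfl⟩
    exact (h p hp).trans (hW p hp)
  exact convexHull_min hsub hc hy

private lemma covers_int {ι : Type} [Fintype ι] {A : Finset (ι → ℤ)} (w : (ι → ℤ) → ℝ)
    {x₀ : ι → ℝ} (hx : x₀ ∈ interior (hull A)) :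
    ∃ (a : ι → ℝ) (b : ℝ), (∀ x ∈ A, ∑ i, a i * (x i : ℝ) + b ≤ w x) ∧
      x₀ ∈ hull (contact A w a b) := by
  classical
  have hxA : x₀ ∈ hull A := interior_subset hx
  have hA : A.Nonempty := by
    by_contra hne
    rw [Finset.not_nonempty_iff_eq_empty] at hne
    subst hne
    simp [hull] at hxA
  obtain ⟨pm, hpm, hmin⟩ := A.exists_min_image w hA
  obtain ⟨pM, hpM, hmax⟩ := A.exists_max_image w hA
  set t₀ := w pm with ht₀
  set W := w pM with hWdef
  obtain ⟨r, hr, hball⟩ := Metric.isOpen_iff.1 isOpen_interior x₀ hx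
  let Φ : Set ((ι → ℝ) × ℝ) := {φ | (∀ x ∈ A, ∑ i, φ.1 i * (x i : ℝ) + φ.2 ≤ w x) ∧
    t₀ ≤ ∑ i, φ.1 i * x₀ i + φ.2}
  have hcl : IsClosed Φ := by
    have h1 : IsClosed {φ : (ι → ℝ) × ℝ | ∀ x ∈ A, ∑ i, φ.1 i * (x i : ℝ) + φ.2 ≤ w x} := by
      have : {φ : (ι → ℝ) × ℝ | ∀ x ∈ A, ∑ i, φ.1 i * (x i : ℝ) + φ.2 ≤ w x} =
          ⋂ x ∈ A, {φ : (ι → ℝ) × ℝ | ∑ i, φ.1 i * (x i : ℝ) + φ.2 ≤ w x} := by
        ext φ; simp
      rw [this]
      refine isClosed_biInter fun x _ => ?_
      have hc1 : Continuous (fun φ : (ι → ℝ) × ℝ => ∑ i, φ.1 i * (x i : ℝ) + φ.2) := by fun_prop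
      exact isClosed_le hc1 continuous_const
    have hc2 : Continuous (fun φ : (ι → ℝ) × ℝ => ∑ i, φ.1 i * x₀ i + φ.2) := by fun_prop
    exact h1.inter (isClosed_le continuous_const hc2)
  have hbd : Bornology.IsBounded Φ := by
    -- bound on the coefficients
    have hco : ∀ φ ∈ Φ, ∀ i, |φ.1 i| ≤ 2 * (W - t₀) / r := by
      intro φ hφ i
      have key : ∀ s : ℝ, |s| = r / 2 → ∑ j, φ.1 j * x₀ j + φ.2 + s * φ.1 i ≤ W := by
        intro s hs
        have hy : x₀ + Pi.single i s ∈ hull A := by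
          apply interior_subset
          apply hball
          rw [Metric.mem_ball, dist_eq_norm, add_sub_cancel_left]
          rw [Pi.norm_single, Real.norm_eq_abs, hs]
          linarith
        have := lin_le (W := W) hmax hφ.1 hy
        have e : ∑ j, φ.1 j * (x₀ + Pi.single i s : ι → ℝ) j = ∑ j, φ.1 j * x₀ j + s * φ.1 i := by
          simp only [Pi.add_apply, mul_add, Finset.sum_add_distrib]
          congr 1
          rw [Finset.sum_eq_single i]
          · simp [mul_comm]
          · intro j _ hj; simp [Pi.single_eq_of_ne hj]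
          · intro h; exact absurd (Finset.mem_univ i) h
        rw [e] at this
        linarith
      have h1 := key (r / 2) (abs_of_pos (by linarith))
      have h2 := key (-(r / 2)) (by rw [abs_neg]; exact abs_of_pos (by linarith))
      have h3 := hφ.2
      rw [abs_le]
      constructor
      · rw [← neg_div, div_le_iff₀ hr]; nlinarith
      · rw [le_div_iff₀ hr]; nlinarith
    have hb : ∀ φ ∈ Φ, |φ.2| ≤ |t₀| + |W| + ∑ i, (2 * (W - t₀) / r) * |x₀ i| := by
      intro φ hφ
      have h1 := lin_le (W := W) hmax hφ.1 hxA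
      have h3 := hφ.2
      have h4 : |∑ i, φ.1 i * x₀ i| ≤ ∑ i, (2 * (W - t₀) / r) * |x₀ i| := by
        refine (Finset.abs_sum_le_sum_abs _ _).trans (Finset.sum_le_sum fun i _ => ?_)
        rw [abs_mul]
        exact mul_le_mul_of_nonneg_right (hco φ hφ i) (abs_nonneg _)
      have h5 : |∑ i, φ.1 i * x₀ i + φ.2| ≤ |t₀| + |W| := by
        rw [abs_le]
        constructor
        · linarith [neg_abs_le t₀, abs_nonneg W]
        · linarith [le_abs_self W, abs_nonneg t₀]
      have h6 : φ.2 = (∑ i, φ.1 i * x₀ i + φ.2) - ∑ i, φ.1 i * x₀ i := by ring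
      rw [h6]
      exact (abs_sub _ _).trans (add_le_add h5 h4)
    rw [isBounded_iff_forall_norm_le]
    refine ⟨max (2 * (W - t₀) / r) (|t₀| + |W| + ∑ i, (2 * (W - t₀) / r) * |x₀ i|), ?_⟩
    intro φ hφ
    rw [Prod.norm_def]
    have hWt : t₀ ≤ W := hmin pM hpM
    apply max_le_max
    · rw [pi_norm_le_iff_of_nonneg (by apply div_nonneg _ hr.le; linarith)]
      intro i
      rw [Real.norm_eq_abs]
      exact hco φ hφ i
    · rw [Real.norm_eq_abs]
      exact hb φ hφ
  have hK : IsCompact Φ := Metric.isCompact_of_isClosed_isBounded hcl hbd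
  have hne : Φ.Nonempty := by
    refine ⟨(0, t₀), ?_, ?_⟩
    · intro x hx'
      simp only [Pi.zero_apply, zero_mul, Finset.sum_const_zero, zero_add]
      exact hmin x hx'
    · simp
  obtain ⟨φ, hφ, hφmax⟩ := hK.exists_isMaxOn hne
    (f := fun φ : (ι → ℝ) × ℝ => ∑ i, φ.1 i * x₀ i + φ.2) (by fun_prop)
  refine ⟨φ.1, φ.2, hφ.1, ?_⟩
  by_contra hnot
  obtain ⟨f, u, hf, hu⟩ := geometric_hahn_banach_closed_point (convex_convexHull ℝ _)
    (hull_isCompact (contact A w φ.1 φ.2)).isClosed hnot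
  -- coefficients of f
  let g : ι → ℝ := fun i => f (Pi.single i 1)
  have hg : ∀ y : ι → ℝ, f y = ∑ i, g i * y i := by
    intro y
    have h1 : y = ∑ i, y i • (Pi.single i (1 : ℝ) : ι → ℝ) := by
      ext j
      rw [Finset.sum_apply, Finset.sum_eq_single j]
      · simp
      · intro i _ hi
        simp [Pi.single_eq_of_ne (Ne.symm hi)]
      · intro h; exact absurd (Finset.mem_univ j) h
    conv_lhs => rw [h1]
    rw [map_sum]
    apply Finset.sum_congr rfl
    intro i _
    rw [map_smul, smul_eq_mul, mul_comm]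
  have hev : ∀ᶠ ε in nhdsWithin (0 : ℝ) (Set.Ioi 0), ∀ p ∈ A,
      ∑ i, (φ.1 i + ε * g i) * (p i : ℝ) + (φ.2 - ε * u) ≤ w p := by
    rw [Filter.eventually_all_finset]
    intro p hp
    have e : ∀ ε : ℝ, ∑ i, (φ.1 i + ε * g i) * (p i : ℝ) + (φ.2 - ε * u) =
        (∑ i, φ.1 i * (p i : ℝ) + φ.2) + ε * (f (emb p) - u) := by
      intro ε
      rw [hg, mul_sub, Finset.mul_sum]
      have : ∑ i, (φ.1 i + ε * g i) * (p i : ℝ) =
          ∑ i, φ.1 i * (p i : ℝ) + ∑ i, ε * (g i * emb p i) := by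
        rw [← Finset.sum_add_distrib]
        apply Finset.sum_congr rfl
        intro i _
        simp only [emb]
        ring
      rw [this]; ring
    by_cases hc : p ∈ contact A w φ.1 φ.2
    · have hlt : f (emb p) < u := hf _ (subset_convexHull ℝ _ ⟨p, hc, rfl⟩)
      filter_upwards [self_mem_nhdsWithin] with ε hε
      rw [e]
      have h1 := hφ.1 p hp
      have h2 : ε * (f (emb p) - u) ≤ 0 :=
        mul_nonpos_of_nonneg_of_nonpos (le_of_lt hε) (by linarith)
      linarith
    · have hlt : ∑ i, φ.1 i * (p i : ℝ) + φ.2 < w p := by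
        refine lt_of_le_of_ne (hφ.1 p hp) fun h => hc ?_
        simp only [contact, Finset.mem_filter]
        exact ⟨hp, h⟩
      have htend : Filter.Tendsto (fun ε : ℝ => (∑ i, φ.1 i * (p i : ℝ) + φ.2) +
          ε * (f (emb p) - u)) (nhdsWithin 0 (Set.Ioi 0))
          (nhds ((∑ i, φ.1 i * (p i : ℝ) + φ.2) + 0 * (f (emb p) - u))) := by
        apply Filter.Tendsto.mono_left _ nhdsWithin_le_nhds
        apply Continuous.tendsto
        fun_prop
      rw [zero_mul, add_zero] at htend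
      filter_upwards [htend.eventually (gt_mem_nhds hlt)] with ε hε
      rw [e]
      exact le_of_lt hε
  obtain ⟨ε, hε1, hε0⟩ := (hev.and self_mem_nhdsWithin).exists
  have hε0 : 0 < ε := hε0
  have hval : ∑ i, (φ.1 i + ε * g i) * x₀ i + (φ.2 - ε * u) =
      (∑ i, φ.1 i * x₀ i + φ.2) + ε * (f x₀ - u) := by
    rw [hg, mul_sub, Finset.mul_sum]
    have : ∑ i, (φ.1 i + ε * g i) * x₀ i =
        ∑ i, φ.1 i * x₀ i + ∑ i, ε * (g i * x₀ i) := by
      rw [← Finset.sum_add_distrib]
      apply Finset.sum_congr rfl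
      intro i _
      ring
    rw [this]; ring
  have hgt : ∑ i, φ.1 i * x₀ i + φ.2 <
      ∑ i, (φ.1 i + ε * g i) * x₀ i + (φ.2 - ε * u) := by
    rw [hval]
    have : 0 < ε * (f x₀ - u) := mul_pos hε0 (by linarith)
    linarith
  have hmem : ((fun i => φ.1 i + ε * g i, φ.2 - ε * u) : (ι → ℝ) × ℝ) ∈ Φ := by
    refine ⟨hε1, ?_⟩
    exact hφ.2.trans hgt.le
  have := hφmax hmem
  simp only [Set.mem_ofPred_eq] at this
  linarith

theorem covers {ι : Type} [Fintype ι] {A : Finset (ι → ℤ)} (hint : (interior (hull A)).Nonempty)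
    (w : (ι → ℤ) → ℝ) : Covers (hull A) A w := by
  classical
  let 𝒞 : Finset (Finset (ι → ℤ)) := A.powerset.filter (fun C =>
    ∃ (a : ι → ℝ) (b : ℝ), (∀ x ∈ A, ∑ i, a i * (x i : ℝ) + b ≤ w x) ∧ C = contact A w a b)
  let U : Set (ι → ℝ) := ⋃ C ∈ 𝒞, hull C
  have hU : IsClosed U := by
    apply Set.Finite.isClosed_biUnion (Finset.finite_toSet 𝒞)
    intro C _
    exact (hull_isCompact C).isClosed
  have hsub : interior (hull A) ⊆ U := by
    intro x hx
    obtain ⟨a, b, hab, hxc⟩ := covers_int w hx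
    refine Set.mem_biUnion (x := contact A w a b) ?_ hxc
    simp only [𝒞, Finset.mem_coe, Finset.mem_filter, Finset.mem_powerset]
    refine ⟨?_, a, b, hab, rfl⟩
    intro p hp
    simp only [contact, Finset.mem_filter] at hp
    exact hp.1
  have hcl : closure (interior (hull A)) ⊆ U := closure_minimal hsub hU
  have heq : closure (interior (hull A)) = closure (hull A) :=
    (convex_convexHull ℝ _).closure_interior_eq_closure_of_nonempty_interior hint
  intro x hx
  have hxU : x ∈ U := hcl (heq ▸ subset_closure hx)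
  simp only [U, Set.mem_iUnion] at hxU
  obtain ⟨C, hC, hxC⟩ := hxU
  simp only [𝒞, Finset.mem_filter] at hC
  obtain ⟨_, a, b, hab, rfl⟩ := hC
  exact ⟨a, b, hab, hxC⟩

end Pool.Agent.SPB
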