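import Pool.Agent.SPB.Stab

/-!
# [SPB-Total] from the Cayley family to the total space

`w y = N * η (tl y) + ω (tl y) (hd y)`, `N` large. Let `(g, b)` be an affine function on `ℝ^(k+2)`, `g · y + b ≤ w y` on `B`; put `a = (g 0, g 1)`, `g' = tl g`. For `q ∈ AQ`, `A q ≠ ∅` (by `hv`); `m q = min_{x ∈ A q} (ω q x - dotR a x)`. The hypothesis says `g' · q + b ≤ N η q + m q` for `q ∈ AQ`, and `y` is in the contact set iff, with
`q = tl y`, equality holds at `q` and `hd y ∈ arg (A q) (ω q) a`. Let `B₀ = {q ∈ AQ | g' · q + b = N η q + m q}`.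
`Uni B₀`: let `x_a q` be the point of `hv` for `a`; `W ≥ |ω q x|` for all `q ∈ AQ`, `x ∈ A q`. `-m q - dotR a (x_a q) = max_x (dotR a x - ω q x) - dotR a (x_a q) ∈ [-W, W]`. `dotR a (x_a q)` is an affine function of `q`. So
`(g' · q + b + dotR a (x_a q)) / N ≤ η q + e q / N`, `e q = m q + dotR a (x_a q)`, `|e q| ≤ W`, with equality exactly on `B₀`: by `stab` with `ε ≥ W / N`, `Uni B₀`.
`Uni` of the contact set `C = {y | tl y ∈ B₀, hd y ∈ arg (A (tl y)) ..}`: let `c` have integral sums. `μ q = ∑_{y ∈ C, tl y = q} c y` satisfies the hypotheses of `Uni B₀` (coordinates `≥ 2`), so `μ q` is an integer. Now apply `Good` (at `a`) to the coefficients `c (q, x)` for `q ∈ B₀` and `0` for `q ∈ AQ \ B₀`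
(coordinates `0` and `1` of the sum).
-/

open Finset

set_option autoImplicit false

namespace Pool.Agent.SPB

/-- the last `k` coordinates -/
def tl {α : Type} {k : ℕ} (y : Fin (k + 2) → α) : Fin k → α := fun i => y i.succ.succ

/-- the first two coordinates -/
def hd {k : ℕ} (y : Fin (k + 2) → ℤ) : V := (y 0, y 1)

/-- the point with first two coordinates `x` and last coordinates `q` -/
private def totMk {k : ℕ} (x : V) (q : Fin k → ℤ) : Fin (k + 2) → ℤ := Fin.cons x.1 (Fin.cons x.2 q)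

private lemma totMk_tl {k : ℕ} (x : V) (q : Fin k → ℤ) : tl (totMk x q) = q := by
  funext i
  simp [tl, totMk]

private lemma totMk_hd {k : ℕ} (x : V) (q : Fin k → ℤ) : hd (totMk x q) = x := by
  simp only [hd, totMk, Fin.cons_zero]
  ext
  · rfl
  · rfl

private lemma totMk_eta {k : ℕ} (y : Fin (k + 2) → ℤ) : totMk (hd y) (tl y) = y := by
  funext i
  refine Fin.cases ?_ (fun j => ?_) i
  · simp [totMk, hd]
  · refine Fin.cases ?_ (fun l => ?_) j
    · simp [totMk, hd]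
    · simp [totMk, tl]

private lemma totMk_sum {k : ℕ} (g : Fin (k + 2) → ℝ) (y : Fin (k + 2) → ℤ) :
    ∑ i, g i * (y i : ℝ) = dotR (g 0, g 1) (hd y) + ∑ i : Fin k, g i.succ.succ * ((tl y i : ℤ) : ℝ) := by
  rw [Fin.sum_univ_succ, Fin.sum_univ_succ]
  simp only [dotR, hd, tl, Fin.succ_zero_eq_one]
  ring

/-- minimum of the heights minus a linear function -/
private lemma tot_min (A : Finset V) (ω : V → ℝ) (a : ℝ × ℝ) :
    ∃ m : ℝ, A.Nonempty → (∀ x ∈ A, m ≤ ω x - dotR a x) ∧ ∃ x ∈ A, ω x - dotR a x = m := by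
  by_cases h : A.Nonempty
  · obtain ⟨x, hx, hm⟩ := A.exists_min_image (fun x => ω x - dotR a x) h
    exact ⟨ω x - dotR a x, fun _ => ⟨hm, x, hx, rfl⟩⟩
  · exact ⟨0, fun h' => absurd h' h⟩

theorem total {k : ℕ} {AQ : Finset (Fin k → ℤ)} {η : (Fin k → ℤ) → ℝ} (hη : RU AQ η) (hc : Covers (hull AQ) AQ η)
    (A : (Fin k → ℤ) → Finset V) (ω : (Fin k → ℤ) → V → ℝ)
    (hG : Good (fun q : AQ => A q.1) (fun q : AQ => ω q.1))
    (hv : ∀ a : ℝ × ℝ, ∃ (m₁ m₂ : Fin k → ℤ) (c₁ c₂ : ℤ), ∀ q ∈ AQ,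
      (∑ i, m₁ i * q i + c₁, ∑ i, m₂ i * q i + c₂) ∈ A q ∧
      ∀ x ∈ A q, dotR a x ≤ dotR a (∑ i, m₁ i * q i + c₁, ∑ i, m₂ i * q i + c₂))
    (B : Finset (Fin (k + 2) → ℤ)) (hB : ∀ y, y ∈ B ↔ tl y ∈ AQ ∧ hd y ∈ A (tl y)) :
    ∃ w, RU B w := by
  classical
  obtain ⟨ε, hε, hst⟩ := stab hη hc
  -- bound of the heights
  obtain ⟨W, hW0, hW⟩ : ∃ W : ℝ, 0 ≤ W ∧ ∀ q ∈ AQ, ∀ x ∈ A q, |ω q x| ≤ W := by
    refine ⟨∑ q ∈ AQ, ∑ x ∈ A q, |ω q x|, ?_, fun q hq x hx => ?_⟩
    · exact Finset.sum_nonneg (fun q _ => Finset.sum_nonneg (fun x _ => abs_nonneg _))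
    · calc |ω q x| ≤ ∑ x ∈ A q, |ω q x| :=
            Finset.single_le_sum (f := fun x => |ω q x|) (fun x _ => abs_nonneg _) hx
        _ ≤ _ := Finset.single_le_sum (f := fun q => ∑ x ∈ A q, |ω q x|)
            (fun q _ => Finset.sum_nonneg (fun x _ => abs_nonneg _)) hq
  obtain ⟨N, hN, hNW⟩ : ∃ N : ℝ, 0 < N ∧ W ≤ ε * N := by
    refine ⟨W / ε + 1, by positivity, ?_⟩
    rw [mul_add, mul_div_cancel₀ _ hε.ne']
    linarith
  refine ⟨fun y => N * η (tl y) + ω (tl y) (hd y), ?_⟩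
  intro g b hg
  set a : ℝ × ℝ := (g 0, g 1) with ha
  obtain ⟨m₁, m₂, c₁, c₂, hx⟩ := hv a
  choose m hm using fun q : Fin k → ℤ => tot_min (A q) (ω q) a
  have hne : ∀ q ∈ AQ, (A q).Nonempty := fun q hq => ⟨_, (hx q hq).1⟩
  have hm1 : ∀ q ∈ AQ, ∀ x ∈ A q, m q ≤ ω q x - dotR a x := fun q hq => (hm q (hne q hq)).1
  have hm2 : ∀ q ∈ AQ, ∃ x ∈ A q, ω q x - dotR a x = m q := fun q hq => (hm q (hne q hq)).2
  -- the inequality on `AQ`
  have hle : ∀ q ∈ AQ, ∑ i : Fin k, g i.succ.succ * (q i : ℝ) + b ≤ N * η q + m q := by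
    intro q hq
    obtain ⟨x, hxA, hxm⟩ := hm2 q hq
    have h1 := hg (totMk x q) ((hB _).2 (by rw [totMk_tl, totMk_hd]; exact ⟨hq, hxA⟩))
    beta_reduce at h1
    rw [totMk_sum, totMk_tl, totMk_hd, ← ha] at h1
    linarith
  set B₀ := AQ.filter (fun q => ∑ i : Fin k, g i.succ.succ * (q i : ℝ) + b = N * η q + m q) with hB0
  have hB0' : ∀ q, q ∈ B₀ ↔ q ∈ AQ ∧ ∑ i : Fin k, g i.succ.succ * (q i : ℝ) + b = N * η q + m q := by
    intro q
    rw [hB0, Finset.mem_filter]
  set C := contact B (fun y => N * η (tl y) + ω (tl y) (hd y)) g b with hC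
  have hCm : ∀ y, y ∈ C ↔ tl y ∈ B₀ ∧ hd y ∈ arg (A (tl y)) (ω (tl y)) a := by
    intro y
    rw [hC, contact, Finset.mem_filter, hB, hB0', arg, Finset.mem_filter, totMk_sum, ← ha]
    constructor
    · rintro ⟨⟨h1, h2⟩, h3⟩
      have h4 := hle _ h1
      have h5 := hm1 _ h1 _ h2
      have h6 : ω (tl y) (hd y) - dotR a (hd y) = m (tl y) := by linarith
      refine ⟨⟨h1, by linarith⟩, h2, fun z hz => ?_⟩
      have := hm1 _ h1 z hz
      linarith
    · rintro ⟨⟨h1, h2⟩, h3, h4⟩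
      refine ⟨⟨h1, h3⟩, ?_⟩
      obtain ⟨z, hz, hzm⟩ := hm2 _ h1
      have h5 := h4 z hz
      have h6 := hm1 _ h1 _ h3
      linarith
  -- `B₀` is unimodular
  have hU0 : Uni B₀ := by
    have hw' := hst (fun q => η q + (m q + dotR a (∑ i, m₁ i * q i + c₁, ∑ i, m₂ i * q i + c₂)) / N)
      (by
        intro q hq
        obtain ⟨x, hxA, hxm⟩ := hm2 q hq
        have h1 := hm1 q hq _ (hx q hq).1
        have h2 := (hx q hq).2 x hxA
        have h3 := abs_le.1 (hW q hq _ (hx q hq).1)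
        have h4 := abs_le.1 (hW q hq _ hxA)
        rw [add_sub_cancel_left, abs_div, abs_of_pos hN, div_le_iff₀ hN]
        refine le_trans (abs_le.2 ⟨?_, ?_⟩) hNW
        · linarith [h4.1]
        · linarith [h3.2])
    have hkey : ∀ q : Fin k → ℤ,
        ∑ i, (g i.succ.succ + a.1 * m₁ i + a.2 * m₂ i) / N * (q i : ℝ) + (b + a.1 * c₁ + a.2 * c₂) / N
        = (∑ i : Fin k, g i.succ.succ * (q i : ℝ) + b
          + dotR a (∑ i, m₁ i * q i + c₁, ∑ i, m₂ i * q i + c₂)) / N := by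
      intro q
      have e1 : ∀ i, (g i.succ.succ + a.1 * m₁ i + a.2 * m₂ i) / N * (q i : ℝ)
          = (g i.succ.succ * (q i : ℝ) + a.1 * (m₁ i * q i) + a.2 * (m₂ i * q i)) / N := by
        intro i
        ring
      simp only [e1]
      rw [← Finset.sum_div, Finset.sum_add_distrib, Finset.sum_add_distrib, ← Finset.mul_sum, ← Finset.mul_sum,
        ← add_div]
      congr 1
      simp only [dotR]
      push_cast
      ring
    have hu := hw' (fun i => (g i.succ.succ + a.1 * m₁ i + a.2 * m₂ i) / N) ((b + a.1 * c₁ + a.2 * c₂) / N)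
      (by
        intro q hq
        beta_reduce
        rw [hkey q, div_le_iff₀ hN, add_mul, div_mul_cancel₀ _ hN.ne']
        have := hle q hq
        linarith)
    have hBe : contact AQ (fun q => η q + (m q + dotR a (∑ i, m₁ i * q i + c₁, ∑ i, m₂ i * q i + c₂)) / N)
        (fun i => (g i.succ.succ + a.1 * m₁ i + a.2 * m₂ i) / N) ((b + a.1 * c₁ + a.2 * c₂) / N) = B₀ := by
      ext q
      rw [contact, Finset.mem_filter, hB0']
      refine and_congr_right (fun _ => ?_)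
      rw [hkey q, div_eq_iff hN.ne', add_mul, div_mul_cancel₀ _ hN.ne']
      constructor
      · intro h
        linarith
      · intro h
        linarith
    rw [hBe] at hu
    exact hu
  -- sums over fibres
  have hfib : ∀ (f : (Fin (k + 2) → ℤ) → ℝ), ∀ q ∈ B₀,
      ∑ x ∈ arg (A q) (ω q) a, f (totMk x q) = ∑ y ∈ C with tl y = q, f y := by
    intro f q hq
    refine Finset.sum_bij' (fun x _ => totMk x q) (fun y _ => hd y) ?_ ?_ ?_ ?_ ?_
    · intro x hx'
      rw [Finset.mem_filter, hCm, totMk_tl, totMk_hd]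
      exact ⟨⟨hq, hx'⟩, rfl⟩
    · intro y hy
      rw [Finset.mem_filter, hCm] at hy
      obtain ⟨⟨h1, h2⟩, rfl⟩ := hy
      exact h2
    · intro x _
      exact totMk_hd x q
    · intro y hy
      rw [Finset.mem_filter] at hy
      rw [← hy.2]
      exact totMk_eta y
    · intro x _
      rfl
  have hsum : ∀ f : (Fin (k + 2) → ℤ) → ℝ, ∑ q ∈ B₀, ∑ y ∈ C with tl y = q, f y = ∑ y ∈ C, f y := by
    intro f
    exact Finset.sum_fiberwise_of_maps_to (fun y hy => ((hCm y).1 hy).1) f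
  intro c h0 hi
  have hμ : ∀ q ∈ B₀, IsInt (∑ y ∈ C with tl y = q, c y) := by
    refine hU0 (fun q => ∑ y ∈ C with tl y = q, c y) ?_ ?_
    · rw [hsum c]
      exact h0
    · intro i
      have e : ∑ q ∈ B₀, (∑ y ∈ C with tl y = q, c y) * (q i : ℝ) = ∑ y ∈ C, c y * (y i.succ.succ : ℝ) := by
        rw [← hsum (fun y => c y * (y i.succ.succ : ℝ))]
        refine Finset.sum_congr rfl (fun q _ => ?_)
        rw [Finset.sum_mul]
        refine Finset.sum_congr rfl (fun y hy => ?_)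
        rw [Finset.mem_filter] at hy
        rw [← hy.2]
        rfl
      rw [e]
      exact hi _
  have hsub : B₀ ⊆ AQ := Finset.filter_subset _ _
  have htot : ∀ f : (Fin (k + 2) → ℤ) → ℝ,
      ∑ q : AQ, ∑ x ∈ arg (A q.1) (ω q.1) a, (if q.1 ∈ B₀ then f (totMk x q.1) else 0) = ∑ y ∈ C, f y := by
    intro f
    rw [← hsum f]
    rw [Finset.sum_coe_sort AQ
      (fun q => ∑ x ∈ arg (A q) (ω q) a, (if q ∈ B₀ then f (totMk x q) else 0))]
    rw [← Finset.sum_subset hsub]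
    · refine Finset.sum_congr rfl (fun q hq => ?_)
      rw [← hfib f q hq]
      refine Finset.sum_congr rfl (fun x _ => ?_)
      rw [if_pos hq]
    · intro q _ hq
      refine Finset.sum_eq_zero (fun x _ => ?_)
      rw [if_neg hq]
  have hfin := hG a (fun q x => if q.1 ∈ B₀ then c (totMk x q.1) else 0) (by
      intro q
      by_cases hq : q.1 ∈ B₀
      · simp only [if_pos hq]
        rw [hfib c q.1 hq]
        exact hμ _ hq
      · simp only [if_neg hq, Finset.sum_const_zero]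
        exact ⟨0, by simp⟩) (by
      have e := htot (fun y => c y * (y 0 : ℝ))
      have e2 : ∀ (q : AQ) (x : V), (if q.1 ∈ B₀ then c (totMk x q.1) else 0) * (x.1 : ℝ)
          = if q.1 ∈ B₀ then c (totMk x q.1) * ((totMk x q.1) 0 : ℝ) else 0 := by
        intro q x
        split_ifs
        · rfl
        · simp
      simp only [e2]
      rw [e]
      exact hi 0) (by
      have e := htot (fun y => c y * (y 1 : ℝ))
      have e2 : ∀ (q : AQ) (x : V), (if q.1 ∈ B₀ then c (totMk x q.1) else 0) * (x.2 : ℝ)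
          = if q.1 ∈ B₀ then c (totMk x q.1) * ((totMk x q.1) 1 : ℝ) else 0 := by
        intro q x
        split_ifs
        · rfl
        · simp
      simp only [e2]
      rw [e]
      exact hi 1)
  intro y hy
  obtain ⟨h1, h2⟩ := (hCm y).1 hy
  have h3 := hfin ⟨tl y, hsub h1⟩ (hd y) h2
  simp only [if_pos h1, totMk_eta] at h3
  exact h3

end Pool.Agent.SPB
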