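import Pool.Agent.SPB.CurP
import Pool.Agent.SPB.Base
import Pool.Agent.SPB.Total

/-!
# [SPB-CurR] chimney polytopes: heights

`chim_RU`: apply `total` (SPB/Total) to the degenerate polygons `A q = row (1, 0) (l(q), 0) (h(q) - l(q)).toNat ⊆ ℤ × {0}`, good heights by `base_row` (SPB/Base); in `hv` take the right end `(h(q), 0)` if `a.1 ≥ 0`, the left end otherwise. This gives heights `w'` on `B' = {(x, 0, q)}` (the image of `B`); put `w (x, q) = w' (x, 0, q)`: an affine function on `ℝ^(k+1)` and coefficients on `B` are transported by `(x, q) ↦ (x, 0, q)`.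
-/

open Finset

set_option autoImplicit false

namespace Pool.Agent.SPB

/-- insert a zero -/
private def crI {k : ℕ} (y : Fin (k + 1) → ℤ) : Fin (k + 2) → ℤ := Fin.cons (y 0) (Fin.cons 0 (fun i => y i.succ))

/-- forget the second coordinate -/
private def crJ {k : ℕ} (y : Fin (k + 2) → ℤ) : Fin (k + 1) → ℤ := Fin.cons (y 0) (fun i => y i.succ.succ)

private lemma crJ_I {k : ℕ} (y : Fin (k + 1) → ℤ) : crJ (crI y) = y := by
  funext i
  refine Fin.cases ?_ (fun j => ?_) i
  · simp [crJ, crI]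
  · simp [crJ, crI]

private lemma cr_mem_row {x s : V} {c : ℕ} : x ∈ row (1, 0) s c ↔ x.2 = s.2 ∧ s.1 ≤ x.1 ∧ x.1 ≤ s.1 + c := by
  unfold row
  rw [Finset.mem_image]
  constructor
  · rintro ⟨t, ht, rfl⟩
    rw [Finset.mem_range] at ht
    refine ⟨by simp, by simp, ?_⟩
    simp only [Prod.fst_add, Prod.smul_fst, smul_eq_mul, mul_one]
    omega
  · rintro ⟨h1, h2, h3⟩
    refine ⟨(x.1 - s.1).toNat, by rw [Finset.mem_range]; omega, ?_⟩
    have : (((x.1 - s.1).toNat : ℕ) : ℤ) = x.1 - s.1 := by omega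
    rw [this]
    ext
    · simp
    · simp [h1]

theorem chim_RU {k : ℕ} {l : Fin k → ℤ} {m : ℤ} {h : Fin k → ℤ} {c : ℤ} {AQ : Finset (Fin k → ℤ)}
    (hlh : ∀ q ∈ AQ, ∑ i, l i * q i + m ≤ ∑ i, h i * q i + c) {η : (Fin k → ℤ) → ℝ} (hη : RU AQ η)
    (hc : Covers (hull AQ) AQ η) {B : Finset (Fin (k + 1) → ℤ)}
    (hB : ∀ y, y ∈ B ↔ (fun i : Fin k => y i.succ) ∈ AQ ∧ ∑ i, l i * y i.succ + m ≤ y 0 ∧
      y 0 ≤ ∑ i, h i * y i.succ + c) : ∃ w, RU B w := by
  classical
  let s : (Fin k → ℤ) → V := fun q => (∑ i, l i * q i + m, 0)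
  let n : (Fin k → ℤ) → ℕ := fun q => ((∑ i, h i * q i + c) - (∑ i, l i * q i + m)).toNat
  obtain ⟨ω₀, hω₀⟩ := base_row (κ := AQ) (e := (1, 0)) (by unfold Prim; exact isCoprime_one_left)
    (fun q => s q.1) (fun q => n q.1)
  let ω : (Fin k → ℤ) → V → ℝ := fun q => if hq : q ∈ AQ then ω₀ ⟨q, hq⟩ else 0
  have hω : Good (fun q : AQ => row (1, 0) (s q.1) (n q.1)) (fun q : AQ => ω q.1) := by
    have : (fun q : AQ => ω q.1) = ω₀ := by
      funext q
      simp [ω]
    rw [this]
    exact hω₀
  have hn : ∀ q ∈ AQ, ((n q : ℕ) : ℤ) = (∑ i, h i * q i + c) - (∑ i, l i * q i + m) := by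
    intro q hq
    have := hlh q hq
    simp only [n]
    omega
  let B' : Finset (Fin (k + 2) → ℤ) := B.image crI
  obtain ⟨w', hw'⟩ := total hη hc (fun q => row (1, 0) (s q) (n q)) ω hω (by
    intro a
    rcases le_or_gt 0 a.1 with ha | ha
    · refine ⟨h, fun _ => 0, c, 0, ?_⟩
      intro q hq
      have h1 := hn q hq
      have h2 := hlh q hq
      refine ⟨?_, ?_⟩
      · rw [cr_mem_row]
        refine ⟨by simp [s], h2, ?_⟩
        simp only [s]
        omega
      · intro x hx
        rw [cr_mem_row] at hx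
        obtain ⟨e1, e2, e3⟩ := hx
        have h3 : x.1 ≤ ∑ i, h i * q i + c := by
          simp only [s] at e3
          omega
        have h4 : x.2 = 0 := e1
        unfold dotR
        simp only [zero_mul, Finset.sum_const_zero, add_zero, h4]
        have h5 : (x.1 : ℝ) ≤ ((∑ i, h i * q i + c : ℤ) : ℝ) := by exact_mod_cast h3
        have := mul_le_mul_of_nonneg_left h5 ha
        simpa using this
    · refine ⟨l, fun _ => 0, m, 0, ?_⟩
      intro q hq
      have h1 := hn q hq
      have h2 := hlh q hq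
      refine ⟨?_, ?_⟩
      · rw [cr_mem_row]
        refine ⟨by simp [s], le_refl _, ?_⟩
        simp only [s]
        omega
      · intro x hx
        rw [cr_mem_row] at hx
        obtain ⟨e1, e2, e3⟩ := hx
        have h3 : ∑ i, l i * q i + m ≤ x.1 := e2
        have h4 : x.2 = 0 := e1
        unfold dotR
        simp only [zero_mul, Finset.sum_const_zero, add_zero, h4]
        have h5 : ((∑ i, l i * q i + m : ℤ) : ℝ) ≤ (x.1 : ℝ) := by exact_mod_cast h3
        have := mul_le_mul_of_nonpos_left h5 ha.le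
        simpa using this) B' (by
    intro y
    simp only [B', Finset.mem_image]
    constructor
    · rintro ⟨z, hz, rfl⟩
      have hz' := (hB z).1 hz
      have e1 : tl (crI z) = fun i : Fin k => z i.succ := by
        funext i
        simp [tl, crI]
      have e2 : hd (crI z) = (z 0, 0) := by
        simp [hd, crI]
      rw [e1, e2]
      refine ⟨hz'.1, ?_⟩
      rw [cr_mem_row]
      have h1 := hn _ hz'.1
      refine ⟨rfl, hz'.2.1, ?_⟩
      simp only [s] at h1 ⊢
      have := hz'.2.2
      omega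
    · rintro ⟨h1, h2⟩
      rw [cr_mem_row] at h2
      obtain ⟨e1, e2, e3⟩ := h2
      have h3 := hn _ h1
      simp only [s, hd] at e1 e2 e3 h3
      refine ⟨crJ y, ?_, ?_⟩
      · rw [hB]
        have e4 : (fun i : Fin k => crJ y i.succ) = tl y := by
          funext i
          simp [crJ, tl]
        rw [e4]
        have e5 : crJ y 0 = y 0 := by simp [crJ]
        have e6 : ∀ i, crJ y (Fin.succ i) = tl y i := fun i => congrFun e4 i
        simp only [e5, e6]
        refine ⟨h1, e2, ?_⟩
        omega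
      · funext i
        refine Fin.cases ?_ (fun j => ?_) i
        · simp [crI, crJ]
        · refine Fin.cases ?_ (fun t => ?_) j
          · simp only [crI, Fin.cons_succ, Fin.cons_zero]
            simpa using e1.symm
          · simp [crI, crJ])
  have hcast : ∀ (f : (Fin (k + 1) → ℝ)) (y : Fin (k + 1) → ℤ),
      ∑ i, (Fin.cons (f 0) (Fin.cons 0 (fun i => f i.succ)) : Fin (k + 2) → ℝ) i * ((crI y i : ℤ) : ℝ)
        = ∑ i, f i * (y i : ℝ) := by
    intro f y
    rw [Fin.sum_univ_succ, Fin.sum_univ_succ, Fin.sum_univ_succ (n := k)]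
    simp [crI]
  refine ⟨fun y => w' (crI y), ?_⟩
  intro g b hg
  have hg' := hw' (Fin.cons (g 0) (Fin.cons 0 (fun i => g i.succ))) b (by
    intro z hz
    obtain ⟨y, hy, rfl⟩ := Finset.mem_image.1 hz
    rw [hcast]
    exact hg y hy)
  have hcon : contact B' w' (Fin.cons (g 0) (Fin.cons 0 (fun i => g i.succ))) b =
      (contact B (fun y => w' (crI y)) g b).image crI := by
    ext z
    simp only [contact, Finset.mem_filter, Finset.mem_image, B']
    constructor
    · rintro ⟨⟨y, hy, rfl⟩, hz⟩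
      rw [hcast] at hz
      exact ⟨y, ⟨hy, hz⟩, rfl⟩
    · rintro ⟨y, ⟨hy, hz⟩, rfl⟩
      refine ⟨⟨y, hy, rfl⟩, ?_⟩
      rw [hcast]
      exact hz
  rw [hcon] at hg'
  intro d hd0 hd1
  have hinj : ∀ x ∈ contact B (fun y => w' (crI y)) g b, ∀ y ∈ contact B (fun y => w' (crI y)) g b,
      crI x = crI y → x = y := by
    intro x _ y _ hxy
    rw [← crJ_I x, hxy, crJ_I]
  have hs : ∀ f : (Fin (k + 2) → ℤ) → ℝ, ∑ z ∈ (contact B (fun y => w' (crI y)) g b).image crI, f z =
      ∑ y ∈ contact B (fun y => w' (crI y)) g b, f (crI y) := fun f => Finset.sum_image hinj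
  have key := hg' (fun z => d (crJ z)) (by
      rw [hs]
      simpa only [crJ_I] using hd0) (by
      intro i
      rw [hs]
      simp only [crJ_I]
      refine Fin.cases ?_ (fun j => ?_) i
      · simpa [crI] using hd1 0
      · refine Fin.cases ?_ (fun t => ?_) j
        · exact ⟨0, by simp [crI]⟩
        · simpa [crI] using hd1 t.succ)
  intro y hy
  have := key (crI y) (Finset.mem_image_of_mem _ hy)
  simpa only [crJ_I] using this

end Pool.Agent.SPB
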