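import Pool.Agent.SPB.TriA

/-!
# [SPB-Tri] from heights to regular unimodular triangulations

`hasRUT_of_RU`: `T` = the nonempty contact sets `contact A w a b` with `a · x + b ≤ w x` on `A` (a subset of `A.powerset`). `nonempty` clear. `indep` by `RU`, `uni_unimod`. `face`: `s = contact A w a b`, `t ⊆ s` nonempty; the vectors `(x, 1)`, `x ∈ s`, are linearly independent, so there is an affine function
`ψ` with `ψ = 0` on `t`, `ψ = -1` on `s \ t`; `φ + ε ψ` has contact set `t` for small `ε > 0` (finitely many conditions). `inter`: if `p ∈ hull s ∩ hull t`, `s`, `t` contact sets of `φ`, `ψ`: `φ(p) = ∑ λ w(x)` (`p = ∑ λ x` over `s`), `φ(p) ≤ ∑ μ w(y) = ψ(p)` (`p = ∑ μ y`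
over `t`) and symmetrically, so `φ(y) = w(y)` whenever `μ_y > 0`; so `p` is a convex combination of points of `s ∩ t`. `cover`: `Covers`, and `hull s ⊆ hull A`. Unimodular: `uni_unimod`. `IsReg` with `w`: it remains to see that `{x} ∈ T` iff `x ∈ A`: for `x ∈ A`, `emb x ∈ hull A`
lies in `hull s` for a contact set `s`; by `lattice_pt` `x ∈ s`; use `face`.
-/

open Finset

set_option autoImplicit false

namespace Pool.Agent.SPB

/-- extra lemma: a linear functional with prescribed values on a linearly independent family -/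
private theorem tri_exists_linear {κ E : Type} [AddCommGroup E] [Module ℝ E] {v : κ → E}
    (h : LinearIndependent ℝ v) (f : κ → ℝ) : ∃ g : E →ₗ[ℝ] ℝ, ∀ k, g (v k) = f k := by
  obtain ⟨g, hg⟩ := LinearMap.exists_extend ((Module.Basis.span h).constr ℝ f)
  refine ⟨g, fun k => ?_⟩
  have h1 : ((Module.Basis.span h) k : E) = v k := by
    rw [Module.Basis.span_apply]
  have h2 : g ((Module.Basis.span h) k : E) = ((Module.Basis.span h).constr ℝ f) ((Module.Basis.span h) k) := by
    rw [← hg]; rfl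
  rw [Module.Basis.constr_basis, h1] at h2
  exact h2

/-- extra lemma: affine functions with prescribed values on an affinely independent set -/
theorem exists_affine {ι : Type} [Fintype ι] {s : Finset (ι → ℤ)} (h : AffineIndependent ℝ (fun x : s => emb x.1))
    (f : (ι → ℤ) → ℝ) : ∃ (a : ι → ℝ) (b : ℝ), ∀ x ∈ s, ∑ i, a i * (x i : ℝ) + b = f x := by
  classical
  rcases s.eq_empty_or_nonempty with hs | ⟨x₀, hx₀⟩
  · subst hs
    exact ⟨0, 0, by simp⟩
  · have h1 := (affineIndependent_iff_linearIndependent_vsub ℝ (fun x : s => emb x.1) ⟨x₀, hx₀⟩).1 h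
    obtain ⟨g, hg⟩ := tri_exists_linear h1 (fun x => f x.1.1 - f x₀)
    have hgs : ∀ y : ι → ℝ, g y = ∑ i, g (Pi.single i 1) * y i := by
      intro y
      rw [LinearMap.pi_apply_eq_sum_univ g y]
      refine Finset.sum_congr rfl fun i _ => ?_
      rw [smul_eq_mul, mul_comm]
      congr 2
      funext j
      by_cases hij : i = j
      · subst hij; simp
      · rw [Pi.single_eq_of_ne (Ne.symm hij), if_neg hij]
    refine ⟨fun i => g (Pi.single i 1), f x₀ - g (emb x₀), fun x hx => ?_⟩
    have h2 : ∑ i, g (Pi.single i 1) * (x i : ℝ) = g (emb x) := (hgs (emb x)).symm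
    rw [h2]
    by_cases hxx : x = x₀
    · subst hxx; ring
    · have h3 := hg ⟨⟨x, hx⟩, fun h' => hxx (congrArg Subtype.val h')⟩
      simp only [vsub_eq_sub, map_sub] at h3
      linarith

private theorem tri_hull_mono {ι : Type} {s t : Finset (ι → ℤ)} (h : s ⊆ t) : hull s ⊆ hull t :=
  convexHull_mono (Set.image_mono (fun _ hx => h hx))

private theorem tri_mem_contact {ι : Type} [Fintype ι] {A : Finset (ι → ℤ)} {w : (ι → ℤ) → ℝ} {a : ι → ℝ} {b : ℝ}
    {x : ι → ℤ} : x ∈ contact A w a b ↔ x ∈ A ∧ ∑ i, a i * (x i : ℝ) + b = w x := by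
  classical
  unfold contact
  rw [Finset.mem_filter]

/-- value of an affine function at a convex combination -/
private theorem tri_val {ι : Type} [Fintype ι] {s : Finset (ι → ℤ)} {p : ι → ℝ} {l : (ι → ℤ) → ℝ}
    (h1 : ∑ y ∈ s, l y = 1) (h2 : ∀ i, ∑ y ∈ s, l y * (y i : ℝ) = p i) (a : ι → ℝ) (b : ℝ) :
    ∑ i, a i * p i + b = ∑ y ∈ s, l y * (∑ i, a i * (y i : ℝ) + b) := by
  have h3 : ∑ y ∈ s, l y * (∑ i, a i * (y i : ℝ) + b) =
      ∑ y ∈ s, ∑ i, a i * (l y * (y i : ℝ)) + b * ∑ y ∈ s, l y := by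
    rw [Finset.mul_sum, ← Finset.sum_add_distrib]
    refine Finset.sum_congr rfl fun y _ => ?_
    rw [mul_add, Finset.mul_sum]
    congr 1
    · exact Finset.sum_congr rfl fun i _ => by ring
    · ring
  rw [h3, h1, mul_one, Finset.sum_comm]
  congr 1
  refine Finset.sum_congr rfl fun i _ => ?_
  rw [← Finset.mul_sum, h2]

/-- a face of a lower face is a lower face -/
private theorem tri_face {ι : Type} [Fintype ι] {A : Finset (ι → ℤ)} {w : (ι → ℤ) → ℝ} (h : RU A w)
    {a : ι → ℝ} {b : ℝ} (hab : ∀ x ∈ A, ∑ i, a i * (x i : ℝ) + b ≤ w x) {t : Finset (ι → ℤ)}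
    (ht : t ⊆ contact A w a b) :
    ∃ (a' : ι → ℝ) (b' : ℝ), (∀ x ∈ A, ∑ i, a' i * (x i : ℝ) + b' ≤ w x) ∧ t = contact A w a' b' := by
  classical
  obtain ⟨α, β, hαβ⟩ := exists_affine (uni_unimod (h a b hab)).1 (fun x => if x ∈ t then 0 else -1)
  have hev : ∀ᶠ ε in nhdsWithin (0 : ℝ) (Set.Ioi 0), ∀ x ∈ A, x ∉ contact A w a b →
      ε * (∑ i, α i * (x i : ℝ) + β) < w x - (∑ i, a i * (x i : ℝ) + b) := by
    rw [Finset.eventually_all]
    intro x hx
    by_cases hxc : x ∈ contact A w a b
    · exact Filter.Eventually.of_forall fun ε h' => absurd hxc h'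
    · have hpos : 0 < w x - (∑ i, a i * (x i : ℝ) + b) := by
        have h1 := hab x hx
        have h2 : ∑ i, a i * (x i : ℝ) + b ≠ w x := fun h' => hxc (tri_mem_contact.2 ⟨hx, h'⟩)
        have h3 := lt_of_le_of_ne h1 h2
        linarith
      have hc : Filter.Tendsto (fun ε : ℝ => ε * (∑ i, α i * (x i : ℝ) + β)) (nhdsWithin (0 : ℝ) (Set.Ioi 0))
          (nhds 0) := by
        have h4 : Filter.Tendsto (fun ε : ℝ => ε * (∑ i, α i * (x i : ℝ) + β)) (nhds 0)
            (nhds (0 * (∑ i, α i * (x i : ℝ) + β))) := by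
          exact (continuous_id.mul continuous_const).tendsto 0
        rw [zero_mul] at h4
        exact h4.mono_left nhdsWithin_le_nhds
      exact (hc.eventually (gt_mem_nhds hpos)).mono fun ε h' _ => h'
  obtain ⟨ε, hε, hε0⟩ := (hev.and self_mem_nhdsWithin).exists
  have hε0' : (0 : ℝ) < ε := hε0
  have hval : ∀ x : ι → ℤ, ∑ i, (a i + ε * α i) * (x i : ℝ) + (b + ε * β) =
      (∑ i, a i * (x i : ℝ) + b) + ε * (∑ i, α i * (x i : ℝ) + β) := by
    intro x
    have h5 : ∑ i, (a i + ε * α i) * (x i : ℝ) = ∑ i, a i * (x i : ℝ) + ε * ∑ i, α i * (x i : ℝ) := by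
      rw [Finset.mul_sum, ← Finset.sum_add_distrib]
      exact Finset.sum_congr rfl fun i _ => by ring
    rw [h5]; ring
  refine ⟨fun i => a i + ε * α i, b + ε * β, ?_, ?_⟩
  · intro x hx
    rw [hval]
    by_cases hxc : x ∈ contact A w a b
    · have h6 := hαβ x hxc
      have h7 := (tri_mem_contact.1 hxc).2
      rw [h6, h7]
      by_cases hxt : x ∈ t
      · simp [hxt]
      · simp only [hxt, if_false]; linarith
    · have h8 := hε x hx hxc
      linarith
  · ext x
    rw [tri_mem_contact, hval]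
    constructor
    · intro hxt
      have hxc := ht hxt
      have h7 := (tri_mem_contact.1 hxc)
      refine ⟨h7.1, ?_⟩
      have h6 := hαβ x hxc
      rw [h6, h7.2]
      simp [hxt]
    · rintro ⟨hx, h9⟩
      by_cases hxc : x ∈ contact A w a b
      · by_contra hxt
        have h6 := hαβ x hxc
        have h7 := (tri_mem_contact.1 hxc).2
        rw [h6, h7] at h9
        simp only [hxt, if_false] at h9
        linarith
      · have h8 := hε x hx hxc
        linarith

theorem hasRUT_of_RU {ι : Type} [Fintype ι] {A : Finset (ι → ℤ)} {w : (ι → ℤ) → ℝ} (h : RU A w)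
    (hc : Covers (hull A) A w) : HasRUT (hull A) := by
  classical
  let T : Finset (Finset (ι → ℤ)) := A.powerset.filter (fun s => s.Nonempty ∧ ∃ (a : ι → ℝ) (b : ℝ),
    (∀ x ∈ A, ∑ i, a i * (x i : ℝ) + b ≤ w x) ∧ s = contact A w a b)
  have hT : ∀ s, s ∈ T ↔ s.Nonempty ∧ ∃ (a : ι → ℝ) (b : ℝ),
      (∀ x ∈ A, ∑ i, a i * (x i : ℝ) + b ≤ w x) ∧ s = contact A w a b := by
    intro s
    simp only [T, Finset.mem_filter, Finset.mem_powerset]
    constructor
    · rintro ⟨-, h'⟩; exact h'
    · rintro ⟨h1, a, b, h2, h3⟩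
      refine ⟨?_, h1, a, b, h2, h3⟩
      rw [h3]
      intro x hx
      exact (tri_mem_contact.1 hx).1
  have hTA : ∀ s ∈ T, s ⊆ A := by
    intro s hs
    obtain ⟨-, a, b, -, h3⟩ := (hT s).1 hs
    rw [h3]
    intro x hx
    exact (tri_mem_contact.1 hx).1
  have hface : ∀ s ∈ T, ∀ t : Finset (ι → ℤ), t ⊆ s → t.Nonempty → t ∈ T := by
    intro s hs t hts htn
    obtain ⟨-, a, b, h2, h3⟩ := (hT s).1 hs
    rw [h3] at hts
    exact (hT t).2 ⟨htn, tri_face h h2 hts⟩
  have hUni : ∀ s ∈ T, Unimod s := by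
    intro s hs
    obtain ⟨-, a, b, h2, h3⟩ := (hT s).1 hs
    rw [h3]
    exact uni_unimod (h a b h2)
  have hsing : ∀ x, {x} ∈ T ↔ x ∈ A := by
    intro x
    constructor
    · intro hx
      exact hTA _ hx (Finset.mem_singleton_self x)
    · intro hx
      have hxA : emb x ∈ hull A := subset_convexHull ℝ _ ⟨x, hx, rfl⟩
      obtain ⟨a, b, h2, h3⟩ := hc _ hxA
      have h4 : x ∈ contact A w a b := lattice_pt (uni_unimod (h a b h2)) h3
      have h5 : contact A w a b ∈ T := (hT _).2 ⟨⟨x, h4⟩, a, b, h2, rfl⟩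
      exact hface _ h5 {x} (Finset.singleton_subset_iff.2 h4) (Finset.singleton_nonempty x)
  refine ⟨T, ⟨?_, ?_, hface, ?_, ?_⟩, hUni, w, ?_⟩
  · intro s hs
    exact ((hT s).1 hs).1
  · intro s hs
    exact (hUni s hs).1
  · intro s hs t ht
    apply Set.Subset.antisymm
    · rintro p ⟨hps, hpt⟩
      obtain ⟨-, a, b, ha, hsa⟩ := (hT s).1 hs
      obtain ⟨-, a', b', ha', hta⟩ := (hT t).1 ht
      obtain ⟨l, hl0, hl1, hl2⟩ := mem_hull.1 hps
      obtain ⟨m, hm0, hm1, hm2⟩ := mem_hull.1 hpt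
      have e1 := tri_val hl1 hl2 a b
      have e2 := tri_val hl1 hl2 a' b'
      have e3 := tri_val hm1 hm2 a b
      have e4 := tri_val hm1 hm2 a' b'
      have e1' : ∑ i, a i * p i + b = ∑ y ∈ s, l y * w y := by
        rw [e1]
        refine Finset.sum_congr rfl fun y hy => ?_
        rw [hsa] at hy
        rw [(tri_mem_contact.1 hy).2]
      have e4' : ∑ i, a' i * p i + b' = ∑ y ∈ t, m y * w y := by
        rw [e4]
        refine Finset.sum_congr rfl fun y hy => ?_
        rw [hta] at hy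
        rw [(tri_mem_contact.1 hy).2]
      have i2 : ∑ i, a' i * p i + b' ≤ ∑ y ∈ s, l y * w y := by
        rw [e2]
        exact Finset.sum_le_sum fun y hy => mul_le_mul_of_nonneg_left (ha' y (hTA s hs hy)) (hl0 y hy)
      have i3 : ∑ i, a i * p i + b ≤ ∑ y ∈ t, m y * w y := by
        rw [e3]
        exact Finset.sum_le_sum fun y hy => mul_le_mul_of_nonneg_left (ha y (hTA t ht hy)) (hm0 y hy)
      have heq : ∑ y ∈ t, m y * (∑ i, a i * (y i : ℝ) + b) = ∑ y ∈ t, m y * w y := by
        rw [← e3]; linarith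
      have hz : ∀ y ∈ t, m y * (w y - (∑ i, a i * (y i : ℝ) + b)) = 0 := by
        have hs0 : ∑ y ∈ t, m y * (w y - (∑ i, a i * (y i : ℝ) + b)) = 0 := by
          have : ∑ y ∈ t, m y * (w y - (∑ i, a i * (y i : ℝ) + b)) =
              ∑ y ∈ t, m y * w y - ∑ y ∈ t, m y * (∑ i, a i * (y i : ℝ) + b) := by
            rw [← Finset.sum_sub_distrib]
            exact Finset.sum_congr rfl fun y _ => by ring
          rw [this, heq, sub_self]
        refine (Finset.sum_eq_zero_iff_of_nonneg fun y hy => ?_).1 hs0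
        exact mul_nonneg (hm0 y hy) (sub_nonneg.2 (ha y (hTA t ht hy)))
      have hm : ∀ y ∈ t, y ∉ s ∩ t → m y = 0 := by
        intro y hy hyn
        rcases mul_eq_zero.1 (hz y hy) with h' | h'
        · exact h'
        · exfalso
          apply hyn
          rw [Finset.mem_inter]
          refine ⟨?_, hy⟩
          rw [hsa]
          exact tri_mem_contact.2 ⟨hTA t ht hy, by linarith⟩
      have hp : p ∈ hull (s ∩ t) := by
        refine mem_hull.2 ⟨m, fun y hy => hm0 y (Finset.mem_inter.1 hy).2, ?_, fun i => ?_⟩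
        · rw [← hm1]
          exact Finset.sum_subset Finset.inter_subset_right hm
        · rw [← hm2 i]
          refine Finset.sum_subset Finset.inter_subset_right fun y hy hyn => ?_
          rw [hm y hy hyn, zero_mul]
      unfold hull at hp
      rw [Finset.coe_inter] at hp
      exact hp
    · refine Set.subset_inter ?_ ?_
      · exact convexHull_mono (Set.image_mono Set.inter_subset_left)
      · exact convexHull_mono (Set.image_mono Set.inter_subset_right)
  · apply Set.Subset.antisymm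
    · refine Set.iUnion₂_subset fun s hs => tri_hull_mono (hTA s hs)
    · intro p hp
      obtain ⟨a, b, h2, h3⟩ := hc p hp
      have hne : (contact A w a b).Nonempty := by
        rw [Finset.nonempty_iff_ne_empty]
        intro h0
        rw [h0] at h3
        unfold hull at h3
        simp at h3
      exact Set.mem_iUnion₂.2 ⟨contact A w a b, (hT _).2 ⟨hne, a, b, h2, rfl⟩, h3⟩
  · intro s
    rw [hT]
    constructor
    · rintro ⟨hn, a, b, h2, h3⟩
      refine ⟨hn, a, b, fun x hx => h2 x ((hsing x).1 hx), fun x => ?_⟩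
      rw [hsing, h3, tri_mem_contact]
    · rintro ⟨hn, a, b, h2, h3⟩
      refine ⟨hn, a, b, fun x hx => h2 x ((hsing x).2 hx), ?_⟩
      ext x
      rw [h3, hsing, tri_mem_contact]

end Pool.Agent.SPB
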