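import Pool.Agent.SPB.TriA

/-!
# [SPB-TriC] from regular unimodular triangulations to heights

`A = {x | {x} ∈ T}` (as a finset: filter of the union `T.sup id`; `{x} ∈ T` iff `x ∈ s` for some `s ∈ T`), `w` from `IsReg`. `RU`: a contact set is empty (`Uni ∅` is trivial) or in `T`, use `unimod_uni`. `hull A ⊆ P` because `P` is convex and contains `emb x` for `x ∈ A` (`hull {x} ⊆ P`); `P ⊆ hull A` and `Covers` because every point of `P` lies
in `hull s`, `s ∈ T`, and `s` is a contact set by `IsReg`. `x ∈ A ↔ emb x ∈ P`: `lattice_pt` and `face`.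
-/

open Finset

set_option autoImplicit false

namespace Pool.Agent.SPB

theorem RU_of_hasRUT {ι : Type} [Fintype ι] {P : Set (ι → ℝ)} (hP : Convex ℝ P) (h : HasRUT P) :
    ∃ (A : Finset (ι → ℤ)) (w : (ι → ℤ) → ℝ), RU A w ∧ P = hull A ∧ Covers P A w ∧ ∀ x, x ∈ A ↔ emb x ∈ P := by
  classical
  obtain ⟨T, hT, hU, w, hw⟩ := h
  have hcov : ∀ y, y ∈ P ↔ ∃ s ∈ T, y ∈ hull s := by
    intro y
    rw [← hT.cover]
    simp only [Set.mem_iUnion, exists_prop]
  obtain ⟨A, hA⟩ : ∃ A : Finset (ι → ℤ), ∀ x, x ∈ A ↔ {x} ∈ T := by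
    refine ⟨(T.biUnion id).filter (fun x => {x} ∈ T), fun x => ?_⟩
    rw [Finset.mem_filter]
    refine ⟨fun h => h.2, fun h => ⟨?_, h⟩⟩
    rw [Finset.mem_biUnion]
    exact ⟨{x}, h, Finset.mem_singleton_self x⟩
  have hsub : ∀ s ∈ T, ∀ x ∈ s, x ∈ A := fun s hs x hx =>
    (hA x).2 (hT.face s hs {x} (Finset.singleton_subset_iff.2 hx) (Finset.singleton_nonempty x))
  have hmem : ∀ x ∈ A, emb x ∈ P := fun x hx => (hcov _).2 ⟨{x}, (hA x).1 hx, by
    refine subset_convexHull ℝ _ ⟨x, ?_, rfl⟩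
    simp⟩
  refine ⟨A, w, ?_, ?_, ?_, fun x => ⟨hmem x, fun hx => ?_⟩⟩
  · intro a b hab
    by_cases hne : (contact A w a b).Nonempty
    · refine unimod_uni (hU _ ((hw _).2 ⟨hne, a, b, fun x hx => hab x ((hA x).2 hx), fun x => ?_⟩))
      unfold contact
      rw [Finset.mem_filter, hA]
    · rw [Finset.not_nonempty_iff_eq_empty] at hne
      rw [hne]
      intro c _ _ x hx
      exact absurd hx (Finset.notMem_empty x)
  · apply Set.Subset.antisymm
    · intro y hy
      obtain ⟨s, hs, hy⟩ := (hcov y).1 hy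
      refine convexHull_mono (Set.image_mono ?_) hy
      intro x hx
      exact hsub s hs x hx
    · refine convexHull_min ?_ hP
      rintro _ ⟨x, hx, rfl⟩
      exact hmem x hx
  · intro y hy
    obtain ⟨s, hs, hy⟩ := (hcov y).1 hy
    obtain ⟨-, a, b, h1, h2⟩ := (hw s).1 hs
    refine ⟨a, b, fun x hx => h1 x ((hA x).1 hx), ?_⟩
    have h3 : contact A w a b = s := by
      ext x
      unfold contact
      rw [Finset.mem_filter, hA, h2]
    rw [h3]
    exact hy
  · obtain ⟨s, hs, hy⟩ := (hcov _).1 hx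
    exact hsub s hs x (lattice_pt (hU s hs) hy)

end Pool.Agent.SPB
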