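import Pool.Agent.SPB.Smo
import Pool.Agent.SPB.CurR
import Pool.Agent.SPB.Cover
import Pool.Agent.SPB.Tri
import Pool.Agent.SPB.TriC

/-!
# [SPB-Cur] chimney polytopes: regular unimodular triangulations

`chim_rut`: `RU_of_hasRUT` (SPB/TriC) gives `AQ, η`; combine with `covers`, `hasRUT_of_RU`.
-/

open Finset

set_option autoImplicit false

namespace Pool.Agent.SPB

/-- an affine inequality passes from the lattice points to their hull -/
theorem hull_affine_le {ι : Type} [Fintype ι] {A : Finset (ι → ℤ)} {l : ι → ℤ} {m : ℤ} {h : ι → ℤ} {c : ℤ}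
    (hlh : ∀ q ∈ A, ∑ i, l i * q i + m ≤ ∑ i, h i * q i + c) {q : ι → ℝ} (hq : q ∈ hull A) :
    ∑ i, (l i : ℝ) * q i + m ≤ ∑ i, (h i : ℝ) * q i + c := by
  obtain ⟨μ, h0, h1, h2⟩ := mem_hull.1 hq
  have key : ∀ (g : ι → ℤ) (d : ℤ), ∑ i, (g i : ℝ) * q i + d = ∑ y ∈ A, μ y * (∑ i, (g i : ℝ) * y i + d) := by
    intro g d
    simp only [mul_add, Finset.sum_add_distrib, ← Finset.sum_mul, h1, one_mul]
    congr 1
    simp only [Finset.mul_sum]
    rw [Finset.sum_comm]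
    refine Finset.sum_congr rfl fun i _ => ?_
    rw [← h2 i, Finset.mul_sum]
    exact Finset.sum_congr rfl fun y _ => by ring
  rw [key l m, key h c]
  refine Finset.sum_le_sum fun y hy => mul_le_mul_of_nonneg_left ?_ (h0 y hy)
  exact_mod_cast hlh y hy

theorem chim_rut {k : ℕ} {l : Fin k → ℤ} {m : ℤ} {h : Fin k → ℤ} {c : ℤ} {Q : Set (Fin k → ℝ)} (hQ : Convex ℝ Q)
    (hint : (interior Q).Nonempty) (hT : HasRUT Q)
    (hlh : ∀ q : Fin k → ℤ, emb q ∈ Q → ∑ i, l i * q i + m ≤ ∑ i, h i * q i + c)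
    (hlt : ∃ q : Fin k → ℤ, emb q ∈ Q ∧ ∑ i, l i * q i + m < ∑ i, h i * q i + c) : HasRUT (chim l m h c Q) := by
  obtain ⟨AQ, η, hη, rfl, hcov, hAQ⟩ := RU_of_hasRUT hQ hT
  have hlh' : ∀ q ∈ AQ, ∑ i, l i * q i + m ≤ ∑ i, h i * q i + c := fun q hq => hlh q ((hAQ q).1 hq)
  obtain ⟨B, hB⟩ := chim_pts l m h c AQ
  obtain ⟨w, hw⟩ := chim_RU hlh' hη hcov hB
  have hh := chim_hull hlh' hB
  have hi := chim_int (l := l) (m := m) (h := h) (c := c) hQ hint (fun q hq => hull_affine_le hlh' hq) (by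
    obtain ⟨q, h1, h2⟩ := hlt
    refine ⟨emb q, h1, ?_⟩
    unfold emb
    exact_mod_cast h2)
  rw [hh] at hi ⊢
  exact hasRUT_of_RU hw (covers hi w)

end Pool.Agent.SPB
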