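import Pool.Agent.SPB.TriA

/-!
# [SPB-CurP] bundles over the projective line (chimney polytopes): the polytope

`chim_pts`: finiteness.
`chim_hull`: (⊇) inequalities. (⊆) `y = (x, q)`, `q = ∑ λ_i q_i` with `q_i ∈ AQ`; with `s = (x - l(q)) / (h(q) - l(q))` (`s = 0` if the denominator is `0`), `y = ∑ λ_i ((1 - s) (l(q_i), q_i) + s (h(q_i), q_i))`.
`chim_int`: `h - l` is affine, `≥ 0` on `Q` and positive at a point of `Q`, so it is positive at an interior point `q₀` of `Q` (otherwise it vanishes there, hence it is `0` near `q₀` and everywhere; or: move from an interior point a little towards the point where it is positive); a neighbourhood of `((l(q₀) + h(q₀)) / 2, q₀)` is in the chimney.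
-/

open Finset

set_option autoImplicit false

namespace Pool.Agent.SPB

/-- the polytope `{(x, q) | q ∈ Q, l · q + m ≤ x ≤ h · q + c}` -/
def chim {k : ℕ} (l : Fin k → ℤ) (m : ℤ) (h : Fin k → ℤ) (c : ℤ) (Q : Set (Fin k → ℝ)) : Set (Fin (k + 1) → ℝ) :=
  {y | (fun i : Fin k => y i.succ) ∈ Q ∧ ∑ i, (l i : ℝ) * y i.succ + m ≤ y 0 ∧ y 0 ≤ ∑ i, (h i : ℝ) * y i.succ + c}

theorem chim_pts {k : ℕ} (l : Fin k → ℤ) (m : ℤ) (h : Fin k → ℤ) (c : ℤ) (AQ : Finset (Fin k → ℤ)) :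
    ∃ B : Finset (Fin (k + 1) → ℤ), ∀ y, y ∈ B ↔ (fun i : Fin k => y i.succ) ∈ AQ ∧
      ∑ i, l i * y i.succ + m ≤ y 0 ∧ y 0 ≤ ∑ i, h i * y i.succ + c := by
  classical
  refine ⟨AQ.biUnion (fun q => (Finset.Icc (∑ i, l i * q i + m) (∑ i, h i * q i + c)).image
    (fun x => (Fin.cons x q : Fin (k + 1) → ℤ))), fun y => ?_⟩
  simp only [Finset.mem_biUnion, Finset.mem_image, Finset.mem_Icc]
  constructor
  · rintro ⟨q, hq, x, ⟨h1, h2⟩, rfl⟩
    refine ⟨?_, ?_, ?_⟩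
    · simpa [Fin.cons_succ] using hq
    · simpa [Fin.cons_succ] using h1
    · simpa [Fin.cons_succ] using h2
  · rintro ⟨hq, h1, h2⟩
    refine ⟨_, hq, y 0, ⟨h1, h2⟩, ?_⟩
    exact Fin.cons_self_tail y

private theorem chim_affine_sum {ι : Type} [Fintype ι] {A : Finset (ι → ℤ)} {μ : (ι → ℤ) → ℝ} {y : ι → ℝ} {l : ι → ℤ}
    {m : ℤ} (h1 : ∑ q ∈ A, μ q = 1) (h2 : ∀ i, ∑ q ∈ A, μ q * (q i : ℝ) = y i) :
    ∑ i, (l i : ℝ) * y i + m = ∑ q ∈ A, μ q * (∑ i, (l i : ℝ) * (q i : ℝ) + m) := by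
  simp only [mul_add, Finset.sum_add_distrib, ← Finset.sum_mul, h1, one_mul, Finset.mul_sum]
  congr 1
  rw [Finset.sum_comm]
  refine Finset.sum_congr rfl (fun i _ => ?_)
  rw [← h2 i, Finset.mul_sum]
  exact Finset.sum_congr rfl (fun q _ => by ring)

theorem chim_hull {k : ℕ} {l : Fin k → ℤ} {m : ℤ} {h : Fin k → ℤ} {c : ℤ} {AQ : Finset (Fin k → ℤ)}
    (hlh : ∀ q ∈ AQ, ∑ i, l i * q i + m ≤ ∑ i, h i * q i + c) {B : Finset (Fin (k + 1) → ℤ)}
    (hB : ∀ y, y ∈ B ↔ (fun i : Fin k => y i.succ) ∈ AQ ∧ ∑ i, l i * y i.succ + m ≤ y 0 ∧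
      y 0 ≤ ∑ i, h i * y i.succ + c) : chim l m h c (hull AQ) = hull B := by
  classical
  have hconvQ : Convex ℝ (hull AQ) := convex_convexHull ℝ _
  have hconvB : Convex ℝ (hull B) := convex_convexHull ℝ _
  apply Set.Subset.antisymm
  · rintro y ⟨hq, h1, h2⟩
    obtain ⟨μ, hμ0, hμ1, hμ2⟩ := mem_hull.1 hq
    have hL : ∑ i, (l i : ℝ) * y i.succ + m = ∑ q ∈ AQ, μ q * (∑ i, (l i : ℝ) * (q i : ℝ) + m) :=
      chim_affine_sum hμ1 hμ2
    have hH : ∑ i, (h i : ℝ) * y i.succ + c = ∑ q ∈ AQ, μ q * (∑ i, (h i : ℝ) * (q i : ℝ) + c) :=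
      chim_affine_sum hμ1 hμ2
    obtain ⟨s, hs0, hs1, hs⟩ : ∃ s : ℝ, 0 ≤ s ∧ s ≤ 1 ∧ y 0 = (1 - s) * (∑ i, (l i : ℝ) * y i.succ + m) +
        s * (∑ i, (h i : ℝ) * y i.succ + c) := by
      rcases eq_or_lt_of_le (h1.trans h2) with he | hlt
      · exact ⟨0, le_rfl, zero_le_one, by linarith⟩
      · have hd : 0 < (∑ i, (h i : ℝ) * y i.succ + c) - (∑ i, (l i : ℝ) * y i.succ + m) := by linarith
        refine ⟨(y 0 - (∑ i, (l i : ℝ) * y i.succ + m)) /
          ((∑ i, (h i : ℝ) * y i.succ + c) - (∑ i, (l i : ℝ) * y i.succ + m)),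
          div_nonneg (by linarith) hd.le, (div_le_one hd).2 (by linarith), ?_⟩
        field_simp
        ring
    have hmem : ∀ q ∈ AQ, (1 - s) • emb (Fin.cons (∑ i, l i * q i + m) q : Fin (k + 1) → ℤ) +
        s • emb (Fin.cons (∑ i, h i * q i + c) q : Fin (k + 1) → ℤ) ∈ hull B := by
      intro q hq
      refine hconvB ?_ ?_ (by linarith) hs0 (by ring)
      · refine subset_convexHull ℝ _ ⟨_, ?_, rfl⟩
        rw [Finset.mem_coe, hB]
        refine ⟨by simpa [Fin.cons_succ] using hq, by simp [Fin.cons_succ], by simpa [Fin.cons_succ] using hlh q hq⟩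
      · refine subset_convexHull ℝ _ ⟨_, ?_, rfl⟩
        rw [Finset.mem_coe, hB]
        refine ⟨by simpa [Fin.cons_succ] using hq, by simpa [Fin.cons_succ] using hlh q hq, by simp [Fin.cons_succ]⟩
    have hsum := hconvB.sum_mem hμ0 hμ1 hmem
    convert hsum using 1
    funext j
    rw [Finset.sum_apply]
    refine Fin.cases ?_ (fun i => ?_) j
    · rw [hs, hL, hH, Finset.mul_sum, Finset.mul_sum, ← Finset.sum_add_distrib]
      refine Finset.sum_congr rfl (fun q _ => ?_)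
      simp only [emb, Pi.smul_apply, Pi.add_apply, smul_eq_mul, Fin.cons_zero]
      push_cast
      ring
    · rw [← hμ2 i]
      refine Finset.sum_congr rfl (fun q _ => ?_)
      simp only [emb, Pi.smul_apply, Pi.add_apply, smul_eq_mul, Fin.cons_succ]
      ring
  · intro y hy
    obtain ⟨μ, hμ0, hμ1, hμ2⟩ := mem_hull.1 hy
    have hsucc : ∀ i : Fin k, ∑ z ∈ B, μ z * (z i.succ : ℝ) = y i.succ := fun i => hμ2 i.succ
    have hL : ∑ i, (l i : ℝ) * y i.succ + m = ∑ z ∈ B, μ z * (∑ i, (l i : ℝ) * (z i.succ : ℝ) + m) := by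
      simp only [mul_add, Finset.sum_add_distrib, ← Finset.sum_mul, hμ1, one_mul, Finset.mul_sum]
      congr 1
      rw [Finset.sum_comm]
      refine Finset.sum_congr rfl (fun i _ => ?_)
      rw [← hsucc i, Finset.mul_sum]
      exact Finset.sum_congr rfl (fun z _ => by ring)
    have hH : ∑ i, (h i : ℝ) * y i.succ + c = ∑ z ∈ B, μ z * (∑ i, (h i : ℝ) * (z i.succ : ℝ) + c) := by
      simp only [mul_add, Finset.sum_add_distrib, ← Finset.sum_mul, hμ1, one_mul, Finset.mul_sum]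
      congr 1
      rw [Finset.sum_comm]
      refine Finset.sum_congr rfl (fun i _ => ?_)
      rw [← hsucc i, Finset.mul_sum]
      exact Finset.sum_congr rfl (fun z _ => by ring)
    refine ⟨?_, ?_, ?_⟩
    · have hm : ∀ z ∈ B, (fun i : Fin k => (z i.succ : ℝ)) ∈ hull AQ := by
        intro z hz
        refine subset_convexHull ℝ _ ⟨fun i : Fin k => z i.succ, ?_, rfl⟩
        exact ((hB z).1 hz).1
      have hsum := hconvQ.sum_mem hμ0 hμ1 hm
      convert hsum using 1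
      funext i
      rw [Finset.sum_apply, ← hsucc i]
      exact Finset.sum_congr rfl (fun z _ => by simp)
    · rw [hL, ← hμ2 0]
      refine Finset.sum_le_sum (fun z hz => mul_le_mul_of_nonneg_left ?_ (hμ0 z hz))
      exact_mod_cast ((hB z).1 hz).2.1
    · rw [hH, ← hμ2 0]
      refine Finset.sum_le_sum (fun z hz => mul_le_mul_of_nonneg_left ?_ (hμ0 z hz))
      exact_mod_cast ((hB z).1 hz).2.2

theorem chim_int {k : ℕ} {l : Fin k → ℤ} {m : ℤ} {h : Fin k → ℤ} {c : ℤ} {Q : Set (Fin k → ℝ)} (hQ : Convex ℝ Q)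
    (hint : (interior Q).Nonempty) (hlh : ∀ q ∈ Q, ∑ i, (l i : ℝ) * q i + m ≤ ∑ i, (h i : ℝ) * q i + c)
    (hlt : ∃ q ∈ Q, ∑ i, (l i : ℝ) * q i + m < ∑ i, (h i : ℝ) * q i + c) :
    (interior (chim l m h c Q)).Nonempty := by
  obtain ⟨q₀, hq₀⟩ := hint
  obtain ⟨q₁, hq₁, hlt₁⟩ := hlt
  have h0 := hlh q₀ (interior_subset hq₀)
  have hq : (1 / 2 : ℝ) • q₀ + (1 / 2 : ℝ) • q₁ ∈ interior Q :=
    hQ.combo_interior_self_mem_interior hq₀ hq₁ (by norm_num) (by norm_num) (by norm_num)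
  set q := (1 / 2 : ℝ) • q₀ + (1 / 2 : ℝ) • q₁ with hqd
  have haff : ∀ (a : Fin k → ℤ), ∑ i, (a i : ℝ) * q i =
      (1 / 2) * ∑ i, (a i : ℝ) * q₀ i + (1 / 2) * ∑ i, (a i : ℝ) * q₁ i := by
    intro a
    rw [Finset.mul_sum, Finset.mul_sum, ← Finset.sum_add_distrib]
    refine Finset.sum_congr rfl (fun i _ => ?_)
    simp only [hqd, Pi.add_apply, Pi.smul_apply, smul_eq_mul]
    ring
  have hltq : ∑ i, (l i : ℝ) * q i + m < ∑ i, (h i : ℝ) * q i + c := by
    rw [haff l, haff h]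
    linarith
  have hcont : Continuous (fun (y : Fin (k + 1) → ℝ) (i : Fin k) => y i.succ) :=
    continuous_pi (fun i => continuous_apply _)
  have hcl : ∀ a : Fin k → ℤ, Continuous (fun y : Fin (k + 1) → ℝ => ∑ i, (a i : ℝ) * y i.succ) := by
    intro a
    exact continuous_finset_sum _ (fun i _ => continuous_const.mul (continuous_apply _))
  let U : Set (Fin (k + 1) → ℝ) := {y | (fun i : Fin k => y i.succ) ∈ interior Q} ∩
    ({y | ∑ i, (l i : ℝ) * y i.succ + m < y 0} ∩ {y | y 0 < ∑ i, (h i : ℝ) * y i.succ + c})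
  have hU : IsOpen U := by
    refine (isOpen_interior.preimage hcont).inter ((isOpen_lt ?_ ?_).inter (isOpen_lt ?_ ?_))
    · exact (hcl l).add continuous_const
    · exact continuous_apply _
    · exact continuous_apply _
    · exact (hcl h).add continuous_const
  have hsub : U ⊆ chim l m h c Q := by
    rintro y ⟨h1, h2, h3⟩
    exact ⟨interior_subset h1, le_of_lt h2, le_of_lt h3⟩
  refine ⟨Fin.cons (((∑ i, (l i : ℝ) * q i + m) + (∑ i, (h i : ℝ) * q i + c)) / 2) q, interior_maximal hsub hU ?_⟩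
  refine ⟨?_, ?_, ?_⟩
  · simpa [Fin.cons_succ] using hq
  · simp only [Set.mem_setOf_eq, Fin.cons_succ, Fin.cons_zero]
    linarith
  · simp only [Set.mem_setOf_eq, Fin.cons_succ, Fin.cons_zero]
    linarith

end Pool.Agent.SPB
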