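import Mathlib

/-!
# SPB: unimodular triangulations of smooth polytopes of bundles over toric surfaces (MP_5fef9b_co, helper89)

Goal (Main): let `F` be the set of rays of a smooth complete fan in `ℤ²`, let `Q ⊆ ℝ^k` be a full-dimensional lattice
polytope with a regular unimodular triangulation, let `h_v(q) = H v · q + c v` (`v ∈ F`) be integral affine functions
such that for every lattice point `q ∈ Q` the polygon `P_q = {x | v · x ≤ h_v(q) for v ∈ F}` is smooth with normal
fan `F`. Then `P = {(x, q) | q ∈ Q, v · x ≤ h_v(q) for v ∈ F}` has a regular unimodular triangulation. (`P` is the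
polytope of an ample line bundle on a toric bundle over a toric surface. `Q = Δ_k`: Cayley polytopes of smooth
polygons with the same normal fan.)

Overview of the proof.
* (Place) Cayley trick: heights `ω_i` on `A_i = P_i ∩ ℤ²` give a regular unimodular triangulation of the Cayley
  polytope iff for every `a ∈ ℝ²` the family of the contact sets `arg A_i ω_i a` is unimodular (`Good`). Adding a
  lattice point `z` to `A_0` with a very large height keeps `Good` if `n · z ≤ 1 + max_{A_0} n` for all `n ∈ F`, where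
  `F` contains the normals of the edges of the other `A_j` (every facet visible from `z` is at lattice distance one).
* (Core, Grow, Order) A smooth polygon with normal fan `F ∋ ± u` grows in this way from a longest lattice row
  `S` (direction orthogonal to `u`): if the growth stops at `Q ≠ P` then `d = h_P - h_Q` satisfies convexity conditions,
  from which one finds a row of `P` longer than `S`.
* (Base) parallel segments have good heights.
* (Stab, Total) from the Cayley family `(P_q)` and the triangulation of `Q` to `P`; (Cover) from heights to triangulations.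
-/

open Finset

set_option autoImplicit false

namespace Pool.Agent.SPB

/-- lattice vectors in the plane -/
abbrev V := ℤ × ℤ

/-- determinant -/
def det (v w : V) : ℤ := v.1 * w.2 - v.2 * w.1

/-- scalar product -/
def dot (v x : V) : ℤ := v.1 * x.1 + v.2 * x.2

/-- scalar product with a real vector -/
def dotR (a : ℝ × ℝ) (x : V) : ℝ := a.1 * x.1 + a.2 * x.2

/-- a lattice vector as a real vector -/
def toR (x : V) : ℝ × ℝ := (x.1, x.2)

/-- `w` is the next vector of `F` after `v` (counterclockwise), and `(v, w)` is a basis of `ℤ²` -/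
def Adj (F : Finset V) (v w : V) : Prop :=
  v ∈ F ∧ w ∈ F ∧ det v w = 1 ∧ ∀ x ∈ F, 0 ≤ det v x → 0 ≤ det x w → x = v ∨ x = w

/-- `F` is the set of primitive ray generators of a smooth complete fan in `ℤ²` -/
structure SmoothFan (F : Finset V) : Prop where
  nonempty : F.Nonempty
  next : ∀ v ∈ F, ∃ w, Adj F v w

/-- the polygon `{x | v · x ≤ h v for v ∈ F}` is smooth with normal fan `F`: the edges `v` and `w` (adjacent) meet
in a vertex which lies on no other edge line -/
def Ample (F : Finset V) (h : V → ℤ) : Prop :=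
  ∀ v w, Adj F v w → ∀ x : V, dot v x = h v → dot w x = h w → ∀ u ∈ F, u ≠ v → u ≠ w → dot u x < h u

/-- `A` is the set of lattice points of the polygon -/
def IsPts (F : Finset V) (h : V → ℤ) (A : Finset V) : Prop := ∀ x, x ∈ A ↔ ∀ v ∈ F, dot v x ≤ h v

/-- a real number is an integer -/
def IsInt (r : ℝ) : Prop := ∃ n : ℤ, r = n

open Classical in
/-- the points of `A` where `ω - a` is minimal -/
noncomputable def arg (A : Finset V) (ω : V → ℝ) (a : ℝ × ℝ) : Finset V :=
  A.filter (fun x => ∀ y ∈ A, ω x - dotR a x ≤ ω y - dotR a y)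

/-- the points `(x, e_i)`, `x ∈ C i`, are part of a basis of `ℤ² × ℤ^κ` -/
def UniFam {κ : Type} [Fintype κ] (C : κ → Finset V) : Prop :=
  ∀ c : κ → V → ℝ, (∀ i, IsInt (∑ x ∈ C i, c i x)) → IsInt (∑ i, ∑ x ∈ C i, c i x * (x.1 : ℝ)) →
    IsInt (∑ i, ∑ x ∈ C i, c i x * (x.2 : ℝ)) → ∀ i, ∀ x ∈ C i, IsInt (c i x)

/-- the heights `ω i` on the sets `A i` induce a regular unimodular triangulation of the Cayley polytope -/
def Good {κ : Type} [Fintype κ] (A : κ → Finset V) (ω : κ → V → ℝ) : Prop :=
  ∀ a : ℝ × ℝ, UniFam (fun i => arg (A i) (ω i) a)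

/-- `Q` is the set of lattice points of a convex set -/
def LatConv (Q : Finset V) : Prop := ∀ x : V, toR x ∈ convexHull ℝ (toR '' (Q : Set V)) → x ∈ Q

/-- primitive vector -/
def Prim (n : V) : Prop := IsCoprime n.1 n.2

/-- all edge normals of `A` belong to `F` -/
def EdgeNorm (F A : Finset V) : Prop :=
  ∀ x ∈ A, ∀ y ∈ A, x ≠ y → ∀ n : V, Prim n → dot n x = dot n y → (∀ w ∈ A, dot n w ≤ dot n x) → n ∈ F

/-- the point `z` can be added to `Q` -/
def Addable (F Q : Finset V) (z : V) : Prop := ∀ n ∈ F, ∃ q ∈ Q, dot n z ≤ dot n q + 1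

/-! ### general lattices -/

/-- a lattice point as a real point -/
def emb {ι : Type} (x : ι → ℤ) : ι → ℝ := fun i => (x i : ℝ)

/-- the convex hull of a finite set of lattice points -/
def hull {ι : Type} (s : Finset (ι → ℤ)) : Set (ι → ℝ) := convexHull ℝ (emb '' (s : Set (ι → ℤ)))

/-- `s` is the vertex set of a unimodular simplex: the points of `s` are affinely independent and every lattice point
of their affine span is an integral affine combination of them -/
def Unimod {ι : Type} (s : Finset (ι → ℤ)) : Prop :=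
  AffineIndependent ℝ (fun x : s => emb x.1) ∧
    ∀ y : ι → ℤ, emb y ∈ affineSpan ℝ (emb '' (s : Set (ι → ℤ))) →
      ∃ c : (ι → ℤ) → ℤ, ∑ x ∈ s, c x = 1 ∧ ∑ x ∈ s, c x • x = y

/-- `T` is (the set of vertex sets of the simplices of) a triangulation of `P` into lattice simplices -/
structure IsTri {ι : Type} (P : Set (ι → ℝ)) (T : Finset (Finset (ι → ℤ))) : Prop where
  nonempty : ∀ s ∈ T, s.Nonempty
  indep : ∀ s ∈ T, AffineIndependent ℝ (fun x : s => emb x.1)
  face : ∀ s ∈ T, ∀ t : Finset (ι → ℤ), t ⊆ s → t.Nonempty → t ∈ T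
  inter : ∀ s ∈ T, ∀ t ∈ T, hull s ∩ hull t = convexHull ℝ (emb '' ((s : Set (ι → ℤ)) ∩ (t : Set (ι → ℤ))))
  cover : ⋃ s ∈ T, hull s = P

/-- the triangulation is regular: its simplices are the projections of the lower faces of the lifted points -/
def IsReg {ι : Type} [Fintype ι] (T : Finset (Finset (ι → ℤ))) : Prop :=
  ∃ w : (ι → ℤ) → ℝ, ∀ s : Finset (ι → ℤ), s ∈ T ↔ s.Nonempty ∧ ∃ (a : ι → ℝ) (b : ℝ),
    (∀ x, {x} ∈ T → ∑ i, a i * (x i : ℝ) + b ≤ w x) ∧ ∀ x, x ∈ s ↔ {x} ∈ T ∧ ∑ i, a i * (x i : ℝ) + b = w x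

/-- `P` has a regular unimodular triangulation -/
def HasRUT {ι : Type} [Fintype ι] (P : Set (ι → ℝ)) : Prop :=
  ∃ T : Finset (Finset (ι → ℤ)), IsTri P T ∧ (∀ s ∈ T, Unimod s) ∧ IsReg T

/-- integrality form of unimodularity -/
def Uni {ι : Type} (s : Finset (ι → ℤ)) : Prop :=
  ∀ c : (ι → ℤ) → ℝ, IsInt (∑ x ∈ s, c x) → (∀ i, IsInt (∑ x ∈ s, c x * (x i : ℝ))) → ∀ x ∈ s, IsInt (c x)

open Classical in
/-- contact set of the affine function `a · x + b` with the heights `w` on `A` -/
noncomputable def contact {ι : Type} [Fintype ι] (A : Finset (ι → ℤ)) (w : (ι → ℤ) → ℝ) (a : ι → ℝ) (b : ℝ) :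
    Finset (ι → ℤ) := A.filter (fun x => ∑ i, a i * (x i : ℝ) + b = w x)

/-- all lower faces are unimodular simplices -/
def RU {ι : Type} [Fintype ι] (A : Finset (ι → ℤ)) (w : (ι → ℤ) → ℝ) : Prop :=
  ∀ (a : ι → ℝ) (b : ℝ), (∀ x ∈ A, ∑ i, a i * (x i : ℝ) + b ≤ w x) → Uni (contact A w a b)

/-- every point of `P` lies in the convex hull of a contact set -/
def Covers {ι : Type} [Fintype ι] (P : Set (ι → ℝ)) (A : Finset (ι → ℤ)) (w : (ι → ℤ) → ℝ) : Prop :=
  ∀ x ∈ P, ∃ (a : ι → ℝ) (b : ℝ), (∀ x ∈ A, ∑ i, a i * (x i : ℝ) + b ≤ w x) ∧ x ∈ hull (contact A w a b)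

end Pool.Agent.SPB
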