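import Pool.Agent.SPB.Core

/-!
# [SPB-Grow] growth from a longest row

Let `S`-endpoints `s, s + c e ∈ Q ⊆ A`, `Q ≠ A`, and suppose no `z ∈ A \ Q` is addable. For `n ∈ F` let `h' n = max_{q ∈ Q} dot n q` and `d n = h n - h' n ≥ 0`. Stuck:
(★) every `z` with `dot n z ≤ h' n + 1` and `dot n z ≤ h n` for all `n ∈ F` lies in `Q`.
* Some `d n ≠ 0`: otherwise every `z ∈ A` satisfies `dot n z ≤ h n = h' n`, so `z ∈ Q` by (★).
* (a) `l := h' a + h' b - t h' j ≥ 0` for consecutive `a, j, b`, `a + b = t • j` (`sum_adj`, `t = det a b`): evaluate at a `q ∈ Q` with `dot j q = h' j`.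
* (b) if `m = α b - β j`, `α, β ≥ 0` then `h' m ≥ α h' b - β h' j` (take `q ∈ Q` maximal for `b`); same with `a` for `b`.
* H1: let `d j ≥ 1`. Claim `l ≤ t - 1`. Otherwise let `z = vert j b (h' j + 1) (h' b)`: `dot a z = t (h' j + 1) - h' b ≤ h' a`. For other `m ∈ F`, by `sep`,
  `m = α b - β j` (`α = det j m`, `β = det b m`) or `m = α a - β j` (`α = det m j`, `β = det m a`) with `α, β ≥ 0`, so `dot m z ≤ α h' b - β (h' j + 1) ≤ h' m`. So `z` satisfies (★) (at `j`: `h' j + 1 ≤ h j`), `z ∈ Q`,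
  contradiction to `dot j z > h' j`. Hence `1 ≤ t`, and since `h a + h b - t h j ≥ 1` (`Ample`, at the vertex `(j, b)`: `dot a x < h a`; `a ≠ b, j`):
  `(d a - 1) + (d b - 1) - t (d j - 1) = (h a + h b - t h j) - l - 2 + t ≥ 1 - (t - 1) - 2 + t = 0`, with equality only if `l = t - 1`.
* H2: `a, j, r, b` consecutive, `d j, d r ≥ 1`, both kinks zero, so `l_j = t_j - 1`, `l_r = t_r - 1` (`t_j = det a r`, `t_r = det j b`). Let `z = vert j r (h' j + 1) (h' r + 1)`. Then `dot a z = t_j (h' j + 1) - (h' r + 1) = h' a`,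
  `dot b z = h' b`. Other `m ∈ F`: `sep` at `r` (neighbours `j`, `b`) and at `j` (neighbours `a`, `r`): if `m = α b - β r` with `α, β ≥ 0` then `dot m z ≤ h' m`; otherwise `det m r ≥ 0`, `det m j ≥ 0` (`sep` at `r`, second case), and `sep` at
  `j`: either `m = α a - β j` with `α, β ≥ 0`, fine; or `0 ≤ det j m` and `0 ≤ det r m`, so `det m j = 0 = det m r`, `m = 0`, impossible. So (★) gives `z ∈ Q`, contradiction.
* `core` gives `z` with `dot n z ≤ d n`, `dot n z + det n u ≤ d n` on `F`. Then `x = s + z` and `x + (c + 1) e = (s + c e) + (z + e)` are in `A` (`dot n e = det n u`), contradicting `hlong`.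
`grow_three`: `F = {v, w, x}`, `v + w + x = 0`. H1 as above shows: `d j ≥ 1` implies `1 ≤ det a b`, but here `a + b = - j`, `det a b = -1`. So `d = 0` on `F` and `Q = A` by (★).
-/

open Finset

set_option autoImplicit false

namespace Pool.Agent.SPB

variable {F : Finset V}

private lemma cramer (j b m z : V) : det j b * dot m z = det m b * dot j z + det j m * dot b z := by
  simp only [det, dot]; ring

/-- the stuck situation -/
private structure Stk (F : Finset V) (h hp : V → ℤ) (Q : Finset V) : Prop where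
  le : ∀ n, ∀ q ∈ Q, dot n q ≤ hp n
  ex : ∀ n, ∃ q ∈ Q, dot n q = hp n
  hh : ∀ n ∈ F, hp n ≤ h n
  star : ∀ z, (∀ n ∈ F, dot n z ≤ hp n + 1 ∧ dot n z ≤ h n) → z ∈ Q

private lemma exists_stk {h : V → ℤ} {A : Finset V}
    (hA : IsPts F h A) {Q : Finset V} (hQA : Q ⊆ A) (hQ : Q.Nonempty)
    (hst : ¬ ∃ z ∈ A, z ∉ Q ∧ Addable F Q z) : ∃ hp, Stk F h hp Q := by
  refine ⟨fun n => Q.sup' hQ (dot n), fun n q hq => Finset.le_sup' (dot n) hq, fun n => ?_,
    fun n hn => ?_, fun z hz => ?_⟩
  · obtain ⟨q, hq, hq'⟩ := Finset.exists_mem_eq_sup' hQ (dot n)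
    exact ⟨q, hq, hq'.symm⟩
  · obtain ⟨q, hq, hq'⟩ := Finset.exists_mem_eq_sup' hQ (dot n)
    rw [hq']
    exact (hA q).1 (hQA hq) n hn
  · by_contra hzQ
    refine hst ⟨z, (hA z).2 fun n hn => (hz n hn).2, hzQ, fun n hn => ?_⟩
    obtain ⟨q, hq, hq'⟩ := Finset.exists_mem_eq_sup' hQ (dot n)
    exact ⟨q, hq, by rw [← hq']; exact (hz n hn).1⟩

/-- the maxima are convex -/
private lemma Stk.comb {h hp : V → ℤ} {Q : Finset V} (H : Stk F h hp Q) {j b m z : V} {α β : ℤ}
    (hα : 0 ≤ α) (hβ : 0 ≤ β) (hm : ∀ y, dot m y = α * dot b y - β * dot j y)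
    (hb : dot b z ≤ hp b) (hj : hp j ≤ dot j z) : dot m z ≤ hp m := by
  obtain ⟨q, hq, hq'⟩ := H.ex b
  have h1 := H.le m q hq
  have h2 := H.le j q hq
  rw [hm q, hq'] at h1
  rw [hm z]
  have h3 := mul_le_mul_of_nonneg_left hb hα
  have h4 := mul_le_mul_of_nonneg_left (h2.trans hj) hβ
  have h5 := mul_le_mul_of_nonneg_left h2 hβ
  have h6 := mul_le_mul_of_nonneg_left hj hβ
  linarith

private lemma cone_right {j b : V} (h : det j b = 1) (m y : V) :
    dot m y = det j m * dot b y - det b m * dot j y := by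
  have h1 := cramer j b m y
  have h2 : det m b = - det b m := by simp only [det]; ring
  rw [h, h2] at h1
  linarith

private lemma cone_left {a j : V} (h : det a j = 1) (m y : V) :
    dot m y = det m j * dot a y - det m a * dot j y := by
  have h1 := cramer a j m y
  have h2 : det a m = - det m a := by simp only [det]; ring
  rw [h, h2] at h1
  linarith

private lemma dot_sum {a j b : V} (h1 : Adj F a j) (h2 : Adj F j b) (y : V) :
    dot a y + dot b y = det a b * dot j y := by
  have h := sum_adj h1 h2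
  have e1 : a.1 + b.1 = det a b * j.1 := by
    have := congrArg Prod.fst h
    simpa using this
  have e2 : a.2 + b.2 = det a b * j.2 := by
    have := congrArg Prod.snd h
    simpa using this
  simp only [dot]
  linear_combination y.1 * e1 + y.2 * e2

/-- the estimate of `l` -/
private lemma Stk.l_lt {h hp : V → ℤ} {Q : Finset V} (H : Stk F h hp Q) {a j b : V}
    (h1 : Adj F a j) (h2 : Adj F j b) (hj : hp j + 1 ≤ h j) :
    hp a + hp b - det a b * hp j ≤ det a b - 1 := by
  by_contra hcon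
  have hcon' : det a b ≤ hp a + hp b - det a b * hp j := by omega
  have hjb : det j b = 1 := h2.2.2.1
  have haj : det a j = 1 := h1.2.2.1
  obtain ⟨z, hz⟩ : ∃ z, z = vert j b (hp j + 1) (hp b) := ⟨_, rfl⟩
  have z1 : dot j z = hp j + 1 := by rw [hz]; exact dot_vert_left hjb _ _
  have z2 : dot b z = hp b := by rw [hz]; exact dot_vert_right hjb _ _
  have z3 : dot a z ≤ hp a := by
    have := dot_sum h1 h2 z
    rw [z1, z2] at this
    linarith
  have hzQ : z ∈ Q := by
    refine H.star z fun n hn => ?_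
    by_cases hnj : n = j
    · rw [hnj]; exact ⟨z1.le, by rw [z1]; exact hj⟩
    · have key : dot n z ≤ hp n := by
        rcases sep h1 h2 hn hnj with ⟨g1, g2⟩ | ⟨g1, g2⟩
        · exact H.comb g1 g2 (cone_right hjb n) z2.le (by rw [z1]; omega)
        · exact H.comb g1 g2 (cone_left haj n) z3 (by rw [z1]; omega)
      exact ⟨by omega, key.trans (H.hh n hn)⟩
  have := H.le j z hzQ
  omega

private lemma Stk.l_ge {h hp : V → ℤ} {Q : Finset V} (H : Stk F h hp Q) {a j b : V}
    (h1 : Adj F a j) (h2 : Adj F j b) : 0 ≤ hp a + hp b - det a b * hp j := by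
  obtain ⟨q, hq, hq'⟩ := H.ex j
  have g1 := dot_sum h1 h2 q
  rw [hq'] at g1
  have g2 := H.le a q hq
  have g3 := H.le b q hq
  linarith

private lemma ample_ge {h : V → ℤ} (ha : Ample F h) {a j b : V}
    (h1 : Adj F a j) (h2 : Adj F j b) : 1 ≤ h a + h b - det a b * h j := by
  have hjb : det j b = 1 := h2.2.2.1
  have haj : det a j = 1 := h1.2.2.1
  have n1 : a ≠ j := by
    rintro rfl
    simp [det, mul_comm] at haj
  have n2 : a ≠ b := by
    rintro rfl
    simp only [det] at hjb haj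
    linarith [mul_comm a.1 j.2, mul_comm a.2 j.1]
  obtain ⟨z, hz⟩ : ∃ z, z = vert j b (h j) (h b) := ⟨_, rfl⟩
  have z1 : dot j z = h j := by rw [hz]; exact dot_vert_left hjb _ _
  have z2 : dot b z = h b := by rw [hz]; exact dot_vert_right hjb _ _
  have g := ha j b h2 z z1 z2 a h1.1 n1 n2
  have := dot_sum h1 h2 z
  rw [z1, z2] at this
  linarith

private lemma Stk.H1 {h hp : V → ℤ} {Q : Finset V} (H : Stk F h hp Q) (ha : Ample F h) {a j b : V}
    (h1 : Adj F a j) (h2 : Adj F j b) (hj : 1 ≤ h j - hp j) :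
    1 ≤ det a b ∧ 0 ≤ ((h a - hp a) - 1) + ((h b - hp b) - 1) - det a b * ((h j - hp j) - 1) := by
  have g1 := H.l_lt h1 h2 (by omega)
  have g2 := H.l_ge h1 h2
  have g3 := ample_ge ha h1 h2
  refine ⟨by omega, ?_⟩
  have e : ((h a - hp a) - 1) + ((h b - hp b) - 1) - det a b * ((h j - hp j) - 1) =
    (h a + h b - det a b * h j) - (hp a + hp b - det a b * hp j) - 2 + det a b := by ring
  rw [e]
  omega

private lemma Stk.H1' {h hp : V → ℤ} {Q : Finset V} (H : Stk F h hp Q) (ha : Ample F h) {a j b : V}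
    (h1 : Adj F a j) (h2 : Adj F j b) (hj : 1 ≤ h j - hp j)
    (h0 : ((h a - hp a) - 1) + ((h b - hp b) - 1) - det a b * ((h j - hp j) - 1) = 0) :
    hp a + hp b - det a b * hp j = det a b - 1 := by
  have g1 := H.l_lt h1 h2 (by omega)
  have g3 := ample_ge ha h1 h2
  have e : ((h a - hp a) - 1) + ((h b - hp b) - 1) - det a b * ((h j - hp j) - 1) =
    (h a + h b - det a b * h j) - (hp a + hp b - det a b * hp j) - 2 + det a b := by ring
  rw [e] at h0
  omega

private lemma Stk.H2 {h hp : V → ℤ} {Q : Finset V} (H : Stk F h hp Q) (ha : Ample F h)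
    {a j r b : V} (h1 : Adj F a j) (h2 : Adj F j r) (h3 : Adj F r b) (hj : 1 ≤ h j - hp j)
    (hr : 1 ≤ h r - hp r) :
    ¬ (((h a - hp a) - 1) + ((h r - hp r) - 1) - det a r * ((h j - hp j) - 1) = 0 ∧
      ((h j - hp j) - 1) + ((h b - hp b) - 1) - det j b * ((h r - hp r) - 1) = 0) := by
  rintro ⟨k1, k2⟩
  have l1 := H.H1' ha h1 h2 hj k1
  have l2 := H.H1' ha h2 h3 hr k2
  have haj : det a j = 1 := h1.2.2.1
  have hjr : det j r = 1 := h2.2.2.1
  have hrb : det r b = 1 := h3.2.2.1
  obtain ⟨z, hz⟩ : ∃ z, z = vert j r (hp j + 1) (hp r + 1) := ⟨_, rfl⟩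
  have z1 : dot j z = hp j + 1 := by rw [hz]; exact dot_vert_left hjr _ _
  have z2 : dot r z = hp r + 1 := by rw [hz]; exact dot_vert_right hjr _ _
  have z3 : dot a z ≤ hp a := by
    have := dot_sum h1 h2 z
    rw [z1, z2] at this
    linarith
  have z4 : dot b z ≤ hp b := by
    have := dot_sum h2 h3 z
    rw [z1, z2] at this
    linarith
  have hzQ : z ∈ Q := by
    refine H.star z fun n hn => ?_
    by_cases hnj : n = j
    · rw [hnj]; exact ⟨z1.le, by rw [z1]; omega⟩
    by_cases hnr : n = r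
    · rw [hnr]; exact ⟨z2.le, by rw [z2]; omega⟩
    have key : dot n z ≤ hp n := by
      rcases sep h2 h3 hn hnr with ⟨g1, g2⟩ | ⟨g1, g2⟩
      · exact H.comb g1 g2 (cone_right hrb n) z4 (by rw [z2]; omega)
      · rcases sep h1 h2 hn hnj with ⟨g3, g4⟩ | ⟨g3, g4⟩
        · have e1 : det n j = - det j n := by simp only [det]; ring
          have e2 : det n r = - det r n := by simp only [det]; ring
          have e3 : det j n = 0 := by omega
          have e4 : det r n = 0 := by omega
          obtain ⟨q, hq, hq'⟩ := H.ex n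
          rw [← hq', cone_right hjr n z, cone_right hjr n q, e3, e4]
          simp
        · exact H.comb g3 g4 (cone_left haj n) z3 (by rw [z1]; omega)
    exact ⟨by omega, key.trans (H.hh n hn)⟩
  have := H.le j z hzQ
  omega

private lemma Stk.full {h hp : V → ℤ} {A Q : Finset V} (H : Stk F h hp Q) (hA : IsPts F h A)
    (hQA : Q ⊆ A) (hd : ∀ n ∈ F, h n - hp n = 0) : Q = A := by
  refine Finset.Subset.antisymm hQA fun z hz => H.star z fun n hn => ?_
  have h1 := (hA z).1 hz n hn
  have h2 := hd n hn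
  exact ⟨by omega, h1⟩

theorem grow_row (hF : SmoothFan F) {u : V} (hu : u ∈ F) (hu' : -u ∈ F) {h : V → ℤ} (ha : Ample F h) {A : Finset V}
    (hA : IsPts F h A) {c : ℕ} (hlong : ∀ x ∈ A, x + ((c : ℤ) + 1) • ((u.2, -u.1) : V) ∉ A) {Q : Finset V} (hQA : Q ⊆ A)
    (hne : Q ≠ A) {s : V} (hs : s ∈ Q) (hs' : s + (c : ℤ) • ((u.2, -u.1) : V) ∈ Q) :
    ∃ z ∈ A, z ∉ Q ∧ Addable F Q z := by
  by_contra hst
  obtain ⟨hp, H⟩ := exists_stk hA hQA ⟨s, hs⟩ hst
  obtain ⟨z, hz⟩ := core hF hu hu' (d := fun n => h n - hp n)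
    (fun n hn => by have := H.hh n hn; omega)
    (by
      by_contra hcon
      push Not at hcon
      exact hne (H.full hA hQA hcon))
    (fun a j b h1 h2 hj => H.H1 ha h1 h2 hj)
    (fun a j r b h1 h2 h3 hj hr => H.H2 ha h1 h2 h3 hj hr)
  have hx : s + z ∈ A := by
    refine (hA _).2 fun n hn => ?_
    have g1 := (hz n hn).1
    have g2 := H.le n s hs
    have e : dot n (s + z) = dot n s + dot n z := by
      simp only [dot, Prod.fst_add, Prod.snd_add]; ring
    rw [e]
    beta_reduce at g1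
    omega
  refine hlong _ hx ((hA _).2 fun n hn => ?_)
  have g1 := (hz n hn).2
  have g2 := H.le n _ hs'
  have e : dot n (s + z + ((c : ℤ) + 1) • ((u.2, -u.1) : V)) =
      dot n (s + (c : ℤ) • ((u.2, -u.1) : V)) + (dot n z + det n u) := by
    simp only [dot, det, Prod.fst_add, Prod.snd_add, Prod.smul_fst, Prod.smul_snd, smul_eq_mul]
    ring
  rw [e]
  beta_reduce at g1
  omega

theorem grow_three (hF : SmoothFan F) {v w x : V} (hF3 : F = {v, w, x}) (hsum : v + w + x = 0)
    {h : V → ℤ} (ha : Ample F h) {A : Finset V} (hA : IsPts F h A) {Q : Finset V} (hQA : Q ⊆ A)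
    (hne : Q ≠ A) (hQ : Q.Nonempty) : ∃ z ∈ A, z ∉ Q ∧ Addable F Q z := by
  by_contra hst
  obtain ⟨hp, H⟩ := exists_stk hA hQA hQ hst
  refine hne (H.full hA hQA fun j hj => ?_)
  by_contra hcon
  have hj1 : 1 ≤ h j - hp j := by have := H.hh j hj; omega
  obtain ⟨b, hjb⟩ := hF.next j hj
  obtain ⟨a, haj⟩ := hF.pred hj
  have h1 := (H.H1 ha haj hjb hj1).1
  have d1 : det a j = 1 := haj.2.2.1
  have d2 : det j b = 1 := hjb.2.2.1
  have n1 : a ≠ j := by
    rintro rfl
    simp [det, mul_comm] at d1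
  have n2 : a ≠ b := by
    rintro rfl
    simp only [det] at d1 d2
    linarith [mul_comm a.1 j.2, mul_comm a.2 j.1]
  have n3 : j ≠ b := by
    rintro rfl
    simp [det, mul_comm] at d2
  have s1 : v.1 + w.1 + x.1 = 0 := by
    have := congrArg Prod.fst hsum
    simpa using this
  have s2 : v.2 + w.2 + x.2 = 0 := by
    have := congrArg Prod.snd hsum
    simpa using this
  have hab : a.1 + b.1 + j.1 = 0 ∧ a.2 + b.2 + j.2 = 0 := by
    have ma := haj.1
    have mb := hjb.2.1
    rw [hF3] at ma mb hj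
    simp only [mem_insert, mem_singleton] at ma mb hj
    rcases ma with rfl | rfl | rfl <;> rcases mb with rfl | rfl | rfl <;>
      rcases hj with rfl | rfl | rfl <;>
      first
        | exact absurd rfl n1
        | exact absurd rfl n2
        | exact absurd rfl n3
        | exact ⟨by omega, by omega⟩
  have hs := sum_adj haj hjb
  have e1 : a.1 + b.1 = det a b * j.1 := by
    have := congrArg Prod.fst hs
    simpa using this
  have e2 : a.2 + b.2 = det a b * j.2 := by
    have := congrArg Prod.snd hs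
    simpa using this
  have f1 : (det a b + 1) * j.1 = 0 := by linarith [hab.1]
  have f2 : (det a b + 1) * j.2 = 0 := by linarith [hab.2]
  have g1 : j.1 = 0 := by
    rcases mul_eq_zero.1 f1 with g | g
    · omega
    · exact g
  have g2 : j.2 = 0 := by
    rcases mul_eq_zero.1 f2 with g | g
    · omega
    · exact g
  simp [det, g1, g2] at d1

end Pool.Agent.SPB
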