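import Pool.Agent.SPB.Defs

/-!
# [SPB-Order] growth as an induction principle

`A` is the set of lattice points of a polygon, so it is the set of lattice points of a convex set (`LatConv A`: linear inequalities pass to the convex hull; needs only `IsPts`).
Induction on `(A \ Q).card`. Let `S ⊆ Q ⊆ A`, `LatConv Q`, `Q ≠ A`. By `hgrow` there is an addable `z ∈ A \ Q`; choose one with the least
number of points `x ∈ A` in `conv (Q ∪ {z})`. Claim `LatConv (insert z Q)`: let `p ∈ ℤ²` be in `conv (Q ∪ {z})`, `p ∉ Q`, `p ≠ z`. Then `p ∈ A` (`LatConv A`), and `p` is addable: for `n ∈ F`, `dot n p` is at most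
the maximum of `dot n z` and the `dot n q`, `q ∈ Q`. `conv (Q ∪ {p}) ⊆ conv (Q ∪ {z})`, and `z ∉ conv (Q ∪ {p})`: if `z = (1 - s) q + s p` and `p = (1 - t) q' + t z` with `q, q' ∈ conv Q` then
`(1 - s t) z ∈ (1 - s t) conv Q`, so `z ∈ conv Q` (then `z ∈ Q`) or `s = t = 1` (then `p = z`); contradiction to the minimal choice. (`convexHull_insert` gives the description of `conv (insert z Q)`.)
-/

open Finset

set_option autoImplicit false

namespace Pool.Agent.SPB

variable {F : Finset V}

/-- the half plane of points on which `dot v` is at most `c` is convex -/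
private lemma order_convex_half (v : V) (c : ℝ) :
    Convex ℝ {y : ℝ × ℝ | (v.1 : ℝ) * y.1 + (v.2 : ℝ) * y.2 ≤ c} := by
  intro x hx y hy a b ha hb hab
  simp only [Set.mem_ofPred_eq, Prod.fst_add, Prod.snd_add, Prod.smul_fst, Prod.smul_snd, smul_eq_mul] at hx hy ⊢
  calc (v.1 : ℝ) * (a * x.1 + b * y.1) + (v.2 : ℝ) * (a * x.2 + b * y.2)
      = a * ((v.1 : ℝ) * x.1 + (v.2 : ℝ) * x.2) + b * ((v.1 : ℝ) * y.1 + (v.2 : ℝ) * y.2) := by ring
    _ ≤ a * c + b * c := by gcongr
    _ = c := by rw [← add_mul, hab, one_mul]

/-- a bound for `dot v` on a set of lattice points holds for the lattice points of the convex hull -/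
private lemma order_dot_le {Q : Finset V} (v : V) (c : ℤ) (hc : ∀ q ∈ Q, dot v q ≤ c) (x : V)
    (hx : toR x ∈ convexHull ℝ (toR '' (Q : Set V))) : dot v x ≤ c := by
  have hsub : toR '' (Q : Set V) ⊆ {y : ℝ × ℝ | (v.1 : ℝ) * y.1 + (v.2 : ℝ) * y.2 ≤ (c : ℝ)} := by
    rintro _ ⟨q, hq, rfl⟩
    have h1 : ((dot v q : ℤ) : ℝ) ≤ (c : ℝ) := by exact_mod_cast hc q hq
    simpa [dot, toR] using h1
  have h2 := convexHull_min hsub (order_convex_half v c) hx
  have h3 : ((dot v x : ℤ) : ℝ) ≤ (c : ℝ) := by simpa [dot, toR] using h2
  exact_mod_cast h3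

theorem IsPts.latConv {h : V → ℤ} {A : Finset V} (hA : IsPts F h A) : LatConv A := by
  intro x hx
  rw [hA x]
  intro v hv
  exact order_dot_le v (h v) (fun q hq => (hA q).1 hq v hv) x hx

private lemma order_toR_inj {x y : V} (h : toR x = toR y) : x = y := by
  have h1 : (x.1 : ℝ) = (y.1 : ℝ) := congrArg Prod.fst h
  have h2 : (x.2 : ℝ) = (y.2 : ℝ) := congrArg Prod.snd h
  exact Prod.ext (by exact_mod_cast h1) (by exact_mod_cast h2)

/-- the two-step argument in the plane -/
private lemma order_key {C : Set (ℝ × ℝ)} (hC : Convex ℝ C) {z p q q' : ℝ × ℝ} (hq : q ∈ C) (hq' : q' ∈ C)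
    (hz : z ∈ segment ℝ p q) (hp : p ∈ segment ℝ z q') : z ∈ C ∨ p = z := by
  obtain ⟨a, b, ha, hb, hab, rfl⟩ := hz
  obtain ⟨c, d, hc, hd, hcd, hp⟩ := hp
  by_cases hac : a * c = 1
  · right
    have ha1 : a ≤ 1 := by linarith
    have hc1 : c ≤ 1 := by linarith
    have h1 : a = 1 := by nlinarith
    have hb0 : b = 0 := by linarith
    rw [h1, hb0]; simp
  · left
    have ha1 : a ≤ 1 := by linarith
    have hc1 : c ≤ 1 := by linarith
    have hlt : a * c < 1 := lt_of_le_of_ne (by nlinarith) hac
    have hpos : 0 < 1 - a * c := by linarith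
    have hne : (1 - a * c) ≠ 0 := ne_of_gt hpos
    -- z = (a d / (1 - a c)) q' + (b / (1 - a c)) q
    have hmem := hC hq' hq (a := a * d / (1 - a * c)) (b := b / (1 - a * c)) (by positivity) (by positivity)
      (by field_simp; nlinarith)
    have hz : a • p + b • q = (a * d / (1 - a * c)) • q' + (b / (1 - a * c)) • q := by
      have hp1 : c * (a * p.1 + b * q.1) + d * q'.1 = p.1 := by
        have := congrArg Prod.fst hp
        simp only [Prod.fst_add, Prod.smul_fst, smul_eq_mul] at this
        exact this
      have hp2 : c * (a * p.2 + b * q.2) + d * q'.2 = p.2 := by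
        have := congrArg Prod.snd hp
        simp only [Prod.snd_add, Prod.smul_snd, smul_eq_mul] at this
        exact this
      ext
      · simp only [Prod.fst_add, Prod.smul_fst, smul_eq_mul]
        rw [div_mul_eq_mul_div, div_mul_eq_mul_div, ← add_div, eq_div_iff hne]
        linear_combination (-a) * hp1
      · simp only [Prod.snd_add, Prod.smul_snd, smul_eq_mul]
        rw [div_mul_eq_mul_div, div_mul_eq_mul_div, ← add_div, eq_div_iff hne]
        linear_combination (-a) * hp2
    rw [hz]; exact hmem

theorem grow_induct {h : V → ℤ} {A : Finset V} (hA : IsPts F h A) {S : Finset V} (hS : S ⊆ A) (hS0 : S.Nonempty)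
    (hSL : LatConv S)
    (hgrow : ∀ Q : Finset V, S ⊆ Q → Q ⊆ A → Q ≠ A → ∃ z ∈ A, z ∉ Q ∧ Addable F Q z)
    (P : Finset V → Prop) (h0 : P S)
    (hstep : ∀ (Q : Finset V) (z : V), Q.Nonempty → z ∉ Q → LatConv Q → LatConv (insert z Q) → Addable F Q z → P Q →
      P (insert z Q)) : P A := by
  classical
  have hAL : LatConv A := hA.latConv
  have main : ∀ (n : ℕ) (Q : Finset V), S ⊆ Q → Q ⊆ A → LatConv Q → P Q → (A \ Q).card = n → P A := by
    intro n
    induction n with
    | zero =>
      intro Q hSQ hQA hQL hPQ hcard
      have : Q = A := by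
        apply Finset.Subset.antisymm hQA
        rw [Finset.card_eq_zero, Finset.sdiff_eq_empty_iff_subset] at hcard
        exact hcard
      rw [← this]; exact hPQ
    | succ n ih =>
      intro Q hSQ hQA hQL hPQ hcard
      have hQA' : Q ≠ A := by
        rintro rfl
        simp at hcard
      have hQ0 : Q.Nonempty := hS0.mono hSQ
      -- addable points
      let T : Finset V := (A \ Q).filter (fun z => Addable F Q z)
      have hT : T.Nonempty := by
        obtain ⟨z, hzA, hzQ, hz⟩ := hgrow Q hSQ hQA hQA'
        exact ⟨z, by simp [T, hzA, hzQ, hz]⟩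
      let cnt : V → ℕ := fun z => (A.filter (fun x => toR x ∈ convexHull ℝ (toR '' ((insert z Q : Finset V) : Set V)))).card
      obtain ⟨z, hzT, hzmin⟩ := Finset.exists_min_image T cnt hT
      have hzA : z ∈ A := by
        have := (Finset.mem_filter.1 hzT).1
        exact (Finset.mem_sdiff.1 this).1
      have hzQ : z ∉ Q := by
        have := (Finset.mem_filter.1 hzT).1
        exact (Finset.mem_sdiff.1 this).2
      have hzadd : Addable F Q z := (Finset.mem_filter.1 hzT).2
      have hsubA : (insert z Q : Finset V) ⊆ A := by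
        intro x hx
        rcases Finset.mem_insert.1 hx with rfl | hx
        · exact hzA
        · exact hQA hx
      have hL : LatConv (insert z Q) := by
        intro p hp
        by_contra hpn
        have hpQ : p ∉ Q := fun hh => hpn (Finset.mem_insert_of_mem hh)
        have hpz : p ≠ z := fun hh => hpn (by rw [hh]; exact Finset.mem_insert_self _ _)
        have hpA : p ∈ A := by
          apply hAL p
          refine convexHull_mono ?_ hp
          exact Set.image_mono (by exact_mod_cast hsubA)
        have hpadd : Addable F Q p := by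
          intro n hn
          obtain ⟨q0, hq0, hmax⟩ := Finset.exists_max_image Q (fun q => dot n q) hQ0
          refine ⟨q0, hq0, ?_⟩
          refine order_dot_le n (dot n q0 + 1) ?_ p hp
          intro q hq
          rcases Finset.mem_insert.1 hq with rfl | hq
          · obtain ⟨q1, hq1, h1⟩ := hzadd n hn
            have h2 : dot n q1 ≤ dot n q0 := hmax q1 hq1
            omega
          · have h2 : dot n q ≤ dot n q0 := hmax q hq
            omega
        have hpT : p ∈ T := by simp [T, hpA, hpQ, hpadd]
        -- strict inclusion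
        have hsub : convexHull ℝ (toR '' ((insert p Q : Finset V) : Set V)) ⊆
            convexHull ℝ (toR '' ((insert z Q : Finset V) : Set V)) := by
          apply convexHull_min _ (convex_convexHull ℝ _)
          rintro _ ⟨x, hx, rfl⟩
          rcases Finset.mem_insert.1 (Finset.mem_coe.1 hx) with rfl | hx
          · exact hp
          · exact subset_convexHull ℝ _ ⟨x, by exact_mod_cast Finset.mem_insert_of_mem hx, rfl⟩
        have hQim : (toR '' (Q : Set V)).Nonempty := by
          obtain ⟨q, hq⟩ := hQ0
          exact ⟨toR q, q, by exact_mod_cast hq, rfl⟩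
        have hzn : toR z ∉ convexHull ℝ (toR '' ((insert p Q : Finset V) : Set V)) := by
          intro hzin
          rw [Finset.coe_insert, Set.image_insert_eq, convexHull_insert hQim] at hzin hp
          rw [mem_convexJoin] at hzin hp
          obtain ⟨x1, hx1, q, hq, hz1⟩ := hzin
          obtain ⟨x2, hx2, q', hq', hp1⟩ := hp
          rw [Set.mem_singleton_iff] at hx1 hx2
          subst hx1
          subst hx2
          rcases order_key (convex_convexHull ℝ (toR '' (Q : Set V))) hq hq' hz1 hp1 with h1 | h1
          · exact hzQ (hQL z h1)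
          · exact hpz (order_toR_inj h1)
        have hlt : cnt p < cnt z := by
          apply Finset.card_lt_card
          rw [Finset.ssubset_iff_of_subset]
          · refine ⟨z, ?_, ?_⟩
            · rw [Finset.mem_filter]
              exact ⟨hzA, subset_convexHull ℝ _ ⟨z, by simp, rfl⟩⟩
            · rw [Finset.mem_filter]
              exact fun hh => hzn hh.2
          · intro x hx
            rw [Finset.mem_filter] at hx ⊢
            exact ⟨hx.1, hsub hx.2⟩
        exact absurd (hzmin p hpT) (not_le.2 hlt)
      have hPz : P (insert z Q) := hstep Q z hQ0 hzQ hQL hL hzadd hPQ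
      apply ih (insert z Q) (hSQ.trans (Finset.subset_insert _ _)) hsubA hL hPz
      have h1 : A \ insert z Q = (A \ Q).erase z := by
        ext x
        simp only [Finset.mem_sdiff, Finset.mem_insert, Finset.mem_erase, not_or]
        tauto
      rw [h1, Finset.card_erase_of_mem (by simp [hzA, hzQ]), hcard]
      simp
  exact main _ S (Finset.Subset.refl _) hS hSL h0 rfl

end Pool.Agent.SPB
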