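import Pool.Agent.SPB.Defs

/-!
# [SPB-PlaceM] large heights

Let `W ≥ |ω i x|` for all `x ∈ A i`. For `x, y ∈ arg (A i) (ω i) a`: `dotR a x - dotR a y = ω i x - ω i y`, so (4) `|dotR a (y - x)| ≤ 2 W`; for `c ∈ arg (A j) (ω j) a`, `w ∈ A j`: (6) `dotR a w - dotR a c ≤ ω j w - ω j c ≤ 2 W`; and (1) `dotR a z - dotR a q ≥ M - W` for `q ∈ A i0`.
Identity: `det δ δ' * dotR a ζ = det ζ δ' * dotR a δ + det δ ζ * dotR a δ'`.
Let `K` be an integer bound for `|det (y - x) (y' - x')|` for all points `x, y, x', y'` of the `A i` and `z` (for instance bound the coordinates), and for the numbers `g` in (P4) (`z - c₀ = g (p - c₀)` implies `g ≤` the absolute value of a nonzero coordinate of `z - c₀`, if `z ≠ c₀`); `M` larger than `W + (2 K + 2) (2 W + 1) + 1` or so.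
(P1): `δ = y - x`, `δ' = y' - x'`, `ζ = z - c₀`: if `det δ δ' ≠ 0` then `M - W ≤ |dotR a ζ| ≤ |det δ δ'| |dotR a ζ| ≤ 2 K * 2 W`.
(P2): if `det δ ζ = 0`, `δ ≠ 0`: for a coordinate vector `ν` with `det δ ν ≠ 0`: or directly `δ_i ζ = ζ_i δ` for the coordinates `i`, so `|δ_i| |dotR a ζ| ≤ |ζ_i| 2 W` with some `δ_i ≠ 0`.
(P3): suppose `det δ (w - c) * det δ ζ > 0`, both nonzero of the same sign; `det δ ζ * dotR a (w - c) = det (w - c) ζ * dotR a δ + det δ (w - c) * dotR a ζ` (identity with `δ' = ζ`, `ζ = w - c`). Multiply by the sign `ε` of `det δ ζ`: `|det δ ζ| dotR a (w - c) ≥ (M - W) - K 2 W`, but by (6) the left side is `≤ K 2 W`.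
(P4): `dotR a (z - c₀) = g dotR a (p - c₀) ≤ g 2 W`.
(`A i0 ≠ ∅` is not needed: all four statements assume `c₀ ∈ arg (A i0) ..` or can be obtained with `M` large only if `A i0 ≠ ∅`, which is assumed.)
-/

open Finset

set_option autoImplicit false

namespace Pool.Agent.SPB

namespace PlaceM

theorem dotR_sub (a : ℝ × ℝ) (x y : V) : dotR a (y - x) = dotR a y - dotR a x := by
  simp only [dotR, Prod.fst_sub, Prod.snd_sub, Int.cast_sub]; ring

theorem cast_det (v w : V) : ((det v w : ℤ) : ℝ) = (v.1 : ℝ) * w.2 - (v.2 : ℝ) * w.1 := by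
  simp only [det]; push_cast; ring

/-- the basic identity -/
theorem ident (a : ℝ × ℝ) (v d d' : V) :
    ((det d d' : ℤ) : ℝ) * dotR a v = ((det v d' : ℤ) : ℝ) * dotR a d + ((det d v : ℤ) : ℝ) * dotR a d' := by
  rw [cast_det, cast_det, cast_det]; simp only [dotR]; ring

theorem det_bound {N : ℝ} {v w : V} (hv : |(v.1 : ℝ)| ≤ 2 * N ∧ |(v.2 : ℝ)| ≤ 2 * N)
    (hw : |(w.1 : ℝ)| ≤ 2 * N ∧ |(w.2 : ℝ)| ≤ 2 * N) : |((det v w : ℤ) : ℝ)| ≤ 8 * N ^ 2 := by
  have h0 : 0 ≤ 2 * N := (abs_nonneg _).trans hv.1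
  have h1 : |(v.1 : ℝ) * w.2| ≤ (2 * N) * (2 * N) := by
    rw [abs_mul]; exact mul_le_mul hv.1 hw.2 (abs_nonneg _) h0
  have h2 : |(v.2 : ℝ) * w.1| ≤ (2 * N) * (2 * N) := by
    rw [abs_mul]; exact mul_le_mul hv.2 hw.1 (abs_nonneg _) h0
  rw [cast_det]
  calc |(v.1 : ℝ) * w.2 - (v.2 : ℝ) * w.1| ≤ |(v.1 : ℝ) * w.2| + |(v.2 : ℝ) * w.1| := abs_sub _ _
    _ ≤ (2 * N) * (2 * N) + (2 * N) * (2 * N) := add_le_add h1 h2
    _ = 8 * N ^ 2 := by ring

theorem sub_bound {N : ℝ} {x y : V} (hx : |(x.1 : ℝ)| ≤ N ∧ |(x.2 : ℝ)| ≤ N)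
    (hy : |(y.1 : ℝ)| ≤ N ∧ |(y.2 : ℝ)| ≤ N) :
    |((y - x).1 : ℝ)| ≤ 2 * N ∧ |((y - x).2 : ℝ)| ≤ 2 * N := by
  constructor
  · simp only [Prod.fst_sub, Int.cast_sub]
    calc |(y.1 : ℝ) - x.1| ≤ |(y.1 : ℝ)| + |(x.1 : ℝ)| := abs_sub _ _
      _ ≤ 2 * N := by linarith [hx.1, hy.1]
  · simp only [Prod.snd_sub, Int.cast_sub]
    calc |(y.2 : ℝ) - x.2| ≤ |(y.2 : ℝ)| + |(x.2 : ℝ)| := abs_sub _ _
      _ ≤ 2 * N := by linarith [hx.2, hy.2]

theorem one_le_abs_cast {m : ℤ} (h : m ≠ 0) : (1 : ℝ) ≤ |(m : ℝ)| := by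
  have : (1 : ℤ) ≤ |m| := Int.one_le_abs h
  calc (1 : ℝ) = ((1 : ℤ) : ℝ) := by norm_num
    _ ≤ ((|m| : ℤ) : ℝ) := by exact_mod_cast this
    _ = |(m : ℝ)| := by push_cast; rfl

theorem exists_W {κ : Type} [Fintype κ] (A : κ → Finset V) (ω : κ → V → ℝ) :
    ∃ W : ℝ, 0 ≤ W ∧ ∀ i, ∀ x ∈ A i, |ω i x| ≤ W := by
  classical
  refine ⟨∑ i, ∑ x ∈ A i, |ω i x|, Finset.sum_nonneg fun i _ => Finset.sum_nonneg fun x _ => abs_nonneg _, ?_⟩
  intro i x hx
  calc |ω i x| ≤ ∑ x ∈ A i, |ω i x| :=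
        Finset.single_le_sum (f := fun x => |ω i x|) (fun x _ => abs_nonneg _) hx
    _ ≤ ∑ i, ∑ x ∈ A i, |ω i x| :=
        Finset.single_le_sum (f := fun i => ∑ x ∈ A i, |ω i x|)
          (fun i _ => Finset.sum_nonneg fun x _ => abs_nonneg _) (Finset.mem_univ i)

theorem exists_N {κ : Type} [Fintype κ] (A : κ → Finset V) (z : V) :
    ∃ N : ℝ, (|(z.1 : ℝ)| ≤ N ∧ |(z.2 : ℝ)| ≤ N) ∧ ∀ i, ∀ x ∈ A i, |(x.1 : ℝ)| ≤ N ∧ |(x.2 : ℝ)| ≤ N := by
  obtain ⟨W1, h1, h1'⟩ := exists_W A (fun _ x => (x.1 : ℝ))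
  obtain ⟨W2, h2, h2'⟩ := exists_W A (fun _ x => (x.2 : ℝ))
  refine ⟨W1 + W2 + |(z.1 : ℝ)| + |(z.2 : ℝ)|, ⟨?_, ?_⟩, fun i x hx => ⟨?_, ?_⟩⟩
  · linarith [abs_nonneg (z.2 : ℝ)]
  · linarith [abs_nonneg (z.1 : ℝ)]
  · linarith [h1' i x hx, abs_nonneg (z.2 : ℝ), abs_nonneg (z.1 : ℝ)]
  · linarith [h2' i x hx, abs_nonneg (z.2 : ℝ), abs_nonneg (z.1 : ℝ)]

theorem arg_mem {A : Finset V} {ω : V → ℝ} {a : ℝ × ℝ} {x : V} (hx : x ∈ arg A ω a) : x ∈ A := by
  classical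
  unfold arg at hx
  exact (Finset.mem_filter.1 hx).1

theorem arg_le {A : Finset V} {ω : V → ℝ} {a : ℝ × ℝ} {x : V} (hx : x ∈ arg A ω a) {y : V} (hy : y ∈ A) :
    dotR a (y - x) ≤ ω y - ω x := by
  classical
  unfold arg at hx
  have := (Finset.mem_filter.1 hx).2 y hy
  rw [dotR_sub]; linarith

theorem arg_le' {A : Finset V} {ω : V → ℝ} {a : ℝ × ℝ} {x y : V} {W : ℝ} (hW : ∀ x ∈ A, |ω x| ≤ W)
    (hx : x ∈ arg A ω a) (hy : y ∈ A) : dotR a (y - x) ≤ 2 * W := by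
  have h1 := arg_le hx hy
  have h2 := abs_le.1 (hW y hy)
  have h3 := abs_le.1 (hW x (arg_mem hx))
  linarith [h2.2, h3.1]

theorem arg_abs {A : Finset V} {ω : V → ℝ} {a : ℝ × ℝ} {x y : V} {W : ℝ} (hW : ∀ x ∈ A, |ω x| ≤ W)
    (hx : x ∈ arg A ω a) (hy : y ∈ arg A ω a) : |dotR a (y - x)| ≤ 2 * W := by
  rw [abs_le]
  have h1 := arg_le' hW hx (arg_mem hy)
  have h2 := arg_le' hW hy (arg_mem hx)
  rw [dotR_sub] at h1 h2 ⊢
  constructor <;> linarith

/-- `|m r| ≤ K c` -/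
theorem mul_abs_le {m r K c : ℝ} (hm : |m| ≤ K) (hr : |r| ≤ c) : |m * r| ≤ K * c := by
  rw [abs_mul]
  exact mul_le_mul hm hr (abs_nonneg _) ((abs_nonneg _).trans hm)

end PlaceM

open PlaceM in
theorem bounds {κ : Type} [Fintype κ] (A : κ → Finset V) (ω : κ → V → ℝ) (i0 : κ) (z : V)
    (hne : (A i0).Nonempty) (hz : z ∉ A i0) :
    ∃ M : ℝ, ∀ a : ℝ × ℝ, (∀ q ∈ A i0, M - dotR a z ≤ ω i0 q - dotR a q) →
      (∀ i, ∀ x ∈ arg (A i) (ω i) a, ∀ y ∈ arg (A i) (ω i) a, ∀ j, ∀ x' ∈ arg (A j) (ω j) a,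
        ∀ y' ∈ arg (A j) (ω j) a, det (y - x) (y' - x') = 0) ∧
      (∀ i, ∀ x ∈ arg (A i) (ω i) a, ∀ y ∈ arg (A i) (ω i) a, x ≠ y → ∀ c₀ ∈ arg (A i0) (ω i0) a,
        det (y - x) (z - c₀) ≠ 0) ∧
      (∀ i, ∀ x ∈ arg (A i) (ω i) a, ∀ y ∈ arg (A i) (ω i) a, x ≠ y → ∀ c₀ ∈ arg (A i0) (ω i0) a,
        ∀ j, ∀ c ∈ arg (A j) (ω j) a, ∀ w ∈ A j, det (y - x) (w - c) * det (y - x) (z - c₀) ≤ 0) ∧
      (∀ c₀ ∈ arg (A i0) (ω i0) a, ∀ p ∈ A i0, ∀ g : ℕ, z - c₀ ≠ (g : ℤ) • (p - c₀)) := by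
  obtain ⟨W, hW0, hW⟩ := exists_W A ω
  obtain ⟨N, hNz, hN⟩ := exists_N A z
  have hN0 : 0 ≤ N := (abs_nonneg _).trans hNz.1
  set K : ℝ := 8 * N ^ 2 + 2 * N with hK
  have hK0 : 0 ≤ K := by positivity
  have hKd : ∀ {v w : V}, (|(v.1 : ℝ)| ≤ 2 * N ∧ |(v.2 : ℝ)| ≤ 2 * N) →
      (|(w.1 : ℝ)| ≤ 2 * N ∧ |(w.2 : ℝ)| ≤ 2 * N) → |((det v w : ℤ) : ℝ)| ≤ K := by
    intro v w hv hw
    exact (det_bound hv hw).trans (by rw [hK]; linarith)
  have hKN : 2 * N ≤ K := by rw [hK]; nlinarith [sq_nonneg N]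
  have hKW : 0 ≤ K * (2 * W) := mul_nonneg hK0 (by linarith)
  refine ⟨W + K * (2 * W) + K * (2 * W) + 1, ?_⟩
  intro a ha
  have hζ : ∀ q ∈ A i0, K * (2 * W) + K * (2 * W) + 1 ≤ dotR a (z - q) := by
    intro q hq
    have h1 := ha q hq
    have h2 := (abs_le.1 (hW i0 q hq)).2
    rw [dotR_sub]; linarith
  refine ⟨?_, ?_, ?_, ?_⟩
  · intro i x hx y hy j x' hx' y' hy'
    obtain ⟨q, hq⟩ := hne
    by_contra hd
    have hδ := sub_bound (hN i x (arg_mem hx)) (hN i y (arg_mem hy))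
    have hδ' := sub_bound (hN j x' (arg_mem hx')) (hN j y' (arg_mem hy'))
    have hζb := sub_bound (hN i0 q hq) hNz
    have e := ident a (z - q) (y - x) (y' - x')
    have h1 := mul_abs_le (hKd hζb hδ') (arg_abs (hW i) hx hy)
    have h2 := mul_abs_le (hKd hδ hζb) (arg_abs (hW j) hx' hy')
    have h3 : |((det (y - x) (y' - x') : ℤ) : ℝ) * dotR a (z - q)| ≤ K * (2 * W) + K * (2 * W) := by
      rw [e]; exact (abs_add_le _ _).trans (add_le_add h1 h2)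
    rw [abs_mul] at h3
    have h4 := one_le_abs_cast hd
    have h5 := hζ q hq
    have h6 : dotR a (z - q) ≤ |dotR a (z - q)| := le_abs_self _
    nlinarith [abs_nonneg (dotR a (z - q))]
  · intro i x hx y hy hxy c₀ hc₀ hd
    have hcA := arg_mem hc₀
    have hδ := sub_bound (hN i x (arg_mem hx)) (hN i y (arg_mem hy))
    have hζb := sub_bound (hN i0 c₀ hcA) hNz
    have hdr : (((y - x).1 : ℝ)) * ((z - c₀).2 : ℝ) - ((y - x).2 : ℝ) * ((z - c₀).1 : ℝ) = 0 := by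
      have := cast_det (y - x) (z - c₀)
      rw [hd] at this
      rw [← this]; norm_num
    have h5 := hζ c₀ hcA
    have h6 : dotR a (z - c₀) ≤ |dotR a (z - c₀)| := le_abs_self _
    have ha1 := arg_abs (hW i) hx hy
    have hne' : (y - x).1 ≠ 0 ∨ (y - x).2 ≠ 0 := by
      by_contra hcon
      push Not at hcon
      apply hxy
      have : y - x = 0 := Prod.ext hcon.1 hcon.2
      exact (sub_eq_zero.1 this).symm
    rcases hne' with h | h
    · have h4 := one_le_abs_cast h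
      have e : ((y - x).1 : ℝ) * dotR a (z - c₀) = ((z - c₀).1 : ℝ) * dotR a (y - x) := by
        simp only [dotR]
        linear_combination a.2 * hdr
      have h1 := mul_abs_le (hζb.1.trans hKN) ha1
      rw [← e, abs_mul] at h1
      nlinarith [abs_nonneg (dotR a (z - c₀))]
    · have h4 := one_le_abs_cast h
      have e : ((y - x).2 : ℝ) * dotR a (z - c₀) = ((z - c₀).2 : ℝ) * dotR a (y - x) := by
        simp only [dotR]
        linear_combination (-a.1) * hdr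
      have h1 := mul_abs_le (hζb.2.trans hKN) ha1
      rw [← e, abs_mul] at h1
      nlinarith [abs_nonneg (dotR a (z - c₀))]
  · intro i x hx y hy hxy c₀ hc₀ j c hc w hw
    by_contra hpos
    push Not at hpos
    have hcA := arg_mem hc₀
    have hδ := sub_bound (hN i x (arg_mem hx)) (hN i y (arg_mem hy))
    have hζb := sub_bound (hN i0 c₀ hcA) hNz
    have hwc := sub_bound (hN j c (arg_mem hc)) (hN j w hw)
    have e := ident a (w - c) (y - x) (z - c₀)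
    have h1 := mul_abs_le (hKd hwc hζb) (arg_abs (hW i) hx hy)
    have h1' := abs_le.1 h1
    have h5 := hζ c₀ hcA
    have h7 := arg_le' (hW j) hc hw
    have hD2 := hKd hδ hζb
    have hD2' := abs_le.1 hD2
    set D1 : ℤ := det (y - x) (w - c) with hD1
    set D2 : ℤ := det (y - x) (z - c₀) with hD2e
    have h2W : 0 ≤ 2 * W := by linarith
    have hζ0 : 0 ≤ dotR a (z - c₀) := by linarith
    rcases lt_trichotomy D2 0 with hneg | h0 | hp
    · have hD1neg : D1 < 0 := by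
        by_contra hcon
        push Not at hcon
        have := mul_nonpos_of_nonneg_of_nonpos hcon hneg.le
        linarith
      have hD1r : (D1 : ℝ) ≤ -1 := by
        have : D1 ≤ -1 := by omega
        exact_mod_cast this
      have hD2r : (D2 : ℝ) < 0 := by exact_mod_cast hneg
      have h8 : (-(D2 : ℝ)) * dotR a (w - c) ≤ K * (2 * W) := by
        calc (-(D2 : ℝ)) * dotR a (w - c) ≤ (-(D2 : ℝ)) * (2 * W) :=
              mul_le_mul_of_nonneg_left h7 (by linarith)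
          _ ≤ K * (2 * W) := mul_le_mul_of_nonneg_right (by linarith [hD2'.1]) h2W
      have h9 : dotR a (z - c₀) ≤ (-(D1 : ℝ)) * dotR a (z - c₀) := by
        nlinarith
      nlinarith [h1'.1, h1'.2]
    · rw [h0, mul_zero] at hpos; exact lt_irrefl _ hpos
    · have hD1pos : 0 < D1 := by
        by_contra hcon
        push Not at hcon
        have := mul_nonpos_of_nonpos_of_nonneg hcon hp.le
        linarith
      have hD1r : (1 : ℝ) ≤ (D1 : ℝ) := by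
        have : (1 : ℤ) ≤ D1 := by omega
        exact_mod_cast this
      have hD2r : (0 : ℝ) < (D2 : ℝ) := by exact_mod_cast hp
      have h8 : (D2 : ℝ) * dotR a (w - c) ≤ K * (2 * W) := by
        calc (D2 : ℝ) * dotR a (w - c) ≤ (D2 : ℝ) * (2 * W) :=
              mul_le_mul_of_nonneg_left h7 hD2r.le
          _ ≤ K * (2 * W) := mul_le_mul_of_nonneg_right hD2'.2 h2W
      have h9 : dotR a (z - c₀) ≤ (D1 : ℝ) * dotR a (z - c₀) := by
        nlinarith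
      nlinarith [h1'.1, h1'.2]
  · intro c₀ hc₀ p hp g hg
    have hcA := arg_mem hc₀
    have hζb := sub_bound (hN i0 c₀ hcA) hNz
    have h5 := hζ c₀ hcA
    have h7 := arg_le' (hW i0) hc₀ hp
    have hg1 : ((z - c₀).1 : ℝ) = (g : ℝ) * ((p - c₀).1 : ℝ) := by
      have := congrArg Prod.fst hg
      simp only [Prod.smul_fst, smul_eq_mul] at this
      rw [this]; push_cast; rfl
    have hg2 : ((z - c₀).2 : ℝ) = (g : ℝ) * ((p - c₀).2 : ℝ) := by
      have := congrArg Prod.snd hg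
      simp only [Prod.smul_snd, smul_eq_mul] at this
      rw [this]; push_cast; rfl
    have e : dotR a (z - c₀) = (g : ℝ) * dotR a (p - c₀) := by
      simp only [dotR]
      rw [hg1, hg2]; ring
    have hgK : (g : ℝ) ≤ K := by
      have hne' : (z - c₀).1 ≠ 0 ∨ (z - c₀).2 ≠ 0 := by
        by_contra hcon
        push Not at hcon
        apply hz
        have : z - c₀ = 0 := Prod.ext hcon.1 hcon.2
        rw [sub_eq_zero.1 this]; exact hcA
      have hg0 : (0 : ℝ) ≤ g := Nat.cast_nonneg g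
      rcases hne' with h | h
      · have hp1 : (p - c₀).1 ≠ 0 := by
          intro h0
          apply h
          have : ((z - c₀).1 : ℝ) = 0 := by rw [hg1, h0]; simp
          exact_mod_cast this
        have h4 := one_le_abs_cast hp1
        have h8 : (g : ℝ) * |((p - c₀).1 : ℝ)| ≤ 2 * N := by
          rw [← abs_of_nonneg hg0, ← abs_mul, ← hg1]
          exact hζb.1
        nlinarith
      · have hp1 : (p - c₀).2 ≠ 0 := by
          intro h0
          apply h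
          have : ((z - c₀).2 : ℝ) = 0 := by rw [hg2, h0]; simp
          exact_mod_cast this
        have h4 := one_le_abs_cast hp1
        have h8 : (g : ℝ) * |((p - c₀).2 : ℝ)| ≤ 2 * N := by
          rw [← abs_of_nonneg hg0, ← abs_mul, ← hg2]
          exact hζb.2
        nlinarith
    have h10 : (g : ℝ) * dotR a (p - c₀) ≤ K * (2 * W) := by
      calc (g : ℝ) * dotR a (p - c₀) ≤ (g : ℝ) * (2 * W) :=
            mul_le_mul_of_nonneg_left h7 (Nat.cast_nonneg g)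
        _ ≤ K * (2 * W) := mul_le_mul_of_nonneg_right hgK (by linarith)
    rw [← e] at h10
    linarith

end Pool.Agent.SPB
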