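import Pool.Agent.SPB.Defs

/-!
# [SPB-PlaceU] unimodular families

`uni_single`: given `c` for the new family, `c i0 z` is an integer (hypothesis for `i0`). Apply `UniFam C` to `c'` which is `0` at `i0` and `c i` otherwise: the sums over `C' i0 = {z}` in the coordinates are `c i0 z * z.1` etc., integers.
`uni_insert`: the number `∑_i ∑_{x ∈ C' i} c i x * dot n x` is an integer (integral combination of the two coordinate sums). For `i ≠ i0` the inner sum is `(∑ c i x) * (common value)`, an integer (or `0` if `C i = ∅`); for `i0` it is `(∑_{C' i0} c) * N + c i0 z`, `N = dot n c₀`. So `c i0 z` is an integer; then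
apply `UniFam C` to `c`: the sum over `C i0` is the sum over `C' i0` minus `c i0 z`, etc. (`z ∉ C i0`).
`uni_prim`: if `y - x = g • δ` with `g ≥ 2` (`g` = gcd of the coordinates; `g = 0` only if `x = y`), then `c i y = 1/g`, `c i x = -1/g`, `0` otherwise, has integral sums, but `1/g` is not an integer.
`uni_point`: in case `C i ⊆ {p i}` for all `i ≠ i0` nothing is needed; not used.
-/

open Finset

set_option autoImplicit false

namespace Pool.Agent.SPB

private lemma helper23_int_zero : IsInt 0 := ⟨0, by simp⟩

private lemma helper23_int_add {a b : ℝ} (ha : IsInt a) (hb : IsInt b) : IsInt (a + b) := by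
  obtain ⟨m, rfl⟩ := ha
  obtain ⟨n, rfl⟩ := hb
  exact ⟨m + n, by push_cast; ring⟩

private lemma helper23_int_sub {a b : ℝ} (ha : IsInt a) (hb : IsInt b) : IsInt (a - b) := by
  obtain ⟨m, rfl⟩ := ha
  obtain ⟨n, rfl⟩ := hb
  exact ⟨m - n, by push_cast; ring⟩

private lemma helper23_int_mul {a : ℝ} (ha : IsInt a) (n : ℤ) : IsInt (a * n) := by
  obtain ⟨m, rfl⟩ := ha
  exact ⟨m * n, by push_cast; ring⟩

private lemma helper23_int_sum {ι : Type} {s : Finset ι} {g : ι → ℝ} (h : ∀ i ∈ s, IsInt (g i)) :
    IsInt (∑ i ∈ s, g i) := by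
  classical
  induction s using Finset.induction_on with
  | empty => simpa using helper23_int_zero
  | insert a s ha ih =>
    rw [Finset.sum_insert ha]
    exact helper23_int_add (h a (Finset.mem_insert_self _ _))
      (ih fun i hi => h i (Finset.mem_insert_of_mem hi))

/-- two sums which differ only at `i0` -/
private lemma helper23_sum_diff {κ : Type} [Fintype κ] [DecidableEq κ] (i0 : κ) (g g' : κ → ℝ)
    (h : ∀ i, i ≠ i0 → g i = g' i) : ∑ i, g i = ∑ i, g' i - g' i0 + g i0 := by
  rw [← Finset.add_sum_erase univ g (mem_univ i0), ← Finset.add_sum_erase univ g' (mem_univ i0)]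
  have : ∑ i ∈ univ.erase i0, g i = ∑ i ∈ univ.erase i0, g' i :=
    Finset.sum_congr rfl fun i hi => h i (Finset.ne_of_mem_erase hi)
  rw [this]
  ring

theorem uni_single {κ : Type} [Fintype κ] [DecidableEq κ] {C : κ → Finset V} (h : UniFam C) (i0 : κ) (z : V) :
    UniFam (Function.update C i0 {z}) := by
  intro c h1 h2 h3 i x hx
  have hz : IsInt (c i0 z) := by
    have := h1 i0
    rw [Function.update_self, Finset.sum_singleton] at this
    exact this
  by_cases hi : i = i0
  · subst hi
    rw [Function.update_self, Finset.mem_singleton] at hx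
    rw [hx]
    exact hz
  rw [Function.update_of_ne hi] at hx
  have key : ∀ f : V → ℤ, IsInt (∑ i, ∑ x ∈ Function.update C i0 {z} i, c i x * (f x : ℝ)) →
      IsInt (∑ i, ∑ x ∈ C i, (if i = i0 then 0 else c i x) * (f x : ℝ)) := by
    intro f hf
    rw [helper23_sum_diff i0 _ (fun i => ∑ x ∈ Function.update C i0 {z} i, c i x * (f x : ℝ))]
    · have e1 : ∑ x ∈ Function.update C i0 {z} i0, c i0 x * (f x : ℝ) = c i0 z * f z := by
        rw [Function.update_self, Finset.sum_singleton]
      simp only [e1, if_true, zero_mul, Finset.sum_const_zero, add_zero]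
      exact helper23_int_sub hf (helper23_int_mul hz _)
    · intro j hj
      simp only [Function.update_of_ne hj, if_neg hj]
  have h4 := h (fun i x => if i = i0 then 0 else c i x) (fun j => by
    by_cases hj : j = i0
    · simp only [hj, if_true, Finset.sum_const_zero]
      exact helper23_int_zero
    · have := h1 j
      rw [Function.update_of_ne hj] at this
      simpa only [if_neg hj] using this)
    (key (fun x => x.1) h2) (key (fun x => x.2) h3) i x hx
  simpa only [if_neg hi] using h4

theorem uni_insert {κ : Type} [Fintype κ] [DecidableEq κ] {C : κ → Finset V} (h : UniFam C) (i0 : κ) {z : V}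
    (hz : z ∉ C i0) {n : V} (hn : ∀ i, ∀ x ∈ C i, ∀ y ∈ C i, dot n x = dot n y)
    (hn0 : ∃ N, (∀ x ∈ C i0, dot n x = N) ∧ dot n z = N + 1) :
    UniFam (Function.update C i0 (insert z (C i0))) := by
  intro c h1 h2 h3
  obtain ⟨N, hN, hNz⟩ := hn0
  have hD : IsInt (∑ i, ∑ x ∈ Function.update C i0 (insert z (C i0)) i, c i x * (dot n x : ℝ)) := by
    have e : ∑ i, ∑ x ∈ Function.update C i0 (insert z (C i0)) i, c i x * (dot n x : ℝ) =
        (∑ i, ∑ x ∈ Function.update C i0 (insert z (C i0)) i, c i x * (x.1 : ℝ)) * n.1 +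
        (∑ i, ∑ x ∈ Function.update C i0 (insert z (C i0)) i, c i x * (x.2 : ℝ)) * n.2 := by
      simp only [Finset.sum_mul, ← Finset.sum_add_distrib]
      refine Finset.sum_congr rfl fun i _ => Finset.sum_congr rfl fun x _ => ?_
      unfold dot
      push_cast
      ring
    rw [e]
    exact helper23_int_add (helper23_int_mul h2 _) (helper23_int_mul h3 _)
  have hcz : IsInt (c i0 z) := by
    rw [← Finset.add_sum_erase univ _ (mem_univ i0)] at hD
    have e1 : ∑ x ∈ Function.update C i0 (insert z (C i0)) i0, c i0 x * (dot n x : ℝ) =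
        (∑ x ∈ Function.update C i0 (insert z (C i0)) i0, c i0 x) * N + c i0 z := by
      rw [Function.update_self, Finset.sum_insert hz, Finset.sum_insert hz, hNz]
      have e2 : ∑ x ∈ C i0, c i0 x * (dot n x : ℝ) = (∑ x ∈ C i0, c i0 x) * N := by
        rw [Finset.sum_mul]
        exact Finset.sum_congr rfl fun x hx => by rw [hN x hx]
      rw [e2]
      push_cast
      ring
    have e3 : IsInt (∑ i ∈ univ.erase i0, ∑ x ∈ Function.update C i0 (insert z (C i0)) i,
        c i x * (dot n x : ℝ)) := by
      refine helper23_int_sum fun i hi => ?_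
      have hi' := Finset.ne_of_mem_erase hi
      have h4 := h1 i
      rw [Function.update_of_ne hi'] at h4 ⊢
      rcases (C i).eq_empty_or_nonempty with h5 | ⟨y, hy⟩
      · rw [h5, Finset.sum_empty]
        exact helper23_int_zero
      · have e4 : ∑ x ∈ C i, c i x * (dot n x : ℝ) = (∑ x ∈ C i, c i x) * (dot n y : ℤ) := by
          rw [Finset.sum_mul]
          exact Finset.sum_congr rfl fun x hx => by rw [hn i x hx y hy]
        rw [e4]
        exact helper23_int_mul h4 _
    have h5 := helper23_int_sub (helper23_int_sub hD e3) (helper23_int_mul (h1 i0) N)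
    rw [e1] at h5
    have e6 : ∀ s t u v : ℝ, s + t + u - u - s = t := by intros; ring
    rwa [e6 _ _ _ 0] at h5
  have key : ∀ f : V → ℤ, IsInt (∑ i, ∑ x ∈ Function.update C i0 (insert z (C i0)) i, c i x * (f x : ℝ)) →
      IsInt (∑ i, ∑ x ∈ C i, c i x * (f x : ℝ)) := by
    intro f hf
    rw [helper23_sum_diff i0 _ (fun i => ∑ x ∈ Function.update C i0 (insert z (C i0)) i, c i x * (f x : ℝ))]
    · have e1 : ∑ x ∈ Function.update C i0 (insert z (C i0)) i0, c i0 x * (f x : ℝ) =
          c i0 z * f z + ∑ x ∈ C i0, c i0 x * (f x : ℝ) := by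
        rw [Function.update_self, Finset.sum_insert hz]
      simp only [e1]
      have h5 := helper23_int_sub hf (helper23_int_mul hcz (f z))
      have e6 : ∀ s t u : ℝ, s - (t + u) + u = s - t := by intros; ring
      rwa [e6]
    · intro j hj
      simp only [Function.update_of_ne hj]
  have h6 := h c (fun j => by
    by_cases hj : j = i0
    · subst hj
      have h5 := helper23_int_sub (h1 j) hcz
      rw [Function.update_self, Finset.sum_insert hz] at h5
      have e6 : ∀ s t : ℝ, s + t - s = t := by intros; ring
      rwa [e6] at h5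
    · have := h1 j
      rwa [Function.update_of_ne hj] at this)
    (key (fun x => x.1) h2) (key (fun x => x.2) h3)
  intro i x hx
  by_cases hi : i = i0
  · subst hi
    rw [Function.update_self, Finset.mem_insert] at hx
    rcases hx with rfl | hx
    · exact hcz
    · exact h6 i x hx
  · rw [Function.update_of_ne hi] at hx
    exact h6 i x hx

theorem uni_prim {κ : Type} [Fintype κ] [DecidableEq κ] {C : κ → Finset V} (h : UniFam C) {i : κ} {x y : V}
    (hx : x ∈ C i) (hy : y ∈ C i) (hne : x ≠ y) : Prim (y - x) := by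
  unfold Prim
  rw [Int.isCoprime_iff_gcd_eq_one]
  by_contra hg
  obtain ⟨g, hgdef⟩ : ∃ g, g = Int.gcd (y - x).1 (y - x).2 := ⟨_, rfl⟩
  rw [← hgdef] at hg
  have hg0 : g ≠ 0 := by
    intro h0
    rw [h0] at hgdef
    have h1 := Int.gcd_eq_zero_iff.1 hgdef.symm
    apply hne
    have e1 : y.1 - x.1 = 0 := h1.1
    have e2 : y.2 - x.2 = 0 := h1.2
    exact Prod.ext (by omega) (by omega)
  obtain ⟨a, ha⟩ : (g : ℤ) ∣ (y - x).1 := by rw [hgdef]; exact Int.gcd_dvd_left ..
  obtain ⟨b, hb⟩ : (g : ℤ) ∣ (y - x).2 := by rw [hgdef]; exact Int.gcd_dvd_right ..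
  have hgR : (g : ℝ) ≠ 0 := by exact_mod_cast hg0
  have hsum : ∀ f : V → ℝ, ∑ w ∈ C i, (if w = y then (1 / g : ℝ) else if w = x then -(1 / g) else 0) * f w =
      (f y - f x) / g := by
    intro f
    rw [Finset.sum_eq_add x y hne]
    · simp only [if_true, if_neg hne]
      ring
    · intro w _ hw
      simp only [if_neg hw.1, if_neg hw.2, zero_mul]
    · exact fun h' => absurd hx h'
    · exact fun h' => absurd hy h'
  have hall : ∀ f : V → ℝ, ∑ j, ∑ w ∈ C j, (if j = i then (if w = y then (1 / g : ℝ) else
      if w = x then -(1 / g) else 0) else 0) * f w = (f y - f x) / g := by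
    intro f
    rw [Finset.sum_eq_single i]
    · simp only [if_true]
      exact hsum f
    · intro j _ hj
      simp only [if_neg hj, zero_mul, Finset.sum_const_zero]
    · exact fun h' => absurd (mem_univ i) h'
  have h4 := h (fun j w => if j = i then (if w = y then (1 / g : ℝ) else if w = x then -(1 / g) else 0) else 0)
    (fun j => by
      by_cases hj : j = i
      · subst hj
        have := hsum (fun _ => 1)
        simp only [mul_one, sub_self, zero_div] at this
        simp only [if_true]
        rw [this]
        exact helper23_int_zero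
      · simp only [if_neg hj, Finset.sum_const_zero]
        exact helper23_int_zero)
    (by
      rw [hall (fun w => (w.1 : ℝ))]
      refine ⟨a, ?_⟩
      have e : ((y.1 : ℝ) - x.1) = g * a := by
        have : (y.1 - x.1 : ℤ) = g * a := ha
        exact_mod_cast this
      rw [e]
      field_simp)
    (by
      rw [hall (fun w => (w.2 : ℝ))]
      refine ⟨b, ?_⟩
      have e : ((y.2 : ℝ) - x.2) = g * b := by
        have : (y.2 - x.2 : ℤ) = g * b := hb
        exact_mod_cast this
      rw [e]
      field_simp) i y hy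
  simp only [if_true] at h4
  obtain ⟨k, hk⟩ := h4
  have hg2 : (2 : ℝ) ≤ g := by
    have : 2 ≤ g := by omega
    exact_mod_cast this
  have h5 : (0 : ℝ) < k := by
    rw [← hk]
    positivity
  have h6 : (k : ℝ) < 1 := by
    rw [← hk, div_lt_one (by linarith)]
    linarith
  have h7 : 0 < k := by exact_mod_cast h5
  have h8 : k < 1 := by exact_mod_cast h6
  omega

end Pool.Agent.SPB
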