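import Pool.Agent.SPB.PlaceT
import Pool.Agent.SPB.PlaceU
import Pool.Agent.SPB.PlaceM

/-!
# [SPB-Place] adding a point with a very large height keeps `Good`

`ω' = update ω i0 (update (ω i0) z M)` with `M` from `bounds`. Fix `a`; `C i = arg (A i) (ω i) a`, `C' i` the same for the new data; `C' i = C i` for `i ≠ i0`. `C i0 ≠ ∅`. If `z ∉ C' i0` then `C' = C`. Let `z ∈ C' i0`; then `M - dotR a z ≤ ω i0 q - dotR a q` for `q ∈ A i0`, so `bounds` applies.
If no `q ∈ C i0` is in `C' i0` then `C' i0 = {z}`: `uni_single`. Otherwise `C' i0 = insert z (C i0)`. By `uni_insert` we need `n : V` with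
(2) `dot n x = dot n y` for all `i`, `x, y ∈ C i`, and (3) `dot n z = dot n c + 1` for `c ∈ C i0` (by (2) for one `c`). Let `c₀ ∈ C i0`.
Case A: all `C i` have at most one point. Then `z - c₀` is primitive: otherwise `seg_pt` gives `p` in the segment, `p ∈ A i0` (`hL`, `p ≠ z`), contradiction to (P4). Take `n` with `dot n (z - c₀) = 1` (Bezout).
Case B: `x ≠ y` in some `C i`; `δ = y - x` is primitive (`uni_prim`). Let `n = ± (-δ.2, δ.1)`, `dot n v = ± det δ v`, with the sign such that `dot n (z - c₀) > 0` (P2). `n` is primitive, (2) holds by (P1). (P3): every `c ∈ C j` maximises `dot n` on `A j`.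
Case B1: `i ≠ i0`: `EdgeNorm` for `A i` (`dot n x = dot n y` maximal) gives `n ∈ F`; `Addable` gives `q ∈ A i0` with `dot n z ≤ dot n q + 1 ≤ dot n c₀ + 1`. So (3).
Case B2: `i = i0`. If `|det δ (z - x)| ≥ 2`, `tri_pt` gives a lattice point `p` in the triangle `x, y, z`, `p ≠ z`, `dot n p > dot n x`; `p ∈ A i0` by `hL`; contradiction to the maximality of `x`. So `dot n z - dot n x = 1` (it is `> 0`): (3).
-/

open Finset

set_option autoImplicit false

namespace Pool.Agent.SPB

private theorem place_mem_arg {A : Finset V} {ω : V → ℝ} {a : ℝ × ℝ} {x : V} :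
    x ∈ arg A ω a ↔ x ∈ A ∧ ∀ y ∈ A, ω x - dotR a x ≤ ω y - dotR a y := by
  unfold arg
  rw [Finset.mem_filter]

private theorem place_arg_skip {A : Finset V} {ω : V → ℝ} {a : ℝ × ℝ} {z : V} {M : ℝ} (hz : z ∉ A)
    {q : V} (hq : q ∈ A) (hlt : ω q - dotR a q < M - dotR a z) :
    arg (insert z A) (Function.update ω z M) a = arg A ω a := by
  ext x
  rw [place_mem_arg, place_mem_arg]
  constructor
  · rintro ⟨hx, hm⟩
    have hxz : x ≠ z := by
      rintro rfl
      have h1 := hm q (Finset.mem_insert_of_mem hq)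
      have hqz : q ≠ x := fun h => hz (h ▸ hq)
      rw [Function.update_self, Function.update_of_ne hqz] at h1
      linarith
    have hxA : x ∈ A := (Finset.mem_insert.mp hx).resolve_left hxz
    refine ⟨hxA, fun y hy => ?_⟩
    have hyz : y ≠ z := fun h => hz (h ▸ hy)
    have h1 := hm y (Finset.mem_insert_of_mem hy)
    rwa [Function.update_of_ne hxz, Function.update_of_ne hyz] at h1
  · rintro ⟨hx, hm⟩
    have hxz : x ≠ z := fun h => hz (h ▸ hx)
    refine ⟨Finset.mem_insert_of_mem hx, fun y hy => ?_⟩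
    rw [Function.update_of_ne hxz]
    by_cases hyz : y = z
    · subst hyz
      rw [Function.update_self]
      have h1 := hm q hq
      linarith
    · rw [Function.update_of_ne hyz]
      exact hm y ((Finset.mem_insert.mp hy).resolve_left hyz)

private theorem place_arg_single {A : Finset V} {ω : V → ℝ} {a : ℝ × ℝ} {z : V} {M : ℝ} (hz : z ∉ A)
    (hlt : ∀ q ∈ A, M - dotR a z < ω q - dotR a q) :
    arg (insert z A) (Function.update ω z M) a = {z} := by
  ext x
  rw [place_mem_arg, Finset.mem_singleton]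
  constructor
  · rintro ⟨hx, hm⟩
    by_contra hxz
    have hxA : x ∈ A := (Finset.mem_insert.mp hx).resolve_left hxz
    have h1 := hm z (Finset.mem_insert_self _ _)
    rw [Function.update_self, Function.update_of_ne hxz] at h1
    have h2 := hlt x hxA
    linarith
  · rintro rfl
    refine ⟨Finset.mem_insert_self _ _, fun y hy => ?_⟩
    by_cases hyz : y = x
    · rw [hyz]
    · rw [Function.update_self, Function.update_of_ne hyz]
      exact (hlt y ((Finset.mem_insert.mp hy).resolve_left hyz)).le

private theorem place_arg_insert {A : Finset V} {ω : V → ℝ} {a : ℝ × ℝ} {z : V} {M : ℝ} (hz : z ∉ A)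
    (hle : ∀ q ∈ A, M - dotR a z ≤ ω q - dotR a q)
    {q : V} (hq : q ∈ A) (heq : ω q - dotR a q = M - dotR a z) :
    arg (insert z A) (Function.update ω z M) a = insert z (arg A ω a) := by
  ext x
  rw [place_mem_arg, Finset.mem_insert (s := arg A ω a), place_mem_arg]
  constructor
  · rintro ⟨hx, hm⟩
    by_cases hxz : x = z
    · exact Or.inl hxz
    · refine Or.inr ⟨(Finset.mem_insert.mp hx).resolve_left hxz, fun y hy => ?_⟩
      have hyz : y ≠ z := fun h => hz (h ▸ hy)
      have h1 := hm y (Finset.mem_insert_of_mem hy)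
      rwa [Function.update_of_ne hxz, Function.update_of_ne hyz] at h1
  · rintro (rfl | ⟨hx, hm⟩)
    · refine ⟨Finset.mem_insert_self _ _, fun y hy => ?_⟩
      by_cases hyz : y = x
      · rw [hyz]
      · rw [Function.update_self, Function.update_of_ne hyz]
        exact hle y ((Finset.mem_insert.mp hy).resolve_left hyz)
    · have hxz : x ≠ z := fun h => hz (h ▸ hx)
      refine ⟨Finset.mem_insert_of_mem hx, fun y hy => ?_⟩
      rw [Function.update_of_ne hxz]
      by_cases hyz : y = z
      · subst hyz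
        rw [Function.update_self]
        have h1 := hm q hq
        linarith
      · rw [Function.update_of_ne hyz]
        exact hm y ((Finset.mem_insert.mp hy).resolve_left hyz)

private theorem place_dot_sub (n x y : V) : dot n (x - y) = dot n x - dot n y := by
  unfold dot
  simp only [Prod.fst_sub, Prod.snd_sub]
  ring

private theorem place_normal {κ : Type} [Fintype κ] [DecidableEq κ] {F : Finset V} {A : κ → Finset V}
    {C : κ → Finset V} (hU : UniFam C) (hCA : ∀ i, C i ⊆ A i)
    (i0 : κ) {z : V} (hz : z ∉ A i0) (hL : LatConv (insert z (A i0)))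
    (hE : ∀ j, j ≠ i0 → EdgeNorm F (A j)) (hadd : Addable F (A i0) z)
    (P1 : ∀ i, ∀ x ∈ C i, ∀ y ∈ C i, ∀ j, ∀ x' ∈ C j, ∀ y' ∈ C j, det (y - x) (y' - x') = 0)
    (P2 : ∀ i, ∀ x ∈ C i, ∀ y ∈ C i, x ≠ y → ∀ c₀ ∈ C i0, det (y - x) (z - c₀) ≠ 0)
    (P3 : ∀ i, ∀ x ∈ C i, ∀ y ∈ C i, x ≠ y → ∀ c₀ ∈ C i0, ∀ j, ∀ c ∈ C j, ∀ w ∈ A j,
      det (y - x) (w - c) * det (y - x) (z - c₀) ≤ 0)
    (P4 : ∀ c₀ ∈ C i0, ∀ p ∈ A i0, ∀ g : ℕ, z - c₀ ≠ (g : ℤ) • (p - c₀))
    {c₀ : V} (hc₀ : c₀ ∈ C i0) :
    ∃ n : V, (∀ i, ∀ x ∈ C i, ∀ y ∈ C i, dot n x = dot n y) ∧ dot n z = dot n c₀ + 1 := by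
  have hzc : z ≠ c₀ := fun h => hz (h ▸ hCA i0 hc₀)
  by_cases hall : ∀ i, ∀ x ∈ C i, ∀ y ∈ C i, x = y
  · -- Case A
    have hprim : Prim (z - c₀) := by
      by_contra hnp
      obtain ⟨p, g, hg, hgp, hpz, hpc, hpseg⟩ := seg_pt hzc.symm hnp
      have hpin : p ∈ insert z (A i0) := by
        apply hL
        refine convexHull_mono ?_ hpseg
        rintro v hv
        rcases hv with hv | hv
        · rw [hv]
          exact ⟨c₀, by simpa using Or.inr (hCA i0 hc₀), rfl⟩
        · rw [Set.mem_singleton_iff] at hv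
          rw [hv]
          exact ⟨z, by simp, rfl⟩
      have hpA : p ∈ A i0 := (Finset.mem_insert.mp hpin).resolve_left hpz
      exact P4 c₀ hc₀ p hpA g hgp
    obtain ⟨u, v, huv⟩ := hprim
    refine ⟨(u, v), fun i x hx y hy => by rw [hall i x hx y hy], ?_⟩
    have h1 : dot (u, v) (z - c₀) = 1 := huv
    rw [place_dot_sub] at h1
    linarith
  · push Not at hall
    obtain ⟨i, x, hx, y, hy, hxy⟩ := hall
    have hprim : Prim (y - x) := uni_prim hU hx hy hxy
    have hD0 : det (y - x) (z - c₀) ≠ 0 := P2 i x hx y hy hxy c₀ hc₀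
    -- the normal with a sign
    obtain ⟨ε, hε, hεD⟩ : ∃ ε : ℤ, (ε = 1 ∨ ε = -1) ∧ 0 < ε * det (y - x) (z - c₀) := by
      rcases lt_or_gt_of_ne hD0 with h | h
      · exact ⟨-1, Or.inr rfl, by linarith⟩
      · exact ⟨1, Or.inl rfl, by linarith⟩
    have hε2 : ε * ε = 1 := by rcases hε with h | h <;> rw [h] <;> norm_num
    set n : V := (-(ε * (y - x).2), ε * (y - x).1) with hn
    have hdot : ∀ v : V, dot n v = ε * det (y - x) v := by
      intro v
      rw [hn]
      unfold dot det
      ring
    have h2 : ∀ j, ∀ x' ∈ C j, ∀ y' ∈ C j, dot n x' = dot n y' := by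
      intro j x' hx' y' hy'
      have h := P1 i x hx y hy j x' hx' y' hy'
      have h3 : dot n (y' - x') = 0 := by rw [hdot, h, mul_zero]
      rw [place_dot_sub] at h3
      linarith
    have h3 : ∀ j, ∀ c ∈ C j, ∀ w ∈ A j, dot n w ≤ dot n c := by
      intro j c hc w hw
      have h := P3 i x hx y hy hxy c₀ hc₀ j c hc w hw
      have h4 : dot n (w - c) * (ε * det (y - x) (z - c₀)) ≤ 0 := by
        rw [hdot]
        calc ε * det (y - x) (w - c) * (ε * det (y - x) (z - c₀))
            = (ε * ε) * (det (y - x) (w - c) * det (y - x) (z - c₀)) := by ring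
          _ = det (y - x) (w - c) * det (y - x) (z - c₀) := by rw [hε2, one_mul]
          _ ≤ 0 := h
      have h5 : dot n (w - c) ≤ 0 := by
        by_contra hcon
        push Not at hcon
        have := mul_pos hcon hεD
        linarith
      rw [place_dot_sub] at h5
      linarith
    have hpos : 0 < dot n (z - c₀) := by rw [hdot]; exact hεD
    refine ⟨n, h2, ?_⟩
    suffices hle : dot n (z - c₀) ≤ 1 by
      have h6 : dot n (z - c₀) = 1 := le_antisymm hle hpos
      rw [place_dot_sub] at h6
      linarith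
    by_cases hi : i = i0
    · -- Case B2
      subst hi
      by_contra hcon
      push Not at hcon
      have hzx : det (y - x) (z - x) = det (y - x) (z - c₀) := by
        have h7 := P1 i x hx y hy i x hx c₀ hc₀
        have h8 : det (y - x) (z - x) = det (y - x) (z - c₀) + det (y - x) (c₀ - x) := by
          unfold det
          simp only [Prod.fst_sub, Prod.snd_sub]
          ring
        rw [h8, h7, add_zero]
      have habs : 2 ≤ |det (y - x) (z - x)| := by
        rw [hzx]
        have h9 : dot n (z - c₀) = ε * det (y - x) (z - c₀) := hdot _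
        have h10 : ε * det (y - x) (z - c₀) ≤ |det (y - x) (z - c₀)| := by
          calc ε * det (y - x) (z - c₀) ≤ |ε * det (y - x) (z - c₀)| := le_abs_self _
            _ = |ε| * |det (y - x) (z - c₀)| := abs_mul _ _
            _ = |det (y - x) (z - c₀)| := by
                have : |ε| = 1 := by rcases hε with h | h <;> rw [h] <;> norm_num
                rw [this, one_mul]
        omega
      obtain ⟨p, hptri, hpz, hppos⟩ := tri_pt hprim habs
      have hpin : p ∈ insert z (A i) := by
        apply hL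
        refine convexHull_mono ?_ hptri
        rintro v hv
        rcases hv with hv | hv | hv
        · rw [hv]
          exact ⟨x, by simpa using Or.inr (hCA i hx), rfl⟩
        · rw [hv]
          exact ⟨y, by simpa using Or.inr (hCA i hy), rfl⟩
        · rw [Set.mem_singleton_iff] at hv
          rw [hv]
          exact ⟨z, by simp, rfl⟩
      have hpA : p ∈ A i := (Finset.mem_insert.mp hpin).resolve_left hpz
      have h11 := P3 i x hx y hy hxy x hx i x hx p hpA
      linarith
    · -- Case B1
      have hnprim : Prim n := by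
        obtain ⟨u, v, huv⟩ := hprim
        refine ⟨-(ε * v), ε * u, ?_⟩
        rw [hn]
        have : -(ε * v) * -(ε * (y - x).2) + ε * u * (ε * (y - x).1)
            = (ε * ε) * (u * (y - x).1 + v * (y - x).2) := by ring
        rw [this, huv, hε2, one_mul]
      have hnF : n ∈ F := hE i hi x (hCA i hx) y (hCA i hy) hxy n hnprim (h2 i x hx y hy)
        (fun w hw => h3 i x hx w hw)
      obtain ⟨q, hq, hqz⟩ := hadd n hnF
      have h12 := h3 i0 c₀ hc₀ q hq
      rw [place_dot_sub]
      linarith

theorem place {κ : Type} [Fintype κ] [DecidableEq κ] {F : Finset V} {A : κ → Finset V} {ω : κ → V → ℝ}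
    (hG : Good A ω) (i0 : κ) {z : V} (hne : (A i0).Nonempty) (hz : z ∉ A i0) (hL : LatConv (insert z (A i0)))
    (hE : ∀ j, j ≠ i0 → EdgeNorm F (A j)) (hadd : Addable F (A i0) z) :
    ∃ ω', Good (Function.update A i0 (insert z (A i0))) ω' := by
  obtain ⟨M, hM⟩ := bounds A ω i0 z hne hz
  refine ⟨Function.update ω i0 (Function.update (ω i0) z M), ?_⟩
  intro a
  have hU : UniFam (fun i => arg (A i) (ω i) a) := hG a
  have hCA : ∀ i, arg (A i) (ω i) a ⊆ A i := fun i x hx => (place_mem_arg.mp hx).1
  have hfam : (fun i => arg (Function.update A i0 (insert z (A i0)) i)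
      (Function.update ω i0 (Function.update (ω i0) z M) i) a)
      = Function.update (fun i => arg (A i) (ω i) a) i0
        (arg (insert z (A i0)) (Function.update (ω i0) z M) a) := by
    funext i
    by_cases hi : i = i0
    · subst hi
      simp only [Function.update_self]
    · simp only [Function.update_of_ne hi]
  rw [hfam]
  by_cases hlt : ∃ q ∈ A i0, ω i0 q - dotR a q < M - dotR a z
  · obtain ⟨q, hq, hq1⟩ := hlt
    rw [place_arg_skip hz hq hq1]
    have : Function.update (fun i => arg (A i) (ω i) a) i0 (arg (A i0) (ω i0) a)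
        = (fun i => arg (A i) (ω i) a) := Function.update_eq_self i0 _
    rw [this]
    exact hU
  · push Not at hlt
    by_cases heq : ∃ q ∈ A i0, ω i0 q - dotR a q = M - dotR a z
    · obtain ⟨q, hq, hq1⟩ := heq
      rw [place_arg_insert hz hlt hq hq1]
      obtain ⟨P1, P2, P3, P4⟩ := hM a hlt
      have hqC : q ∈ arg (A i0) (ω i0) a :=
        place_mem_arg.mpr ⟨hq, fun y hy => by rw [hq1]; exact hlt y hy⟩
      obtain ⟨n, hn2, hn3⟩ := place_normal hU hCA i0 hz hL hE hadd P1 P2 P3 P4 hqC
      exact uni_insert hU i0 (fun h => hz (hCA i0 h)) hn2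
        ⟨dot n q, fun x hx => hn2 i0 x hx q hqC, hn3⟩
    · push Not at heq
      have hlt2 : ∀ q ∈ A i0, M - dotR a z < ω i0 q - dotR a q :=
        fun q hq => lt_of_le_of_ne (hlt q hq) (Ne.symm (heq q hq))
      rw [place_arg_single hz hlt2]
      exact uni_single hU i0 z

end Pool.Agent.SPB
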