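import Pool.Agent.SPB.Opp
import Pool.Agent.SPB.Grow
import Pool.Agent.SPB.Order
import Pool.Agent.SPB.Place
import Pool.Agent.SPB.Base

/-!
# [SPB-Fam] good heights for a finite family of smooth polygons with the same normal fan

Each `A i` is nonempty (`vert_mem`). By `opp` there are two cases.
1. `u, -u ∈ F` (`u` is primitive: `det u w = 1` for its successor). `e = (u.2, -u.1)`. For each `i` choose `c i` maximal such that there is `s i ∈ A i` with `s i + c i • e ∈ A i` (exists: `A i` is finite and nonempty, `e ≠ 0`), so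
   `hlong` of `grow_row` holds. `S i = row e (s i) (c i) ⊆ A i` (convexity: `dot v` is monotone along the row, so the inequalities hold at all its points).
2. `F = {v, w, x}` with sum zero: `S i = row e (s i) 0 = {s i}` for any `s i ∈ A i`, `e = (1, 0)`.
`base_row` gives `Good S ω`. Induction over finsets `J` of indices: `Good (fun i => if i ∈ J then A i else S i)` for some heights. Step `i0 ∉ J`: let `B Q = ` the family with `Q` at `i0`, `A i` for `i ∈ J`, `S i` otherwise. Apply
`grow_induct` with `P Q := (S i0 ⊆ Q ∧ ∃ ω, Good (B Q) ω)`, `hgrow` from `grow_row` (endpoints of `S i0` are in `Q`) or `grow_three`, `hstep` from `place` with `EdgeNorm F (A j)` (`edge_norm`) and `EdgeNorm F (S j)` (`row_edgeNorm`,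
`point_edgeNorm`).
-/

open Finset

set_option autoImplicit false

namespace Pool.Agent.SPB

variable {F : Finset V}

private theorem fam_ind {κ : Type} [Fintype κ] [DecidableEq κ] (h : κ → V → ℤ) (A S : κ → Finset V)
    (hA : ∀ i, IsPts F (h i) (A i)) (hS : ∀ i, S i ⊆ A i) (hS0 : ∀ i, (S i).Nonempty)
    (hSL : ∀ i, LatConv (S i)) (hEA : ∀ i, EdgeNorm F (A i)) (hES : ∀ i, EdgeNorm F (S i))
    (hgrow : ∀ i, ∀ Q : Finset V, S i ⊆ Q → Q ⊆ A i → Q ≠ A i → ∃ z ∈ A i, z ∉ Q ∧ Addable F Q z)
    (h0 : ∃ ω, Good S ω) : ∃ ω, Good A ω := by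
  have key : ∀ J : Finset κ, ∃ ω, Good (fun i => if i ∈ J then A i else S i) ω := by
    intro J
    induction J using Finset.induction_on with
    | empty => simpa using h0
    | insert i0 J hi ih =>
      have h1 : ∃ ω, Good (Function.update (fun i => if i ∈ J then A i else S i) i0 (A i0)) ω := by
        refine grow_induct (hA i0) (hS i0) (hS0 i0) (hSL i0) (hgrow i0)
          (fun Q => ∃ ω, Good (Function.update (fun i => if i ∈ J then A i else S i) i0 Q) ω) ?_ ?_
        · have e : Function.update (fun i => if i ∈ J then A i else S i) i0 (S i0) =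
              (fun i => if i ∈ J then A i else S i) := by
            rw [Function.update_eq_self_iff]
            simp [hi]
          show ∃ ω, Good (Function.update (fun i => if i ∈ J then A i else S i) i0 (S i0)) ω
          rw [e]
          exact ih
        · rintro Q z hQ hz _ hL hadd ⟨ω, hω⟩
          have e0 : Function.update (fun i => if i ∈ J then A i else S i) i0 Q i0 = Q := by simp
          have h2 := place (F := F) hω i0 (z := z) (by rw [e0]; exact hQ) (by rw [e0]; exact hz)
            (by rw [e0]; exact hL) (fun j hj => by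
              rw [Function.update_of_ne hj]
              by_cases hjJ : j ∈ J
              · simp only [hjJ, if_true]; exact hEA j
              · simp only [hjJ, if_false]; exact hES j) (by rw [e0]; exact hadd)
          rw [e0, Function.update_idem] at h2
          exact h2
      have e : Function.update (fun i => if i ∈ J then A i else S i) i0 (A i0) =
          (fun i => if i ∈ insert i0 J then A i else S i) := by
        funext i
        by_cases h3 : i = i0
        · subst h3; simp
        · rw [Function.update_of_ne h3]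
          simp [Finset.mem_insert, h3]
      rw [← e]
      exact h1
  have h2 := key Finset.univ
  simpa using h2

private theorem fam_row_mem {e s : V} {c : ℕ} {x : V} :
    x ∈ row e s c ↔ ∃ t : ℕ, t ≤ c ∧ x = s + (t : ℤ) • e := by
  unfold row
  rw [mem_image]
  constructor
  · rintro ⟨t, ht, rfl⟩
    exact ⟨t, by rw [mem_range] at ht; omega, rfl⟩
  · rintro ⟨t, ht, rfl⟩
    exact ⟨t, by rw [mem_range]; omega, rfl⟩

private theorem fam_row_sub {h : V → ℤ} {A : Finset V} (hA : IsPts F h A) {e s : V} {c : ℕ} (hs : s ∈ A)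
    (hs' : s + (c : ℤ) • e ∈ A) : row e s c ⊆ A := by
  intro x hx
  obtain ⟨t, ht, rfl⟩ := fam_row_mem.1 hx
  rw [hA] at hs hs' ⊢
  intro v hv
  have h1 := hs v hv
  have h2 := hs' v hv
  have e1 : ∀ t : ℤ, dot v (s + t • e) = dot v s + t * dot v e := by
    intro t
    simp only [dot, Prod.fst_add, Prod.snd_add, Prod.smul_fst, Prod.smul_snd, smul_eq_mul]
    ring
  rw [e1] at h2 ⊢
  have ht' : (t : ℤ) ≤ c := by exact_mod_cast ht
  have ht0 : (0 : ℤ) ≤ t := by positivity
  rcases le_total 0 (dot v e) with h3 | h3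
  · nlinarith
  · nlinarith

private theorem fam_long {A : Finset V} (hne : A.Nonempty) {e : V} (he : e ≠ 0) :
    ∃ (c : ℕ) (s : V), s ∈ A ∧ s + (c : ℤ) • e ∈ A ∧ ∀ x ∈ A, x + ((c : ℤ) + 1) • e ∉ A := by
  classical
  by_contra hcon
  push Not at hcon
  have key : ∀ c : ℕ, ∃ s ∈ A, s + (c : ℤ) • e ∈ A := by
    intro c
    induction c with
    | zero =>
      obtain ⟨s, hs⟩ := hne
      exact ⟨s, hs, by simpa using hs⟩
    | succ c ih =>
      obtain ⟨s, hs, hs'⟩ := ih
      obtain ⟨x, hx, hx'⟩ := hcon c s hs hs'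
      exact ⟨x, hx, by push_cast; exact hx'⟩
  choose f hf hf' using key
  have hinj : Function.Injective (fun c : ℕ => ((f c, f c + (c : ℤ) • e) : V × V)) := by
    intro c d hcd
    simp only [Prod.mk.injEq] at hcd
    obtain ⟨h1, h2⟩ := hcd
    rw [h1] at h2
    have h3 : (c : ℤ) • e = (d : ℤ) • e := add_left_cancel h2
    have h4 : ((c : ℤ) - d) • e = 0 := by rw [sub_smul, h3, sub_self]
    rcases smul_eq_zero.1 h4 with h5 | h5
    · have : (c : ℤ) = d := by omega
      exact_mod_cast this
    · exact absurd h5 he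
  have hfin : (Set.range (fun c : ℕ => ((f c, f c + (c : ℤ) • e) : V × V))).Finite := by
    refine Set.Finite.subset (A ×ˢ A).finite_toSet ?_
    rintro _ ⟨c, rfl⟩
    simp only [coe_product, Set.mem_prod, mem_coe]
    exact ⟨hf c, hf' c⟩
  exact Set.infinite_range_of_injective hinj hfin

theorem fam {κ : Type} [Fintype κ] (hF : SmoothFan F) (h : κ → V → ℤ) (ha : ∀ i, Ample F (h i))
    (A : κ → Finset V) (hA : ∀ i, IsPts F (h i) (A i)) : ∃ ω, Good A ω := by
  classical
  have hne : ∀ i, (A i).Nonempty := by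
    intro i
    obtain ⟨v, hv⟩ := hF.nonempty
    obtain ⟨w, hw⟩ := hF.next v hv
    exact ⟨_, vert_mem hF (ha i) (hA i) hw⟩
  have hEA : ∀ i, EdgeNorm F (A i) := fun i => edge_norm hF (ha i) (hA i)
  rcases opp hF with ⟨u, hu, hu'⟩ | ⟨v, w, x, hF3, hsum, hdet⟩
  · have hpu : Prim u := by
      obtain ⟨w, hw⟩ := hF.next u hu
      have h1 := hw.2.2.1
      refine ⟨w.2, -w.1, ?_⟩
      unfold det at h1
      linear_combination h1
    have hpe : Prim ((u.2, -u.1) : V) := by
      obtain ⟨a, b, hab⟩ := hpu
      exact ⟨b, -a, by simp only; linear_combination hab⟩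
    have he : ((u.2, -u.1) : V) ≠ 0 := by
      intro h0
      obtain ⟨a, b, hab⟩ := hpe
      have h1 : ((u.2, -u.1) : V).1 = 0 := by rw [h0]; rfl
      have h2 : ((u.2, -u.1) : V).2 = 0 := by rw [h0]; rfl
      rw [h1, h2] at hab
      simp at hab
    choose c s hs hs' hlong using fun i => fam_long (hne i) he
    refine fam_ind h A (fun i => row (u.2, -u.1) (s i) (c i)) hA
      (fun i => fam_row_sub (hA i) (hs i) (hs' i))
      (fun i => ⟨s i, fam_row_mem.2 ⟨0, by omega, by simp⟩⟩)
      (fun i => row_latConv hpe _ _) hEA (fun i => row_edgeNorm hpu hu hu' _ _) ?_ (base_row hpe s c)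
    intro i Q hSQ hQA hQne
    exact grow_row hF hu hu' (ha i) (hA i) (hlong i) hQA hQne
      (hSQ (fam_row_mem.2 ⟨0, by omega, by simp⟩)) (hSQ (fam_row_mem.2 ⟨c i, le_rfl, rfl⟩))
  · have hpe : Prim ((1, 0) : V) := ⟨1, 0, by simp⟩
    choose s hs using hne
    refine fam_ind h A (fun i => row (1, 0) (s i) 0) hA
      (fun i => fam_row_sub (hA i) (hs i) (by simpa using hs i))
      (fun i => ⟨s i, fam_row_mem.2 ⟨0, by omega, by simp⟩⟩)
      (fun i => row_latConv hpe _ _) hEA (fun i => point_edgeNorm _ _) ?_ (base_row hpe s (fun _ => 0))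
    intro i Q hSQ hQA hQne
    exact grow_three hF hF3 hsum (ha i) (hA i) hQA hQne
      ⟨s i, hSQ (fam_row_mem.2 ⟨0, by omega, by simp⟩)⟩

end Pool.Agent.SPB
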