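import Pool.Agent.SPB.FanA

/-!
# [SPB-Fan] completeness and consequences

* `complete`: `a` is in the closed cone of some adjacent pair. Let `a ≠ 0`. Let `G` be the set of `v ∈ F` with `det v a > 0`, or `det v a = 0` and
  `v · a > 0` (`v` in the half-open half-plane clockwise of `a`). On `G` the relation `det v v' > 0` is a strict total
  order on directions (use Plücker's identity with `a`). If `G ≠ ∅` take `v ∈ G` last (closest to `a`), `w` its
  successor: `w ∉ G` because `det v w = 1 > 0`, hence `det w a ≤ 0`, and `0 ≤ det v a`. If `G = ∅`, all `v ∈ F` lie in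
  the opposite half-open half-plane `G'` (`-a` in place of `a`): take `v ∈ G'` last counterclockwise; its successor is
  again in `G'` and later: contradiction. (Other proofs are welcome.)
* `exists_pts`: by `complete`, each of `± (1, 0)`, `± (0, 1)` is a nonnegative combination of two elements of `F`, which bounds the coordinates.
* `edge_norm`: `x ≠ y` in the polygon with `n · x = n · y` maximal. By `complete` (for `toR n`) `n = α v + β w`,
  `α = det n w`, `β = det v n`, both `≥ 0`; with `x₀` the vertex `(v, w)` (`vert_mem`): `n · x ≤ α h v + β h w = n · x₀`, so by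
  maximality equality holds for `x` and `y`; if `α, β > 0` both are equal to `x₀` (`eq_vert`), contradiction; so `n = β w` or
  `n = α v` and `n ∈ F` as `n` is primitive.
-/

open Finset

set_option autoImplicit false

namespace Pool.Agent.SPB

variable {F : Finset V}

private theorem fan_id (a : ℝ × ℝ) (v w : V) :
    (det v w : ℝ) * (a.1 * a.1 + a.2 * a.2) =
      ((v.1 : ℝ) * a.2 - v.2 * a.1) * ((w.1 : ℝ) * a.1 + w.2 * a.2)
        - ((v.1 : ℝ) * a.1 + v.2 * a.2) * ((w.1 : ℝ) * a.2 - w.2 * a.1) := by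
  unfold det
  push_cast
  ring

theorem complete (hF : SmoothFan F) (a : ℝ × ℝ) :
    ∃ v w, Adj F v w ∧ 0 ≤ a.1 * w.2 - a.2 * w.1 ∧ 0 ≤ (v.1 : ℝ) * a.2 - v.2 * a.1 := by
  classical
  by_cases ha : a.1 * a.1 + a.2 * a.2 = 0
  · have h1 : a.1 = 0 := by nlinarith [mul_self_nonneg a.1, mul_self_nonneg a.2]
    have h2 : a.2 = 0 := by nlinarith [mul_self_nonneg a.1, mul_self_nonneg a.2]
    obtain ⟨v, hv⟩ := hF.nonempty
    obtain ⟨w, hw⟩ := hF.next v hv
    exact ⟨v, w, hw, by rw [h1, h2]; simp, by rw [h1, h2]; simp⟩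
  have hpos : 0 < a.1 * a.1 + a.2 * a.2 :=
    lt_of_le_of_ne (add_nonneg (mul_self_nonneg _) (mul_self_nonneg _)) (Ne.symm ha)
  by_contra hcon
  push Not at hcon
  set Dt : V → ℝ := fun x => (x.1 : ℝ) * a.2 - x.2 * a.1 with hDt
  set Pt : V → ℝ := fun x => (x.1 : ℝ) * a.1 + x.2 * a.2 with hPt
  have hnext : ∀ v w, Adj F v w → 0 ≤ Dt v → 0 < Dt w := by
    intro v w hvw hv
    by_contra h0
    rw [not_lt] at h0
    have h1 : 0 ≤ a.1 * w.2 - a.2 * w.1 := by
      simp only [hDt] at h0
      linarith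
    have h2 := hcon v w hvw h1
    simp only [hDt] at hv
    linarith
  have hid : ∀ v w, Adj F v w → 0 < Dt v * Pt w - Pt v * Dt w := by
    intro v w hvw
    have h1 := fan_id a v w
    rw [hvw.2.2.1] at h1
    simp only [hDt, hPt]
    rw [← h1]
    simpa using hpos
  by_cases hex : ∃ v ∈ F, 0 ≤ Dt v
  · obtain ⟨v0, hv0, hD0⟩ := hex
    obtain ⟨w0, hw0⟩ := hF.next v0 hv0
    have hw0D := hnext v0 w0 hw0 hD0
    have hne : (F.filter (fun x => 0 < Dt x)).Nonempty := ⟨w0, Finset.mem_filter.2 ⟨hw0.2.1, hw0D⟩⟩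
    obtain ⟨v, hv, hmax⟩ := Finset.exists_max_image _ (fun x => Pt x / Dt x) hne
    rw [Finset.mem_filter] at hv
    obtain ⟨w, hw⟩ := hF.next v hv.1
    have hwD := hnext v w hw hv.2.le
    have h1 := hmax w (Finset.mem_filter.2 ⟨hw.2.1, hwD⟩)
    have h2 := hid v w hw
    rw [div_le_div_iff₀ hwD hv.2] at h1
    linarith
  · push Not at hex
    obtain ⟨v, hv, hmax⟩ := Finset.exists_max_image F (fun x => Pt x / Dt x) hF.nonempty
    obtain ⟨w, hw⟩ := hF.next v hv
    have h1 := hmax w hw.2.1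
    have h2 := hid v w hw
    have h3 := hex v hv
    have h4 := hex w hw.2.1
    have h5 : Pt w / Dt w = (- Pt w) / (- Dt w) := by rw [neg_div_neg_eq]
    have h6 : Pt v / Dt v = (- Pt v) / (- Dt v) := by rw [neg_div_neg_eq]
    rw [h5, h6, div_le_div_iff₀ (by linarith) (by linarith)] at h1
    linarith

private theorem fan_int (hF : SmoothFan F) (n : V) : ∃ v w, Adj F v w ∧ 0 ≤ det n w ∧ 0 ≤ det v n := by
  obtain ⟨v, w, h1, h2, h3⟩ := complete hF (toR n)
  refine ⟨v, w, h1, ?_, ?_⟩
  · unfold toR at h2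
    unfold det
    simp only at h2
    exact_mod_cast h2
  · unfold toR at h3
    unfold det
    simp only at h3
    exact_mod_cast h3

private theorem fan_dot {v w : V} (h : det v w = 1) (n x : V) :
    dot n x = det n w * dot v x + det v n * dot w x := by
  unfold det at h
  unfold dot det
  linear_combination (-(n.1 * x.1) - n.2 * x.2) * h

private theorem fan_bound (hF : SmoothFan F) (h : V → ℤ) (n : V) :
    ∃ M : ℤ, ∀ x : V, (∀ v ∈ F, dot v x ≤ h v) → dot n x ≤ M := by
  obtain ⟨v, w, h1, h2, h3⟩ := fan_int hF n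
  refine ⟨det n w * h v + det v n * h w, fun x hx => ?_⟩
  rw [fan_dot h1.2.2.1 n x]
  have h4 := mul_le_mul_of_nonneg_left (hx v h1.1) h2
  have h5 := mul_le_mul_of_nonneg_left (hx w h1.2.1) h3
  linarith

/-- polygons are bounded -/
theorem exists_pts (hF : SmoothFan F) (h : V → ℤ) : ∃ A : Finset V, IsPts F h A := by
  classical
  obtain ⟨M1, h1⟩ := fan_bound hF h (1, 0)
  obtain ⟨M2, h2⟩ := fan_bound hF h (-1, 0)
  obtain ⟨M3, h3⟩ := fan_bound hF h (0, 1)
  obtain ⟨M4, h4⟩ := fan_bound hF h (0, -1)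
  refine ⟨(Finset.Icc (-M2) M1 ×ˢ Finset.Icc (-M4) M3).filter (fun x => ∀ v ∈ F, dot v x ≤ h v), fun x => ?_⟩
  rw [Finset.mem_filter]
  constructor
  · exact fun hx => hx.2
  · intro hx
    refine ⟨?_, hx⟩
    have e1 := h1 x hx
    have e2 := h2 x hx
    have e3 := h3 x hx
    have e4 := h4 x hx
    unfold dot at e1 e2 e3 e4
    simp only at e1 e2 e3 e4
    rw [Finset.mem_product, Finset.mem_Icc, Finset.mem_Icc]
    refine ⟨⟨?_, ?_⟩, ?_, ?_⟩ <;> linarith

private theorem fan_prim {c : ℤ} {n w : V} (hn : Prim n) (hc : 0 ≤ c) (h : n = c • w) : n = w := by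
  have h1 : n.1 = c * w.1 := by rw [h]; rfl
  have h2 : n.2 = c * w.2 := by rw [h]; rfl
  have h3 : IsUnit c := by
    unfold Prim at hn
    exact hn.isUnit_of_dvd' ⟨w.1, h1⟩ ⟨w.2, h2⟩
  have h4 : c = 1 := by
    rcases Int.isUnit_iff.1 h3 with h5 | h5
    · exact h5
    · omega
  rw [h, h4, one_smul]

theorem edge_norm (hF : SmoothFan F) {h : V → ℤ} (ha : Ample F h) {A : Finset V} (hA : IsPts F h A) :
    EdgeNorm F A := by
  intro x hx y hy hxy n hn hnxy hmax
  obtain ⟨v, w, hvw, hα, hβ⟩ := fan_int hF n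
  have hd := hvw.2.2.1
  have hx' := (hA x).1 hx
  have hy' := (hA y).1 hy
  have h0 := vert_mem hF ha hA hvw
  have h1 := hmax _ h0
  rw [fan_dot hd n, dot_vert_left hd, dot_vert_right hd, fan_dot hd n x] at h1
  have h2 := hmax _ h0
  rw [hnxy, fan_dot hd n, dot_vert_left hd, dot_vert_right hd, fan_dot hd n y] at h2
  have ex1 := mul_le_mul_of_nonneg_left (hx' v hvw.1) hα
  have ex2 := mul_le_mul_of_nonneg_left (hx' w hvw.2.1) hβ
  have ey1 := mul_le_mul_of_nonneg_left (hy' v hvw.1) hα
  have ey2 := mul_le_mul_of_nonneg_left (hy' w hvw.2.1) hβ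
  have hbas : n = det n w • v + det v n • w := by
    unfold det at hd
    refine Prod.ext ?_ ?_
    · simp only [det, Prod.fst_add, Prod.smul_fst, smul_eq_mul]
      linear_combination (-n.1) * hd
    · simp only [det, Prod.snd_add, Prod.smul_snd, smul_eq_mul]
      linear_combination (-n.2) * hd
  rcases hα.eq_or_lt with hα0 | hα0
  · rw [← hα0, zero_smul, zero_add] at hbas
    rw [fan_prim hn hβ hbas]
    exact hvw.2.1
  rcases hβ.eq_or_lt with hβ0 | hβ0
  · rw [← hβ0, zero_smul, add_zero] at hbas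
    rw [fan_prim hn hα hbas]
    exact hvw.1
  exfalso
  apply hxy
  have e1 : dot v x = h v := by
    have h3 : det n w * dot v x = det n w * h v := by linarith
    exact mul_left_cancel₀ hα0.ne' h3
  have e2 : dot w x = h w := by
    have h3 : det v n * dot w x = det v n * h w := by linarith
    exact mul_left_cancel₀ hβ0.ne' h3
  have e3 : dot v y = h v := by
    have h3 : det n w * dot v y = det n w * h v := by linarith
    exact mul_left_cancel₀ hα0.ne' h3
  have e4 : dot w y = h w := by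
    have h3 : det v n * dot w y = det v n * h w := by linarith
    exact mul_left_cancel₀ hβ0.ne' h3
  rw [eq_vert hd e1 e2, eq_vert hd e3 e4]

end Pool.Agent.SPB
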