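import Pool.Agent.SPB.Defs

/-!
# [SPB-FanA] elementary facts on smooth fans

Two dimensional identity: if `det v w = 1` then `x = det x w • v + det v x • w` for every `x`.

* `Adj.unique`: `w' - w` is a multiple `k v` of `v`. If `k > 0`, `w'` is in the closed cone `(v, w)` (`det v w' = 1`, `det w' w = k`), so `w' = v` or `w' = w`; `k < 0` is symmetric.
* `SmoothFan.pred`: choose `s : F → F` with `Adj F v (s v)`. `s` is injective: if `s v = s v' = w` then
  `v' = v + k w`; for `k ≥ 1`, `det v v' = k ≥ 0` and `det v' w = 1 ≥ 0`, so `v' = v` or `v' = w`, impossible; `k ≤ -1` is symmetric. An injective self map of a finite set is surjective.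
* `sep`: if `m = b` or `m = a` clear. Otherwise `m` is in neither closed cone; if `0 ≤ det j m` then (cone `(j, b)`)
  `det m b < 0`; if `det j m < 0` then `0 ≤ det m j` and (cone `(a, j)`) `det a m < 0`.
* `vert_mem`: `Ample` gives `dot u x < h u` for `u ≠ v, w`.
-/

open Finset

set_option autoImplicit false

namespace Pool.Agent.SPB

variable {F : Finset V}

private theorem sPB_det_neg (v w : V) : det w v = - det v w := by
  unfold det
  ring

private theorem sPB_det_self (v : V) : det v v = 0 := by
  unfold det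
  ring

/-- coordinates with respect to a basis -/
private theorem sPB_basis {v w : V} (h : det v w = 1) (x : V) : x = det x w • v + det v x • w := by
  obtain ⟨v1, v2⟩ := v
  obtain ⟨w1, w2⟩ := w
  obtain ⟨x1, x2⟩ := x
  unfold det at h ⊢
  simp only at h
  refine Prod.ext ?_ ?_
  · simp only [Prod.smul_mk, smul_eq_mul, Prod.mk_add_mk]
    linear_combination (-x1) * h
  · simp only [Prod.smul_mk, smul_eq_mul, Prod.mk_add_mk]
    linear_combination (-x2) * h

private theorem sPB_adj_ne {v w : V} (h : det v w = 1) : v ≠ w := by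
  rintro rfl
  rw [sPB_det_self] at h
  exact zero_ne_one h

theorem Adj.unique {v w w' : V} (h : Adj F v w) (h' : Adj F v w') : w = w' := by
  obtain ⟨hv, hw, hd, hx⟩ := h
  obtain ⟨_, hw', hd', hx'⟩ := h'
  rcases le_or_gt 0 (det w' w) with hk | hk
  · rcases hx w' hw' (by rw [hd']; exact zero_le_one) hk with h1 | h1
    · exact absurd h1.symm (sPB_adj_ne hd')
    · exact h1.symm
  · have hk' : 0 ≤ det w w' := by
      rw [sPB_det_neg w' w]
      linarith
    rcases hx' w hw (by rw [hd]; exact zero_le_one) hk' with h1 | h1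
    · exact absurd h1.symm (sPB_adj_ne hd)
    · exact h1

theorem SmoothFan.pred (hF : SmoothFan F) {v : V} (hv : v ∈ F) : ∃ w, Adj F w v := by
  classical
  choose s hs using fun v : F => hF.next v.1 v.2
  have hinj : Function.Injective (fun v : F => (⟨s v, (hs v).2.1⟩ : F)) := by
    intro v v' hvv
    have he : s v = s v' := congrArg Subtype.val hvv
    obtain ⟨h1, h2, h3, h4⟩ := hs v
    obtain ⟨h1', h2', h3', h4'⟩ := hs v'
    apply Subtype.ext
    rcases le_or_gt 0 (det v.1 v'.1) with hk | hk
    · rcases h4 v'.1 v'.2 hk (by rw [he, h3']; exact zero_le_one) with h5 | h5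
      · exact h5.symm
      · rw [he] at h5
        exact absurd h5 (sPB_adj_ne h3')
    · have hk' : 0 ≤ det v'.1 v.1 := by
        rw [sPB_det_neg v.1 v'.1]
        linarith
      rcases h4' v.1 v.2 hk' (by rw [← he, h3]; exact zero_le_one) with h5 | h5
      · exact h5
      · rw [← he] at h5
        exact absurd h5 (sPB_adj_ne h3)
  obtain ⟨w, hw⟩ := (Finite.injective_iff_surjective.1 hinj) ⟨v, hv⟩
  refine ⟨w.1, ?_⟩
  have h1 : s w = v := congrArg Subtype.val hw
  have h2 := hs w
  rw [h1] at h2
  exact h2

theorem sep {a j b m : V} (h1 : Adj F a j) (h2 : Adj F j b) (hm : m ∈ F) (hj : m ≠ j) :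
    (0 ≤ det j m ∧ 0 ≤ det b m) ∨ (0 ≤ det m j ∧ 0 ≤ det m a) := by
  obtain ⟨ha, hjF, hd1, hx1⟩ := h1
  obtain ⟨_, hb, hd2, hx2⟩ := h2
  rcases le_or_gt 0 (det j m) with hk | hk
  · left
    refine ⟨hk, ?_⟩
    by_contra hcon
    rw [not_le] at hcon
    have h3 : 0 ≤ det m b := by
      rw [sPB_det_neg b m]
      linarith
    rcases hx2 m hm hk h3 with h4 | h4
    · exact hj h4
    · rw [h4, sPB_det_self] at hcon
      exact lt_irrefl _ hcon
  · right
    have hk' : 0 ≤ det m j := by
      rw [sPB_det_neg j m]
      linarith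
    refine ⟨hk', ?_⟩
    by_contra hcon
    rw [not_le] at hcon
    have h3 : 0 ≤ det a m := by
      rw [sPB_det_neg m a]
      linarith
    rcases hx1 m hm h3 hk' with h4 | h4
    · rw [h4, sPB_det_self] at hcon
      exact lt_irrefl _ hcon
    · exact hj h4

/-- `a + b` is a multiple of `j` -/
theorem sum_adj {a j b : V} (h1 : Adj F a j) (h2 : Adj F j b) : a + b = det a b • j := by
  have h3 := sPB_basis h2.2.2.1 a
  have h4 : det j a = -1 := by
    rw [sPB_det_neg a j, h1.2.2.1]
  rw [h4, neg_one_smul] at h3
  calc a + b = (det a b • j + -b) + b := by rw [← h3]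
    _ = det a b • j := by abel

/-- the vertex of the lines `v · x = s`, `w · x = t` -/
def vert (v w : V) (s t : ℤ) : V := (s * w.2 - t * v.2, t * v.1 - s * w.1)

theorem dot_vert_left {v w : V} (h : det v w = 1) (s t : ℤ) : dot v (vert v w s t) = s := by
  unfold det at h
  unfold dot vert
  simp only
  linear_combination s * h

theorem dot_vert_right {v w : V} (h : det v w = 1) (s t : ℤ) : dot w (vert v w s t) = t := by
  unfold det at h
  unfold dot vert
  simp only
  linear_combination t * h

theorem eq_vert {v w : V} (h : det v w = 1) {x : V} {s t : ℤ} (h1 : dot v x = s) (h2 : dot w x = t) :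
    x = vert v w s t := by
  unfold det at h
  unfold dot at h1 h2
  unfold vert
  refine Prod.ext ?_ ?_
  · simp only
    linear_combination (-x.1) * h + w.2 * h1 - v.2 * h2
  · simp only
    linear_combination (-x.2) * h - w.1 * h1 + v.1 * h2

theorem vert_mem (hF : SmoothFan F) {h : V → ℤ} (ha : Ample F h) {A : Finset V} (hA : IsPts F h A) {v w : V}
    (hvw : Adj F v w) : vert v w (h v) (h w) ∈ A := by
  have hd := hvw.2.2.1
  rw [hA]
  intro u hu
  by_cases h1 : u = v
  · rw [h1, dot_vert_left hd]
  · by_cases h2 : u = w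
    · rw [h2, dot_vert_right hd]
    · exact (ha v w hvw _ (dot_vert_left hd _ _) (dot_vert_right hd _ _) u hu h1 h2).le

end Pool.Agent.SPB
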