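import Pool.Agent.SPB.PolyA

/-!
# [SPB-PolyB] the polytope of the bundle is full-dimensional

`bundle_int`: let `q₀ ∈ interior Q`. Let `(p, v), (v, w), (w, w')` be adjacent pairs of `F`, and `x₀` the average of the three (real) vertices at `q₀`, e.g. `(h_v(q₀) w.2 - h_w(q₀) v.2, h_w(q₀) v.1 - h_v(q₀) w.1)` for `(v, w)`. For each pair `(v, w)` and `u ∈ F`, `h_u(q) - u · x_{vw}(q)` is an affine function of `q`, `≥ 0` on `AQ`, and
`≥ 1` on `AQ` if `u ≠ v, w`; hence also at `q₀ ∈ hull AQ`. Every `u ∈ F` is different from both vectors of one of the three pairs (`w ≠ p, v`; `v ≠ w, w'` as `det` is `± 1`, and other `u ≠ v, w`), so `u · x₀ < h_u(q₀)` for all `u ∈ F`; a neighbourhood of `(x₀, q₀)` is contained in the bundle.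
-/

open Finset

set_option autoImplicit false

namespace Pool.Agent.SPB

variable {F : Finset V}

private lemma polyB_aff {k : ℕ} {AQ : Finset (Fin k → ℤ)} (m : Fin k → ℝ) (d b : ℝ)
    (h : ∀ q ∈ AQ, b ≤ ∑ i, m i * (q i : ℝ) + d) {q₀ : Fin k → ℝ} (h₀ : q₀ ∈ hull AQ) :
    b ≤ ∑ i, m i * q₀ i + d := by
  have hsub : hull AQ ⊆ {q : Fin k → ℝ | b ≤ ∑ i, m i * q i + d} := by
    unfold hull
    refine convexHull_min ?_ ?_
    · rintro _ ⟨q, hq, rfl⟩
      exact h q hq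
    · intro x hx y hy s t hs ht hst
      simp only [Set.mem_ofPred_eq] at hx hy ⊢
      have e : ∑ i, m i * (s • x + t • y) i + d = s * (∑ i, m i * x i + d) + t * (∑ i, m i * y i + d) := by
        have e1 : ∑ i, m i * (s • x + t • y) i = s * ∑ i, m i * x i + t * ∑ i, m i * y i := by
          rw [Finset.mul_sum, Finset.mul_sum, ← Finset.sum_add_distrib]
          refine Finset.sum_congr rfl fun i _ => ?_
          simp only [Pi.add_apply, Pi.smul_apply, smul_eq_mul]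
          ring
        rw [e1]
        have e2 : d = (s + t) * d := by rw [hst, one_mul]
        linear_combination e2
      rw [e]
      have h1 := mul_le_mul_of_nonneg_left hx hs
      have h2 := mul_le_mul_of_nonneg_left hy ht
      have e3 : b = s * b + t * b := by rw [← add_mul, hst, one_mul]
      linarith
  exact hsub h₀

/-- the real value of the support function -/
private noncomputable def polyB_h {k : ℕ} (H : V → Fin k → ℤ) (c : V → ℤ) (v : V) (q : Fin k → ℝ) : ℝ :=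
  ∑ i, (H v i : ℝ) * q i + c v

private lemma polyB_gap {k : ℕ} {H : V → Fin k → ℤ} {c : V → ℤ} {AQ : Finset (Fin k → ℤ)}
    (ha : ∀ q ∈ AQ, Ample F (hq H c q)) {v w : V} (hvw : Adj F v w) {u : V} (hu : u ∈ F)
    {q₀ : Fin k → ℝ} (h₀ : q₀ ∈ hull AQ) :
    (u.1 : ℝ) * (polyB_h H c v q₀ * w.2 - polyB_h H c w q₀ * v.2)
        + u.2 * (polyB_h H c w q₀ * v.1 - polyB_h H c v q₀ * w.1) ≤ polyB_h H c u q₀ ∧
      (u ≠ v → u ≠ w → (u.1 : ℝ) * (polyB_h H c v q₀ * w.2 - polyB_h H c w q₀ * v.2)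
        + u.2 * (polyB_h H c w q₀ * v.1 - polyB_h H c v q₀ * w.1) + 1 ≤ polyB_h H c u q₀) := by
  set m : Fin k → ℝ := fun i => (H u i : ℝ) - ((u.1 : ℝ) * ((H v i : ℝ) * w.2 - (H w i : ℝ) * v.2)
    + u.2 * ((H w i : ℝ) * v.1 - (H v i : ℝ) * w.1)) with hm
  set d : ℝ := (c u : ℝ) - ((u.1 : ℝ) * ((c v : ℝ) * w.2 - (c w : ℝ) * v.2)
    + u.2 * ((c w : ℝ) * v.1 - (c v : ℝ) * w.1)) with hd
  have key : ∀ q : Fin k → ℝ, ∑ i, m i * q i + d = polyB_h H c u q
      - ((u.1 : ℝ) * (polyB_h H c v q * w.2 - polyB_h H c w q * v.2)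
        + u.2 * (polyB_h H c w q * v.1 - polyB_h H c v q * w.1)) := by
    intro q
    have e1 : ∑ i, m i * q i = ∑ i, (H u i : ℝ) * q i
        - ((u.1 : ℝ) * ((∑ i, (H v i : ℝ) * q i) * w.2 - (∑ i, (H w i : ℝ) * q i) * v.2)
          + u.2 * ((∑ i, (H w i : ℝ) * q i) * v.1 - (∑ i, (H v i : ℝ) * q i) * w.1)) := by
      simp only [Finset.sum_mul, Finset.mul_sum, ← Finset.sum_sub_distrib, ← Finset.sum_add_distrib]
      refine Finset.sum_congr rfl fun i _ => ?_
      simp only [hm]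
      ring
    rw [e1]
    unfold polyB_h
    rw [hd]
    ring
  have hint : ∀ q ∈ AQ, ∑ i, m i * (q i : ℝ) + d =
      ((hq H c q u - dot u (vert v w (hq H c q v) (hq H c q w)) : ℤ) : ℝ) := by
    intro q _
    rw [key]
    unfold polyB_h hq dot vert
    push_cast
    ring
  have hvd : ∀ q ∈ AQ, u ≠ v → u ≠ w → (1 : ℝ) ≤ ∑ i, m i * (q i : ℝ) + d := by
    intro q hq' h1 h2
    rw [hint q hq']
    have h3 := ha q hq' v w hvw (vert v w (hq H c q v) (hq H c q w)) (dot_vert_left hvw.2.2.1 _ _)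
      (dot_vert_right hvw.2.2.1 _ _) u hu h1 h2
    have h4 : (1 : ℤ) ≤ hq H c q u - dot u (vert v w (hq H c q v) (hq H c q w)) := by omega
    exact_mod_cast h4
  constructor
  · have h1 : (0 : ℝ) ≤ ∑ i, m i * q₀ i + d := by
      refine polyB_aff m d 0 (fun q hq' => ?_) h₀
      by_cases e1 : u = v
      · rw [hint q hq', e1, dot_vert_left hvw.2.2.1]
        simp
      by_cases e2 : u = w
      · rw [hint q hq', e2, dot_vert_right hvw.2.2.1]
        simp
      linarith [hvd q hq' e1 e2]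
    rw [key] at h1
    linarith
  · intro e1 e2
    have h1 : (1 : ℝ) ≤ ∑ i, m i * q₀ i + d := polyB_aff m d 1 (fun q hq' => hvd q hq' e1 e2) h₀
    rw [key] at h1
    linarith

private lemma polyB_ne {v w : V} (h : det v w = 1) : v ≠ w := by
  rintro rfl
  unfold det at h
  have : v.1 * v.2 - v.2 * v.1 = 0 := by ring
  omega

private lemma polyB_ne' {v w x : V} (h : det v w = 1) (h' : det w x = 1) : v ≠ x := by
  rintro rfl
  unfold det at h h'
  have : v.1 * w.2 - v.2 * w.1 = -(w.1 * v.2 - w.2 * v.1) := by ring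
  omega

theorem bundle_int {k : ℕ} (hF : SmoothFan F) {H : V → Fin k → ℤ} {c : V → ℤ} {AQ : Finset (Fin k → ℤ)}
    (ha : ∀ q ∈ AQ, Ample F (hq H c q)) (hint : (interior (hull AQ)).Nonempty) :
    (interior (bundle F H c (hull AQ))).Nonempty := by
  obtain ⟨q₀, hq₀⟩ := hint
  have h₀ : q₀ ∈ hull AQ := interior_subset hq₀
  obtain ⟨v, hv⟩ := hF.nonempty
  obtain ⟨w, hvw⟩ := hF.next v hv
  obtain ⟨w', hww⟩ := hF.next w hvw.2.1
  obtain ⟨p, hpv⟩ := hF.pred hv
  set X : V → V → ℝ := fun a b => polyB_h H c a q₀ * b.2 - polyB_h H c b q₀ * a.2 with hX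
  set Y : V → V → ℝ := fun a b => polyB_h H c b q₀ * a.1 - polyB_h H c a q₀ * b.1 with hY
  have hg : ∀ {a b : V}, Adj F a b → ∀ u ∈ F, (u.1 : ℝ) * X a b + u.2 * Y a b ≤ polyB_h H c u q₀ ∧
      (u ≠ a → u ≠ b → (u.1 : ℝ) * X a b + u.2 * Y a b + 1 ≤ polyB_h H c u q₀) :=
    fun hab u hu => polyB_gap ha hab hu h₀
  set x₁ : ℝ := (X p v + X v w + X w w') / 3 with hx₁
  set x₂ : ℝ := (Y p v + Y v w + Y w w') / 3 with hx₂
  have hstrict : ∀ u ∈ F, (u.1 : ℝ) * x₁ + u.2 * x₂ < polyB_h H c u q₀ := by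
    intro u hu
    have h1 := hg hpv u hu
    have h2 := hg hvw u hu
    have h3 := hg hww u hu
    have e : (u.1 : ℝ) * x₁ + u.2 * x₂ = (((u.1 : ℝ) * X p v + u.2 * Y p v) + ((u.1 : ℝ) * X v w + u.2 * Y v w)
        + ((u.1 : ℝ) * X w w' + u.2 * Y w w')) / 3 := by
      rw [hx₁, hx₂]
      ring
    rw [e]
    by_cases e1 : u = v
    · have h4 := h3.2 (by rw [e1]; exact polyB_ne hvw.2.2.1) (by rw [e1]; exact polyB_ne' hvw.2.2.1 hww.2.2.1)
      linarith [h1.1, h2.1]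
    by_cases e2 : u = w
    · have h4 := h1.2 (by rw [e2]; exact (polyB_ne' hpv.2.2.1 hvw.2.2.1).symm)
        (by rw [e2]; exact (polyB_ne hvw.2.2.1).symm)
      linarith [h2.1, h3.1]
    · have h4 := h2.2 e1 e2
      linarith [h1.1, h3.1]
  set O : Set (Fin (k + 2) → ℝ) := (fun y => tl y) ⁻¹' (interior (hull AQ)) ∩
    ⋂ u ∈ F, {y | (u.1 : ℝ) * y 0 + u.2 * y 1 < ∑ i, (H u i : ℝ) * y i.succ.succ + c u} with hO
  have hOopen : IsOpen O := by
    refine IsOpen.inter ?_ ?_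
    · refine isOpen_interior.preimage ?_
      unfold tl
      fun_prop
    · exact isOpen_biInter_finset fun u _ => isOpen_lt (by fun_prop) (by fun_prop)
  have hOsub : O ⊆ bundle F H c (hull AQ) := by
    rintro y ⟨h1, h2⟩
    refine ⟨interior_subset h1, fun u hu => ?_⟩
    have h3 := Set.mem_iInter₂.1 h2 u hu
    exact le_of_lt h3
  refine ⟨Fin.cons x₁ (Fin.cons x₂ q₀), mem_interior.2 ⟨O, hOsub, hOopen, ?_, ?_⟩⟩
  · show tl _ ∈ interior (hull AQ)
    have : tl (Fin.cons x₁ (Fin.cons x₂ q₀ : Fin (k + 1) → ℝ) : Fin (k + 2) → ℝ) = q₀ := by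
      funext i
      simp [tl]
    rw [this]
    exact hq₀
  · refine Set.mem_iInter₂.2 fun u hu => ?_
    have h1 := hstrict u hu
    unfold polyB_h at h1
    simpa using h1

end Pool.Agent.SPB
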