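import Pool.Agent.SPB.Fam
import Pool.Agent.SPB.PolyB
import Pool.Agent.SPB.Cover
import Pool.Agent.SPB.Tri
import Pool.Agent.SPB.TriC

/-!
# [SPB-Main] assembly
-/

open Finset

set_option autoImplicit false

namespace Pool.Agent.SPB

variable {F : Finset V}

theorem main {k : ℕ} (hF : SmoothFan F) {Q : Set (Fin k → ℝ)} (hQ : Convex ℝ Q) (hint : (interior Q).Nonempty)
    (hT : HasRUT Q) {H : V → Fin k → ℤ} {c : V → ℤ}
    (ha : ∀ q : Fin k → ℤ, emb q ∈ Q → Ample F (hq H c q)) : HasRUT (bundle F H c Q) := by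
  classical
  obtain ⟨AQ, η, hη, rfl, hcov, hAQ⟩ := RU_of_hasRUT hQ hT
  have ha' : ∀ q ∈ AQ, Ample F (hq H c q) := fun q hq' => ha q ((hAQ q).1 hq')
  choose A hA using fun q : Fin k → ℤ => exists_pts hF (hq H c q)
  obtain ⟨ω, hω⟩ := fam (κ := AQ) hF (fun q => hq H c q.1) (fun q => ha' q.1 q.2) (fun q => A q.1) (fun q => hA q.1)
  obtain ⟨B, hB⟩ := bundle_pts hF H c AQ
  have hB' : ∀ y, y ∈ B ↔ tl y ∈ AQ ∧ hd y ∈ A (tl y) := by
    intro y
    rw [hB y, hA]
  let ω' : (Fin k → ℤ) → V → ℝ := fun q => if h : q ∈ AQ then ω ⟨q, h⟩ else 0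
  have hω' : Good (fun q : AQ => A q.1) (fun q : AQ => ω' q.1) := by
    have : (fun q : AQ => ω' q.1) = ω := by
      funext q
      simp [ω']
    rw [this]
    exact hω
  obtain ⟨w, hw⟩ := total hη hcov A ω' hω' (by
    intro a
    obtain ⟨v, w, hvw, h1, h2⟩ := complete hF a
    refine ⟨fun i => H v i * w.2 - H w i * v.2, fun i => H w i * v.1 - H v i * w.1, c v * w.2 - c w * v.2,
      c w * v.1 - c v * w.1, ?_⟩
    intro q hq'
    have e : (∑ i, (H v i * w.2 - H w i * v.2) * q i + (c v * w.2 - c w * v.2),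
        ∑ i, (H w i * v.1 - H v i * w.1) * q i + (c w * v.1 - c v * w.1))
        = vert v w (hq H c q v) (hq H c q w) := by
      unfold vert hq
      ext
      · simp only [sub_mul, Finset.sum_sub_distrib, add_mul, Finset.sum_mul]
        have : ∀ i, H v i * w.2 * q i = H v i * q i * w.2 := fun i => by ring
        have h' : ∀ i, H w i * v.2 * q i = H w i * q i * v.2 := fun i => by ring
        simp only [this, h']
        ring
      · simp only [sub_mul, Finset.sum_sub_distrib, add_mul, Finset.sum_mul]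
        have : ∀ i, H w i * v.1 * q i = H w i * q i * v.1 := fun i => by ring
        have h' : ∀ i, H v i * w.1 * q i = H v i * q i * w.1 := fun i => by ring
        simp only [this, h']
        ring
    rw [e]
    refine ⟨vert_mem hF (ha' q hq') (hA q) hvw, ?_⟩
    intro x hx
    have hx' := (hA q x).1 hx
    have k1 : (dot v x : ℝ) ≤ hq H c q v := by exact_mod_cast hx' v hvw.1
    have k2 : (dot w x : ℝ) ≤ hq H c q w := by exact_mod_cast hx' w hvw.2.1
    have d1 : (v.1 : ℝ) * w.2 - v.2 * w.1 = 1 := by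
      have := hvw.2.2.1
      unfold det at this
      exact_mod_cast this
    unfold dot at k1 k2
    unfold dotR vert
    push_cast at k1 k2 ⊢
    set α := a.1 * (w.2 : ℝ) - a.2 * w.1 with hα
    set β := (v.1 : ℝ) * a.2 - v.2 * a.1 with hβ
    have ea : a.1 = α * v.1 + β * w.1 := by
      have : a.1 = a.1 * ((v.1 : ℝ) * w.2 - v.2 * w.1) := by rw [d1, mul_one]
      rw [this, hα, hβ]; ring
    have eb : a.2 = α * v.2 + β * w.2 := by
      have : a.2 = a.2 * ((v.1 : ℝ) * w.2 - v.2 * w.1) := by rw [d1, mul_one]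
      rw [this, hα, hβ]; ring
    have m1 := mul_le_mul_of_nonneg_left k1 h1
    have m2 := mul_le_mul_of_nonneg_left k2 h2
    have l1 : a.1 * (x.1 : ℝ) + a.2 * x.2 = α * (v.1 * x.1 + v.2 * x.2) + β * (w.1 * x.1 + w.2 * x.2) := by
      rw [ea, eb]; ring
    have l2 : a.1 * ((hq H c q v : ℝ) * w.2 - hq H c q w * v.2) + a.2 * (hq H c q w * v.1 - hq H c q v * w.1)
        = α * hq H c q v + β * hq H c q w := by
      rw [hα, hβ]; ring
    rw [l1, l2]
    linarith) B hB'
  have hh := bundle_hull hF ha' hB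
  rw [hh]
  apply hasRUT_of_RU hw
  apply covers
  rw [← hh]
  exact bundle_int hF ha' hint

end Pool.Agent.SPB
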