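import Pool.Agent.SPB.Fan

/-!
# [SPB-Opp] a smooth complete fan with at least four rays contains opposite rays

`opp`: induction on `F.card`. Let `N v = v.1 ^ 2 + v.2 ^ 2` and let `j ∈ F` be of maximal norm, `a`, `b` its
neighbours (`Adj F a j`, `Adj F j b`), `a + b = t • j`. `t² N j = N (a + b) = 2 N a + 2 N b - N (a - b) ≤ 4 N j`, with
equality only if `a = b`, which is impossible (`det a j = 1 = det j b`). So `t ∈ {-1, 0, 1}`.
* `t = 0`: `b = -a`, done.
* `t = -1`: `a + j + b = 0`, `det b a = 1`. If `F = {a, j, b}` we are in the second case of the conclusion.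
  Otherwise let `m ∈ F` be another element, `m = α b + β a` with `α = det m a`, `β = det b m`; by `sep` (and because
  `m ≠ a, b` and `m` is not in the closed cones `(a, j)`, `(j, b)`) `α, β ≥ 1`. By maximality `N (α b + β a) ≤ N (a + b)`, while
  `N a, N b ≤ N (a + b)` gives `2 (a · b) ≥ - N a` and `≥ - N b`, so if `α ≥ β`
  `N (α b + β a) - N (a + b) ≥ (α² - 1) N b + (β² - 1) N a - (α β - 1) N b ≥ 0` with equality only for `α = β = 1`
  (similarly for `α ≤ β`). So `m = a + b = -j`.
* `t = 1`: `j = a + b`. `F' = F.erase j` is a smooth fan: the successor of `a` is now `b` (`det a b = 1`; an element of `F'` in the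
  closed cone `(a, b)` lies in the closed cone `(a, j)` or `(j, b)`), other successors are unchanged. Induction: if `F'` has opposite
  elements we are done; if `F' = {v, w, x}` with sum `0`, then it is `{a, b, -a-b}` and contains `-j`.
-/

open Finset

set_option autoImplicit false

namespace Pool.Agent.SPB

variable {F : Finset V}

private theorem opp_neg (v w : V) : det w v = - det v w := by
  unfold det
  ring

private theorem opp_self (v : V) : det v v = 0 := by
  unfold det
  ring

private theorem opp_basis {v w : V} (h : det v w = 1) (x : V) : x = det x w • v + det v x • w := by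
  obtain ⟨v1, v2⟩ := v
  obtain ⟨w1, w2⟩ := w
  obtain ⟨x1, x2⟩ := x
  unfold det at h ⊢
  simp only at h
  refine Prod.ext ?_ ?_
  · simp only [Prod.smul_mk, smul_eq_mul, Prod.mk_add_mk]
    linear_combination (-x1) * h
  · simp only [Prod.smul_mk, smul_eq_mul, Prod.mk_add_mk]
    linear_combination (-x2) * h

private theorem opp_ne {v w : V} (h : det v w = 1) : v ≠ w := by
  rintro rfl
  rw [opp_self] at h
  exact zero_ne_one h

/-- the predecessor is unique -/
private theorem opp_pred {a j v : V} (h : Adj F a j) (h' : Adj F v j) : v = a := by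
  obtain ⟨ha, _, hd, hx⟩ := h
  obtain ⟨hv, _, hd', hx'⟩ := h'
  rcases le_or_gt 0 (det a v) with hk | hk
  · rcases hx v hv hk (by rw [hd']; exact zero_le_one) with h1 | h1
    · exact h1
    · exact absurd h1 (opp_ne hd')
  · have hk' : 0 ≤ det v a := by
      rw [opp_neg a v]
      linarith
    rcases hx' a ha hk' (by rw [hd]; exact zero_le_one) with h1 | h1
    · exact h1.symm
    · exact absurd h1 (opp_ne hd)

/-- a nonnegative multiple of a vector which is primitive is the vector -/
private theorem opp_prim {m c x : V} {k : ℤ} (h : det m x = 1) (hm : m = k • c) (hk : 0 ≤ k) :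
    m = c := by
  have h1 : k * det c x = 1 := by
    rw [← h, hm]
    unfold det
    simp only [Prod.smul_fst, Prod.smul_snd, smul_eq_mul]
    ring
  have h2 : k = 1 := by
    rcases Int.isUnit_iff.1 (IsUnit.of_mul_eq_one _ h1) with h3 | h3
    · exact h3
    · omega
  rw [hm, h2, one_smul]

/-- the square of the norm -/
private def oppN (v : V) : ℤ := v.1 ^ 2 + v.2 ^ 2

private theorem oppN_pos {v w : V} (h : det v w = 1) : 0 < oppN v := by
  unfold oppN
  by_contra hcon
  have h1 : v.1 = 0 := by nlinarith [sq_nonneg v.1, sq_nonneg v.2]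
  have h2 : v.2 = 0 := by nlinarith [sq_nonneg v.1, sq_nonneg v.2]
  unfold det at h
  rw [h1, h2] at h
  simp at h

/-- the coefficient is small at a vector of maximal norm -/
private theorem opp_small {a j b : V} {t : ℤ} (h1 : det a j = 1) (h2 : det j b = 1)
    (h : a + b = t • j) (ha : oppN a ≤ oppN j) (hb : oppN b ≤ oppN j) : t = -1 ∨ t = 0 ∨ t = 1 := by
  have e1 : a.1 + b.1 = t * j.1 := by
    have := congrArg Prod.fst h
    simpa using this
  have e2 : a.2 + b.2 = t * j.2 := by
    have := congrArg Prod.snd h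
    simpa using this
  have hab : 0 < (a.1 - b.1) ^ 2 + (a.2 - b.2) ^ 2 := by
    by_contra hcon
    have h3 : a.1 - b.1 = 0 := by nlinarith [sq_nonneg (a.1 - b.1), sq_nonneg (a.2 - b.2)]
    have h4 : a.2 - b.2 = 0 := by nlinarith [sq_nonneg (a.1 - b.1), sq_nonneg (a.2 - b.2)]
    have h5 : a = b := Prod.ext (by linarith) (by linarith)
    rw [h5, opp_neg j b, h2] at h1
    norm_num at h1
  have hj : 0 < oppN j := oppN_pos h2
  have key : t ^ 2 * oppN j < 4 * oppN j := by
    have h3 : t ^ 2 * oppN j = 2 * oppN a + 2 * oppN b - ((a.1 - b.1) ^ 2 + (a.2 - b.2) ^ 2) := by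
      unfold oppN
      have e3 : (a.1 + b.1) ^ 2 = t ^ 2 * j.1 ^ 2 := by rw [e1]; ring
      have e4 : (a.2 + b.2) ^ 2 = t ^ 2 * j.2 ^ 2 := by rw [e2]; ring
      linear_combination - e3 - e4
    rw [h3]
    linarith
  have ht : t ^ 2 < 4 := lt_of_mul_lt_mul_right key hj.le
  have ht1 : t < 2 := by nlinarith
  have ht2 : -2 < t := by nlinarith
  omega

private theorem opp_arith {α β A B s : ℤ} (hA : 0 < A) (hB : 0 < B) (h1 : 1 ≤ β) (h2 : β ≤ α)
    (hs : 0 ≤ B + s) (h : α ^ 2 * B + β ^ 2 * A + α * β * s ≤ A + B + s) : α = 1 ∧ β = 1 := by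
  have h0 : 1 ≤ α * β := by nlinarith
  have h5 : 0 ≤ (α * β - 1) * (B + s) := mul_nonneg (by linarith) hs
  have h6 : (α * (α - β)) * B + (β ^ 2 - 1) * A ≤ 0 := by
    have e : (α * (α - β)) * B + (β ^ 2 - 1) * A =
        (α ^ 2 * B + β ^ 2 * A + α * β * s) - (A + B + s) - (α * β - 1) * (B + s) := by ring
    rw [e]
    linarith
  have h7 : 0 ≤ (α * (α - β)) * B :=
    mul_nonneg (mul_nonneg (by linarith) (by linarith)) hB.le
  have h8 : 0 ≤ (β ^ 2 - 1) * A := mul_nonneg (by nlinarith) hA.le
  have h9 : (α * (α - β)) * B = 0 := by linarith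
  have h10 : (β ^ 2 - 1) * A = 0 := by linarith
  have h11 : β ^ 2 - 1 = 0 := (mul_eq_zero.1 h10).resolve_right hA.ne'
  have h12 : β = 1 := by nlinarith
  have h13 : α * (α - β) = 0 := (mul_eq_zero.1 h9).resolve_right hB.ne'
  have h14 : α - β = 0 := (mul_eq_zero.1 h13).resolve_left (by linarith)
  exact ⟨by linarith, h12⟩

/-- the case `a + j + b = 0` -/
private theorem opp_triangle {a j b m : V} (h1 : det a j = 1)
    (h : a + b = (-1 : ℤ) • j) (ha : oppN a ≤ oppN j) (hb : oppN b ≤ oppN j)
    (hm : oppN m ≤ oppN j) (hma : m ≠ a) (hmb : m ≠ b) {x : V} (hmx : det m x = 1)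
    (hsep : (0 ≤ det j m ∧ 0 ≤ det b m) ∨ (0 ≤ det m j ∧ 0 ≤ det m a)) : m = -j := by
  have hj : j = - a - b := by
    rw [neg_one_smul] at h
    have h3 : j = -(a + b) := by rw [h, neg_neg]
    rw [h3]
    abel
  have hba : det b a = 1 := by
    rw [hj] at h1
    unfold det at h1 ⊢
    simp only [Prod.fst_sub, Prod.snd_sub, Prod.fst_neg, Prod.snd_neg] at h1
    linarith
  have hbas := opp_basis hba m
  obtain ⟨α, hα⟩ : ∃ α, α = det m a := ⟨_, rfl⟩
  obtain ⟨β, hβ⟩ : ∃ β, β = det b m := ⟨_, rfl⟩
  rw [← hα, ← hβ] at hbas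
  have hjm : det j m = α - β := by
    rw [hj, hα, hβ]
    unfold det
    simp only [Prod.fst_sub, Prod.snd_sub, Prod.fst_neg, Prod.snd_neg]
    ring
  have hmj : det m j = β - α := by
    rw [opp_neg j m, hjm]
    ring
  have m1 : m.1 = α * b.1 + β * a.1 := by
    have := congrArg Prod.fst hbas
    simpa using this
  have m2 : m.2 = α * b.2 + β * a.2 := by
    have := congrArg Prod.snd hbas
    simpa using this
  have hNa : 0 < oppN a := oppN_pos h1
  have hNb : 0 < oppN b := oppN_pos hba
  obtain ⟨s, hs⟩ : ∃ s, s = 2 * (a.1 * b.1 + a.2 * b.2) := ⟨_, rfl⟩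
  have hNj : oppN j = oppN a + oppN b + s := by
    rw [hj, hs]
    unfold oppN
    simp only [Prod.fst_sub, Prod.snd_sub, Prod.fst_neg, Prod.snd_neg]
    ring
  have hNm : oppN m = α ^ 2 * oppN b + β ^ 2 * oppN a + α * β * s := by
    rw [hs]
    unfold oppN
    rw [m1, m2]
    ring
  rw [hNj] at ha hb hm
  rw [hNm] at hm
  have hαβ : α = 1 ∧ β = 1 := by
    rcases hsep with ⟨h3, h4⟩ | ⟨h3, h4⟩
    · rw [hjm] at h3
      rw [← hβ] at h4
      have hβ1 : 1 ≤ β := by
        rcases h4.eq_or_lt with h5 | h5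
        · exfalso
          apply hmb
          refine opp_prim hmx (k := α) ?_ (by linarith)
          rw [hbas, ← h5, zero_smul, add_zero]
        · omega
      exact opp_arith hNa hNb hβ1 (by linarith) (by linarith) hm
    · rw [hmj] at h3
      rw [← hα] at h4
      have hα1 : 1 ≤ α := by
        rcases h4.eq_or_lt with h5 | h5
        · exfalso
          apply hma
          refine opp_prim hmx (k := β) ?_ (by linarith)
          rw [hbas, ← h5, zero_smul, zero_add]
        · omega
      have h6 := opp_arith (α := β) (β := α) (s := s) hNb hNa hα1 (by linarith) (by linarith)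
        (by linarith)
      exact ⟨h6.2, h6.1⟩
  rw [hbas, hαβ.1, hαβ.2, hj, one_smul, one_smul]
  abel

/-- the case `j = a + b` : the vector `j` may be removed -/
private theorem opp_erase (hF : SmoothFan F) {a j b : V} (h1 : Adj F a j) (h2 : Adj F j b)
    (hab : det a b = 1) : SmoothFan (F.erase j) ∧ Adj (F.erase j) a b := by
  have haj : a ≠ j := opp_ne h1.2.2.1
  have hbj : b ≠ j := (opp_ne h2.2.2.1).symm
  have haF : a ∈ F.erase j := Finset.mem_erase.2 ⟨haj, h1.1⟩
  have hbF : b ∈ F.erase j := Finset.mem_erase.2 ⟨hbj, h2.2.1⟩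
  have hadj : Adj (F.erase j) a b := by
    refine ⟨haF, hbF, hab, fun x hx hx1 hx2 => ?_⟩
    obtain ⟨hxj, hxF⟩ := Finset.mem_erase.1 hx
    rcases le_or_gt 0 (det x j) with h3 | h3
    · rcases h1.2.2.2 x hxF hx1 h3 with h4 | h4
      · exact Or.inl h4
      · exact absurd h4 hxj
    · have h3' : 0 ≤ det j x := by
        rw [opp_neg x j]
        linarith
      rcases h2.2.2.2 x hxF h3' hx2 with h4 | h4
      · exact absurd h4 hxj
      · exact Or.inr h4
  refine ⟨⟨⟨a, haF⟩, fun v hv => ?_⟩, hadj⟩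
  obtain ⟨hvj, hvF⟩ := Finset.mem_erase.1 hv
  obtain ⟨w, hw⟩ := hF.next v hvF
  by_cases hwj : w = j
  · subst hwj
    rw [opp_pred h1 hw]
    exact ⟨b, hadj⟩
  · exact ⟨w, hv, Finset.mem_erase.2 ⟨hwj, hw.2.1⟩, hw.2.2.1, fun x hx =>
      hw.2.2.2 x (Finset.mem_of_mem_erase hx)⟩

private theorem opp_aux (n : ℕ) : ∀ F : Finset V, F.card = n → SmoothFan F →
    (∃ u, u ∈ F ∧ -u ∈ F) ∨ ∃ v w x : V, F = {v, w, x} ∧ v + w + x = 0 ∧ det v w = 1 := by
  induction n using Nat.strong_induction_on with
  | _ n ih =>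
    intro F hcard hF
    obtain ⟨j, hj, hmax⟩ := Finset.exists_max_image F oppN hF.nonempty
    obtain ⟨a, h1⟩ := hF.pred hj
    obtain ⟨b, h2⟩ := hF.next j hj
    have hsum := sum_adj h1 h2
    rcases opp_small h1.2.2.1 h2.2.2.1 hsum (hmax a h1.1) (hmax b h2.2.1) with ht | ht | ht
    · rw [ht] at hsum
      by_cases hex : ∃ m ∈ F, m ≠ a ∧ m ≠ j ∧ m ≠ b
      · obtain ⟨m, hm, hma, hmj, hmb⟩ := hex
        obtain ⟨x, hx⟩ := hF.next m hm
        have h3 := opp_triangle h1.2.2.1 hsum (hmax a h1.1) (hmax b h2.2.1) (hmax m hm)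
          hma hmb hx.2.2.1 (sep h1 h2 hm hmj)
        exact Or.inl ⟨j, hj, h3 ▸ hm⟩
      · right
        refine ⟨a, j, b, ?_, ?_, h1.2.2.1⟩
        · ext x
          rw [Finset.mem_insert, Finset.mem_insert, Finset.mem_singleton]
          constructor
          · intro hx
            by_contra hcon
            push Not at hcon
            exact hex ⟨x, hx, hcon.1, hcon.2.1, hcon.2.2⟩
          · rintro (rfl | rfl | rfl)
            exacts [h1.1, hj, h2.2.1]
        · rw [neg_one_smul] at hsum
          calc a + j + b = (a + b) + j := by abel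
            _ = 0 := by rw [hsum, neg_add_cancel]
    · rw [ht, zero_smul] at hsum
      left
      refine ⟨a, h1.1, ?_⟩
      rw [neg_eq_of_add_eq_zero_right hsum]
      exact h2.2.1
    · rw [ht, one_smul] at hsum
      obtain ⟨hF', hadj⟩ := opp_erase hF h1 h2 ht
      have hlt : (F.erase j).card < n := by
        rw [← hcard]
        exact Finset.card_erase_lt_of_mem hj
      rcases ih _ hlt (F.erase j) rfl hF' with ⟨u, hu, hu'⟩ | ⟨v, w, x, h3, h4, h5⟩
      · exact Or.inl ⟨u, Finset.mem_of_mem_erase hu, Finset.mem_of_mem_erase hu'⟩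
      · left
        refine ⟨j, hj, ?_⟩
        apply Finset.mem_of_mem_erase (a := j)
        have ha := hadj.1
        have hb := hadj.2.1
        have hne : a ≠ b := opp_ne ht
        have hneg : ∀ c : V, c + j = 0 → -j = c := fun c hc => (eq_neg_of_add_eq_zero_left hc).symm
        rw [h3, Finset.mem_insert, Finset.mem_insert, Finset.mem_singleton] at ha hb ⊢
        rw [← hsum] at hneg ⊢
        rcases ha with rfl | rfl | rfl <;> rcases hb with rfl | rfl | rfl
        · exact absurd rfl hne
        · exact Or.inr (Or.inr (hneg _ (by rw [← h4]; abel)))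
        · exact Or.inr (Or.inl (hneg _ (by rw [← h4]; abel)))
        · exact Or.inr (Or.inr (hneg _ (by rw [← h4]; abel)))
        · exact absurd rfl hne
        · exact Or.inl (hneg _ (by rw [← h4]; abel))
        · exact Or.inr (Or.inl (hneg _ (by rw [← h4]; abel)))
        · exact Or.inl (hneg _ (by rw [← h4]; abel))
        · exact absurd rfl hne

theorem opp (hF : SmoothFan F) : (∃ u, u ∈ F ∧ -u ∈ F) ∨
    ∃ v w x : V, F = {v, w, x} ∧ v + w + x = 0 ∧ det v w = 1 :=
  opp_aux F.card F rfl hF

end Pool.Agent.SPB
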