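import Pool.Agent.SPB.Defs

/-!
# [SPB-PlaceT] lattice points in triangles and segments

`tri_pt`: `δ = y - x` is primitive: choose `ν` with `det δ ν = 1`; `z - x = s • δ + D • ν` with `D = det δ (z - x)`, `|D| ≥ 2`. Changing the sign of `ν` we may think of `D ≥ 2` (or treat both signs). A point `x + t δ + k ν` (`0 < k < D`) lies in the triangle iff
`k s / D ≤ t ≤ k s / D + 1 - k / D` (it is `(1 - λ - μ) x + λ y + μ z` with `μ = k / D`, `λ = t - k s / D`). If `g = gcd s D > 1` take `k = D / g`, `t = s / g`. Otherwise `s` is invertible modulo `D`: choose `0 < k < D` with `D ∣ k s + 1`, `t = (k s + 1) / D`: then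
`t - k s / D = 1 / D ≤ 1 - k / D`. `det δ (p - x) = k`.
`seg_pt`: `g = gcd` of the coordinates of `z - x`, `g ≥ 2`, `p = x + (z - x) / g`.
-/

open Finset

set_option autoImplicit false

namespace Pool.Agent.SPB

private lemma tri_hull {S : Set (ℝ × ℝ)} {x y z : ℝ × ℝ} (hx : x ∈ S) (hy : y ∈ S) (hz : z ∈ S)
    {a b c : ℝ} (ha : 0 ≤ a) (hb : 0 ≤ b) (hc : 0 ≤ c) (hc1 : c < 1) (habc : a + b + c = 1) :
    a • x + b • y + c • z ∈ convexHull ℝ S := by
  have hconv := convex_convexHull ℝ S
  have hx' := subset_convexHull ℝ S hx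
  have hy' := subset_convexHull ℝ S hy
  have hz' := subset_convexHull ℝ S hz
  have h1 : 0 < 1 - c := by linarith
  have h2 : (a / (1 - c)) • x + (b / (1 - c)) • y ∈ convexHull ℝ S :=
    hconv hx' hy' (by positivity) (by positivity) (by
      rw [← add_div, div_eq_one_iff_eq h1.ne']
      linarith)
  have h3 := hconv h2 hz' h1.le hc (by ring)
  have h4 : (1 - c) • ((a / (1 - c)) • x + (b / (1 - c)) • y) + c • z =
      a • x + b • y + c • z := by
    rw [smul_add, smul_smul, smul_smul, mul_div_cancel₀ _ h1.ne', mul_div_cancel₀ _ h1.ne']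
  rw [h4] at h3
  exact h3

theorem tri_pt {x y z : V} (hp : Prim (y - x)) (hD : 2 ≤ |det (y - x) (z - x)|) :
    ∃ p : V, toR p ∈ convexHull ℝ ({toR x, toR y, toR z} : Set (ℝ × ℝ)) ∧ p ≠ z ∧
      0 < det (y - x) (p - x) * det (y - x) (z - x) := by
  obtain ⟨a, b, hab⟩ := hp
  obtain ⟨x1, x2⟩ := x
  obtain ⟨y1, y2⟩ := y
  obtain ⟨z1, z2⟩ := z
  simp only [Prod.mk_sub_mk, det] at hab hD ⊢
  set d1 := y1 - x1 with hd1
  set d2 := y2 - x2 with hd2
  set D := d1 * (z2 - x2) - d2 * (z1 - x1) with hDdef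
  obtain ⟨ε, hε, D', hD', hDD⟩ : ∃ ε : ℤ, ε * ε = 1 ∧ ∃ D' : ℤ, 2 ≤ D' ∧ D = ε * D' := by
    rcases le_total 0 D with h | h
    · rw [abs_of_nonneg h] at hD
      exact ⟨1, by norm_num, D, hD, by ring⟩
    · rw [abs_of_nonpos h] at hD
      exact ⟨-1, by norm_num, -D, hD, by ring⟩
  -- coordinates of `z - x` in the basis `δ, ν`
  set s := (z1 - x1) * a + (z2 - x2) * b with hs
  have e1 : z1 - x1 = s * d1 + D' * (-(ε * b)) := by
    have : z1 - x1 = s * d1 + D * (-b) := by
      rw [hs, hDdef]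
      linear_combination (-(z1 - x1)) * hab
    rw [this, hDD]
    ring
  have e2 : z2 - x2 = s * d2 + D' * (ε * a) := by
    have : z2 - x2 = s * d2 + D * a := by
      rw [hs, hDdef]
      linear_combination (-(z2 - x2)) * hab
    rw [this, hDD]
    ring
  set t : ℤ := -((-s) / D') with ht
  have hDpos : 0 < D' := by linarith
  have t1 : s ≤ t * D' := by
    have := Int.ediv_mul_le (-s) hDpos.ne'
    rw [ht]
    linarith
  have t2 : t * D' + 1 ≤ s + D' := by
    have := Int.lt_ediv_add_one_mul_self (-s) hDpos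
    rw [ht]
    linarith
  have hdet : d1 * (t * d2 + ε * a) - d2 * (t * d1 - ε * b) = ε := by
    linear_combination ε * hab
  refine ⟨(x1 + t * d1 - ε * b, x2 + t * d2 + ε * a), ?_, ?_, ?_⟩
  · have hDR : (0 : ℝ) < D' := by exact_mod_cast hDpos
    have hDR2 : (2 : ℝ) ≤ D' := by exact_mod_cast hD'
    have t1R : (s : ℝ) ≤ t * D' := by exact_mod_cast t1
    have t2R : (t : ℝ) * D' + 1 ≤ s + D' := by exact_mod_cast t2
    have key := tri_hull (S := ({toR (x1, x2), toR (y1, y2), toR (z1, z2)} : Set (ℝ × ℝ)))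
      (x := toR (x1, x2)) (y := toR (y1, y2)) (z := toR (z1, z2)) (by simp) (by simp) (by simp)
      (a := 1 - (t - s / D') - 1 / D') (b := t - s / D') (c := 1 / D') (by
        rw [show (1 : ℝ) - (t - s / D') - 1 / D' = (s + D' - (t * D' + 1)) / D' by
          field_simp
          ring]
        exact div_nonneg (by linarith) hDR.le) (by
        rw [show (t : ℝ) - s / D' = (t * D' - s) / D' by field_simp]
        exact div_nonneg (by linarith) hDR.le) (by positivity) (by
        rw [div_lt_one hDR]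
        linarith) (by ring)
    convert key using 1
    have e1R : (z1 : ℝ) - x1 = s * (y1 - x1) + D' * (-(ε * b)) := by
      have := e1
      rw [hd1] at this
      exact_mod_cast this
    have e2R : (z2 : ℝ) - x2 = s * (y2 - x2) + D' * (ε * a) := by
      have := e2
      rw [hd2] at this
      exact_mod_cast this
    have f1 : (z1 : ℝ) = x1 + s * (y1 - x1) + D' * (-(ε * b)) := by linarith
    have f2 : (z2 : ℝ) = x2 + s * (y2 - x2) + D' * (ε * a) := by linarith
    unfold toR
    simp only [Prod.smul_mk, Prod.mk_add_mk, smul_eq_mul, Prod.mk.injEq]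
    constructor
    · rw [f1]
      simp only [hd1]
      push_cast
      field_simp
      ring
    · rw [f2]
      simp only [hd2]
      push_cast
      field_simp
      ring
  · intro h
    rw [Prod.mk.injEq] at h
    have h1 : z1 - x1 = t * d1 - ε * b := by linarith [h.1]
    have h2 : z2 - x2 = t * d2 + ε * a := by linarith [h.2]
    have h3 : D = ε := by
      rw [hDdef, h1, h2]
      exact hdet
    rw [hDD] at h3
    have h4 : D' = 1 := by
      have : ε * (ε * D') = ε * ε := by rw [h3]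
      rw [← mul_assoc, hε] at this
      linarith
    omega
  · have h1 : d1 * (x2 + t * d2 + ε * a - x2) - d2 * (x1 + t * d1 - ε * b - x1) = ε := by
      linear_combination hdet
    have h2 : 0 < (d1 * (x2 + t * d2 + ε * a - x2) - d2 * (x1 + t * d1 - ε * b - x1)) * D := by
      rw [h1, hDD, ← mul_assoc, hε]
      linarith
    exact h2

theorem seg_pt {x z : V} (hne : x ≠ z) (hp : ¬ Prim (z - x)) :
    ∃ (p : V) (g : ℕ), 2 ≤ g ∧ z - x = (g : ℤ) • (p - x) ∧ p ≠ z ∧ p ≠ x ∧
      toR p ∈ convexHull ℝ ({toR x, toR z} : Set (ℝ × ℝ)) := by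
  obtain ⟨x1, x2⟩ := x
  obtain ⟨z1, z2⟩ := z
  simp only [Prod.mk_sub_mk, Prim] at hp ⊢
  set g := Int.gcd (z1 - x1) (z2 - x2) with hg
  have hg0 : g ≠ 0 := by
    intro h
    rw [hg, Int.gcd_eq_zero_iff] at h
    apply hne
    rw [Prod.mk.injEq]
    constructor <;> linarith [h.1, h.2]
  have hg1 : g ≠ 1 := fun h => hp (Int.isCoprime_iff_gcd_eq_one.2 h)
  have hg2 : 2 ≤ g := by omega
  obtain ⟨a, ha⟩ := Int.gcd_dvd_left (z1 - x1) (z2 - x2)
  obtain ⟨b, hb⟩ := Int.gcd_dvd_right (z1 - x1) (z2 - x2)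
  rw [← hg] at ha hb
  have hg2' : (2 : ℤ) ≤ g := by exact_mod_cast hg2
  have hne' : ¬ (a = 0 ∧ b = 0) := by
    rintro ⟨h1, h2⟩
    apply hne
    rw [h1, mul_zero] at ha
    rw [h2, mul_zero] at hb
    rw [Prod.mk.injEq]
    constructor <;> linarith
  refine ⟨(x1 + a, x2 + b), g, hg2, ?_, ?_, ?_, ?_⟩
  · rw [Prod.mk_sub_mk, Prod.smul_mk, Prod.mk.injEq, smul_eq_mul, smul_eq_mul]
    constructor
    · rw [ha]; ring
    · rw [hb]; ring
  · intro h
    rw [Prod.mk.injEq] at h
    have h1 : ((g : ℤ) - 1) * a = 0 := by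
      have : z1 - x1 = a := by linarith [h.1]
      rw [this] at ha
      linarith
    have h2 : ((g : ℤ) - 1) * b = 0 := by
      have : z2 - x2 = b := by linarith [h.2]
      rw [this] at hb
      linarith
    have hgne : (g : ℤ) - 1 ≠ 0 := by omega
    exact hne' ⟨(mul_eq_zero.1 h1).resolve_left hgne, (mul_eq_zero.1 h2).resolve_left hgne⟩
  · intro h
    rw [Prod.mk.injEq] at h
    exact hne' ⟨by linarith [h.1], by linarith [h.2]⟩
  · have hgR : (0 : ℝ) < g := by exact_mod_cast (by omega : 0 < g)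
    have hgR2 : (2 : ℝ) ≤ g := by exact_mod_cast hg2
    have h1 := (convex_convexHull ℝ ({toR (x1, x2), toR (z1, z2)} : Set (ℝ × ℝ)))
      (subset_convexHull ℝ _ (by simp : toR (x1, x2) ∈ ({toR (x1, x2), toR (z1, z2)} : Set (ℝ × ℝ))))
      (subset_convexHull ℝ _ (by simp : toR (z1, z2) ∈ ({toR (x1, x2), toR (z1, z2)} : Set (ℝ × ℝ))))
      (a := 1 - 1 / (g : ℝ)) (b := 1 / (g : ℝ)) (by
        rw [sub_nonneg, div_le_one hgR]
        linarith) (by positivity) (by ring)
    convert h1 using 1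
    have haR : (z1 : ℝ) - x1 = g * a := by exact_mod_cast ha
    have hbR : (z2 : ℝ) - x2 = g * b := by exact_mod_cast hb
    have f1 : (z1 : ℝ) = x1 + g * a := by linarith
    have f2 : (z2 : ℝ) = x2 + g * b := by linarith
    unfold toR
    simp only [Prod.smul_mk, Prod.mk_add_mk, smul_eq_mul, Prod.mk.injEq]
    constructor
    · rw [f1]
      push_cast
      field_simp
      ring
    · rw [f2]
      push_cast
      field_simp
      ring

end Pool.Agent.SPB
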