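import Pool.Agent.SPB.Fan
import Pool.Agent.SPB.Total

/-!
# [SPB-PolyA] the polytope of the bundle

`bundle_pts`: `AQ` is finite and each polygon is bounded (`exists_pts`).
`bundle_hull`: (⊇) the inequalities and membership in `Q = hull AQ` (`tl` is linear) pass to the convex hull. (⊆) let `y = (x, q)` be in the bundle, `y ∉ hull B`. `hull B` is compact and convex: there is a linear `f` with `f z < f y` for all `z ∈ hull B`. `f (x, q) = a · x + g · q`. By `complete`, `a = α v + β w` with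
`Adj F v w`, `α = a.1 w.2 - a.2 w.1 ≥ 0`, `β ≥ 0`. `q = ∑ λ_i q_i`, `q_i ∈ AQ`. `a · x ≤ α h_v(q) + β h_w(q) = ∑ λ_i (α h_v(q_i) + β h_w(q_i)) = ∑ λ_i a · x_i` with `x_i = vert v w (h_v q_i) (h_w q_i)`, `(x_i, q_i) ∈ B` (`vert_mem`). So `f y ≤ ∑ λ_i f (x_i, q_i) < f y` (if `B = ∅` then `AQ = ∅` and the bundle is empty).
-/

open Finset

set_option autoImplicit false

namespace Pool.Agent.SPB

variable {F : Finset V}

/-- value of the support function of the ray `v` at `q` -/
def hq {k : ℕ} (H : V → Fin k → ℤ) (c : V → ℤ) (q : Fin k → ℤ) (v : V) : ℤ := ∑ i, H v i * q i + c v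

/-- the polytope `{(x, q) | q ∈ Q, v · x ≤ H v · q + c v for v ∈ F}` -/
def bundle {k : ℕ} (F : Finset V) (H : V → Fin k → ℤ) (c : V → ℤ) (Q : Set (Fin k → ℝ)) : Set (Fin (k + 2) → ℝ) :=
  {y | tl y ∈ Q ∧ ∀ v ∈ F, (v.1 : ℝ) * y 0 + v.2 * y 1 ≤ ∑ i, (H v i : ℝ) * y i.succ.succ + c v}

/-- the point with first two coordinates `x` and last coordinates `q` -/
private def paMk {k : ℕ} (x : V) (q : Fin k → ℤ) : Fin (k + 2) → ℤ := Fin.cons x.1 (Fin.cons x.2 q)

private lemma paMk_tl {k : ℕ} (x : V) (q : Fin k → ℤ) : tl (paMk x q) = q := by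
  funext i
  simp [tl, paMk]

private lemma paMk_hd {k : ℕ} (x : V) (q : Fin k → ℤ) : hd (paMk x q) = x := by
  simp only [hd, paMk, Fin.cons_zero]
  ext
  · rfl
  · rfl

private lemma paMk_eta {k : ℕ} (y : Fin (k + 2) → ℤ) : paMk (hd y) (tl y) = y := by
  funext i
  refine Fin.cases ?_ (fun j => ?_) i
  · simp [paMk, hd]
  · refine Fin.cases ?_ (fun l => ?_) j
    · simp [paMk, hd]
    · simp [paMk, tl]

private lemma paSum {k : ℕ} (g : Fin (k + 2) → ℝ) (y : Fin (k + 2) → ℝ) :
    ∑ i, g i * y i = g 0 * y 0 + g 1 * y 1 + ∑ i : Fin k, g i.succ.succ * tl y i := by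
  rw [Fin.sum_univ_succ, Fin.sum_univ_succ]
  simp only [tl, Fin.succ_zero_eq_one]
  ring

theorem bundle_pts {k : ℕ} (hF : SmoothFan F) (H : V → Fin k → ℤ) (c : V → ℤ) (AQ : Finset (Fin k → ℤ)) :
    ∃ B : Finset (Fin (k + 2) → ℤ), ∀ y, y ∈ B ↔ tl y ∈ AQ ∧ ∀ v ∈ F, dot v (hd y) ≤ hq H c (tl y) v := by
  classical
  choose A hA using fun q : Fin k → ℤ => exists_pts hF (hq H c q)
  refine ⟨AQ.biUnion (fun q => (A q).image (fun x => paMk x q)), fun y => ?_⟩
  rw [Finset.mem_biUnion]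
  constructor
  · rintro ⟨q, hq1, hy⟩
    rw [Finset.mem_image] at hy
    obtain ⟨x, hx, rfl⟩ := hy
    rw [paMk_tl, paMk_hd]
    exact ⟨hq1, (hA q x).1 hx⟩
  · rintro ⟨h1, h2⟩
    refine ⟨tl y, h1, Finset.mem_image.2 ⟨hd y, (hA (tl y) (hd y)).2 h2, paMk_eta y⟩⟩

private lemma paTl_emb {k : ℕ} (y : Fin (k + 2) → ℤ) : tl (emb y) = emb (tl y) := rfl

private lemma paConv {k : ℕ} (F : Finset V) (H : V → Fin k → ℤ) (c : V → ℤ) {Q : Set (Fin k → ℝ)}
    (hQ : Convex ℝ Q) : Convex ℝ (bundle F H c Q) := by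
  intro y hy z hz s t hs ht hst
  refine ⟨?_, fun v hv => ?_⟩
  · have h1 := hQ hy.1 hz.1 hs ht hst
    have h2 : tl (s • y + t • z) = s • tl y + t • tl z := by
      funext i
      simp [tl]
    rw [h2]
    exact h1
  · have h1 := mul_le_mul_of_nonneg_left (hy.2 v hv) hs
    have h2 := mul_le_mul_of_nonneg_left (hz.2 v hv) ht
    have h3 : ∑ i, (H v i : ℝ) * (s • y + t • z) i.succ.succ + c v =
        s * (∑ i, (H v i : ℝ) * y i.succ.succ + c v) + t * (∑ i, (H v i : ℝ) * z i.succ.succ + c v) := by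
      have h4 : ∑ i, (H v i : ℝ) * (s • y + t • z) i.succ.succ =
          s * ∑ i, (H v i : ℝ) * y i.succ.succ + t * ∑ i, (H v i : ℝ) * z i.succ.succ := by
        rw [Finset.mul_sum, Finset.mul_sum, ← Finset.sum_add_distrib]
        refine Finset.sum_congr rfl fun i _ => ?_
        simp only [Pi.add_apply, Pi.smul_apply, smul_eq_mul]
        ring
      rw [h4]
      have h5 : (c v : ℝ) = (s + t) * c v := by rw [hst, one_mul]
      linarith
    rw [h3]
    simp only [Pi.add_apply, Pi.smul_apply, smul_eq_mul]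
    linarith

private lemma paHalf {k : ℕ} (g : Fin k → ℝ) (d u : ℝ) : Convex ℝ {q : Fin k → ℝ | ∑ i, g i * q i + d < u} := by
  intro y hy z hz s t hs ht hst
  simp only [Set.mem_ofPred_eq] at hy hz ⊢
  have h4 : ∑ i, g i * (s • y + t • z) i = s * ∑ i, g i * y i + t * ∑ i, g i * z i := by
    rw [Finset.mul_sum, Finset.mul_sum, ← Finset.sum_add_distrib]
    refine Finset.sum_congr rfl fun i _ => ?_
    simp only [Pi.add_apply, Pi.smul_apply, smul_eq_mul]
    ring
  rw [h4]
  rcases hs.eq_or_lt with h0 | h0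
  · subst h0
    rw [zero_add] at hst
    subst hst
    simpa using hz
  · have h1 := mul_lt_mul_of_pos_left hy h0
    have h2 := mul_le_mul_of_nonneg_left hz.le ht
    have h5 : u = (s + t) * u := by rw [hst, one_mul]
    have h6 : d = (s + t) * d := by rw [hst, one_mul]
    linarith

theorem bundle_hull {k : ℕ} (hF : SmoothFan F) {H : V → Fin k → ℤ} {c : V → ℤ} {AQ : Finset (Fin k → ℤ)}
    (ha : ∀ q ∈ AQ, Ample F (hq H c q)) {B : Finset (Fin (k + 2) → ℤ)}
    (hB : ∀ y, y ∈ B ↔ tl y ∈ AQ ∧ ∀ v ∈ F, dot v (hd y) ≤ hq H c (tl y) v) :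
    bundle F H c (hull AQ) = hull B := by
  classical
  apply Set.Subset.antisymm
  · intro y hy
    by_contra hyB
    have hcl : IsClosed (hull B) := by
      have h1 : IsCompact (hull B) := (B.finite_toSet.image emb).isCompact_convexHull ℝ
      exact h1.isClosed
    obtain ⟨f, u, hfu, huy⟩ := geometric_hahn_banach_closed_point (convex_convexHull ℝ _) hcl hyB
    set g : Fin (k + 2) → ℝ := fun i => f (Pi.single i 1) with hg
    have hf : ∀ z : Fin (k + 2) → ℝ, f z = g 0 * z 0 + g 1 * z 1 + ∑ i : Fin k, g i.succ.succ * tl z i := by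
      intro z
      rw [← paSum]
      have h1 : z = ∑ i, z i • (Pi.single i (1 : ℝ) : Fin (k + 2) → ℝ) := by
        funext j
        simp [Finset.sum_apply, Pi.single_apply]
      conv_lhs => rw [h1]
      rw [map_sum]
      refine Finset.sum_congr rfl fun i _ => ?_
      rw [map_smul, smul_eq_mul, mul_comm]
    obtain ⟨v, w, hvw, hα, hβ⟩ := complete hF (g 0, g 1)
    simp only at hα hβ
    set α : ℝ := g 0 * w.2 - g 1 * w.1 with hαd
    set β : ℝ := (v.1 : ℝ) * g 1 - v.2 * g 0 with hβd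
    have hdet : (v.1 : ℝ) * w.2 - v.2 * w.1 = 1 := by
      have h1 := hvw.2.2.1
      unfold det at h1
      exact_mod_cast h1
    have hid : ∀ x0 x1 : ℝ, g 0 * x0 + g 1 * x1 =
        α * ((v.1 : ℝ) * x0 + v.2 * x1) + β * ((w.1 : ℝ) * x0 + w.2 * x1) := by
      intro x0 x1
      rw [hαd, hβd]
      linear_combination (-(g 0 * x0) - g 1 * x1) * hdet
    -- the affine function on the base
    have hPhi : ∀ q : Fin k → ℝ,
        ∑ i, (α * (H v i : ℝ) + β * (H w i : ℝ) + g i.succ.succ) * q i + (α * c v + β * c w) =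
          α * (∑ i, (H v i : ℝ) * q i + c v) + β * (∑ i, (H w i : ℝ) * q i + c w) +
            ∑ i : Fin k, g i.succ.succ * q i := by
      intro q
      have h1 : ∑ i, (α * (H v i : ℝ) + β * (H w i : ℝ) + g i.succ.succ) * q i =
          α * ∑ i, (H v i : ℝ) * q i + β * ∑ i, (H w i : ℝ) * q i + ∑ i : Fin k, g i.succ.succ * q i := by
        rw [Finset.mul_sum, Finset.mul_sum, ← Finset.sum_add_distrib, ← Finset.sum_add_distrib]
        refine Finset.sum_congr rfl fun i _ => ?_
        ring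
      rw [h1]
      ring
    have hsub : hull AQ ⊆ {q : Fin k → ℝ |
        ∑ i, (α * (H v i : ℝ) + β * (H w i : ℝ) + g i.succ.succ) * q i + (α * c v + β * c w) < u} := by
      refine convexHull_min ?_ (paHalf _ _ _)
      rintro _ ⟨q, hqA, rfl⟩
      have hqA' : q ∈ AQ := hqA
      rw [Set.mem_ofPred_eq, hPhi]
      obtain ⟨A, hA⟩ := exists_pts hF (hq H c q)
      have hx := vert_mem hF (ha q hqA') hA hvw
      set x := vert v w (hq H c q v) (hq H c q w) with hxd
      have hz : paMk x q ∈ B := by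
        rw [hB, paMk_tl, paMk_hd]
        exact ⟨hqA', (hA x).1 hx⟩
      have h1 := hfu (emb (paMk x q)) (subset_convexHull ℝ _ ⟨_, hz, rfl⟩)
      rw [hf, paTl_emb, paMk_tl] at h1
      have h2 : emb (paMk x q) 0 = (x.1 : ℝ) := by simp [emb, paMk]
      have h3 : emb (paMk x q) 1 = (x.2 : ℝ) := by
        have h4 := congrArg Prod.snd (paMk_hd x q)
        simp only [hd] at h4
        simp only [emb, h4]
      rw [h2, h3, hid] at h1
      have h5 : (v.1 : ℝ) * x.1 + v.2 * x.2 = ∑ i, (H v i : ℝ) * emb q i + c v := by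
        have h6 := dot_vert_left hvw.2.2.1 (hq H c q v) (hq H c q w)
        rw [← hxd] at h6
        unfold dot hq at h6
        have h7 := congrArg (fun n : ℤ => (n : ℝ)) h6
        push_cast at h7
        exact h7
      have h8 : (w.1 : ℝ) * x.1 + w.2 * x.2 = ∑ i, (H w i : ℝ) * emb q i + c w := by
        have h6 := dot_vert_right hvw.2.2.1 (hq H c q v) (hq H c q w)
        rw [← hxd] at h6
        unfold dot hq at h6
        have h7 := congrArg (fun n : ℤ => (n : ℝ)) h6
        push_cast at h7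
        exact h7
      rw [h5, h8] at h1
      exact h1
    have h1 := hsub hy.1
    rw [Set.mem_ofPred_eq, hPhi] at h1
    have h2 := mul_le_mul_of_nonneg_left (hy.2 v hvw.1) hα
    have h3 := mul_le_mul_of_nonneg_left (hy.2 w hvw.2.1) hβ
    have h4 := hf y
    rw [hid] at h4
    have h5 : ∀ x : V, ∑ i, (H x i : ℝ) * tl y i = ∑ i, (H x i : ℝ) * y i.succ.succ := fun x => rfl
    rw [h5, h5] at h1
    linarith
  · refine convexHull_min ?_ (paConv F H c (convex_convexHull ℝ _))
    rintro _ ⟨y, hy, rfl⟩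
    have hy' := (hB y).1 hy
    refine ⟨?_, fun v hv => ?_⟩
    · rw [paTl_emb]
      exact subset_convexHull ℝ _ ⟨_, hy'.1, rfl⟩
    · have h1 := hy'.2 v hv
      unfold dot hq at h1
      have h2 : (((v.1 * (hd y).1 + v.2 * (hd y).2 : ℤ)) : ℝ) ≤ ((∑ i, H v i * tl y i + c v : ℤ) : ℝ) := by
        exact_mod_cast h1
      push_cast at h2
      exact h2

end Pool.Agent.SPB
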