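import Pool.Agent.SPB.PolyA

/-!
# [SPB-PolyC] the vertices of the bundle

`bundle_vert`: (⊇) the points are in the bundle (`vert_mem`, `exists_pts`), which is convex (`hull AQ` is convex, `tl` is linear). (⊆) exactly as in the proof of `bundle_hull` (PolyA): if `y = (x, q)` is in the bundle but not in the convex hull of the finite set on the right, separate by a linear `f (x, q) = a · x + g · q` (`geometric_hahn_banach_compact_point` or similar), `f z < f y` for all `z` on the right. By `complete`, `a = α v + β w` with `Adj F v w`, `α, β ≥ 0`; `q = ∑ λ_i q_i` with `q_i ∈ AQ`; `a · x ≤ α h_v(q) + β h_w(q) = ∑ λ_i (α h_v(q_i) + β h_w(q_i)) = ∑ λ_i a · x_i` with `x_i = vert v w (h_v q_i) (h_w q_i)`. So `f y ≤ ∑ λ_i f (x_i, q_i) < f y`.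
(If helpful, prove `bundle_vert` as an intermediate statement of PolyA and move it there.)
-/

open Finset

set_option autoImplicit false

namespace Pool.Agent.SPB

variable {F : Finset V}

/-- the point with first two coordinates `x` and last coordinates `q` -/
def mk2 {k : ℕ} (x : V) (q : Fin k → ℤ) : Fin (k + 2) → ℤ := Fin.cons x.1 (Fin.cons x.2 q)

private lemma pcMk_tl {k : ℕ} (x : V) (q : Fin k → ℤ) : tl (mk2 x q) = q := by
  funext i
  simp [tl, mk2]

private lemma pcMk_hd {k : ℕ} (x : V) (q : Fin k → ℤ) : hd (mk2 x q) = x := by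
  simp only [hd, mk2, Fin.cons_zero]
  ext
  · rfl
  · rfl

private lemma pcSum {k : ℕ} (g : Fin (k + 2) → ℝ) (y : Fin (k + 2) → ℝ) :
    ∑ i, g i * y i = g 0 * y 0 + g 1 * y 1 + ∑ i : Fin k, g i.succ.succ * tl y i := by
  rw [Fin.sum_univ_succ, Fin.sum_univ_succ]
  simp only [tl, Fin.succ_zero_eq_one]
  ring

private lemma pcTl_emb {k : ℕ} (y : Fin (k + 2) → ℤ) : tl (emb y) = emb (tl y) := rfl

private lemma pcConv {k : ℕ} (F : Finset V) (H : V → Fin k → ℤ) (c : V → ℤ) {Q : Set (Fin k → ℝ)}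
    (hQ : Convex ℝ Q) : Convex ℝ (bundle F H c Q) := by
  intro y hy z hz s t hs ht hst
  refine ⟨?_, fun v hv => ?_⟩
  · have h1 := hQ hy.1 hz.1 hs ht hst
    have h2 : tl (s • y + t • z) = s • tl y + t • tl z := by
      funext i
      simp [tl]
    rw [h2]
    exact h1
  · have h1 := mul_le_mul_of_nonneg_left (hy.2 v hv) hs
    have h2 := mul_le_mul_of_nonneg_left (hz.2 v hv) ht
    have h3 : ∑ i, (H v i : ℝ) * (s • y + t • z) i.succ.succ + c v =
        s * (∑ i, (H v i : ℝ) * y i.succ.succ + c v) + t * (∑ i, (H v i : ℝ) * z i.succ.succ + c v) := by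
      have h4 : ∑ i, (H v i : ℝ) * (s • y + t • z) i.succ.succ =
          s * ∑ i, (H v i : ℝ) * y i.succ.succ + t * ∑ i, (H v i : ℝ) * z i.succ.succ := by
        rw [Finset.mul_sum, Finset.mul_sum, ← Finset.sum_add_distrib]
        refine Finset.sum_congr rfl fun i _ => ?_
        simp only [Pi.add_apply, Pi.smul_apply, smul_eq_mul]
        ring
      rw [h4]
      have h5 : (c v : ℝ) = (s + t) * c v := by rw [hst, one_mul]
      linarith
    rw [h3]
    simp only [Pi.add_apply, Pi.smul_apply, smul_eq_mul]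
    linarith

private lemma pcHalf {k : ℕ} (g : Fin k → ℝ) (d u : ℝ) : Convex ℝ {q : Fin k → ℝ | ∑ i, g i * q i + d < u} := by
  intro y hy z hz s t hs ht hst
  simp only [Set.mem_ofPred_eq] at hy hz ⊢
  have h4 : ∑ i, g i * (s • y + t • z) i = s * ∑ i, g i * y i + t * ∑ i, g i * z i := by
    rw [Finset.mul_sum, Finset.mul_sum, ← Finset.sum_add_distrib]
    refine Finset.sum_congr rfl fun i _ => ?_
    simp only [Pi.add_apply, Pi.smul_apply, smul_eq_mul]
    ring
  rw [h4]
  rcases hs.eq_or_lt with h0 | h0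
  · subst h0
    rw [zero_add] at hst
    subst hst
    simpa using hz
  · have h1 := mul_lt_mul_of_pos_left hy h0
    have h2 := mul_le_mul_of_nonneg_left hz.le ht
    have h5 : u = (s + t) * u := by rw [hst, one_mul]
    have h6 : d = (s + t) * d := by rw [hst, one_mul]
    linarith

private lemma pcFin {k : ℕ} (F : Finset V) (H : V → Fin k → ℤ) (c : V → ℤ) (AQ : Finset (Fin k → ℤ)) :
    {y : Fin (k + 2) → ℝ | ∃ (v w : V) (q : Fin k → ℤ), Adj F v w ∧ q ∈ AQ ∧
      y = emb (mk2 (vert v w (hq H c q v) (hq H c q w)) q)}.Finite := by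
  classical
  refine ((F ×ˢ F ×ˢ AQ).finite_toSet.image (fun p : V × V × (Fin k → ℤ) =>
    emb (mk2 (vert p.1 p.2.1 (hq H c p.2.2 p.1) (hq H c p.2.2 p.2.1)) p.2.2))).subset ?_
  rintro y ⟨v, w, q, hvw, hq', rfl⟩
  refine ⟨(v, w, q), ?_, rfl⟩
  simp only [Finset.coe_product, Set.mem_prod, Finset.mem_coe]
  exact ⟨hvw.1, hvw.2.1, hq'⟩

private lemma pcVert {k : ℕ} {H : V → Fin k → ℤ} {c : V → ℤ} {v w : V} (hvw : Adj F v w) (q : Fin k → ℤ) :
    (v.1 : ℝ) * (vert v w (hq H c q v) (hq H c q w)).1 + v.2 * (vert v w (hq H c q v) (hq H c q w)).2 =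
        ∑ i, (H v i : ℝ) * emb q i + c v ∧
      (w.1 : ℝ) * (vert v w (hq H c q v) (hq H c q w)).1 + w.2 * (vert v w (hq H c q v) (hq H c q w)).2 =
        ∑ i, (H w i : ℝ) * emb q i + c w := by
  obtain ⟨x, hxd⟩ : ∃ x, x = vert v w (hq H c q v) (hq H c q w) := ⟨_, rfl⟩
  rw [← hxd]
  constructor
  · have h6 := dot_vert_left hvw.2.2.1 (hq H c q v) (hq H c q w)
    rw [← hxd] at h6
    unfold dot hq at h6
    have h7 := congrArg (fun n : ℤ => (n : ℝ)) h6
    push_cast at h7
    exact h7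
  · have h6 := dot_vert_right hvw.2.2.1 (hq H c q v) (hq H c q w)
    rw [← hxd] at h6
    unfold dot hq at h6
    have h7 := congrArg (fun n : ℤ => (n : ℝ)) h6
    push_cast at h7
    exact h7

private lemma pcCoord {k : ℕ} (x : V) (q : Fin k → ℤ) :
    emb (mk2 x q) 0 = (x.1 : ℝ) ∧ emb (mk2 x q) 1 = (x.2 : ℝ) := by
  refine ⟨by simp [emb, mk2], ?_⟩
  have h4 := congrArg Prod.snd (pcMk_hd x q)
  simp only [hd] at h4
  simp only [emb, h4]

theorem bundle_vert {k : ℕ} (hF : SmoothFan F) {H : V → Fin k → ℤ} {c : V → ℤ} {AQ : Finset (Fin k → ℤ)}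
    (ha : ∀ q ∈ AQ, Ample F (hq H c q)) :
    bundle F H c (hull AQ) = convexHull ℝ {y : Fin (k + 2) → ℝ | ∃ (v w : V) (q : Fin k → ℤ), Adj F v w ∧ q ∈ AQ ∧
      y = emb (mk2 (vert v w (hq H c q v) (hq H c q w)) q)} := by
  classical
  obtain ⟨S, hSd⟩ : ∃ S : Set (Fin (k + 2) → ℝ), S = {y : Fin (k + 2) → ℝ | ∃ (v w : V) (q : Fin k → ℤ),
      Adj F v w ∧ q ∈ AQ ∧ y = emb (mk2 (vert v w (hq H c q v) (hq H c q w)) q)} := ⟨_, rfl⟩
  have hSf : S.Finite := by
    rw [hSd]
    exact pcFin F H c AQ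
  rw [← hSd]
  apply Set.Subset.antisymm
  · intro y hy
    by_contra hyB
    have hcl : IsClosed (convexHull ℝ S) := (hSf.isCompact_convexHull ℝ).isClosed
    obtain ⟨f, u, hfu, huy⟩ := geometric_hahn_banach_closed_point (convex_convexHull ℝ _) hcl hyB
    set g : Fin (k + 2) → ℝ := fun i => f (Pi.single i 1) with hg
    have hf : ∀ z : Fin (k + 2) → ℝ, f z = g 0 * z 0 + g 1 * z 1 + ∑ i : Fin k, g i.succ.succ * tl z i := by
      intro z
      rw [← pcSum]
      have h1 : z = ∑ i, z i • (Pi.single i (1 : ℝ) : Fin (k + 2) → ℝ) := by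
        funext j
        simp [Finset.sum_apply, Pi.single_apply]
      conv_lhs => rw [h1]
      rw [map_sum]
      refine Finset.sum_congr rfl fun i _ => ?_
      rw [map_smul, smul_eq_mul, mul_comm]
    obtain ⟨v, w, hvw, hα, hβ⟩ := complete hF (g 0, g 1)
    simp only at hα hβ
    set α : ℝ := g 0 * w.2 - g 1 * w.1 with hαd
    set β : ℝ := (v.1 : ℝ) * g 1 - v.2 * g 0 with hβd
    have hdet : (v.1 : ℝ) * w.2 - v.2 * w.1 = 1 := by
      have h1 := hvw.2.2.1
      unfold det at h1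
      exact_mod_cast h1
    have hid : ∀ x0 x1 : ℝ, g 0 * x0 + g 1 * x1 =
        α * ((v.1 : ℝ) * x0 + v.2 * x1) + β * ((w.1 : ℝ) * x0 + w.2 * x1) := by
      intro x0 x1
      rw [hαd, hβd]
      linear_combination (-(g 0 * x0) - g 1 * x1) * hdet
    -- the affine function on the base
    have hPhi : ∀ q : Fin k → ℝ,
        ∑ i, (α * (H v i : ℝ) + β * (H w i : ℝ) + g i.succ.succ) * q i + (α * c v + β * c w) =
          α * (∑ i, (H v i : ℝ) * q i + c v) + β * (∑ i, (H w i : ℝ) * q i + c w) +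
            ∑ i : Fin k, g i.succ.succ * q i := by
      intro q
      have h1 : ∑ i, (α * (H v i : ℝ) + β * (H w i : ℝ) + g i.succ.succ) * q i =
          α * ∑ i, (H v i : ℝ) * q i + β * ∑ i, (H w i : ℝ) * q i + ∑ i : Fin k, g i.succ.succ * q i := by
        rw [Finset.mul_sum, Finset.mul_sum, ← Finset.sum_add_distrib, ← Finset.sum_add_distrib]
        refine Finset.sum_congr rfl fun i _ => ?_
        ring
      rw [h1]
      ring
    have hsub : hull AQ ⊆ {q : Fin k → ℝ |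
        ∑ i, (α * (H v i : ℝ) + β * (H w i : ℝ) + g i.succ.succ) * q i + (α * c v + β * c w) < u} := by
      refine convexHull_min ?_ (pcHalf _ _ _)
      rintro _ ⟨q, hqA, rfl⟩
      have hqA' : q ∈ AQ := hqA
      rw [Set.mem_ofPred_eq, hPhi]
      have hz : emb (mk2 (vert v w (hq H c q v) (hq H c q w)) q) ∈ S := by
        rw [hSd]
        exact ⟨v, w, q, hvw, hqA', rfl⟩
      have h1 := hfu _ (subset_convexHull ℝ _ hz)
      rw [hf, pcTl_emb, pcMk_tl, (pcCoord _ q).1, (pcCoord _ q).2, hid, (pcVert hvw q).1,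
        (pcVert hvw q).2] at h1
      exact h1
    have h1 := hsub hy.1
    rw [Set.mem_ofPred_eq, hPhi] at h1
    have h2 := mul_le_mul_of_nonneg_left (hy.2 v hvw.1) hα
    have h3 := mul_le_mul_of_nonneg_left (hy.2 w hvw.2.1) hβ
    have h4 := hf y
    rw [hid] at h4
    have h5 : ∀ x : V, ∑ i, (H x i : ℝ) * tl y i = ∑ i, (H x i : ℝ) * y i.succ.succ := fun x => rfl
    rw [h5, h5] at h1
    linarith
  · refine convexHull_min ?_ (pcConv F H c (convex_convexHull ℝ _))
    intro y hy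
    rw [hSd] at hy
    obtain ⟨v, w, q, hvw, hqA, rfl⟩ := hy
    obtain ⟨A, hA⟩ := exists_pts hF (hq H c q)
    have hx := vert_mem hF (ha q hqA) hA hvw
    rw [hA] at hx
    refine ⟨?_, fun x hx' => ?_⟩
    · rw [pcTl_emb, pcMk_tl]
      exact subset_convexHull ℝ _ ⟨_, hqA, rfl⟩
    · have h1 := hx x hx'
      rw [(pcCoord _ q).1, (pcCoord _ q).2]
      have h3 : ∑ i, (H x i : ℝ) * emb (mk2 (vert v w (hq H c q v) (hq H c q w)) q) i.succ.succ =
          ∑ i, (H x i : ℝ) * q i := rfl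
      rw [h3]
      obtain ⟨z, hz⟩ : ∃ z, z = vert v w (hq H c q v) (hq H c q w) := ⟨_, rfl⟩
      rw [← hz] at h1 ⊢
      unfold dot hq at h1
      have h2 : (((x.1 * z.1 + x.2 * z.2 : ℤ)) : ℝ) ≤ ((∑ i, H x i * q i + c x : ℤ) : ℝ) := by
        exact_mod_cast h1
      push_cast at h2
      exact h2

end Pool.Agent.SPB
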