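import Pool.Agent.SPB.Cur

/-!
# [SPB-Simp] dilated simplices

`simplex_smooth`: `simplex k m = hull {0, m e_i}`. The extreme points are among `0`, `m e_i`. At `0`: `b i = e_i`. At `m e_j`: `b j = - e_j`, `b i = e_i - e_j` for `i ≠ j` (coefficients of `y` at `m e_j`: `t i = y i` for `i ≠ j`, `t j = m - ∑ y i`).
`simplex_rut`: induction on `k`. `k = 0`: `Fin 0 → ℝ` is a point (`hasRUT_of_RU` or directly). `k + 1`: `simplex (k + 1) m = chim 0 0 (fun _ => -1) m (simplex k m)`, use `chim_rut`, `simplex_smooth`, `IsSmooth.interior` (strict inequality at `q = 0`).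
-/

open Finset

set_option autoImplicit false

namespace Pool.Agent.SPB

/-- the dilated standard simplex `{x | x ≥ 0, ∑ x ≤ m}` -/
def simplex (k m : ℕ) : Set (Fin k → ℝ) := {x | (∀ i, 0 ≤ x i) ∧ ∑ i, x i ≤ m}

private theorem simplex_convex (k m : ℕ) : Convex ℝ (simplex k m) := by
  intro x hx y hy a b ha hb hab
  refine ⟨fun i => ?_, ?_⟩
  · have h1 := hx.1 i
    have h2 := hy.1 i
    simp only [Pi.add_apply, Pi.smul_apply, smul_eq_mul]
    positivity
  · have h1 := hx.2
    have h2 := hy.2
    simp only [Pi.add_apply, Pi.smul_apply, smul_eq_mul, Finset.sum_add_distrib, ← Finset.mul_sum]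
    nlinarith

private theorem simplex_zero_mem (k m : ℕ) : (0 : Fin k → ℝ) ∈ simplex k m := by
  refine ⟨fun i => le_rfl, ?_⟩
  simp

open Classical in
private noncomputable def simpA (k m : ℕ) : Finset (Fin k → ℤ) :=
  insert 0 (Finset.univ.image fun i : Fin k => (Pi.single i (m : ℤ) : Fin k → ℤ))

private theorem simplex_hull (k m : ℕ) (hm : 1 ≤ m) : simplex k m = hull (simpA k m) := by
  classical
  have hm0 : (0 : ℝ) < m := by exact_mod_cast hm
  apply Set.Subset.antisymm
  · intro y hy
    have hconv : Convex ℝ (hull (simpA k m)) := convex_convexHull ℝ _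
    have h0 : (0 : Fin k → ℝ) ∈ hull (simpA k m) := by
      apply subset_convexHull
      refine ⟨0, ?_, ?_⟩
      · simp [simpA]
      · funext i; simp [emb]
    have h1 : ∀ i : Fin k, (Pi.single i (m : ℝ) : Fin k → ℝ) ∈ hull (simpA k m) := by
      intro i
      apply subset_convexHull
      refine ⟨Pi.single i (m : ℤ), ?_, ?_⟩
      · simp [simpA]
      · funext j
        by_cases hj : j = i
        · subst hj; simp [emb]
        · simp [emb, hj]
    have hsum := hconv.sum_mem (t := (Finset.univ : Finset (Option (Fin k))))
      (w := fun o => match o with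
        | none => 1 - (∑ i, y i) / m
        | some i => y i / m)
      (z := fun o => match o with
        | none => (0 : Fin k → ℝ)
        | some i => Pi.single i (m : ℝ)) ?_ ?_ ?_
    · have he : (∑ o : Option (Fin k), (match o with
        | none => 1 - (∑ i, y i) / m
        | some i => y i / m : ℝ) • (match o with
        | none => (0 : Fin k → ℝ)
        | some i => Pi.single i (m : ℝ))) = y := by
        rw [Fintype.sum_option]
        funext j
        simp only [smul_zero, zero_add, Finset.sum_apply, Pi.smul_apply, smul_eq_mul]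
        rw [Finset.sum_eq_single j]
        · simp only [Pi.single_eq_same]
          field_simp
        · intro i _ hij
          rw [Pi.single_eq_of_ne (Ne.symm hij), mul_zero]
        · intro h; exact absurd (Finset.mem_univ j) h
      rw [he] at hsum
      exact hsum
    · rintro (_ | i) _
      · have := hy.2
        show 0 ≤ 1 - (∑ i, y i) / m
        rw [sub_nonneg, div_le_one hm0]
        exact this
      · have := hy.1 i
        show 0 ≤ y i / m
        positivity
    · rw [Fintype.sum_option]
      show 1 - (∑ i, y i) / m + ∑ i, y i / (m : ℝ) = 1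
      rw [← Finset.sum_div]
      ring
    · rintro (_ | i) _
      · exact h0
      · exact h1 i
  · apply convexHull_min _ (simplex_convex k m)
    rintro _ ⟨z, hz, rfl⟩
    simp only [simpA, Finset.coe_insert, Finset.coe_image, Finset.coe_univ, Set.image_univ,
      Set.mem_insert_iff, Set.mem_range] at hz
    rcases hz with rfl | ⟨i, rfl⟩
    · convert simplex_zero_mem k m
      funext i; simp [emb]
    · refine ⟨fun j => ?_, ?_⟩
      · by_cases hj : j = i
        · subst hj; simp [emb]
        · simp [emb, hj]
      · rw [Finset.sum_eq_single i]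
        · simp [emb]
        · intro j _ hj
          simp [emb, hj]
        · intro h; exact absurd (Finset.mem_univ i) h

private theorem simplex_at_zero (k m : ℕ) (hm : 1 ≤ m) :
    ∃ b : Fin k → Fin k → ℤ, (∀ y : Fin k → ℤ, ∃ c : Fin k → ℤ, ∑ i, c i • b i = y) ∧
      (∀ i, 0 + emb (b i) ∈ simplex k m) ∧ ∀ y ∈ simplex k m, ∃ t : Fin k → ℝ, (∀ i, 0 ≤ t i) ∧
        0 + ∑ i, t i • emb (b i) = y := by
  refine ⟨fun i => Pi.single i 1, ?_, ?_, ?_⟩
  · intro y
    refine ⟨y, ?_⟩
    funext j
    rw [Finset.sum_apply, Finset.sum_eq_single j]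
    · simp
    · intro i _ hij
      simp [Ne.symm hij]
    · intro h; exact absurd (Finset.mem_univ j) h
  · intro i
    rw [zero_add]
    refine ⟨fun j => ?_, ?_⟩
    · by_cases hj : j = i
      · subst hj; simp [emb]
      · simp [emb, hj]
    · rw [Finset.sum_eq_single i]
      · simp only [emb, Pi.single_eq_same]
        push_cast
        exact_mod_cast hm
      · intro j _ hj
        simp [emb, hj]
      · intro h; exact absurd (Finset.mem_univ i) h
  · intro y hy
    refine ⟨y, hy.1, ?_⟩
    rw [zero_add]
    funext j
    rw [Finset.sum_apply, Finset.sum_eq_single j]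
    · simp [emb]
    · intro i _ hij
      simp [emb, Ne.symm hij]
    · intro h; exact absurd (Finset.mem_univ j) h

private def simpB (k : ℕ) (j : Fin k) (i l : Fin k) : ℤ :=
  (if i = j then 0 else if l = i then 1 else 0) - (if l = j then 1 else 0)

private theorem simpB_sum (k : ℕ) (j : Fin k) (t : Fin k → ℝ) (l : Fin k) :
    ∑ i, t i * (simpB k j i l : ℝ) = if l = j then - ∑ i, t i else t l := by
  have h1 : ∀ i, t i * (simpB k j i l : ℝ) =
      (if l = i then (if i = j then 0 else t i) else 0) - t i * (if l = j then 1 else 0) := by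
    intro i
    unfold simpB
    push_cast
    rw [mul_sub]
    congr 1
    split_ifs <;> simp
  rw [Finset.sum_congr rfl fun i _ => h1 i, Finset.sum_sub_distrib, Finset.sum_ite_eq]
  simp only [Finset.mem_univ, if_true]
  rw [← Finset.sum_mul]
  split_ifs <;> simp

private theorem simpB_sumZ (k : ℕ) (j : Fin k) (t : Fin k → ℤ) (l : Fin k) :
    ∑ i, t i * simpB k j i l = if l = j then - ∑ i, t i else t l := by
  have h := simpB_sum k j (fun i => (t i : ℝ)) l
  have h2 : ((∑ i, t i * simpB k j i l : ℤ) : ℝ) = ((if l = j then - ∑ i, t i else t l : ℤ) : ℝ) := by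
    push_cast
    exact h
  exact_mod_cast h2

private theorem simplex_at_single (k m : ℕ) (hm : 1 ≤ m) (j : Fin k) :
    ∃ b : Fin k → Fin k → ℤ, (∀ y : Fin k → ℤ, ∃ c : Fin k → ℤ, ∑ i, c i • b i = y) ∧
      (∀ i, emb (Pi.single j (m : ℤ)) + emb (b i) ∈ simplex k m) ∧
      ∀ y ∈ simplex k m, ∃ t : Fin k → ℝ, (∀ i, 0 ≤ t i) ∧
        emb (Pi.single j (m : ℤ)) + ∑ i, t i • emb (b i) = y := by
  have hm1 : (1 : ℝ) ≤ m := by exact_mod_cast hm
  refine ⟨simpB k j, ?_, ?_, ?_⟩
  · intro y
    refine ⟨fun i => if i = j then - ∑ l, y l else y i, ?_⟩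
    funext l
    rw [Finset.sum_apply]
    simp only [Pi.smul_apply, smul_eq_mul]
    rw [simpB_sumZ]
    split_ifs with h
    · subst h
      rw [← Finset.add_sum_erase _ _ (Finset.mem_univ l), ← Finset.add_sum_erase _ y (Finset.mem_univ l)]
      rw [Finset.sum_congr (rfl : Finset.univ.erase l = Finset.univ.erase l)
        (fun i hi => if_neg (Finset.ne_of_mem_erase hi))]
      simp
    · rfl
  · intro i
    have hv : ∀ l, (emb (Pi.single j (m : ℤ)) + emb (simpB k j i)) l =
        (if l = j then (m : ℝ) - 1 else 0) + (if i = j then 0 else if l = i then 1 else 0) := by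
      intro l
      simp only [Pi.add_apply, emb, simpB]
      by_cases hl : l = j
      · subst hl; simp; ring
      · simp [hl]
    refine ⟨fun l => ?_, ?_⟩
    · rw [hv l]
      have : 0 ≤ (m : ℝ) - 1 := by linarith
      split_ifs <;> linarith
    · rw [Finset.sum_congr rfl fun l _ => hv l, Finset.sum_add_distrib, Finset.sum_ite_eq']
      simp only [Finset.mem_univ, if_true]
      by_cases hij : i = j
      · simp [hij]
      · simp only [hij, if_false, Finset.sum_ite_eq', Finset.mem_univ, if_true]
        linarith
  · intro y hy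
    refine ⟨fun i => if i = j then m - ∑ l, y l else y i, ?_, ?_⟩
    · intro i
      have h1 := hy.1 i
      have h2 := hy.2
      dsimp only
      split_ifs <;> linarith
    · funext l
      rw [Pi.add_apply, Finset.sum_apply]
      simp only [Pi.smul_apply, smul_eq_mul, emb]
      rw [simpB_sum]
      by_cases h : l = j
      · subst h
        simp only [if_true]
        have h3 : ∑ i, (if i = l then (m : ℝ) - ∑ l, y l else y i) = m - y l := by
          rw [← Finset.add_sum_erase _ _ (Finset.mem_univ l)]
          rw [Finset.sum_congr (rfl : Finset.univ.erase l = Finset.univ.erase l)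
            (fun i hi => if_neg (Finset.ne_of_mem_erase hi))]
          have h4 := Finset.add_sum_erase Finset.univ y (Finset.mem_univ l)
          simp only [if_true]
          linarith
        rw [h3]
        simp
      · simp [h]

theorem simplex_smooth (k m : ℕ) (hm : 1 ≤ m) : IsSmooth (simplex k m) := by
  classical
  refine ⟨⟨simpA k m, ⟨0, by simp [simpA]⟩, simplex_hull k m hm⟩, ?_⟩
  intro x hx
  have h1 : x ∈ emb '' (simpA k m : Set (Fin k → ℤ)) := by
    rw [simplex_hull k m hm] at hx
    exact extremePoints_convexHull_subset hx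
  obtain ⟨z, hz, rfl⟩ := h1
  simp only [simpA, Finset.coe_insert, Finset.coe_image, Finset.coe_univ, Set.image_univ,
    Set.mem_insert_iff, Set.mem_range] at hz
  rcases hz with rfl | ⟨j, rfl⟩
  · have h0 : (emb (0 : Fin k → ℤ)) = 0 := by funext i; simp [emb]
    rw [h0]
    exact simplex_at_zero k m hm
  · exact simplex_at_single k m hm j

theorem simplex_rut (k m : ℕ) (hm : 1 ≤ m) : HasRUT (simplex k m) := by
  classical
  induction k with
  | zero =>
    have hA : hull ({0} : Finset (Fin 0 → ℤ)) = simplex 0 m := by
      apply Set.eq_of_subset_of_subset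
      · intro x _
        refine ⟨fun i => i.elim0, ?_⟩
        simp
      · intro x _
        apply subset_convexHull
        exact ⟨0, by simp, Subsingleton.elim _ _⟩
    rw [← hA]
    refine hasRUT_of_RU (w := fun _ => 0) ?_ ?_
    · intro a b _ c hc _ x hx
      have h1 : contact ({0} : Finset (Fin 0 → ℤ)) (fun _ => (0 : ℝ)) a b = {x} := by
        apply Finset.eq_singleton_iff_unique_mem.mpr
        exact ⟨hx, fun y _ => Subsingleton.elim _ _⟩
      rw [h1, Finset.sum_singleton] at hc
      exact hc
    · intro x hx
      refine ⟨0, 0, fun y _ => by simp, ?_⟩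
      have h1 : contact ({0} : Finset (Fin 0 → ℤ)) (fun _ => (0 : ℝ)) 0 0 = {0} := by
        unfold contact
        simp
      rw [h1]
      exact hx
  | succ k ih =>
    have he : simplex (k + 1) m = chim 0 0 (fun _ => -1) (m : ℤ) (simplex k m) := by
      ext y
      constructor
      · rintro ⟨h1, h2⟩
        rw [Fin.sum_univ_succ] at h2
        have h3 := h1 0
        refine ⟨⟨fun i => h1 i.succ, by linarith⟩, ?_, ?_⟩
        · simpa using h3
        · push_cast
          simp only [neg_one_mul, Finset.sum_neg_distrib]
          linarith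
      · rintro ⟨⟨h1, h2⟩, h3, h4⟩
        push_cast at h3 h4
        simp only [neg_one_mul, Finset.sum_neg_distrib] at h4
        refine ⟨fun i => ?_, ?_⟩
        · refine Fin.cases ?_ (fun j => h1 j) i
          simpa using h3
        · rw [Fin.sum_univ_succ]
          linarith
    rw [he]
    refine chim_rut (simplex_convex k m) (simplex_smooth k m hm).interior ih ?_ ?_
    · intro q hq
      have h2 := hq.2
      unfold emb at h2
      have h3 : ∑ i, q i ≤ (m : ℤ) := by exact_mod_cast h2
      simp only [Pi.zero_apply, zero_mul, Finset.sum_const_zero, neg_one_mul, Finset.sum_neg_distrib]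
      linarith
    · refine ⟨0, ?_, ?_⟩
      · convert simplex_zero_mem k m
        funext i; simp [emb]
      · simp
        omega

end Pool.Agent.SPB
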