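import Pool.Agent.SPB.TriA

/-!
# [SPB-Smo] smooth polytopes

`IsSmooth.interior`: `P` is nonempty and compact, so it has an extreme point `x` (`IsCompact.extremePoints_nonempty`).
With the vectors `b i` of the definition the points `x`, `x + b i` lie in `P`; they affinely span `ι → ℝ` because the `b i` span `ℤ^ι`, so the interior of their convex hull is nonempty (`interior_convexHull_nonempty_iff_affineSpan_eq_top`).
`IsSmooth.pts`: `P = hull A` is bounded, so it has finitely many lattice points; `A ⊆ AQ` and `AQ ⊆ P`.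
-/

open Finset

set_option autoImplicit false

namespace Pool.Agent.SPB

/-- `P` is a full-dimensional smooth lattice polytope: `P` is the convex hull of a nonempty finite set of lattice
points, and at every vertex `x` of `P` there are lattice vectors `b i` (as many as the dimension) which generate the
lattice, such that the points `x + b i` lie in `P` and `P` lies in the cone with apex `x` spanned by the `b i` -/
def IsSmooth {ι : Type} [Fintype ι] (P : Set (ι → ℝ)) : Prop :=
  (∃ A : Finset (ι → ℤ), A.Nonempty ∧ P = hull A) ∧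
    ∀ x ∈ P.extremePoints ℝ, ∃ b : ι → ι → ℤ, (∀ y : ι → ℤ, ∃ c : ι → ℤ, ∑ i, c i • b i = y) ∧
      (∀ i, x + emb (b i) ∈ P) ∧ ∀ y ∈ P, ∃ t : ι → ℝ, (∀ i, 0 ≤ t i) ∧ x + ∑ i, t i • emb (b i) = y

theorem IsSmooth.interior {ι : Type} [Fintype ι] {P : Set (ι → ℝ)} (h : IsSmooth P) :
    (interior P).Nonempty := by
  classical
  obtain ⟨⟨A, hA, rfl⟩, h2⟩ := h
  have hcomp : IsCompact (hull A) := hull_isCompact A
  have hconv : Convex ℝ (hull A) := convex_convexHull ℝ _
  have hne : (hull A).Nonempty := by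
    obtain ⟨a, ha⟩ := hA
    exact ⟨emb a, subset_convexHull ℝ _ ⟨a, ha, rfl⟩⟩
  obtain ⟨x, hx⟩ := hcomp.extremePoints_nonempty hne
  have hxP : x ∈ hull A := hx.1
  obtain ⟨b, hb1, hb2, -⟩ := h2 x hx
  have hvec : vectorSpan ℝ (hull A) = ⊤ := by
    have hb3 : ∀ i, emb (b i) ∈ vectorSpan ℝ (hull A) := by
      intro i
      have := vsub_mem_vectorSpan ℝ (hb2 i) hxP
      rwa [vsub_eq_sub, add_sub_cancel_left] at this
    have hb4 : ∀ y : ι → ℤ, emb y ∈ vectorSpan ℝ (hull A) := by
      intro y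
      obtain ⟨c, rfl⟩ := hb1 y
      have e : emb (∑ i, c i • b i) = ∑ i, (c i : ℝ) • emb (b i) := by
        funext j
        simp [emb, Finset.sum_apply]
      rw [e]
      exact Submodule.sum_mem _ fun i _ => Submodule.smul_mem _ _ (hb3 i)
    rw [eq_top_iff]
    intro v _
    have e : v = ∑ i, v i • emb (Pi.single i (1 : ℤ)) := by
      funext j
      simp [emb, Finset.sum_apply, Pi.single_apply]
    rw [e]
    exact Submodule.sum_mem _ fun i _ => Submodule.smul_mem _ _ (hb4 _)
  exact hconv.interior_nonempty_iff_affineSpan_eq_top.2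
    ((AffineSubspace.affineSpan_eq_top_iff_vectorSpan_eq_top_of_nonempty ℝ _ _ hne).2 hvec)

theorem IsSmooth.pts {ι : Type} [Fintype ι] {P : Set (ι → ℝ)} (h : IsSmooth P) :
    ∃ AQ : Finset (ι → ℤ), AQ.Nonempty ∧ P = hull AQ ∧ ∀ q, q ∈ AQ ↔ emb q ∈ P := by
  classical
  obtain ⟨⟨A, hA, rfl⟩, -⟩ := h
  have hbd : Bornology.IsBounded (hull A) := (hull_isCompact A).isBounded
  have hfin : {q : ι → ℤ | emb q ∈ hull A}.Finite := by
    obtain ⟨R, hR⟩ := hbd.exists_norm_le
    obtain ⟨N, hN⟩ := exists_nat_ge R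
    refine (Set.Finite.pi (t := fun _ : ι => Set.Icc (-(N : ℤ)) N)
      fun _ => Set.finite_Icc _ _).subset ?_
    intro q hq i _
    have h1 : ‖emb q i‖ ≤ N := (norm_le_pi_norm (emb q) i).trans ((hR _ hq).trans hN)
    rw [Real.norm_eq_abs, abs_le] at h1
    simp only [emb] at h1
    exact ⟨by exact_mod_cast h1.1, by exact_mod_cast h1.2⟩
  have hAm : ∀ q ∈ A, q ∈ hfin.toFinset := by
    intro q hq
    rw [Set.Finite.mem_toFinset]
    exact subset_convexHull ℝ _ ⟨q, hq, rfl⟩
  refine ⟨hfin.toFinset, ?_, ?_, ?_⟩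
  · obtain ⟨a, ha⟩ := hA
    exact ⟨a, hAm a ha⟩
  · apply Set.Subset.antisymm
    · exact convexHull_mono (Set.image_mono fun q hq => hAm q hq)
    · apply convexHull_min _ (convex_convexHull ℝ _)
      rintro _ ⟨q, hq, rfl⟩
      have hq' : q ∈ hfin.toFinset := hq
      rw [Set.Finite.mem_toFinset] at hq'
      exact hq'
  · intro q
    rw [Set.Finite.mem_toFinset]
    rfl

end Pool.Agent.SPB
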