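import Pool.Agent.SPB.Fan
import Pool.Agent.SPB.FanA

/-!
# [SPB-SmoBA] steps along the edges of a smooth polygon

`edge_step`: `x = vert v w (h v) (h w)` is the vertex of the polygon on the edges `v, w`. Let `Adj F w w'`, `x' = vert w w' (h w) (h w')` (the next vertex
on the edge `w`); then `x' = vert v w t (h w)` with `t < h v` (`Ample`), and `vert v w (h v - 1) (h w)` is a convex combination of `x` and `x'`.
-/

open Finset

set_option autoImplicit false

namespace Pool.Agent.SPB

variable {F : Finset V}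

private theorem sBA_dot (u v w : V) (s t : ℤ) : dot u (vert v w s t) = s * det u w + t * det v u := by
  unfold dot vert det
  simp only
  ring

private theorem sBA_ne {v w : V} (h : det v w = 1) : v ≠ w := by
  rintro rfl
  unfold det at h
  have : v.1 * v.2 - v.2 * v.1 = 0 := by ring
  omega

private theorem sBA_ne' {v w x : V} (h : det v w = 1) (h' : det w x = 1) : v ≠ x := by
  rintro rfl
  unfold det at h h'
  linarith [mul_comm v.1 w.2, mul_comm v.2 w.1]

private theorem sBA_lin {a b e f m : ℤ} {k l : ℤ} (hl : 1 ≤ k - l) (h1 : k * a + b ≤ m)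
    (h2 : l * a + b ≤ m) (_ : e = f) : (k - 1) * a + b ≤ m := by
  by_contra hc
  push Not at hc
  have h3 : (k - l) * ((k - 1) * a + b) = (k - l - 1) * (k * a + b) + (l * a + b) := by ring
  have h4 : (k - l) * (m + 1) ≤ (k - l) * ((k - 1) * a + b) :=
    mul_le_mul_of_nonneg_left (by linarith) (by linarith)
  have h5 : (k - l - 1) * (k * a + b) ≤ (k - l - 1) * m :=
    mul_le_mul_of_nonneg_left h1 (by linarith)
  nlinarith

theorem edge_step (hF : SmoothFan F) {h : V → ℤ} (ha : Ample F h) {v w : V} (hvw : Adj F v w) {u : V} (hu : u ∈ F) :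
    dot u (vert v w (h v - 1) (h w)) ≤ h u ∧ dot u (vert v w (h v) (h w - 1)) ≤ h u := by
  obtain ⟨A, hA⟩ := exists_pts hF h
  have hd := hvw.2.2.1
  have hmem : ∀ a b : V, Adj F a b → dot u (vert a b (h a) (h b)) ≤ h u := fun a b hab =>
    (hA _).mp (vert_mem hF ha hA hab) u hu
  have hx := hmem v w hvw
  constructor
  · obtain ⟨w', hw'⟩ := hF.next w hvw.2.1
    have hd' := hw'.2.2.1
    have h1 := ha w w' hw' (vert w w' (h w) (h w')) (dot_vert_left hd' _ _)
      (dot_vert_right hd' _ _) v hvw.1 (sBA_ne hd) (sBA_ne' hd hd')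
    set t := dot v (vert w w' (h w) (h w')) with ht
    have h2 : vert w w' (h w) (h w') = vert v w t (h w) :=
      eq_vert hd rfl (dot_vert_left hd' _ _)
    have h3 := hmem w w' hw'
    rw [h2, sBA_dot] at h3
    rw [sBA_dot] at hx ⊢
    exact sBA_lin (l := t) (by linarith) hx h3 (rfl : (0 : ℤ) = 0)
  · obtain ⟨v', hv'⟩ := hF.pred hvw.1
    have hd' := hv'.2.2.1
    have h1 := ha v' v hv' (vert v' v (h v') (h v)) (dot_vert_left hd' _ _)
      (dot_vert_right hd' _ _) w hvw.2.1 (sBA_ne' hd' hd).symm (sBA_ne hd).symm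
    set t := dot w (vert v' v (h v') (h v)) with ht
    have h2 : vert v' v (h v') (h v) = vert v w (h v) t :=
      eq_vert hd (dot_vert_right hd' _ _) rfl
    have h3 := hmem v' v hv'
    rw [h2, sBA_dot] at h3
    rw [sBA_dot] at hx ⊢
    have h4 := sBA_lin (a := det v u) (b := h v * det u w) (m := h u) (k := h w) (l := t)
      (by linarith) (by linarith) (by linarith) (rfl : (0 : ℤ) = 0)
    linarith

end Pool.Agent.SPB
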