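import Pool.Agent.SPB.Smo
import Pool.Agent.SPB.PolyC
import Pool.Agent.SPB.SmoBA

/-!
# [SPB-SmoB] the bundle is smooth

`edge_step`: `x = vert v w (h v) (h w)` is the vertex of the polygon `{u · x ≤ h u}` on the edges `v, w`. Let `Adj F w w'`, `x' = vert w w' (h w) (h w')` (the next vertex on the edge `w`), `e = vert v w (-1) 0` (so `v · e = -1`, `w · e = 0`). Then `x' = x + ℓ e` with `ℓ = h v - v · x' ≥ 1` (`Ample` at `x'`; `v ≠ w'` because `det w v = -1`, `det w w' = 1`; `v ≠ w`), and for `u ∈ F`: `ℓ (u · (x + e)) = (ℓ - 1) (u · x) + u · x' ≤ ℓ h u` (`vert_mem`). Similarly for `e' = vert v w 0 (-1)` and the previous vertex (`SmoothFan.pred`).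

`smooth_bundle`: `Q = hull AQ`, `AQ` the set of all lattice points of `Q` (`IsSmooth.pts`). The bundle is `hull B` (`bundle_pts`, `bundle_hull`). Let `y` be an extreme point of the bundle. By `bundle_vert` and `extremePoints_convexHull_subset`, `y = emb (mk2 x q)`, `x = vert v w (h_v q) (h_w q)`, `q ∈ AQ`, `Adj F v w`.
For real `q' ∈ Q` let `X(q') = (h_v(q') w.2 - h_w(q') v.2, h_w(q') v.1 - h_v(q') w.1)` (affine in `q'`, `X(q) = x`). `(X(q'), q')` is in the bundle: `q' = ∑ λ_i q_i`, `q_i ∈ AQ`, `(X(q'), q') = ∑ λ_i (X(q_i), q_i)`.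
`emb q` is an extreme point of `Q`: if `emb q ∈ openSegment q₁ q₂` then `y ∈ openSegment (X(q₁), q₁) (X(q₂), q₂)`, so `(X(q₁), q₁) = y`, `q₁ = emb q`.
Let `b` be the vectors for `Q` at `emb q`. Take `b' 0 = mk2 (vert v w (-1) 0) 0`, `b' 1 = mk2 (vert v w 0 (-1)) 0`, `b' i.succ.succ = mk2 (vert v w (H v · b i) (H w · b i)) (b i)`. They generate: subtract a combination of the last ones, then `x = vert v w (v · x) (w · x)` for `x ∈ ℤ²`. `y + b' 0`, `y + b' 1` lie in the bundle by `edge_step`; `y + b' i.succ.succ = (X(q + b i), q + b i)`. If `z = (x', q')` is in the bundle then `q' = q + ∑ t_i b_i`, `t ≥ 0`, and `z = y + (h_v(q') - v · x') b' 0 + (h_w(q') - w · x') b' 1 + ∑ t_i b' i.succ.succ`.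
-/

open Finset

set_option autoImplicit false

namespace Pool.Agent.SPB

variable {F : Finset V}

private lemma sb_ext {α : Type} {k : ℕ} {a b : Fin (k + 2) → α} (h0 : a 0 = b 0) (h1 : a 1 = b 1)
    (h2 : tl a = tl b) : a = b := by
  funext i
  refine Fin.cases h0 (fun j => ?_) i
  refine Fin.cases h1 (fun l => ?_) j
  exact congrFun h2 l

/-- the real value of the support function -/
private noncomputable def sbH {k : ℕ} (H : V → Fin k → ℤ) (c : V → ℤ) (v : V) (q : Fin k → ℝ) : ℝ :=
  ∑ i, (H v i : ℝ) * q i + c v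

private noncomputable def sbX {k : ℕ} (H : V → Fin k → ℤ) (c : V → ℤ) (v w : V) (q : Fin k → ℝ) :
    Fin (k + 2) → ℝ :=
  Fin.cons (sbH H c v q * w.2 - sbH H c w q * v.2)
    (Fin.cons (sbH H c w q * v.1 - sbH H c v q * w.1) q)

private lemma sbX_0 {k : ℕ} (H : V → Fin k → ℤ) (c : V → ℤ) (v w : V) (q : Fin k → ℝ) :
    sbX H c v w q 0 = sbH H c v q * w.2 - sbH H c w q * v.2 := rfl

private lemma sbX_1 {k : ℕ} (H : V → Fin k → ℤ) (c : V → ℤ) (v w : V) (q : Fin k → ℝ) :
    sbX H c v w q 1 = sbH H c w q * v.1 - sbH H c v q * w.1 := rfl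

private lemma sbX_tl {k : ℕ} (H : V → Fin k → ℤ) (c : V → ℤ) (v w : V) (q : Fin k → ℝ) :
    tl (sbX H c v w q) = q := rfl

private lemma sbH_comb {k : ℕ} (H : V → Fin k → ℤ) (c : V → ℤ) (v : V) (a b : Fin k → ℝ) (s t : ℝ)
    (h : s + t = 1) : sbH H c v (s • a + t • b) = s * sbH H c v a + t * sbH H c v b := by
  unfold sbH
  have h4 : ∑ i, (H v i : ℝ) * (s • a + t • b) i = s * ∑ i, (H v i : ℝ) * a i
      + t * ∑ i, (H v i : ℝ) * b i := by
    rw [Finset.mul_sum, Finset.mul_sum, ← Finset.sum_add_distrib]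
    refine Finset.sum_congr rfl fun i _ => ?_
    simp only [Pi.add_apply, Pi.smul_apply, smul_eq_mul]
    ring
  rw [h4]
  have h5 : (c v : ℝ) = (s + t) * c v := by rw [h, one_mul]
  linear_combination h5

private lemma sbX_comb {k : ℕ} (H : V → Fin k → ℤ) (c : V → ℤ) (v w : V) (a b : Fin k → ℝ) (s t : ℝ)
    (h : s + t = 1) : sbX H c v w (s • a + t • b) = s • sbX H c v w a + t • sbX H c v w b := by
  refine sb_ext ?_ ?_ ?_
  · rw [Pi.add_apply, Pi.smul_apply, Pi.smul_apply, sbX_0, sbX_0, sbX_0, sbH_comb _ _ _ _ _ _ _ h,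
      sbH_comb _ _ _ _ _ _ _ h, smul_eq_mul, smul_eq_mul]
    ring
  · rw [Pi.add_apply, Pi.smul_apply, Pi.smul_apply, sbX_1, sbX_1, sbX_1, sbH_comb _ _ _ _ _ _ _ h,
      sbH_comb _ _ _ _ _ _ _ h, smul_eq_mul, smul_eq_mul]
    ring
  · rfl

private lemma sbH_emb {k : ℕ} (H : V → Fin k → ℤ) (c : V → ℤ) (v : V) (q : Fin k → ℤ) :
    sbH H c v (emb q) = (hq H c q v : ℝ) := by
  unfold sbH hq emb
  push_cast
  rfl

private lemma sbX_emb {k : ℕ} (H : V → Fin k → ℤ) (c : V → ℤ) (v w : V) (q : Fin k → ℤ) :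
    sbX H c v w (emb q) = emb (mk2 (vert v w (hq H c q v) (hq H c q w)) q) := by
  refine sb_ext ?_ ?_ ?_
  · rw [sbX_0, sbH_emb, sbH_emb]
    simp [emb, mk2, vert]
  · rw [sbX_1, sbH_emb, sbH_emb]
    have m1 : ∀ (x : V) (p : Fin k → ℤ), mk2 x p 1 = x.2 := fun _ _ => rfl
    simp only [emb, m1, vert]
    push_cast
    ring
  · rfl

/-- the linear part of `sbH` -/
private def sbL {k : ℕ} (H : V → Fin k → ℤ) (v : V) (p : Fin k → ℤ) : ℤ := ∑ i, H v i * p i

private lemma sbH_sum {k : ℕ} (H : V → Fin k → ℤ) (c : V → ℤ) (v : V) (q : Fin k → ℝ)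
    (b : Fin k → Fin k → ℤ) (t : Fin k → ℝ) :
    sbH H c v (q + ∑ i, t i • emb (b i)) = sbH H c v q + ∑ i, t i * (sbL H v (b i) : ℝ) := by
  unfold sbH sbL
  have h1 : ∑ j, (H v j : ℝ) * (q + ∑ i, t i • emb (b i)) j
      = ∑ j, (H v j : ℝ) * q j + ∑ i, t i * ∑ j, (H v j : ℝ) * (b i j : ℝ) := by
    simp only [Pi.add_apply, Finset.sum_apply, Pi.smul_apply, smul_eq_mul, mul_add,
      Finset.sum_add_distrib, Finset.mul_sum, emb]
    congr 1
    rw [Finset.sum_comm]
    refine Finset.sum_congr rfl fun i _ => Finset.sum_congr rfl fun j _ => ?_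
    ring
  rw [h1]
  push_cast
  ring

theorem smooth_bundle {k : ℕ} (hF : SmoothFan F) {Q : Set (Fin k → ℝ)} (hQ : IsSmooth Q) {H : V → Fin k → ℤ}
    {c : V → ℤ} (ha : ∀ q : Fin k → ℤ, emb q ∈ Q → Ample F (hq H c q)) : IsSmooth (bundle F H c Q) := by
  classical
  obtain ⟨AQ, hne, rfl, hAQ⟩ := hQ.pts
  have ha' : ∀ q ∈ AQ, Ample F (hq H c q) := fun q hq' => ha q ((hAQ q).1 hq')
  have hvert := bundle_vert (H := H) (c := c) hF ha'
  have hconv : Convex ℝ (bundle F H c (hull AQ)) := by
    rw [hvert]; exact convex_convexHull ℝ _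
  have hmem : ∀ (v w : V) (q : Fin k → ℤ), Adj F v w → q ∈ AQ →
      sbX H c v w (emb q) ∈ bundle F H c (hull AQ) := by
    intro v w q hvw hq'
    rw [hvert]
    exact subset_convexHull ℝ _ ⟨v, w, q, hvw, hq', sbX_emb H c v w q⟩
  have hX : ∀ v w : V, Adj F v w → ∀ q ∈ hull AQ, sbX H c v w q ∈ bundle F H c (hull AQ) := by
    intro v w hvw
    have hsub : hull AQ ⊆ {q | sbX H c v w q ∈ bundle F H c (hull AQ)} := by
      refine convexHull_min ?_ ?_
      · rintro _ ⟨q, hq', rfl⟩
        exact hmem v w q hvw hq'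
      · intro a ha1 b hb1 s t hs ht hst
        have h1 := hconv ha1 hb1 hs ht hst
        rw [← sbX_comb H c v w a b s t hst] at h1
        exact h1
    exact fun q hq' => hsub hq'
  refine ⟨?_, ?_⟩
  · obtain ⟨B, hB⟩ := bundle_pts hF H c AQ
    refine ⟨B, ?_, bundle_hull hF ha' hB⟩
    obtain ⟨q, hq'⟩ := hne
    obtain ⟨v, hv⟩ := hF.nonempty
    obtain ⟨w, hw⟩ := hF.next v hv
    have h1 := hmem v w q hw hq'
    rw [bundle_hull hF ha' hB] at h1
    by_contra hcon
    rw [Finset.not_nonempty_iff_eq_empty] at hcon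
    rw [hcon, hull] at h1
    simp at h1
  · intro y hy
    have hy' := hy
    rw [hvert] at hy'
    obtain ⟨v, w, q, hvw, hq', rfl⟩ := extremePoints_convexHull_subset hy'
    rw [← sbX_emb] at hy ⊢
    have hd := hvw.2.2.1
    have hdet : (v.1 : ℝ) * w.2 - v.2 * w.1 = 1 := by
      have h1 := hd
      unfold det at h1
      exact_mod_cast h1
    -- `emb q` is an extreme point
    have hext : emb q ∈ (hull AQ).extremePoints ℝ := by
      rw [mem_extremePoints] at hy ⊢
      refine ⟨(hAQ q).1 hq', fun x₁ hx₁ x₂ hx₂ hx => ?_⟩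
      obtain ⟨s, t, hs, ht, hst, h1⟩ := hx
      have h2 := hy.2 _ (hX v w hvw x₁ hx₁) _ (hX v w hvw x₂ hx₂)
        ⟨s, t, hs, ht, hst, by rw [← sbX_comb H c v w x₁ x₂ s t hst, h1]⟩
      exact ⟨congrArg tl h2.1, congrArg tl h2.2⟩
    obtain ⟨b, hb1, hb2, hb3⟩ := hQ.2 _ hext
    obtain ⟨b', hb'⟩ : ∃ b' : Fin (k + 2) → Fin (k + 2) → ℤ, b' = Fin.cons (mk2 (vert v w (-1) 0) 0)
        (Fin.cons (mk2 (vert v w 0 (-1)) 0)
          (fun i => mk2 (vert v w (sbL H v (b i)) (sbL H w (b i))) (b i))) := ⟨_, rfl⟩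
    have e0 : b' 0 = mk2 (vert v w (-1) 0) 0 := by rw [hb']; rfl
    have e1 : b' (Fin.succ 0) = mk2 (vert v w 0 (-1)) 0 := by rw [hb']; rfl
    have e2 : ∀ i : Fin k, b' i.succ.succ = mk2 (vert v w (sbL H v (b i)) (sbL H w (b i))) (b i) :=
      fun i => by rw [hb']; rfl
    have m0 : ∀ (x : V) (p : Fin k → ℤ), mk2 x p 0 = x.1 := fun _ _ => rfl
    have m1 : ∀ (x : V) (p : Fin k → ℤ), mk2 x p 1 = x.2 := fun _ _ => rfl
    have m2 : ∀ (x : V) (p : Fin k → ℤ), tl (mk2 x p) = p := fun _ _ => rfl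
    refine ⟨b', ?_, ?_, ?_⟩
    · intro Y
      obtain ⟨c', hc'⟩ := hb1 (tl Y)
      obtain ⟨r1, hr1⟩ : ∃ r1 : ℤ, r1 = ∑ i, c' i * (vert v w (sbL H v (b i)) (sbL H w (b i))).1 :=
        ⟨_, rfl⟩
      obtain ⟨r2, hr2⟩ : ∃ r2 : ℤ, r2 = ∑ i, c' i * (vert v w (sbL H v (b i)) (sbL H w (b i))).2 :=
        ⟨_, rfl⟩
      refine ⟨Fin.cons (-(v.1 * (Y 0 - r1) + v.2 * (Y 1 - r2)))
        (Fin.cons (-(w.1 * (Y 0 - r1) + w.2 * (Y 1 - r2))) c'), ?_⟩
      rw [Fin.sum_univ_succ, Fin.sum_univ_succ]
      simp only [Fin.cons_zero, Fin.cons_succ, e0, e1, e2]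
      have hdz : v.1 * w.2 - v.2 * w.1 = 1 := hd
      refine sb_ext ?_ ?_ ?_
      · simp only [Pi.add_apply, Pi.smul_apply, Finset.sum_apply, m0, smul_eq_mul, ← hr1]
        simp only [vert]
        linear_combination (Y 0 - r1) * hdz
      · simp only [Pi.add_apply, Pi.smul_apply, Finset.sum_apply, m1, smul_eq_mul, ← hr2]
        simp only [vert]
        linear_combination (Y 1 - r2) * hdz
      · rw [← hc']
        funext i
        have hz : ∀ x : V, mk2 x (0 : Fin k → ℤ) i.succ.succ = 0 := fun _ => rfl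
        have hz' : ∀ (x : V) (p : Fin k → ℤ), mk2 x p i.succ.succ = p i := fun _ _ => rfl
        simp only [tl, Pi.add_apply, Pi.smul_apply, Finset.sum_apply, smul_eq_mul, hz, hz']
        ring
    · have hineq : ∀ x : V, (∀ u ∈ F, dot u x ≤ hq H c q u) →
          emb (mk2 x q) ∈ bundle F H c (hull AQ) := by
        intro x hx
        refine ⟨(hAQ q).1 hq', fun u hu => ?_⟩
        have h1 := hx u hu
        have h2 : ((dot u x : ℤ) : ℝ) ≤ ((hq H c q u : ℤ) : ℝ) := by exact_mod_cast h1
        unfold dot hq at h2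
        push_cast at h2
        exact h2
      intro j
      refine Fin.cases ?_ (fun j => ?_) j
      · rw [e0, sbX_emb]
        have h1 : emb (mk2 (vert v w (hq H c q v) (hq H c q w)) q) + emb (mk2 (vert v w (-1) 0) 0)
            = emb (mk2 (vert v w (hq H c q v - 1) (hq H c q w)) q) := by
          refine sb_ext ?_ ?_ ?_
          · simp only [Pi.add_apply, emb, m0, vert]
            push_cast
            ring
          · simp only [Pi.add_apply, emb, m1, vert]
            push_cast
            ring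
          · funext i
            have hz : ∀ x : V, mk2 x (0 : Fin k → ℤ) i.succ.succ = 0 := fun _ => rfl
            have hz' : ∀ (x : V) (p : Fin k → ℤ), mk2 x p i.succ.succ = p i := fun _ _ => rfl
            simp only [tl, Pi.add_apply, emb, hz, hz']
            simp
        rw [h1]
        exact hineq _ fun u hu => (edge_step hF (ha' q hq') hvw hu).1
      · refine Fin.cases ?_ (fun i => ?_) j
        · rw [e1, sbX_emb]
          have h1 : emb (mk2 (vert v w (hq H c q v) (hq H c q w)) q) + emb (mk2 (vert v w 0 (-1)) 0)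
              = emb (mk2 (vert v w (hq H c q v) (hq H c q w - 1)) q) := by
            refine sb_ext ?_ ?_ ?_
            · simp only [Pi.add_apply, emb, m0, vert]
              push_cast
              ring
            · simp only [Pi.add_apply, emb, m1, vert]
              push_cast
              ring
            · funext i
              have hz : ∀ x : V, mk2 x (0 : Fin k → ℤ) i.succ.succ = 0 := fun _ => rfl
              have hz' : ∀ (x : V) (p : Fin k → ℤ), mk2 x p i.succ.succ = p i := fun _ _ => rfl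
              simp only [tl, Pi.add_apply, emb, hz, hz']
              simp
          rw [h1]
          exact hineq _ fun u hu => (edge_step hF (ha' q hq') hvw hu).2
        · rw [e2]
          have hs : ∀ u : V, sbH H c u (emb q + emb (b i)) = sbH H c u (emb q) + sbL H u (b i) := by
            intro u
            unfold sbH sbL
            simp only [Pi.add_apply, mul_add, Finset.sum_add_distrib, emb]
            push_cast
            ring
          have h1 : sbX H c v w (emb q) + emb (mk2 (vert v w (sbL H v (b i)) (sbL H w (b i))) (b i))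
              = sbX H c v w (emb q + emb (b i)) := by
            refine sb_ext ?_ ?_ rfl
            · rw [Pi.add_apply, sbX_0, sbX_0, hs, hs]
              simp only [emb, m0, vert]
              push_cast
              ring
            · rw [Pi.add_apply, sbX_1, sbX_1, hs, hs]
              simp only [emb, m1, vert]
              push_cast
              ring
          rw [h1]
          exact hX v w hvw _ (hb2 i)
    · intro z hz
      obtain ⟨t, ht, htz⟩ := hb3 (tl z) hz.1
      have hzv := hz.2 v hvw.1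
      have hzw := hz.2 w hvw.2.1
      have hv1 : sbH H c v (tl z) = ∑ i, (H v i : ℝ) * z i.succ.succ + c v := rfl
      have hw1 : sbH H c w (tl z) = ∑ i, (H w i : ℝ) * z i.succ.succ + c w := rfl
      rw [← hv1] at hzv
      rw [← hw1] at hzw
      refine ⟨Fin.cons (sbH H c v (tl z) - ((v.1 : ℝ) * z 0 + v.2 * z 1))
        (Fin.cons (sbH H c w (tl z) - ((w.1 : ℝ) * z 0 + w.2 * z 1)) t), ?_, ?_⟩
      · intro j
        refine Fin.cases ?_ (fun j => ?_) j
        · rw [Fin.cons_zero]; linarith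
        · rw [Fin.cons_succ]
          refine Fin.cases ?_ (fun j => ?_) j
          · rw [Fin.cons_zero]; linarith
          · rw [Fin.cons_succ]; exact ht j
      · rw [Fin.sum_univ_succ, Fin.sum_univ_succ]
        simp only [Fin.cons_zero, Fin.cons_succ, e0, e1, e2]
        have hv2 := sbH_sum H c v (emb q) b t
        have hw2 := sbH_sum H c w (emb q) b t
        rw [htz] at hv2 hw2
        have hsv : ∀ u u' : V, ∑ i, t i * ((sbL H v (b i) : ℝ) * u.1 - (sbL H w (b i) : ℝ) * u'.1)
            = (∑ i, t i * (sbL H v (b i) : ℝ)) * u.1 - (∑ i, t i * (sbL H w (b i) : ℝ)) * u'.1 := by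
          intro u u'
          rw [Finset.sum_mul, Finset.sum_mul, ← Finset.sum_sub_distrib]
          exact Finset.sum_congr rfl fun i _ => by ring
        refine sb_ext ?_ ?_ ?_
        · simp only [Pi.add_apply, Pi.smul_apply, Finset.sum_apply, smul_eq_mul, sbX_0, emb, m0, vert]
          push_cast
          have h5 := hsv (w.2, 0) (v.2, 0)
          simp only at h5
          have h6 : ∑ i, t i * ((sbL H v (b i) : ℝ) * (w.2 : ℝ) - (sbL H w (b i) : ℝ) * (v.2 : ℝ))
            = (sbH H c v (tl z) - sbH H c v (emb q)) * w.2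
              - (sbH H c w (tl z) - sbH H c w (emb q)) * v.2 := by
            rw [h5, hv2, hw2]; ring
          rw [h6]
          linear_combination (z 0) * hdet
        · simp only [Pi.add_apply, Pi.smul_apply, Finset.sum_apply, smul_eq_mul, sbX_1, emb, m1, vert]
          push_cast
          have h6 : ∑ i, t i * ((sbL H w (b i) : ℝ) * (v.1 : ℝ) - (sbL H v (b i) : ℝ) * (w.1 : ℝ))
            = (sbH H c w (tl z) - sbH H c w (emb q)) * v.1
              - (sbH H c v (tl z) - sbH H c v (emb q)) * w.1 := by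
            have h5 := hsv (w.1, 0) (v.1, 0)
            simp only at h5
            have h7 : ∑ i, t i * ((sbL H w (b i) : ℝ) * (v.1 : ℝ) - (sbL H v (b i) : ℝ) * (w.1 : ℝ))
              = -∑ i, t i * ((sbL H v (b i) : ℝ) * (w.1 : ℝ) - (sbL H w (b i) : ℝ) * (v.1 : ℝ)) := by
              rw [← Finset.sum_neg_distrib]
              exact Finset.sum_congr rfl fun i _ => by ring
            rw [h7, h5, hv2, hw2]; ring
          rw [h6]
          linear_combination (z 1) * hdet
        · rw [← htz]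
          funext i
          have hz0 : ∀ x : V, mk2 x (0 : Fin k → ℤ) i.succ.succ = 0 := fun _ => rfl
          have hz' : ∀ (x : V) (p : Fin k → ℤ), mk2 x p i.succ.succ = p i := fun _ _ => rfl
          have hx' : sbX H c v w (emb q) i.succ.succ = emb q i := rfl
          simp only [tl, Pi.add_apply, Pi.smul_apply, Finset.sum_apply, smul_eq_mul, emb, hz0, hz', hx']
          simp only [Int.cast_zero, mul_zero, zero_add]


end Pool.Agent.SPB
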