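import Pool.Agent.SPB.Smo
import Pool.Agent.SPB.CurP

/-!
# [SPB-SmoC] the bundle over the projective line is smooth

`Q = hull AQ`, `AQ` the set of all lattice points of `Q` (`IsSmooth.pts`). The chimney is `hull B` (`chim_pts`, `chim_hull`). Let `y = (x, q)` be an extreme point. `x` is `l(q)` or `h(q)` (otherwise move `x` a little in both directions). Say `x = h(q)` (the other case is the same). `q` is an extreme point of `Q`: if `q ∈ openSegment q₁ q₂` then `y ∈ openSegment (h(q₁), q₁) (h(q₂), q₂)`. `q ∈ AQ` (an extreme point of a convex hull of a set is in the set, `extremePoints_convexHull_subset`). Let `b` be the vectors of `Q` at `q`; take `b' 0 = (-1, 0)`, `b' i.succ = (h · b i, b i)`. `y + b' 0` is in the chimney because `l(q) < h(q)` are integers. `y + b' i.succ = (h(q + b i), q + b i)`. If `z = (x', q')` is in the chimney then `q' = q + ∑ t_i b i` and `z = y + (h(q') - x') b' 0 + ∑ t_i b' i.succ`.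
-/

open Finset

set_option autoImplicit false

namespace Pool.Agent.SPB

/-- the vectors at a vertex of the chimney lying on the facet `y 0 = a · tail y + d` -/
private theorem smoC_vertex {k : ℕ} {Q : Set (Fin k → ℝ)} (hQ : IsSmooth Q) {P : Set (Fin (k + 1) → ℝ)}
    {a : Fin k → ℤ} {d ε : ℤ} (hε : ε * ε = 1)
    (hsec : ∀ q ∈ Q, (Fin.cons (∑ i, (a i : ℝ) * q i + d) q : Fin (k + 1) → ℝ) ∈ P)
    (htail : ∀ y ∈ P, (fun i : Fin k => y i.succ) ∈ Q ∧
      0 ≤ (ε : ℝ) * (y 0 - (∑ i, (a i : ℝ) * y i.succ + d)))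
    (hstep : ∀ q : Fin k → ℤ, emb q ∈ Q →
      (Fin.cons (∑ i, (a i : ℝ) * q i + d + ε) (emb q) : Fin (k + 1) → ℝ) ∈ P)
    {y : Fin (k + 1) → ℝ} (hy : y ∈ P.extremePoints ℝ) (hy0 : y 0 = ∑ i, (a i : ℝ) * y i.succ + d) :
    ∃ b : Fin (k + 1) → Fin (k + 1) → ℤ, (∀ z : Fin (k + 1) → ℤ, ∃ c : Fin (k + 1) → ℤ, ∑ i, c i • b i = z) ∧
      (∀ i, y + emb (b i) ∈ P) ∧ ∀ z ∈ P, ∃ t : Fin (k + 1) → ℝ, (∀ i, 0 ≤ t i) ∧ y + ∑ i, t i • emb (b i) = z := by
  classical
  set q : Fin k → ℝ := fun i => y i.succ with hq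
  have hyq : y = Fin.cons (∑ i, (a i : ℝ) * q i + d) q := by
    funext j
    refine Fin.cases ?_ (fun i => ?_) j
    · rw [Fin.cons_zero, hy0]
    · rw [Fin.cons_succ]
  have hqQ : q ∈ Q := (htail y hy.1).1
  have hqe : q ∈ Q.extremePoints ℝ := by
    refine ⟨hqQ, fun q₁ h₁ q₂ h₂ hs => ?_⟩
    obtain ⟨s, t, hs0, ht0, hst, hqs⟩ := hs
    have hmem : y ∈ openSegment ℝ (Fin.cons (∑ i, (a i : ℝ) * q₁ i + d) q₁ : Fin (k + 1) → ℝ)
        (Fin.cons (∑ i, (a i : ℝ) * q₂ i + d) q₂) := by
      refine ⟨s, t, hs0, ht0, hst, ?_⟩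
      rw [hyq, ← hqs]
      funext j
      refine Fin.cases ?_ (fun i => ?_) j
      · simp only [Pi.add_apply, Pi.smul_apply, smul_eq_mul, Fin.cons_zero]
        have e : ∑ i, (a i : ℝ) * (s * q₁ i + t * q₂ i) =
            s * ∑ i, (a i : ℝ) * q₁ i + t * ∑ i, (a i : ℝ) * q₂ i := by
          rw [Finset.mul_sum, Finset.mul_sum, ← Finset.sum_add_distrib]
          exact Finset.sum_congr rfl (fun i _ => by ring)
        rw [e]
        linear_combination (d : ℝ) * hst
      · simp only [Pi.add_apply, Pi.smul_apply, smul_eq_mul, Fin.cons_succ]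
    have h := hy.2 (hsec q₁ h₁) (hsec q₂ h₂) hmem
    funext i
    have := congrFun h i.succ
    rw [Fin.cons_succ] at this
    rw [this]
  obtain ⟨q₀, hq₀⟩ : ∃ q₀ : Fin k → ℤ, emb q₀ = q := by
    obtain ⟨A, -, hA⟩ := hQ.1
    rw [hA] at hqe
    obtain ⟨q₀, -, h⟩ := extremePoints_convexHull_subset hqe
    exact ⟨q₀, h⟩
  obtain ⟨b, hb1, hb2, hb3⟩ := hQ.2 q hqe
  refine ⟨Fin.cases (Fin.cons ε 0) (fun i => Fin.cons (∑ j, a j * b i j) (b i)), ?_, ?_, ?_⟩
  · intro z
    obtain ⟨c, hc⟩ := hb1 (fun i => z i.succ)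
    refine ⟨Fin.cons (ε * (z 0 - ∑ i, c i * ∑ j, a j * b i j)) c, ?_⟩
    rw [Fin.sum_univ_succ]
    funext j
    refine Fin.cases ?_ (fun i => ?_) j
    · simp only [Pi.add_apply, Pi.smul_apply, smul_eq_mul, Fin.cons_zero, Fin.cases_zero, Fin.cases_succ,
        Fin.cons_succ, Finset.sum_apply]
      linear_combination (z 0 - ∑ i, c i * ∑ j, a j * b i j) * hε
    · simp only [Pi.add_apply, Pi.smul_apply, smul_eq_mul, Fin.cons_zero, Fin.cases_zero, Fin.cases_succ,
        Fin.cons_succ, Finset.sum_apply, Pi.zero_apply, mul_zero, zero_add]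
      have := congrFun hc i
      simp only [Finset.sum_apply, Pi.smul_apply, smul_eq_mul] at this
      exact this
  · intro i
    refine Fin.cases ?_ (fun i => ?_) i
    · have e : y + emb (Fin.cons ε 0 : Fin (k + 1) → ℤ) =
          (Fin.cons (∑ i, (a i : ℝ) * q₀ i + d + ε) (emb q₀) : Fin (k + 1) → ℝ) := by
        rw [hyq, ← hq₀]
        funext j
        refine Fin.cases ?_ (fun i => ?_) j
        · simp [emb]
        · simp [emb]
      simp only [Fin.cases_zero]
      rw [e]
      exact hstep q₀ (by rw [hq₀]; exact hqQ)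
    · have e : y + emb (Fin.cons (∑ j, a j * b i j) (b i) : Fin (k + 1) → ℤ) =
          (Fin.cons (∑ j, (a j : ℝ) * (q + emb (b i)) j + d) (q + emb (b i)) : Fin (k + 1) → ℝ) := by
        rw [hyq]
        funext j
        refine Fin.cases ?_ (fun i => ?_) j
        · simp only [Pi.add_apply, Fin.cons_zero, emb, mul_add, Finset.sum_add_distrib]
          push_cast
          ring
        · simp [emb]
      simp only [Fin.cases_succ]
      rw [e]
      exact hsec _ (hb2 i)
  · intro z hz
    obtain ⟨hz1, hz2⟩ := htail z hz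
    obtain ⟨t, ht0, ht⟩ := hb3 _ hz1
    refine ⟨Fin.cons ((ε : ℝ) * (z 0 - (∑ i, (a i : ℝ) * z i.succ + d))) t, ?_, ?_⟩
    · intro i
      refine Fin.cases ?_ (fun i => ?_) i
      · simpa using hz2
      · simpa using ht0 i
    · have ht' : ∀ i, q i + ∑ j, t j * (b j i : ℝ) = z i.succ := by
        intro i
        have := congrFun ht i
        simp only [Pi.add_apply, Finset.sum_apply, Pi.smul_apply, smul_eq_mul, emb] at this
        exact this
      rw [Fin.sum_univ_succ]
      funext j
      refine Fin.cases ?_ (fun i => ?_) j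
      · simp only [Pi.add_apply, Pi.smul_apply, smul_eq_mul, Fin.cons_zero, Fin.cases_zero, Fin.cases_succ,
          Fin.cons_succ, Finset.sum_apply, emb]
        have e1 : ∑ i, (a i : ℝ) * z i.succ = ∑ i, (a i : ℝ) * q i + ∑ i, t i * ∑ j, (a j : ℝ) * (b i j : ℝ) := by
          have : ∀ i, (a i : ℝ) * z i.succ = (a i : ℝ) * q i + ∑ j, t j * ((a i : ℝ) * (b j i : ℝ)) := by
            intro i
            rw [← ht' i, mul_add, Finset.mul_sum]
            congr 1
            exact Finset.sum_congr rfl (fun j _ => by ring)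
          simp only [this, Finset.sum_add_distrib]
          congr 1
          rw [Finset.sum_comm]
          exact Finset.sum_congr rfl (fun j _ => by rw [Finset.mul_sum])
        have hεR : (ε : ℝ) * ε = 1 := by exact_mod_cast hε
        push_cast
        rw [hy0, e1]
        linear_combination (z 0 - (∑ i, (a i : ℝ) * q i + ∑ i, t i * ∑ j, (a j : ℝ) * (b i j : ℝ) + d)) * hεR
      · simp only [Pi.add_apply, Pi.smul_apply, smul_eq_mul, Fin.cons_zero, Fin.cases_zero, Fin.cases_succ,
          Fin.cons_succ, Finset.sum_apply, emb, Pi.zero_apply, Int.cast_zero, mul_zero, zero_add]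
        exact ht' i

theorem smooth_chim {k : ℕ} {l : Fin k → ℤ} {m : ℤ} {h : Fin k → ℤ} {c : ℤ} {Q : Set (Fin k → ℝ)} (hQ : IsSmooth Q)
    (hlh : ∀ q : Fin k → ℤ, emb q ∈ Q → ∑ i, l i * q i + m < ∑ i, h i * q i + c) : IsSmooth (chim l m h c Q) := by
  classical
  obtain ⟨AQ, hne, hQA, hAQ⟩ := hQ.pts
  have hle : ∀ q ∈ Q, ∑ i, (l i : ℝ) * q i + m ≤ ∑ i, (h i : ℝ) * q i + c := by
    intro q hq
    rw [hQA] at hq
    obtain ⟨μ, hμ0, hμ1, hμ2⟩ := mem_hull.1 hq
    have key : ∀ (g : Fin k → ℤ) (e : ℤ), ∑ i, (g i : ℝ) * q i + e =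
        ∑ z ∈ AQ, μ z * (∑ i, (g i : ℝ) * (z i : ℝ) + e) := by
      intro g e
      simp only [mul_add, Finset.sum_add_distrib, ← Finset.sum_mul, hμ1, one_mul, Finset.mul_sum]
      congr 1
      rw [Finset.sum_comm]
      refine Finset.sum_congr rfl (fun i _ => ?_)
      rw [← hμ2 i, Finset.mul_sum]
      exact Finset.sum_congr rfl (fun z _ => by ring)
    rw [key, key]
    refine Finset.sum_le_sum (fun z hz => mul_le_mul_of_nonneg_left ?_ (hμ0 z hz))
    exact_mod_cast (hlh z ((hAQ z).1 hz)).le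
  refine ⟨?_, ?_⟩
  · obtain ⟨B, hB⟩ := chim_pts l m h c AQ
    refine ⟨B, ?_, ?_⟩
    · obtain ⟨q, hq⟩ := hne
      refine ⟨Fin.cons (∑ i, l i * q i + m) q, (hB _).2 ⟨?_, ?_, ?_⟩⟩
      · simpa [Fin.cons_succ] using hq
      · simp [Fin.cons_succ]
      · simpa [Fin.cons_succ] using (hlh q ((hAQ q).1 hq)).le
    · rw [hQA]
      exact chim_hull (fun q hq => (hlh q ((hAQ q).1 hq)).le) hB
  · intro y hy
    have hyP := hy.1
    obtain ⟨hy1, hy2, hy3⟩ := hyP
    rcases eq_or_lt_of_le hy2 with h2 | h2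
    · refine smoC_vertex (a := l) (d := m) (ε := 1) hQ (by norm_num) ?_ ?_ ?_ hy h2.symm
      · intro q hq
        refine ⟨by simpa [Fin.cons_succ] using hq, by simp [Fin.cons_succ], ?_⟩
        simpa [Fin.cons_succ] using hle q hq
      · rintro z ⟨h1, h2, h3⟩
        exact ⟨h1, by push_cast; linarith⟩
      · intro q hq
        refine ⟨by simpa [Fin.cons_succ] using hq, by simp [Fin.cons_succ, emb], ?_⟩
        have := hlh q hq
        simp only [Fin.cons_zero, Fin.cons_succ, emb]
        have h3 : ∑ i, l i * q i + m + 1 ≤ ∑ i, h i * q i + c := this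
        exact_mod_cast h3
    · rcases eq_or_lt_of_le hy3 with h3 | h3
      · refine smoC_vertex (a := h) (d := c) (ε := -1) hQ (by norm_num) ?_ ?_ ?_ hy h3
        · intro q hq
          refine ⟨by simpa [Fin.cons_succ] using hq, ?_, by simp [Fin.cons_succ]⟩
          simpa [Fin.cons_succ] using hle q hq
        · rintro z ⟨h1, h2, h3⟩
          exact ⟨h1, by push_cast; linarith⟩
        · intro q hq
          refine ⟨by simpa [Fin.cons_succ] using hq, ?_, by simp [Fin.cons_succ, emb]⟩
          have := hlh q hq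
          simp only [Fin.cons_zero, Fin.cons_succ, emb]
          have h3 : ∑ i, l i * q i + m ≤ ∑ i, h i * q i + c + (-1) := by linarith [Int.add_one_le_iff.2 this]
          exact_mod_cast h3
      · exfalso
        set L := ∑ i, (l i : ℝ) * y i.succ + m with hL
        set H := ∑ i, (h i : ℝ) * y i.succ + c with hH
        have hLH : 0 < H - L := by linarith
        have m1 : (Fin.cons L (fun i : Fin k => y i.succ) : Fin (k + 1) → ℝ) ∈ chim l m h c Q := by
          refine ⟨by simpa [Fin.cons_succ] using hy1, by simp [Fin.cons_succ, hL], ?_⟩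
          simp only [Fin.cons_succ, Fin.cons_zero, ← hH]
          linarith
        have m2 : (Fin.cons H (fun i : Fin k => y i.succ) : Fin (k + 1) → ℝ) ∈ chim l m h c Q := by
          refine ⟨by simpa [Fin.cons_succ] using hy1, ?_, by simp [Fin.cons_succ, hH]⟩
          simp only [Fin.cons_succ, Fin.cons_zero, ← hL]
          linarith
        have hseg : y ∈ openSegment ℝ (Fin.cons L (fun i : Fin k => y i.succ) : Fin (k + 1) → ℝ)
            (Fin.cons H (fun i : Fin k => y i.succ)) := by
          refine ⟨(H - y 0) / (H - L), (y 0 - L) / (H - L), div_pos (by linarith) hLH, div_pos (by linarith) hLH,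
            ?_, ?_⟩
          · field_simp
            ring
          · funext j
            refine Fin.cases ?_ (fun i => ?_) j
            · simp only [Pi.add_apply, Pi.smul_apply, smul_eq_mul, Fin.cons_zero]
              field_simp
              ring
            · simp only [Pi.add_apply, Pi.smul_apply, smul_eq_mul, Fin.cons_succ]
              field_simp
              ring
        have := hy.2 m1 m2 hseg
        have := congrFun this 0
        rw [Fin.cons_zero] at this
        linarith

end Pool.Agent.SPB
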