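import Pool.Agent.SPB.Main
import Pool.Agent.SPB.SmoB
import Pool.Agent.SPB.SmoC
import Pool.Agent.SPB.Simp

/-!
# [SPB-Tow] towers
-/

open Finset

set_option autoImplicit false

namespace Pool.Agent.SPB

/-- The class of polytopes generated by the dilated simplices (and all smooth polytopes with a regular unimodular triangulation) under passing from `Q` to the polytopes of bundles with fibre polytope `Q` over the projective line
(`chim`) and over a smooth complete toric surface (`bundle`) -/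
inductive Tow : (k : ℕ) → Set (Fin k → ℝ) → Prop
  | known {k : ℕ} {Q : Set (Fin k → ℝ)} (h₁ : IsSmooth Q) (h₂ : HasRUT Q) : Tow k Q
  | simplex (k m : ℕ) (hm : 1 ≤ m) : Tow k (simplex k m)
  | curve {k : ℕ} {Q : Set (Fin k → ℝ)} (hQ : Tow k Q) (l : Fin k → ℤ) (m : ℤ) (h : Fin k → ℤ) (c : ℤ)
      (hlh : ∀ q : Fin k → ℤ, emb q ∈ Q → ∑ i, l i * q i + m < ∑ i, h i * q i + c) : Tow (k + 1) (chim l m h c Q)
  | surface {k : ℕ} {Q : Set (Fin k → ℝ)} (hQ : Tow k Q) (F : Finset V) (hF : SmoothFan F) (H : V → Fin k → ℤ)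
      (c : V → ℤ) (ha : ∀ q : Fin k → ℤ, emb q ∈ Q → Ample F (hq H c q)) : Tow (k + 2) (bundle F H c Q)

theorem tow {k : ℕ} {P : Set (Fin k → ℝ)} (h : Tow k P) : IsSmooth P ∧ HasRUT P := by
  induction h with
  | known h₁ h₂ => exact ⟨h₁, h₂⟩
  | simplex k m hm => exact ⟨simplex_smooth k m hm, simplex_rut k m hm⟩
  | curve _ l m h c hlh ih =>
    obtain ⟨h₁, h₂⟩ := ih
    obtain ⟨A, hA, e, hA'⟩ := h₁.pts
    obtain ⟨q, hq⟩ := hA
    refine ⟨smooth_chim h₁ hlh, chim_rut ?_ h₁.interior h₂ (fun q hq => (hlh q hq).le)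
      ⟨q, (hA' q).1 hq, hlh q ((hA' q).1 hq)⟩⟩
    rw [e]
    exact convex_convexHull ℝ _
  | surface _ F hF H c ha ih =>
    obtain ⟨h₁, h₂⟩ := ih
    refine ⟨smooth_bundle hF h₁ ha, main hF ?_ h₁.interior h₂ ha⟩
    obtain ⟨A, -, e, -⟩ := h₁.pts
    rw [e]
    exact convex_convexHull ℝ _

end Pool.Agent.SPB
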