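import Pool.Agent.SPB.Defs

/-!
# [SPB-TriA] unimodular simplices

`uni_unimod` / `unimod_uni`. (→) Affine independence: if `∑ c x = 0`, `∑ c x • x = 0` then the same holds for `t c` for every real `t`, so all `t c x` are integers and `c x = 0`. A point of the affine span is `∑ c x • emb x` with `∑ c x = 1` (real `c`);
if it is a lattice point, `Uni` says that the `c x` are integers. (←) Let `∑ c x = n`, `∑ c x • x = y` be integral, `s ≠ ∅`, `x₀ ∈ s`. Subtract `n - 1` at `x₀`: the sum becomes `1` and the point is a lattice point in the affine span, so it has integral coefficients; by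
affine independence the coefficients are unique.
`Uni.mono`: extend `c` by `0`.
`lattice_pt`: `emb x ∈ hull s`, `Unimod s`: `x = ∑ λ y = ∑ c y` with `λ ≥ 0`, `c` integral, both sums `1`; so `λ = c`, exactly one is `1`.
(`mem_hull` may be useful elsewhere: points of the hull are convex combinations.)
-/

open Finset

set_option autoImplicit false

namespace Pool.Agent.SPB

theorem emb_injective {ι : Type} : Function.Injective (emb : (ι → ℤ) → ι → ℝ) := by
  intro x y h
  funext i
  have := congrFun h i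
  simp only [emb] at this
  exact_mod_cast this

theorem mem_hull {ι : Type} {s : Finset (ι → ℤ)} {x : ι → ℝ} : x ∈ hull s ↔
    ∃ l : (ι → ℤ) → ℝ, (∀ y ∈ s, 0 ≤ l y) ∧ ∑ y ∈ s, l y = 1 ∧ ∀ i, ∑ y ∈ s, l y * (y i : ℝ) = x i := by
  classical
  have hs : (emb '' (s : Set (ι → ℤ))) = ((s.image emb : Finset (ι → ℝ)) : Set (ι → ℝ)) := by simp
  unfold hull
  rw [hs, Finset.mem_convexHull']
  constructor
  · rintro ⟨w, hw0, hw1, hw⟩
    refine ⟨fun y => w (emb y), fun y hy => hw0 _ (Finset.mem_image_of_mem _ hy), ?_, ?_⟩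
    · rw [← hw1, Finset.sum_image (fun a _ b _ h => emb_injective h)]
    · intro i
      rw [← hw, Finset.sum_image (fun a _ b _ h => emb_injective h)]
      simp [Finset.sum_apply, emb]
  · rintro ⟨l, hl0, hl1, hl⟩
    have hinv : ∀ y : ι → ℤ, Function.invFun emb (emb y : ι → ℝ) = y :=
      Function.leftInverse_invFun emb_injective
    refine ⟨fun z => l (Function.invFun emb z), ?_, ?_, ?_⟩
    · intro z hz
      obtain ⟨y, hy, rfl⟩ := Finset.mem_image.1 hz
      show 0 ≤ l (Function.invFun emb (emb y))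
      rw [hinv]; exact hl0 y hy
    · rw [Finset.sum_image (fun a _ b _ h => emb_injective h), ← hl1]
      exact Finset.sum_congr rfl fun y _ => by rw [hinv]
    · rw [Finset.sum_image (fun a _ b _ h => emb_injective h)]
      funext i
      rw [← hl i, Finset.sum_apply]
      exact Finset.sum_congr rfl fun y _ => by
        show l (Function.invFun emb (emb y)) * emb y i = _
        rw [hinv]; rfl

theorem hull_isCompact {ι : Type} [Fintype ι] (A : Finset (ι → ℤ)) : IsCompact (hull A) := by
  exact Set.Finite.isCompact_convexHull ℝ (A.finite_toSet.image emb)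

theorem Uni.mono {ι : Type} {s t : Finset (ι → ℤ)} (h : Uni t) (hst : s ⊆ t) : Uni s := by
  classical
  intro c hc hci x hx
  have key : ∀ f : (ι → ℤ) → ℝ, ∑ x ∈ t, (if x ∈ s then c x else 0) * f x = ∑ x ∈ s, c x * f x := by
    intro f
    rw [← Finset.sum_subset hst (f := fun x => (if x ∈ s then c x else 0) * f x)]
    · exact Finset.sum_congr rfl fun x hx => by rw [if_pos hx]
    · intro x _ hx
      rw [if_neg hx, zero_mul]
  have := h (fun x => if x ∈ s then c x else 0) ?_ ?_ x (hst hx)
  · simpa only [if_pos hx] using this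
  · have := key (fun _ => 1)
    simp only [mul_one] at this
    rw [this]; exact hc
  · intro i
    rw [key]; exact hci i

theorem indep_iff {ι : Type} {s : Finset (ι → ℤ)} : AffineIndependent ℝ (fun x : s => emb x.1) ↔
    ∀ c : (ι → ℤ) → ℝ, ∑ x ∈ s, c x = 0 → (∀ i, ∑ x ∈ s, c x * (x i : ℝ) = 0) → ∀ x ∈ s, c x = 0 := by
  classical
  constructor
  · intro h c h0 h1 x hx
    rw [affineIndependent_iff] at h
    refine h Finset.univ (fun x => c x.1) ?_ ?_ ⟨x, hx⟩ (Finset.mem_univ _)
    · rw [← h0]
      exact Finset.sum_coe_sort s c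
    · funext i
      rw [Finset.sum_apply]
      have := Finset.sum_coe_sort s (fun x => c x * (x i : ℝ))
      simpa [emb, h1 i] using this
  · intro h
    rw [affineIndependent_iff_of_fintype]
    intro w hw0 hw
    rw [Finset.weightedVSub_eq_linear_combination _ hw0] at hw
    rintro ⟨x, hx⟩
    have hval : ∀ y : s, (fun z => if hz : z ∈ s then w ⟨z, hz⟩ else 0) y.1 = w y := by
      rintro ⟨y, hy⟩
      simp [hy]
    have := h (fun z => if hz : z ∈ s then w ⟨z, hz⟩ else 0) ?_ ?_ x hx
    · simpa [hx] using this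
    · rw [← Finset.sum_coe_sort s (fun z => if hz : z ∈ s then w ⟨z, hz⟩ else 0)]
      exact (Finset.sum_congr rfl fun y _ => hval y).trans hw0
    · intro i
      rw [← Finset.sum_coe_sort s (fun z => (if hz : z ∈ s then w ⟨z, hz⟩ else 0) * (z i : ℝ))]
      have h2 := congrFun hw i
      rw [Finset.sum_apply] at h2
      refine (Finset.sum_congr rfl fun y _ => ?_).trans h2
      have := hval y
      simp only at this
      rw [this]
      simp [emb]

theorem mem_span {ι : Type} {s : Finset (ι → ℤ)} {y : ι → ℝ} : y ∈ affineSpan ℝ (emb '' (s : Set (ι → ℤ))) ↔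
    ∃ c : (ι → ℤ) → ℝ, ∑ x ∈ s, c x = 1 ∧ ∀ i, ∑ x ∈ s, c x * (x i : ℝ) = y i := by
  classical
  have hr : (emb '' (s : Set (ι → ℤ))) = Set.range (fun x : s => emb x.1) := by
    ext z
    constructor
    · rintro ⟨x, hx, rfl⟩
      exact ⟨⟨x, hx⟩, rfl⟩
    · rintro ⟨x, rfl⟩
      exact ⟨x.1, x.2, rfl⟩
  rw [hr]
  constructor
  · intro h
    obtain ⟨w, hw, hy⟩ := eq_affineCombination_of_mem_affineSpan_of_fintype h
    rw [Finset.affineCombination_eq_linear_combination _ _ _ hw] at hy
    have hval : ∀ y : s, (fun z => if hz : z ∈ s then w ⟨z, hz⟩ else 0) y.1 = w y := by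
      rintro ⟨y, hy⟩
      simp [hy]
    refine ⟨fun z => if hz : z ∈ s then w ⟨z, hz⟩ else 0, ?_, ?_⟩
    · rw [← Finset.sum_coe_sort s (fun z => if hz : z ∈ s then w ⟨z, hz⟩ else 0), ← hw]
      exact Finset.sum_congr rfl fun y _ => hval y
    · intro i
      rw [← Finset.sum_coe_sort s (fun z => (if hz : z ∈ s then w ⟨z, hz⟩ else 0) * (z i : ℝ)), hy,
        Finset.sum_apply]
      refine Finset.sum_congr rfl fun y _ => ?_
      have := hval y
      simp only at this
      rw [this]
      simp [emb]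
  · rintro ⟨c, hc, hy⟩
    have h1 : ∑ x : s, c x.1 = 1 := by rw [← hc]; exact Finset.sum_coe_sort s c
    have h2 := affineCombination_mem_affineSpan (k := ℝ) (s := (Finset.univ : Finset s)) (w := fun x => c x.1) h1
      (fun x : s => emb x.1)
    rw [Finset.affineCombination_eq_linear_combination _ _ _ h1] at h2
    have h3 : ∑ x : s, c x.1 • emb x.1 = y := by
      funext i
      rw [Finset.sum_apply, ← hy i, ← Finset.sum_coe_sort s (fun x => c x * (x i : ℝ))]
      exact Finset.sum_congr rfl fun x _ => by simp [emb]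
    rw [← h3]; exact h2

private theorem isInt_scale {r : ℝ} (h : ∀ t : ℝ, IsInt (t * r)) : r = 0 := by
  by_contra hr
  obtain ⟨n, hn⟩ := h (1 / (2 * r))
  have h1 : (1 / (2 * r)) * r = 1 / 2 := by field_simp
  rw [h1] at hn
  have h2 : (2 * n : ℤ) = 1 := by
    have : (2 : ℝ) * (n : ℝ) = 1 := by rw [← hn]; norm_num
    exact_mod_cast this
  omega

theorem uni_unimod {ι : Type} {s : Finset (ι → ℤ)} (h : Uni s) : Unimod s := by
  classical
  constructor
  · rw [indep_iff]
    intro c h0 h1 x hx
    apply isInt_scale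
    intro t
    refine h (fun x => t * c x) ?_ ?_ x hx
    · refine ⟨0, ?_⟩
      rw [← Finset.mul_sum, h0]; simp
    · intro i
      refine ⟨0, ?_⟩
      have : ∑ x ∈ s, t * c x * (x i : ℝ) = t * ∑ x ∈ s, c x * (x i : ℝ) := by
        rw [Finset.mul_sum]; exact Finset.sum_congr rfl fun x _ => by ring
      rw [this, h1 i]; simp
  · intro y hy
    obtain ⟨c, hc, hcy⟩ := mem_span.1 hy
    have hint : ∀ x ∈ s, IsInt (c x) := by
      refine h c ⟨1, by rw [hc]; simp⟩ (fun i => ⟨y i, by rw [hcy i]; rfl⟩)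
    choose! n hn using hint
    refine ⟨n, ?_, ?_⟩
    · have : ((∑ x ∈ s, n x : ℤ) : ℝ) = ((1 : ℤ) : ℝ) := by
        push_cast
        rw [← hc]
        exact Finset.sum_congr rfl fun x hx => (hn x hx).symm
      exact_mod_cast this
    · funext i
      rw [Finset.sum_apply]
      have : ((∑ x ∈ s, (n x • x) i : ℤ) : ℝ) = (y i : ℝ) := by
        push_cast
        rw [show ((y i : ℤ) : ℝ) = emb y i from rfl, ← hcy i]
        exact Finset.sum_congr rfl fun x hx => by rw [hn x hx]; simp
      exact_mod_cast this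

theorem unimod_uni {ι : Type} {s : Finset (ι → ℤ)} (h : Unimod s) : Uni s := by
  classical
  intro c hc hci x hx
  obtain ⟨hi, hs⟩ := h
  rw [indep_iff] at hi
  obtain ⟨n, hn⟩ := hc
  choose y hy using hci
  -- subtract `n - 1` at `x`
  have hd : ∀ f : (ι → ℤ) → ℝ, ∑ z ∈ s, (c z - if z = x then ((n : ℝ) - 1) else 0) * f z
      = ∑ z ∈ s, c z * f z - ((n : ℝ) - 1) * f x := by
    intro f
    have h1 : ∀ z ∈ s, (c z - if z = x then ((n : ℝ) - 1) else 0) * f z
        = c z * f z - (if z = x then ((n : ℝ) - 1) else 0) * f z := fun z _ => by ring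
    rw [Finset.sum_congr rfl h1, Finset.sum_sub_distrib]
    congr 1
    rw [Finset.sum_eq_single x]
    · rw [if_pos rfl]
    · intro z _ hz; simp [hz]
    · intro hx'; exact absurd hx hx'
  have hmem : emb (fun i => y i - (n - 1) * x i) ∈ affineSpan ℝ (emb '' (s : Set (ι → ℤ))) := by
    refine mem_span.2 ⟨fun z => c z - if z = x then ((n : ℝ) - 1) else 0, ?_, ?_⟩
    · have := hd (fun _ => 1)
      simp only [mul_one] at this
      rw [this, hn]; ring
    · intro i
      rw [hd (fun z => (z i : ℝ)), hy i]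
      simp [emb]
  obtain ⟨m, hm1, hm⟩ := hs _ hmem
  have hz : ∀ z ∈ s, (c z - if z = x then ((n : ℝ) - 1) else 0) - (m z : ℝ) = 0 := by
    refine hi (fun z => (c z - if z = x then ((n : ℝ) - 1) else 0) - (m z : ℝ)) ?_ ?_
    · rw [Finset.sum_sub_distrib]
      have := hd (fun _ => 1)
      simp only [mul_one] at this
      rw [this, hn]
      have h2 : ((∑ z ∈ s, m z : ℤ) : ℝ) = 1 := by rw [hm1]; simp
      push_cast at h2
      rw [h2]; ring
    · intro i
      simp only [sub_mul _ ((m _ : ℤ) : ℝ), Finset.sum_sub_distrib]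
      rw [hd (fun z => (z i : ℝ)), hy i]
      have h2 := congrFun hm i
      rw [Finset.sum_apply] at h2
      have h3 : ((∑ z ∈ s, (m z • z) i : ℤ) : ℝ) = ((y i - (n - 1) * x i : ℤ) : ℝ) := by rw [h2]
      push_cast at h3
      simp only [Pi.smul_apply, smul_eq_mul, Int.cast_mul] at h3
      rw [h3]; ring
  have := hz x hx
  simp only [if_true] at this
  refine ⟨m x + (n - 1), ?_⟩
  push_cast
  linarith

theorem lattice_pt {ι : Type} {s : Finset (ι → ℤ)} (h : Unimod s) {x : ι → ℤ} (hx : emb x ∈ hull s) : x ∈ s := by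
  classical
  obtain ⟨l, hl0, hl1, hl⟩ := mem_hull.1 hx
  have hint := unimod_uni h l ⟨1, by rw [hl1]; simp⟩ (fun i => ⟨x i, by rw [hl i]; rfl⟩)
  choose! n hn using hint
  have hn0 : ∀ y ∈ s, 0 ≤ n y := by
    intro y hy
    have := hl0 y hy
    rw [hn y hy] at this
    exact_mod_cast this
  have hn1 : ∑ y ∈ s, n y = 1 := by
    have : ((∑ y ∈ s, n y : ℤ) : ℝ) = ((1 : ℤ) : ℝ) := by
      push_cast
      rw [← hl1]
      exact Finset.sum_congr rfl fun y hy => (hn y hy).symm
    exact_mod_cast this
  obtain ⟨y, hy, hyn⟩ : ∃ y ∈ s, n y ≠ 0 := by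
    by_contra hcon
    push Not at hcon
    rw [Finset.sum_eq_zero hcon] at hn1
    exact absurd hn1 (by norm_num)
  have hy1 : 1 ≤ n y := by
    have := hn0 y hy
    omega
  have hrest : ∑ z ∈ s.erase y, n z = 1 - n y := by
    rw [← hn1, ← Finset.add_sum_erase s n hy]; ring
  have hrest0 : 0 ≤ ∑ z ∈ s.erase y, n z :=
    Finset.sum_nonneg fun z hz => hn0 z (Finset.mem_of_mem_erase hz)
  have hy2 : n y = 1 := by omega
  have hz0 : ∀ z ∈ s.erase y, n z = 0 := by
    have : ∑ z ∈ s.erase y, n z = 0 := by rw [hrest, hy2]; ring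
    exact (Finset.sum_eq_zero_iff_of_nonneg fun z hz => hn0 z (Finset.mem_of_mem_erase hz)).1 this
  have : x = y := by
    funext i
    have h1 := hl i
    rw [← Finset.add_sum_erase s _ hy, Finset.sum_eq_zero] at h1
    · rw [hn y hy, hy2] at h1
      simp only [emb, Int.cast_one, one_mul, add_zero] at h1
      exact_mod_cast h1.symm
    · intro z hz
      rw [hn z (Finset.mem_of_mem_erase hz), hz0 z hz]
      simp
  rw [this]; exact hy

end Pool.Agent.SPB
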